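import Mathlib

set_option autoImplicit false

namespace Pool.Agent.Lib.MP_a73848

/-- Admissible lifted coefficients on a group `𝕋`. -/
structure Adm {E 𝕋 : Type*} [NormedAddCommGroup E] [InnerProductSpace ℝ E]
    [NormedAddCommGroup 𝕋] (K lam L gam : ℝ) (A : 𝕋 → E →L[ℝ] E) : Prop where
  bound : ∀ θ, ‖A θ‖ ≤ K
  ell : ∀ θ ξ, lam * ‖ξ‖ ^ 2 ≤ inner ℝ (A θ ξ) ξ
  hol : ∀ θ θ', ‖A θ - A θ'‖ ≤ L * ‖θ - θ'‖ ^ gam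

end Pool.Agent.Lib.MP_a73848
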