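import Mathlib

/-!
# MP_a73848_an: basic definitions (whole-space set-up)

`E` is a finite dimensional real inner product space.
-/

set_option autoImplicit false

open MeasureTheory Metric Filter Topology Set
open scoped ContDiff ENNReal NNReal

namespace Pool.Agent.Lib.MP_a73848

variable {E : Type*} [NormedAddCommGroup E] [InnerProductSpace ℝ E] [FiniteDimensional ℝ E]
  [MeasurableSpace E] [BorelSpace E]

/-- The gradient of a function. -/
noncomputable def gr (φ : E → ℝ) (x : E) : E :=
  (InnerProductSpace.toDual ℝ E).symm (fderiv ℝ φ x)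

/-- Smooth compactly supported functions on `E`. -/
structure Test (φ : E → ℝ) : Prop where
  smooth : ContDiff ℝ ∞ φ
  compact : HasCompactSupport φ

/-- `g` lies in the `L²`-closure of the gradients of test functions. -/
structure InV (g : E → E) : Prop where
  memLp : MemLp g 2 volume
  approx : ∀ ε : ℝ≥0∞, 0 < ε → ∃ φ, Test φ ∧ eLpNorm (g - gr φ) 2 volume ≤ ε

/-- `div (a g) = div f` on the whole space, `g` a gradient field. -/
structure Sol (a : E → E →L[ℝ] E) (f g : E → E) : Prop where
  memLp : MemLp f 2 volume
  inV : InV g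
  eq : ∀ φ, Test φ → ∫ x, inner ℝ (a x (g x) - f x) (gr φ x) = 0

/-- `div (a g) = 0` in `B`, `g` a gradient field. -/
structure LocSol (a : E → E →L[ℝ] E) (B : Set E) (g : E → E) : Prop where
  inV : InV g
  eq : ∀ φ, Test φ → tsupport φ ⊆ B → ∫ x, inner ℝ (a x (g x)) (gr φ x) = 0

end Pool.Agent.Lib.MP_a73848
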