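import Mathlib

/-!
# Definitions for MP_a73848_an

`Rd d` is the Euclidean space `ℝ^d` and `B_r = ball 0 r`.
-/

set_option autoImplicit false

open MeasureTheory Metric
open scoped ContDiff

namespace Pool.Agent.Lib.MP_a73848

/-- The Euclidean space `ℝ^d`. -/
abbrev Rd (d : ℕ) : Type := EuclideanSpace ℝ (Fin d)

/-- The matrix valued function `A(x, y_1, …, y_n)` satisfies the standing assumptions with
constants `Λ`, `γ`, `L`: ellipticity, `1`-periodicity in each `y_k`, and Hölder regularity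
(the Hölder bound is only required entry by entry; this follows from the bound for the operator
norm or the Frobenius norm of matrices). `A` is not assumed symmetric. -/
structure Admissible {d n : ℕ} (Λ γ L : ℝ)
    (A : Rd d → (Fin n → Rd d) → Matrix (Fin d) (Fin d) ℝ) : Prop where
  elliptic_lower : ∀ x y (ξ : Rd d), Λ * ‖ξ‖ ^ 2 ≤ ∑ i, ∑ j, A x y i j * ξ j * ξ i
  elliptic_upper : ∀ x y (ξ : Rd d), ∑ i, ∑ j, A x y i j * ξ j * ξ i ≤ Λ⁻¹ * ‖ξ‖ ^ 2
  periodic : ∀ x y (z : Fin n → Rd d), (∀ k i, ∃ m : ℤ, z k i = m) → A x (y + z) = A x y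
  holder : ∀ x x' y y' i j,
    |A x y i j - A x' y' i j| ≤ L * (‖x - x'‖ + ∑ k, ‖y k - y' k‖) ^ γ

/-- The oscillating coefficient `A_ε(x) = A(x, x/ε_1, …, x/ε_n)`. -/
noncomputable def osc {d n : ℕ} (A : Rd d → (Fin n → Rd d) → Matrix (Fin d) (Fin d) ℝ)
    (ε : Fin n → ℝ) (x : Rd d) : Matrix (Fin d) (Fin d) ℝ :=
  A x fun k => (ε k)⁻¹ • x

/-- Test functions in the unit ball: smooth functions with compact support contained in
`B_1`. -/
structure TestIn {d : ℕ} (φ : Rd d → ℝ) : Prop where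
  smooth : ContDiff ℝ ∞ φ
  compact : HasCompactSupport φ
  supp : tsupport φ ⊆ ball 0 1

/-- The partial derivative `∂_i φ`. -/
noncomputable def pd {d : ℕ} (i : Fin d) (φ : Rd d → ℝ) (x : Rd d) : ℝ :=
  fderiv ℝ φ x (EuclideanSpace.single i 1)

/-- `u ∈ H¹(B_1)` with weak gradient `g`. -/
structure IsH1 {d : ℕ} (u : Rd d → ℝ) (g : Rd d → Rd d) : Prop where
  memLp : MemLp u 2 (volume.restrict (ball 0 1))
  memLp_grad : MemLp g 2 (volume.restrict (ball 0 1))
  weak : ∀ φ, TestIn φ → ∀ i,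
    ∫ x in ball (0 : Rd d) 1, u x * pd i φ x = -∫ x in ball (0 : Rd d) 1, g x i * φ x

/-- `u ∈ H¹(B_1)` is a weak solution of `-div (a ∇u) = 0` in `B_1`. -/
def IsWeakSolution {d : ℕ} (a : Rd d → Matrix (Fin d) (Fin d) ℝ) (u : Rd d → ℝ) : Prop :=
  ∃ g : Rd d → Rd d, IsH1 u g ∧
    ∀ φ, TestIn φ → ∫ x in ball (0 : Rd d) 1, ∑ i, ∑ j, a x i j * g x j * pd i φ x = 0

end Pool.Agent.Lib.MP_a73848
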