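import Mathlib
import Pool.Agent.Lib.MP_a73848.Base
import Pool.Agent.Lib.MP_a73848.Defs

set_option autoImplicit false

open MeasureTheory Metric Filter Topology Set
open scoped ContDiff ENNReal NNReal

namespace Pool.Agent.Lib.MP_a73848.TorT

lemma inner_gr {d : ℕ} (φ : Rd d → ℝ) (x v : Rd d) : inner ℝ v (gr φ x) = fderiv ℝ φ x v := by
  unfold gr
  rw [real_inner_comm]
  exact InnerProductSpace.toDual_symm_apply

lemma testIn_pd {d : ℕ} {φ : Rd d → ℝ} (hφ : TestIn φ) (i : Fin d) : TestIn (pd i φ) := by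
  have hsub : Function.support (pd i φ) ⊆ Function.support (fderiv ℝ φ) := by
    intro x hx h0
    apply hx
    simp only [pd]
    rw [h0]; rfl
  have hts : tsupport (pd i φ) ⊆ tsupport φ :=
    (closure_mono hsub).trans (tsupport_fderiv_subset ℝ)
  refine ⟨?_, ?_, hts.trans hφ.supp⟩
  · have h1 : ContDiff ℝ ∞ (fderiv ℝ φ) := hφ.smooth.fderiv_right (by exact le_rfl)
    exact h1.clm_apply contDiff_const
  · exact hφ.compact.of_isClosed_subset (isClosed_tsupport _) hts

lemma pd_comm {d : ℕ} {φ : Rd d → ℝ} (hφ : TestIn φ) (i j : Fin d) (x : Rd d) :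
    pd j (pd i φ) x = pd i (pd j φ) x := by
  have h1 : ContDiff ℝ ∞ (fderiv ℝ φ) := hφ.smooth.fderiv_right (by exact le_rfl)
  have h2 : DifferentiableAt ℝ (fderiv ℝ φ) x := (h1.differentiable (by simp)) x
  have key : ∀ k l : Fin d, pd k (pd l φ) x
      = (fderiv ℝ (fderiv ℝ φ) x (EuclideanSpace.single k 1)) (EuclideanSpace.single l 1) := by
    intro k l
    have h5 : pd l φ = fun y => fderiv ℝ φ y (EuclideanSpace.single l 1) := rfl
    rw [h5]
    simp only [pd]
    rw [fderiv_clm_apply h2 (differentiableAt_const _)]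
    simp
  rw [key, key]
  have h3 : IsSymmSndFDerivAt ℝ φ x :=
    (hφ.smooth.contDiffAt (x := x)).isSymmSndFDerivAt
      (by simp only [minSmoothness_of_isRCLikeNormedField]; exact WithTop.coe_le_coe.2 le_top)
  exact h3 _ _

lemma integrable_mul_test {d : ℕ} {f φ : Rd d → ℝ}
    (hf : MemLp f 2 (volume.restrict (ball (0 : Rd d) 1))) (hφ : TestIn φ) :
    Integrable (fun x => f x * φ x) (volume.restrict (ball (0 : Rd d) 1)) := by
  have : IsFiniteMeasure (volume.restrict (ball (0 : Rd d) 1)) :=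
    ⟨by rw [Measure.restrict_apply_univ]; exact measure_ball_lt_top⟩
  have h1 : MemLp φ 2 (volume.restrict (ball (0 : Rd d) 1)) :=
    (hφ.smooth.continuous.memLp_of_hasCompactSupport hφ.compact).restrict _
  exact hf.integrable_mul h1

lemma memLp_coord {d : ℕ} {g : Rd d → Rd d} {μ : Measure (Rd d)} (hg : MemLp g 2 μ) (j : Fin d) :
    MemLp (fun x => g x j) 2 μ := by
  have := (EuclideanSpace.proj (𝕜 := ℝ) j : Rd d →L[ℝ] ℝ).comp_memLp' hg
  exact this

end Pool.Agent.Lib.MP_a73848.TorT

namespace Pool.Agent.Lib.MP_a73848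

/-- TASK T3. -/
theorem antisym_null {d : ℕ} {u : Rd d → ℝ} {g : Rd d → Rd d} (h : IsH1 u g)
    (S : Rd d →L[ℝ] Rd d) (hS : ∀ ξ η, inner ℝ (S ξ) η = -inner ℝ ξ (S η)) (φ : Rd d → ℝ)
    (hφ : TestIn φ) : ∫ x in ball (0 : Rd d) 1, inner ℝ (S (g x)) (gr φ x) = 0 := by
  classical
  set s : Fin d → Fin d → ℝ := fun i j => S (EuclideanSpace.single j 1) i with hs
  have hanti : ∀ i j, s i j = -s j i := by
    intro i j
    have h1 := hS (EuclideanSpace.single j 1) (EuclideanSpace.single i 1)
    rw [EuclideanSpace.inner_single_right, EuclideanSpace.inner_single_left] at h1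
    simpa [hs] using h1
  have hexp : ∀ x, inner ℝ (S (g x)) (gr φ x) = ∑ i, ∑ j, s i j * (g x j * pd i φ x) := by
    intro x
    rw [TorT.inner_gr]
    have e1 : g x = ∑ j, g x j • (EuclideanSpace.single j 1 : Rd d) := by
      ext k
      simp [Finset.sum_apply, Pi.single_apply]
    have e2 : ∀ v : Rd d, v = ∑ i, v i • (EuclideanSpace.single i 1 : Rd d) := by
      intro v
      ext k
      simp [Finset.sum_apply, Pi.single_apply]
    have e3 : S (g x) = ∑ i, (∑ j, s i j * g x j) • (EuclideanSpace.single i 1 : Rd d) := by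
      rw [e2 (S (g x))]
      refine Finset.sum_congr rfl fun i _ => ?_
      congr 1
      conv_lhs => rw [e1]
      rw [map_sum]
      simp [hs, mul_comm]
    rw [e3, map_sum]
    refine Finset.sum_congr rfl fun i _ => ?_
    rw [map_smul, smul_eq_mul, Finset.sum_mul]
    refine Finset.sum_congr rfl fun j _ => ?_
    simp only [pd]
    ring
  have hint : ∀ i j, Integrable (fun x => s i j * (g x j * pd i φ x))
      (volume.restrict (ball (0 : Rd d) 1)) := fun i j =>
    (TorT.integrable_mul_test (TorT.memLp_coord h.memLp_grad j)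
      (TorT.testIn_pd hφ i)).const_mul _
  simp_rw [hexp]
  rw [integral_finsetSum _ fun i _ => integrable_finsetSum _ fun j _ => hint i j]
  have h2 : ∀ i, ∫ x in ball (0 : Rd d) 1, ∑ j, s i j * (g x j * pd i φ x)
      = ∑ j, s i j * -∫ x in ball (0 : Rd d) 1, u x * pd j (pd i φ) x := by
    intro i
    rw [integral_finsetSum _ fun j _ => hint i j]
    refine Finset.sum_congr rfl fun j _ => ?_
    rw [integral_const_mul, h.weak _ (TorT.testIn_pd hφ i) j, neg_neg]
  simp_rw [h2]
  set c : Fin d → Fin d → ℝ := fun i j => -∫ x in ball (0 : Rd d) 1, u x * pd j (pd i φ) x with hc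
  have hcs : ∀ i j, c i j = c j i := by
    intro i j
    simp only [hc]
    congr 1
    refine integral_congr_ae (Eventually.of_forall fun x => ?_)
    simp only
    rw [TorT.pd_comm hφ]
  have h3 : ∑ i, ∑ j, s i j * c i j = -∑ i, ∑ j, s i j * c i j := by
    conv_lhs => rw [Finset.sum_comm]
    rw [← Finset.sum_neg_distrib]
    refine Finset.sum_congr rfl fun i _ => ?_
    rw [← Finset.sum_neg_distrib]
    refine Finset.sum_congr rfl fun j _ => ?_
    rw [hanti j i, hcs j i]
    ring
  change ∑ i, ∑ j, s i j * c i j = 0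
  linarith

end Pool.Agent.Lib.MP_a73848
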