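import Mathlib
import Pool.Agent.Lib.MP_a73848.Base

/-!
# MP_a73848_an: gradients and closures of gradients
-/

set_option autoImplicit false
set_option linter.unusedSectionVars false

open MeasureTheory Metric Filter Topology Set
open scoped ContDiff ENNReal NNReal

namespace Pool.Agent.Lib.MP_a73848

variable {E : Type*} [NormedAddCommGroup E] [InnerProductSpace ℝ E] [FiniteDimensional ℝ E]
  [MeasurableSpace E] [BorelSpace E]

section grad

omit [MeasurableSpace E] [BorelSpace E]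

theorem inner_gr (φ : E → ℝ) (x v : E) : inner ℝ (gr φ x) v = fderiv ℝ φ x v := by
  simp [gr]

theorem inner_gr' (φ : E → ℝ) (x v : E) : inner ℝ v (gr φ x) = fderiv ℝ φ x v := by
  rw [real_inner_comm]; exact inner_gr φ x v

theorem norm_gr (φ : E → ℝ) (x : E) : ‖gr φ x‖ = ‖fderiv ℝ φ x‖ := by
  simp [gr]

theorem gr_add {φ ψ : E → ℝ} {x : E} (h1 : DifferentiableAt ℝ φ x) (h2 : DifferentiableAt ℝ ψ x) :
    gr (fun y => φ y + ψ y) x = gr φ x + gr ψ x := by
  simp only [gr]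
  rw [fderiv_fun_add h1 h2, map_add]

theorem gr_sub {φ ψ : E → ℝ} {x : E} (h1 : DifferentiableAt ℝ φ x) (h2 : DifferentiableAt ℝ ψ x) :
    gr (fun y => φ y - ψ y) x = gr φ x - gr ψ x := by
  simp only [gr]
  rw [fderiv_fun_sub h1 h2, map_sub]

theorem gr_const_mul {φ : E → ℝ} {x : E} (h1 : DifferentiableAt ℝ φ x) (c : ℝ) :
    gr (fun y => c * φ y) x = c • gr φ x := by
  simp only [gr]
  rw [fderiv_const_mul h1, map_smul]

theorem gr_mul {φ ψ : E → ℝ} {x : E} (h1 : DifferentiableAt ℝ φ x) (h2 : DifferentiableAt ℝ ψ x) :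
    gr (fun y => φ y * ψ y) x = φ x • gr ψ x + ψ x • gr φ x := by
  simp only [gr]
  rw [fderiv_fun_mul h1 h2, map_add, map_smul, map_smul]

theorem gr_sub_const {φ : E → ℝ} {x : E} (c : ℝ) :
    gr (fun y => φ y - c) x = gr φ x := by
  simp only [gr]
  rw [fderiv_sub_const]

theorem gr_comp_add (φ : E → ℝ) (h x : E) :
    gr (fun y => φ (y + h)) x = gr φ (x + h) := by
  simp only [gr]
  rw [fderiv_comp_add_right]

theorem gr_comp_affine {φ : E → ℝ} (hφ : Differentiable ℝ φ) (x₀ : E) (r : ℝ) (x : E) :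
    gr (fun y => φ (x₀ + r • y)) x = r • gr φ (x₀ + r • x) := by
  have h1 : HasFDerivAt (fun y : E => x₀ + r • y) (r • ContinuousLinearMap.id ℝ E) x := by
    have := ((hasFDerivAt_id (𝕜 := ℝ) x).const_smul r).const_add x₀
    simpa using this
  have h2 := (hφ (x₀ + r • x)).hasFDerivAt.comp x h1
  simp only [gr]
  have h3 : fderiv ℝ (fun y => φ (x₀ + r • y)) x = r • fderiv ℝ φ (x₀ + r • x) := by
    rw [show (fun y => φ (x₀ + r • y)) = φ ∘ (fun y : E => x₀ + r • y) from rfl, h2.fderiv]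
    ext v
    simp
  rw [h3, map_smul]

theorem Test.differentiable {φ : E → ℝ} (h : Test φ) : Differentiable ℝ φ :=
  h.smooth.differentiable (by simp)

theorem Test.differentiableAt {φ : E → ℝ} (h : Test φ) {x : E} : DifferentiableAt ℝ φ x :=
  h.differentiable x

theorem Test.add {φ ψ : E → ℝ} (h1 : Test φ) (h2 : Test ψ) : Test (fun x => φ x + ψ x) :=
  ⟨h1.smooth.add h2.smooth, h1.compact.add h2.compact⟩

theorem Test.const_mul {φ : E → ℝ} (h1 : Test φ) (c : ℝ) : Test (fun x => c * φ x) :=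
  ⟨contDiff_const.mul h1.smooth, h1.compact.mul_left⟩

theorem Test.sub {φ ψ : E → ℝ} (h1 : Test φ) (h2 : Test ψ) : Test (fun x => φ x - ψ x) := by
  have := h1.add (h2.const_mul (-1))
  simpa [sub_eq_add_neg] using this

theorem Test.mul_left {φ ψ : E → ℝ} (h1 : Test φ) (h2 : ContDiff ℝ ∞ ψ) :
    Test (fun x => φ x * ψ x) :=
  ⟨h1.smooth.mul h2, h1.compact.mul_right⟩

theorem Test.zero : Test (fun _ : E => (0 : ℝ)) :=
  ⟨contDiff_const, HasCompactSupport.zero⟩

theorem Test.comp_add {φ : E → ℝ} (h1 : Test φ) (h : E) : Test (fun x => φ (x + h)) :=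
  ⟨h1.smooth.comp (contDiff_id.add contDiff_const),
    h1.compact.comp_homeomorph (Homeomorph.addRight h)⟩

theorem Test.comp_affine {φ : E → ℝ} (h1 : Test φ) (x₀ : E) {r : ℝ} (hr : r ≠ 0) :
    Test (fun x => φ (x₀ + r • x)) := by
  refine ⟨h1.smooth.comp (contDiff_const.add (contDiff_const.smul contDiff_id)), ?_⟩
  exact h1.compact.comp_homeomorph
    ((Homeomorph.smulOfNeZero r hr).trans (Homeomorph.addLeft x₀))

theorem gr_continuous {φ : E → ℝ} (h : ContDiff ℝ ∞ φ) : Continuous (gr φ) := by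
  have := h.continuous_fderiv (by simp)
  exact (InnerProductSpace.toDual ℝ E).symm.continuous.comp this

theorem gr_contDiff {φ : E → ℝ} (h : ContDiff ℝ ∞ φ) : ContDiff ℝ ∞ (gr φ) := by
  have h1 : ContDiff ℝ ∞ (fderiv ℝ φ) := h.fderiv_right (by simp)
  exact ((InnerProductSpace.toDual ℝ E).symm.toContinuousLinearEquiv :
    (StrongDual ℝ E) ≃L[ℝ] E).contDiff.comp h1

theorem support_gr_subset (φ : E → ℝ) : tsupport (gr φ) ⊆ tsupport φ := by
  refine closure_minimal ?_ (isClosed_tsupport φ)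
  intro x hx
  by_contra hc
  apply hx
  have h1 : φ =ᶠ[𝓝 x] fun _ => (0 : ℝ) := notMem_tsupport_iff_eventuallyEq.mp hc
  simp only [gr]
  rw [h1.fderiv_eq]
  simp

theorem gr_eq_zero {φ : E → ℝ} {x : E} (hx : x ∉ tsupport φ) : gr φ x = 0 := by
  by_contra h
  exact hx (support_gr_subset φ (subset_tsupport _ h))

theorem Test.gr_compact {φ : E → ℝ} (h : Test φ) : HasCompactSupport (gr φ) :=
  h.compact.of_isClosed_subset (isClosed_tsupport _) (support_gr_subset φ)

theorem Test.gr_continuous {φ : E → ℝ} (h : Test φ) : Continuous (gr φ) :=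
  Pool.Agent.Lib.MP_a73848.gr_continuous h.smooth

end grad

theorem Test.gr_memLp {φ : E → ℝ} (h : Test φ) (p : ℝ≥0∞) : MemLp (gr φ) p volume :=
  h.gr_continuous.memLp_of_hasCompactSupport h.gr_compact

theorem Test.memLp {φ : E → ℝ} (h : Test φ) (p : ℝ≥0∞) : MemLp φ p volume :=
  h.smooth.continuous.memLp_of_hasCompactSupport h.compact

theorem Test.inV {φ : E → ℝ} (h : Test φ) : InV (gr φ) := by
  refine ⟨h.gr_memLp 2, fun ε hε => ⟨φ, h, ?_⟩⟩
  simp

theorem InV.congr {g g' : E → E} (h : InV g) (hg : g =ᵐ[volume] g') : InV g' := by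
  refine ⟨h.memLp.ae_eq hg, fun ε hε => ?_⟩
  obtain ⟨φ, h1, h2⟩ := h.approx ε hε
  refine ⟨φ, h1, ?_⟩
  rwa [eLpNorm_congr_ae (g := g - gr φ)]
  filter_upwards [hg] with x hx
  simp [hx]

theorem InV.add {g g' : E → E} (h : InV g) (h' : InV g') : InV (g + g') := by
  refine ⟨h.memLp.add h'.memLp, fun ε hε => ?_⟩
  obtain ⟨φ, h1, h2⟩ := h.approx (ε / 2) (ENNReal.half_pos hε.ne')
  obtain ⟨ψ, h3, h4⟩ := h'.approx (ε / 2) (ENNReal.half_pos hε.ne')
  refine ⟨fun x => φ x + ψ x, h1.add h3, ?_⟩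
  have e : g + g' - gr (fun x => φ x + ψ x) = (g - gr φ) + (g' - gr ψ) := by
    ext1 x
    simp only [Pi.sub_apply, Pi.add_apply, gr_add h1.differentiableAt h3.differentiableAt]
    abel
  rw [e]
  calc _ ≤ _ := eLpNorm_add_le (h.memLp.sub (h1.gr_memLp 2)).aestronglyMeasurable
        (h'.memLp.sub (h3.gr_memLp 2)).aestronglyMeasurable (by norm_num)
    _ ≤ ε / 2 + ε / 2 := add_le_add h2 h4
    _ = ε := ENNReal.add_halves ε

theorem InV.const_smul {g : E → E} (h : InV g) (c : ℝ) : InV (c • g) := by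
  refine ⟨h.memLp.const_smul c, fun ε hε => ?_⟩
  rcases eq_or_ne c 0 with rfl | hc
  · refine ⟨fun _ => 0, Test.zero, ?_⟩
    have : (0 : ℝ) • g - gr (fun _ : E => (0 : ℝ)) = 0 := by
      ext1 x
      simp [gr]
    rw [this]
    simp
  have hc' : ‖c‖ₑ ≠ 0 := by simpa using hc
  obtain ⟨φ, h1, h2⟩ := h.approx (ε / ‖c‖ₑ) (ENNReal.div_pos hε.ne' (by simp))
  refine ⟨fun x => c * φ x, h1.const_mul c, ?_⟩
  have e : c • g - gr (fun x => c * φ x) = c • (g - gr φ) := by
    ext1 x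
    simp only [Pi.sub_apply, Pi.smul_apply, gr_const_mul h1.differentiableAt]
    rw [smul_sub]
  rw [e, eLpNorm_const_smul]
  calc _ ≤ ‖c‖ₑ * (ε / ‖c‖ₑ) := by gcongr
    _ = ε := ENNReal.mul_div_cancel hc' (by simp)

theorem InV.sub {g g' : E → E} (h : InV g) (h' : InV g') : InV (g - g') := by
  have := h.add (h'.const_smul (-1))
  simpa [sub_eq_add_neg] using this

/-- Limits. -/
theorem InV.of_approx {g : E → E} (h : MemLp g 2 volume)
    (h' : ∀ ε : ℝ≥0∞, 0 < ε → ∃ g', InV g' ∧ eLpNorm (g - g') 2 volume ≤ ε) : InV g := by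
  refine ⟨h, fun ε hε => ?_⟩
  obtain ⟨g', h1, h2⟩ := h' (ε / 2) (ENNReal.half_pos hε.ne')
  obtain ⟨ψ, h3, h4⟩ := h1.approx (ε / 2) (ENNReal.half_pos hε.ne')
  refine ⟨ψ, h3, ?_⟩
  have e : g - gr ψ = (g - g') + (g' - gr ψ) := by simp
  rw [e]
  calc _ ≤ _ := eLpNorm_add_le (h.sub h1.memLp).aestronglyMeasurable
        (h1.memLp.sub (h3.gr_memLp 2)).aestronglyMeasurable (by norm_num)
    _ ≤ ε / 2 + ε / 2 := add_le_add h2 h4
    _ = ε := ENNReal.add_halves ε

theorem InV.exists_seq {g : E → E} (h : InV g) {ε : ℕ → ℝ≥0∞} (hε : ∀ n, 0 < ε n) :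
    ∃ φ : ℕ → E → ℝ, (∀ n, Test (φ n)) ∧ ∀ n, eLpNorm (g - gr (φ n)) 2 volume ≤ ε n := by
  choose φ h1 h2 using fun n => h.approx (ε n) (hε n)
  exact ⟨φ, h1, h2⟩

theorem eLpNorm_comp_add {F : Type*} [NormedAddCommGroup F] (g : E → F) (h : E) (hg : AEStronglyMeasurable g volume) (p : ℝ≥0∞) :
    eLpNorm (fun x => g (x + h)) p volume = eLpNorm g p volume :=
  eLpNorm_comp_measurePreserving (f := fun x : E => x + h) hg
    (measurePreserving_add_right volume h)

theorem memLp_comp_add {F : Type*} [NormedAddCommGroup F] {g : E → F} {p : ℝ≥0∞} (hg : MemLp g p volume) (h : E) :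
    MemLp (fun x => g (x + h)) p volume :=
  hg.comp_measurePreserving (measurePreserving_add_right volume h)

theorem InV.comp_add {g : E → E} (hg : InV g) (h : E) : InV (fun x => g (x + h)) := by
  refine ⟨memLp_comp_add hg.memLp h, fun ε hε => ?_⟩
  obtain ⟨φ, h1, h2⟩ := hg.approx ε hε
  refine ⟨fun x => φ (x + h), h1.comp_add h, ?_⟩
  have e : (fun x => g (x + h)) - gr (fun x => φ (x + h)) = fun x => (g - gr φ) (x + h) := by
    ext1 x
    simp [gr_comp_add]
  rw [e, eLpNorm_comp_add _ _ (hg.memLp.sub (h1.gr_memLp 2)).aestronglyMeasurable]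
  exact h2

end Pool.Agent.Lib.MP_a73848
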