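import Mathlib
import Pool.Agent.Lib.MP_a73848.Grad

/-!
# MP_a73848_an: energy estimate and existence (Lax-Milgram)
-/

set_option autoImplicit false
set_option linter.unusedSectionVars false

open MeasureTheory Metric Filter Topology Set
open scoped ContDiff ENNReal NNReal

namespace Pool.Agent.Lib.MP_a73848

variable {E : Type*} [NormedAddCommGroup E] [InnerProductSpace ℝ E] [FiniteDimensional ℝ E]
  [MeasurableSpace E] [BorelSpace E]

/-- measurable, bounded, elliptic coefficient fields -/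
structure Coef (K lam : ℝ) (a : E → E →L[ℝ] E) : Prop where
  meas : StronglyMeasurable a
  bound : ∀ x, ‖a x‖ ≤ K
  ell : ∀ x ξ, lam * ‖ξ‖ ^ 2 ≤ inner ℝ (a x ξ) ξ

theorem integrable_inner' {f g : E → E} (hf : MemLp f 2 volume) (hg : MemLp g 2 volume) :
    Integrable (fun x => (inner ℝ (f x) (g x) : ℝ)) volume := by
  have h1 : Integrable (fun x => ‖f x‖ * ‖g x‖) volume := by
    have := MemLp.integrable_mul (p := 2) (q := 2) hf.norm hg.norm
    exact this
  refine h1.mono (hf.1.inner hg.1) (Eventually.of_forall fun x => ?_)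
  rw [Real.norm_eq_abs, Real.norm_eq_abs, abs_of_nonneg (mul_nonneg (norm_nonneg (f x))
    (norm_nonneg (g x)))]
  exact abs_real_inner_le_norm _ _

theorem abs_integral_inner_le {f g : E → E} (hf : MemLp f 2 volume) (hg : MemLp g 2 volume) :
    |∫ x, (inner ℝ (f x) (g x) : ℝ)| ≤
      (eLpNorm f 2 volume).toReal * (eLpNorm g 2 volume).toReal := by
  have h1 : ∫ x, (inner ℝ (f x) (g x) : ℝ) = inner ℝ (hf.toLp f) (hg.toLp g) := by
    rw [L2.inner_def]
    refine integral_congr_ae ?_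
    filter_upwards [hf.coeFn_toLp, hg.coeFn_toLp] with x h1 h2
    rw [h1, h2]
  rw [h1]
  refine (abs_real_inner_le_norm _ _).trans ?_
  rw [Lp.norm_toLp, Lp.norm_toLp]

theorem Coef.memLp {K lam : ℝ} {a : E → E →L[ℝ] E} (ha : Coef K lam a) {g : E → E}
    (hg : MemLp g 2 volume) : MemLp (fun x => a x (g x)) 2 volume := by
  refine MemLp.of_le_mul (g := g) (c := K) hg ?_ (Eventually.of_forall fun x => ?_)
  · exact isBoundedBilinearMap_apply.continuous.comp_aestronglyMeasurable
      (ha.meas.aestronglyMeasurable.prodMk hg.1)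
  · exact ((a x).le_opNorm _).trans (mul_le_mul_of_nonneg_right (ha.bound x) (norm_nonneg _))

theorem inner_zero_of_test {F : E → E} (hF : MemLp F 2 volume)
    (h : ∀ φ, Test φ → ∫ x, (inner ℝ (F x) (gr φ x) : ℝ) = 0) {w : E → E} (hw : InV w) :
    ∫ x, (inner ℝ (F x) (w x) : ℝ) = 0 := by
  by_contra hne
  set c := |∫ x, (inner ℝ (F x) (w x) : ℝ)| with hc
  have hcpos : 0 < c := abs_pos.mpr hne
  set M := (eLpNorm F 2 volume).toReal with hM
  have hM0 : 0 ≤ M := ENNReal.toReal_nonneg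
  obtain ⟨φ, h1, h2⟩ := hw.approx (ENNReal.ofReal (c / (2 * (M + 1))))
    (ENNReal.ofReal_pos.mpr (by positivity))
  have h3 : ∫ x, (inner ℝ (F x) (w x) : ℝ) = ∫ x, (inner ℝ (F x) ((w - gr φ) x) : ℝ) := by
    have e : (fun x => (inner ℝ (F x) ((w - gr φ) x) : ℝ)) =
        fun x => inner ℝ (F x) (w x) - inner ℝ (F x) (gr φ x) := by
      ext x
      simp [inner_sub_right]
    rw [e, integral_sub (integrable_inner' hF hw.memLp) (integrable_inner' hF (h1.gr_memLp 2)),
      h φ h1, sub_zero]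
  have h4 := abs_integral_inner_le hF (hw.memLp.sub (h1.gr_memLp 2))
  rw [← h3, ← hc, ← hM] at h4
  have h5 : (eLpNorm (w - gr φ) 2 volume).toReal ≤ c / (2 * (M + 1)) :=
    ENNReal.toReal_le_of_le_ofReal (by positivity) h2
  have h6 : M * (eLpNorm (w - gr φ) 2 volume).toReal ≤ M * (c / (2 * (M + 1))) := by gcongr
  have h7 : M * (c / (2 * (M + 1))) < c := by
    rw [mul_div_assoc', div_lt_iff₀ (by positivity)]
    nlinarith
  linarith

theorem Sol.inner_zero {K lam : ℝ} {a : E → E →L[ℝ] E} (ha : Coef K lam a) {f g : E → E}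
    (h : Sol a f g) {w : E → E} (hw : InV w) :
    ∫ x, (inner ℝ (a x (g x) - f x) (w x) : ℝ) = 0 :=
  inner_zero_of_test ((ha.memLp h.inV.memLp).sub h.memLp) h.eq hw

theorem eLpNorm_toReal_sq {g : E → E} (hg : MemLp g 2 volume) :
    (eLpNorm g 2 volume).toReal ^ 2 = ∫ x, ‖g x‖ ^ 2 := by
  have h1 : ∫ x, ‖g x‖ ^ 2 = inner ℝ (hg.toLp g) (hg.toLp g) := by
    rw [L2.inner_def]
    refine integral_congr_ae ?_
    filter_upwards [hg.coeFn_toLp] with x h1
    rw [h1, real_inner_self_eq_norm_sq]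
  rw [h1, real_inner_self_eq_norm_sq, Lp.norm_toLp]

theorem Sol.energy {K lam : ℝ} (hlam : 0 < lam) {a : E → E →L[ℝ] E} (ha : Coef K lam a)
    {f g : E → E} (h : Sol a f g) :
    eLpNorm g 2 volume ≤ ENNReal.ofReal (1 / lam) * eLpNorm f 2 volume := by
  have hg := h.inV.memLp
  have hf := h.memLp
  have h1 := h.inner_zero ha h.inV
  have h2 : ∫ x, (inner ℝ (a x (g x)) (g x) : ℝ) = ∫ x, (inner ℝ (f x) (g x) : ℝ) := by
    have e : (fun x => (inner ℝ (a x (g x) - f x) (g x) : ℝ)) =
        fun x => inner ℝ (a x (g x)) (g x) - inner ℝ (f x) (g x) := by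
      ext x
      simp [inner_sub_left]
    rw [e, integral_sub (integrable_inner' (ha.memLp hg) hg) (integrable_inner' hf hg)] at h1
    linarith
  have h3 : lam * ∫ x, ‖g x‖ ^ 2 ≤ ∫ x, (inner ℝ (a x (g x)) (g x) : ℝ) := by
    rw [← integral_const_mul]
    refine integral_mono ?_ (integrable_inner' (ha.memLp hg) hg) (fun x => ha.ell x _)
    have : (fun x => lam * ‖g x‖ ^ 2) = fun x => lam * inner ℝ (g x) (g x) := by
      ext x; rw [real_inner_self_eq_norm_sq]
    rw [this]
    exact (integrable_inner' hg hg).const_mul lam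
  have h4 := (le_abs_self _).trans (abs_integral_inner_le hf hg)
  rw [← eLpNorm_toReal_sq hg, h2] at h3
  set x := (eLpNorm g 2 volume).toReal
  set y := (eLpNorm f 2 volume).toReal
  have hx : 0 ≤ x := ENNReal.toReal_nonneg
  have hy : 0 ≤ y := ENNReal.toReal_nonneg
  have h5 : x ≤ 1 / lam * y := by
    rcases hx.eq_or_lt with h0 | h0
    · rw [← h0]; positivity
    · have : lam * x ≤ y := by
        have : lam * x * x ≤ y * x := by nlinarith
        exact le_of_mul_le_mul_right this h0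
      rw [div_mul_eq_mul_div, one_mul, le_div_iff₀ hlam]
      linarith
  have h6 : eLpNorm g 2 volume = ENNReal.ofReal x := (ENNReal.ofReal_toReal hg.2.ne).symm
  have h7 : eLpNorm f 2 volume = ENNReal.ofReal y := (ENNReal.ofReal_toReal hf.2.ne).symm
  rw [h6, h7, ← ENNReal.ofReal_mul (by positivity)]
  exact ENNReal.ofReal_le_ofReal h5

theorem Sol.sub {K lam : ℝ} {a : E → E →L[ℝ] E} (ha : Coef K lam a) {f f' g g' : E → E}
    (h : Sol a f g) (h' : Sol a f' g') : Sol a (f - f') (g - g') := by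
  refine ⟨h.memLp.sub h'.memLp, h.inV.sub h'.inV, fun φ hφ => ?_⟩
  have e : (fun x => (inner ℝ (a x ((g - g') x) - (f - f') x) (gr φ x) : ℝ)) =
      fun x => inner ℝ (a x (g x) - f x) (gr φ x) - inner ℝ (a x (g' x) - f' x) (gr φ x) := by
    ext x
    simp only [Pi.sub_apply, map_sub, inner_sub_left]
    ring
  rw [e, integral_sub, h.eq φ hφ, h'.eq φ hφ, sub_zero]
  · exact integrable_inner' ((ha.memLp h.inV.memLp).sub h.memLp) (hφ.gr_memLp 2)
  · exact integrable_inner' ((ha.memLp h'.inV.memLp).sub h'.memLp) (hφ.gr_memLp 2)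

theorem InV.zero : InV (0 : E → E) := by
  have := (Test.zero (E := E)).inV
  have e : gr (fun _ : E => (0 : ℝ)) = 0 := by
    ext1 x; simp [gr]
  rwa [e] at this

/-- uniqueness in the form: two solutions for a.e. equal data are a.e. equal -/
theorem Sol.ae_unique {K lam : ℝ} (hlam : 0 < lam) {a : E → E →L[ℝ] E} (ha : Coef K lam a)
    {f f' g g' : E → E} (h : Sol a f g) (h' : Sol a f' g') (hf : f =ᵐ[volume] f') :
    g =ᵐ[volume] g' := by
  have h1 := (h.sub ha h').energy hlam ha
  have h2 : eLpNorm (f - f') 2 volume = 0 := by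
    rw [eLpNorm_congr_ae (g := (0 : E → E))]
    · simp
    · filter_upwards [hf] with x hx
      simp [hx]
  rw [h2, mul_zero, nonpos_iff_eq_zero, eLpNorm_eq_zero_iff
    (h.inV.memLp.sub h'.inV.memLp).1 (by norm_num)] at h1
  filter_upwards [h1] with x hx
  simpa [sub_eq_zero] using hx

/-! ### Lax-Milgram -/

theorem inV_zero_of_ae {w : E → E} (hw : w =ᵐ[volume] 0) : InV w := InV.zero.congr hw.symm

/-- The closed subspace of gradient fields. -/
noncomputable def W (E : Type*) [NormedAddCommGroup E] [InnerProductSpace ℝ E]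
    [FiniteDimensional ℝ E] [MeasurableSpace E] [BorelSpace E] :
    Submodule ℝ (Lp E 2 (volume : Measure E)) where
  carrier := {w | InV (w : E → E)}
  zero_mem' := inV_zero_of_ae (Lp.coeFn_zero E 2 volume)
  add_mem' := by
    intro u v hu hv
    exact (InV.add hu hv).congr (Lp.coeFn_add u v).symm
  smul_mem' := by
    intro c u hu
    exact (InV.const_smul hu c).congr (Lp.coeFn_smul c u).symm

theorem W_closed : IsClosed ((W E : Submodule ℝ (Lp E 2 (volume : Measure E))) :
    Set (Lp E 2 (volume : Measure E))) := by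
  refine isClosed_of_closure_subset fun w hw => ?_
  refine InV.of_approx (Lp.memLp w) fun ε hε => ?_
  rcases eq_or_ne ε ⊤ with rfl | hε'
  · exact ⟨0, InV.zero, le_top⟩
  obtain ⟨w', h1, h2⟩ := Metric.mem_closure_iff.mp hw ε.toReal (ENNReal.toReal_pos hε.ne' hε')
  refine ⟨w', h1, ?_⟩
  rw [dist_eq_norm, Lp.norm_def] at h2
  have h3 : eLpNorm (⇑w - ⇑w') 2 volume = eLpNorm (⇑(w - w')) 2 volume :=
    eLpNorm_congr_ae (Lp.coeFn_sub w w').symm
  rw [h3]
  exact ((ENNReal.toReal_lt_toReal (Lp.eLpNorm_ne_top _) hε').mp h2).le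

/-- multiplication by the coefficients, as an operator on `L²` -/
noncomputable def mulOp {K lam : ℝ} {a : E → E →L[ℝ] E} (ha : Coef K lam a) :
    Lp E 2 (volume : Measure E) →ₗ[ℝ] Lp E 2 (volume : Measure E) where
  toFun u := (ha.memLp (Lp.memLp u)).toLp (fun x => a x (u x))
  map_add' u v := by
    apply Lp.ext
    refine (MemLp.coeFn_toLp _).trans ?_
    refine EventuallyEq.trans ?_ (Lp.coeFn_add _ _).symm
    filter_upwards [Lp.coeFn_add u v, MemLp.coeFn_toLp (ha.memLp (Lp.memLp u)),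
      MemLp.coeFn_toLp (ha.memLp (Lp.memLp v))] with x h1 h2 h3
    simp only [Pi.add_apply]
    rw [h1, h2, h3]
    simp
  map_smul' c u := by
    apply Lp.ext
    refine (MemLp.coeFn_toLp _).trans ?_
    refine EventuallyEq.trans ?_ (Lp.coeFn_smul _ _).symm
    filter_upwards [Lp.coeFn_smul c u, MemLp.coeFn_toLp (ha.memLp (Lp.memLp u))] with x h1 h2
    simp only [Pi.smul_apply, RingHom.id_apply]
    rw [h1, h2]
    simp

theorem mulOp_ae {K lam : ℝ} {a : E → E →L[ℝ] E} (ha : Coef K lam a)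
    (u : Lp E 2 (volume : Measure E)) : mulOp ha u =ᵐ[volume] fun x => a x (u x) :=
  MemLp.coeFn_toLp (ha.memLp (Lp.memLp u))

theorem mulOp_norm {K lam : ℝ} {a : E → E →L[ℝ] E} (ha : Coef K lam a) 
    (u : Lp E 2 (volume : Measure E)) : ‖mulOp ha u‖ ≤ K * ‖u‖ := by
  refine Lp.norm_le_mul_norm_of_ae_le_mul ?_
  filter_upwards [mulOp_ae ha u] with x hx
  rw [hx]
  exact ((a x).le_opNorm _).trans (mul_le_mul_of_nonneg_right (ha.bound x) (norm_nonneg _))

/-- the bilinear form -/
noncomputable def bil {K lam : ℝ} {a : E → E →L[ℝ] E} (ha : Coef K lam a) (hK : 0 ≤ K) :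
    (W E) →L[ℝ] (W E) →L[ℝ] ℝ :=
  LinearMap.mkContinuous₂ (LinearMap.mk₂ ℝ
    (fun u v : W E => (inner ℝ (mulOp ha (u : Lp E 2 (volume : Measure E)))
      (v : Lp E 2 (volume : Measure E)) : ℝ))
    (fun u u' v => by simp [inner_add_left])
    (fun c u v => by simp [inner_smul_left])
    (fun u v v' => by simp [inner_add_right])
    (fun c u v => by simp [inner_smul_right])) K (by
      intro u v
      simp only [LinearMap.mk₂_apply, Real.norm_eq_abs]
      refine (abs_real_inner_le_norm _ _).trans ?_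
      refine mul_le_mul_of_nonneg_right ?_ (norm_nonneg _)
      exact mulOp_norm ha _)

theorem bil_apply {K lam : ℝ} {a : E → E →L[ℝ] E} (ha : Coef K lam a) (hK : 0 ≤ K) (u v : W E) :
    bil ha hK u v = inner ℝ (mulOp ha (u : Lp E 2 (volume : Measure E)))
      (v : Lp E 2 (volume : Measure E)) := rfl

theorem bil_coercive {K lam : ℝ} (hlam : 0 < lam) {a : E → E →L[ℝ] E} (ha : Coef K lam a)
    (hK : 0 ≤ K) : IsCoercive (bil ha hK) := by
  refine ⟨lam, hlam, fun u => ?_⟩
  rw [bil_apply, L2.inner_def]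
  set w : Lp E 2 (volume : Measure E) := (u : Lp E 2 (volume : Measure E))
  have h1 : ∫ x, (inner ℝ (mulOp ha w x) (w x) : ℝ) = ∫ x, (inner ℝ (a x (w x)) (w x) : ℝ) := by
    refine integral_congr_ae ?_
    filter_upwards [mulOp_ae ha w] with x hx
    rw [hx]
  have h2 : lam * ∫ x, ‖w x‖ ^ 2 ≤ ∫ x, (inner ℝ (a x (w x)) (w x) : ℝ) := by
    rw [← integral_const_mul]
    refine integral_mono ?_ (integrable_inner' (ha.memLp (Lp.memLp w)) (Lp.memLp w))
      (fun x => ha.ell x _)
    have : (fun x => lam * ‖w x‖ ^ 2) = fun x => lam * inner ℝ (w x) (w x) := by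
      ext x; rw [real_inner_self_eq_norm_sq]
    rw [this]
    exact (integrable_inner' (Lp.memLp w) (Lp.memLp w)).const_mul lam
  rw [h1]
  refine le_trans (le_of_eq ?_) h2
  have h3 : ‖u‖ = ‖w‖ := rfl
  rw [h3, Lp.norm_def, ← eLpNorm_toReal_sq (Lp.memLp w)]
  ring

/-- Existence of solutions. -/
theorem exists_sol {K lam : ℝ} (hlam : 0 < lam) {a : E → E →L[ℝ] E} (ha : Coef K lam a)
    {f : E → E} (hf : MemLp f 2 volume) :
    ∃ g : E → E, StronglyMeasurable g ∧ Sol a f g := by
  have hK : 0 ≤ K := (norm_nonneg _).trans (ha.bound 0)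
  have : CompleteSpace (W E) := W_closed.completeSpace_coe
  have hco := bil_coercive hlam ha hK
  set F := hf.toLp f with hF
  set p : W E := (W E).orthogonalProjectionOnto F with hp
  set g : W E := hco.continuousLinearEquivOfBilin.symm p with hg
  have h1 : ∀ w : W E, inner ℝ (mulOp ha (g : Lp E 2 (volume : Measure E)))
      (w : Lp E 2 (volume : Measure E)) = inner ℝ F (w : Lp E 2 (volume : Measure E)) := by
    intro w
    have h2 := hco.continuousLinearEquivOfBilin_apply g w
    rw [hg, ContinuousLinearEquiv.apply_symm_apply] at h2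
    rw [← bil_apply ha hK g w, hg, ← h2, hp]
    exact Submodule.inner_orthogonalProjectionOnto_eq_of_mem_right w F
  refine ⟨⇑(g : Lp E 2 (volume : Measure E)), Lp.stronglyMeasurable _, hf, g.2, fun φ hφ => ?_⟩
  have hφ2 := hφ.gr_memLp 2
  have hm : hφ2.toLp (gr φ) ∈ W E := by
    show InV _
    exact hφ.inV.congr hφ2.coeFn_toLp.symm
  have h3 := h1 ⟨_, hm⟩
  simp only [L2.inner_def] at h3
  have h4 : ∫ x, (inner ℝ (mulOp ha (g : Lp E 2 (volume : Measure E)) x)
      (hφ2.toLp (gr φ) x) : ℝ) =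
      ∫ x, (inner ℝ (a x ((g : Lp E 2 (volume : Measure E)) x)) (gr φ x) : ℝ) := by
    refine integral_congr_ae ?_
    filter_upwards [mulOp_ae ha (g : Lp E 2 (volume : Measure E)), hφ2.coeFn_toLp] with x h5 h6
    rw [h5, h6]
  have h5 : ∫ x, (inner ℝ (F x) (hφ2.toLp (gr φ) x) : ℝ) =
      ∫ x, (inner ℝ (f x) (gr φ x) : ℝ) := by
    refine integral_congr_ae ?_
    filter_upwards [hf.coeFn_toLp, hφ2.coeFn_toLp] with x h5 h6
    rw [← hF] at h5
    rw [h5, h6]
  rw [h4, h5] at h3
  simp only [inner_sub_left]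
  rw [integral_sub (integrable_inner' (ha.memLp (Lp.memLp _)) hφ2) (integrable_inner' hf hφ2), h3,
    sub_self]

end Pool.Agent.Lib.MP_a73848
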