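import Mathlib
import Pool.Agent.Lib.MP_a73848.Exist

/-!
# MP_a73848_an: power integrals
-/

set_option autoImplicit false
set_option linter.unusedSectionVars false

open MeasureTheory Metric Filter Topology Set
open scoped ContDiff ENNReal NNReal

namespace Pool.Agent.Lib.MP_a73848

section general

variable {α F : Type*} [MeasurableSpace α] [NormedAddCommGroup F]

/-- `q`-th power integral -/
noncomputable def Iq (q : ℝ) (μ : Measure α) (f : α → F) : ℝ≥0∞ := ∫⁻ x, ‖f x‖ₑ ^ q ∂μ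

theorem Iq_congr {q : ℝ} {μ : Measure α} {f g : α → F} (h : f =ᵐ[μ] g) : Iq q μ f = Iq q μ g := by
  refine lintegral_congr_ae ?_
  filter_upwards [h] with x hx
  rw [hx]

theorem Iq_mono_le {G : Type*} [NormedAddCommGroup G] {q : ℝ} (hq : 0 ≤ q) {μ : Measure α}
    {f : α → F} {g : α → G} (c : ℝ≥0∞) (hc : c ≠ ⊤)
    (h : ∀ᵐ x ∂μ, ‖f x‖ₑ ≤ c * ‖g x‖ₑ) : Iq q μ f ≤ c ^ q * Iq q μ g := by
  unfold Iq
  rw [← lintegral_const_mul' _ _ (ENNReal.rpow_ne_top_of_nonneg hq hc)]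
  refine lintegral_mono_ae ?_
  filter_upwards [h] with x hx
  rw [← ENNReal.mul_rpow_of_nonneg _ _ hq]
  exact ENNReal.rpow_le_rpow hx hq

theorem Iq_mono {G : Type*} [NormedAddCommGroup G] {q : ℝ} (hq : 0 ≤ q) {μ : Measure α}
    {f : α → F} {g : α → G} (h : ∀ᵐ x ∂μ, ‖f x‖ₑ ≤ ‖g x‖ₑ) : Iq q μ f ≤ Iq q μ g := by
  refine lintegral_mono_ae ?_
  filter_upwards [h] with x hx
  exact ENNReal.rpow_le_rpow hx hq

theorem Iq_add_le {q : ℝ} (hq : 1 ≤ q) {μ : Measure α} {f g : α → F}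
    (hf : AEStronglyMeasurable f μ) :
    Iq q μ (fun x => f x + g x) ≤ 2 ^ (q - 1) * (Iq q μ f + Iq q μ g) := by
  unfold Iq
  have hc : (2 : ℝ≥0∞) ^ (q - 1) ≠ ⊤ := ENNReal.rpow_ne_top_of_nonneg (by linarith) (by simp)
  rw [← lintegral_add_left' (hf.enorm.pow_const q), ← lintegral_const_mul' _ _ hc]
  refine lintegral_mono fun x => ?_
  refine le_trans (ENNReal.rpow_le_rpow (enorm_add_le _ _) (by linarith)) ?_
  exact ENNReal.rpow_add_le_mul_rpow_add_rpow _ _ hq

theorem Iq_sub_le {q : ℝ} (hq : 1 ≤ q) {μ : Measure α} {f g : α → F}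
    (hf : AEStronglyMeasurable f μ) :
    Iq q μ (fun x => f x - g x) ≤ 2 ^ (q - 1) * (Iq q μ f + Iq q μ g) := by
  have h := Iq_add_le hq (f := f) (g := fun x => - g x) hf
  have e : Iq q μ (fun x => - g x) = Iq q μ g := by simp [Iq]
  rw [e] at h
  simpa [sub_eq_add_neg] using h

theorem Iq_two {μ : Measure α} (f : α → F) : Iq 2 μ f = eLpNorm f 2 μ ^ (2 : ℝ) := by
  rw [eLpNorm_eq_lintegral_rpow_enorm_toReal (by norm_num) (by norm_num)]
  simp only [ENNReal.toReal_ofNat, Iq]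
  rw [← ENNReal.rpow_mul]
  norm_num

/-- Jensen's inequality for powers. -/
theorem jensen_pow {q : ℝ} (hq : 1 ≤ q) {μ : Measure α} {f : α → ℝ≥0∞} (hf : AEMeasurable f μ) :
    (∫⁻ x, f x ∂μ) ^ q ≤ (∫⁻ x, f x ^ q ∂μ) * μ univ ^ (q - 1) := by
  have h1 := eLpNorm'_le_eLpNorm'_mul_rpow_measure_univ (μ := μ) (f := f) one_pos hq
    hf.aestronglyMeasurable
  simp only [eLpNorm', enorm_eq_self, ENNReal.rpow_one, div_one, one_div] at h1
  have h2 := ENNReal.rpow_le_rpow h1 (zero_le_one.trans hq)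
  refine h2.trans (le_of_eq ?_)
  rw [ENNReal.mul_rpow_of_nonneg _ _ (by linarith), ← ENNReal.rpow_mul, ← ENNReal.rpow_mul]
  congr 1
  · rw [inv_mul_cancel₀ (by linarith), ENNReal.rpow_one]
  · congr 1
    have : q ≠ 0 := by linarith
    field_simp

theorem ae_le_of_approx {μ : Measure α} {a b : α → ℝ≥0∞} {e : ℕ → α → ℝ≥0∞}
    (he : ∀ n, Measurable (e n)) (hab : ∀ n, ∀ᵐ x ∂μ, a x ≤ b x + e n x)
    {q : ℝ} (hq : 0 < q) (h0 : Tendsto (fun n => ∫⁻ x, e n x ^ q ∂μ) atTop (𝓝 0)) :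
    ∀ᵐ x ∂μ, a x ≤ b x := by
  have h1 : ∫⁻ x, (⨅ n, e n x) ^ q ∂μ = 0 := by
    refine le_antisymm (ge_of_tendsto' h0 fun n => ?_) zero_le
    refine lintegral_mono fun x => ENNReal.rpow_le_rpow (iInf_le _ n) hq.le
  rw [lintegral_eq_zero_iff ((Measurable.iInf he).pow_const q)] at h1
  filter_upwards [h1, ae_all_iff.mpr hab] with x hx hx'
  simp only [Pi.zero_apply] at hx
  rw [ENNReal.rpow_eq_zero_iff_of_pos hq] at hx
  calc a x ≤ ⨅ n, (b x + e n x) := le_iInf hx'
    _ = b x + ⨅ n, e n x := ENNReal.add_iInf.symm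
    _ = b x := by rw [hx, add_zero]

end general

variable {E : Type*} [NormedAddCommGroup E] [InnerProductSpace ℝ E] [FiniteDimensional ℝ E]
  [MeasurableSpace E] [BorelSpace E]

theorem Iq_comp_add (q : ℝ) {F : Type*} [NormedAddCommGroup F] (g : E → F) (h : E) :
    Iq q volume (fun x => g (x + h)) = Iq q volume g := by
  unfold Iq
  exact lintegral_add_right_eq_self (fun x => ‖g x‖ₑ ^ q) h

/-- average of the norm over the segment `[x, x + h]` -/
noncomputable def lineI {F : Type*} [NormedAddCommGroup F] (g : E → F) (h x : E) : ℝ≥0∞ :=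
  ∫⁻ t in Ioo (0 : ℝ) 1, ‖g (x + t • h)‖ₑ

section lineI

variable {F : Type*} [NormedAddCommGroup F] [MeasurableSpace F] [BorelSpace F]

theorem lineI_measurable {g : E → F} (hg : Measurable g) (h : E) : Measurable (lineI g h) := by
  unfold lineI
  refine Measurable.lintegral_prod_right' (f := fun p : E × ℝ => ‖g (p.1 + p.2 • h)‖ₑ) ?_
  exact (hg.comp (measurable_fst.add (measurable_snd.smul_const h))).enorm

theorem lineI_pow {q : ℝ} (hq : 1 ≤ q) {g : E → F} (hg : Measurable g) (h : E) {S B : Set E}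
    (hB : MeasurableSet B) (hSB : ∀ x ∈ S, ∀ t ∈ Ioo (0 : ℝ) 1, x + t • h ∈ B)
    (hS : MeasurableSet S) :
    ∫⁻ x in S, lineI g h x ^ q ≤ ∫⁻ x in B, ‖g x‖ₑ ^ q := by
  have hm : Measurable (fun p : E × ℝ => ‖g (p.1 + p.2 • h)‖ₑ ^ q) :=
    ((hg.comp (measurable_fst.add (measurable_snd.smul_const h))).enorm).pow_const q
  have h1 : ∀ x, lineI g h x ^ q ≤ ∫⁻ t in Ioo (0 : ℝ) 1, ‖g (x + t • h)‖ₑ ^ q := by
    intro x
    have hm1 : Measurable (fun t : ℝ => ‖g (x + t • h)‖ₑ) :=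
      (hg.comp (measurable_const.add (measurable_id.smul_const h))).enorm
    have := jensen_pow hq (μ := volume.restrict (Ioo (0 : ℝ) 1)) hm1.aemeasurable
    simp only [Measure.restrict_apply_univ, Real.volume_Ioo, sub_zero, ENNReal.ofReal_one,
      ENNReal.one_rpow, mul_one] at this
    exact this
  calc ∫⁻ x in S, lineI g h x ^ q
      ≤ ∫⁻ x in S, ∫⁻ t in Ioo (0 : ℝ) 1, ‖g (x + t • h)‖ₑ ^ q := lintegral_mono fun x => h1 x
    _ = ∫⁻ t in Ioo (0 : ℝ) 1, ∫⁻ x in S, ‖g (x + t • h)‖ₑ ^ q := by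
        rw [lintegral_lintegral_swap]
        exact hm.aemeasurable
    _ ≤ ∫⁻ t in Ioo (0 : ℝ) 1, ∫⁻ x in B, ‖g x‖ₑ ^ q := by
        refine setLIntegral_mono' measurableSet_Ioo fun t ht => ?_
        calc ∫⁻ x in S, ‖g (x + t • h)‖ₑ ^ q
            ≤ ∫⁻ x, B.indicator (fun y => ‖g y‖ₑ ^ q) (x + t • h) := by
              rw [← lintegral_indicator hS]
              refine lintegral_mono fun x => ?_
              by_cases hx : x ∈ S
              · rw [indicator_of_mem hx, indicator_of_mem (hSB x hx t ht)]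
              · rw [indicator_of_notMem hx]
                exact zero_le
          _ = ∫⁻ x, B.indicator (fun y => ‖g y‖ₑ ^ q) x :=
              lintegral_add_right_eq_self (fun x => B.indicator (fun y => ‖g y‖ₑ ^ q) x) (t • h)
          _ = ∫⁻ x in B, ‖g x‖ₑ ^ q := lintegral_indicator hB _
    _ = ∫⁻ x in B, ‖g x‖ₑ ^ q := by
        rw [lintegral_const]
        simp

end lineI

theorem enorm_sub_le_lineI {φ : E → ℝ} (hφ : ContDiff ℝ ∞ φ) (x h : E) :
    ‖φ (x + h) - φ x‖ₑ ≤ ‖h‖ₑ * lineI (gr φ) h x := by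
  have hd : ∀ t : ℝ, HasDerivAt (fun t : ℝ => φ (x + t • h)) (inner ℝ (gr φ (x + t • h)) h) t := by
    intro t
    have h1 : HasDerivAt (fun t : ℝ => x + t • h) h t := by
      have := ((hasDerivAt_id t).smul_const h).const_add x
      simpa using this
    have h2 := ((hφ.differentiable (by simp)) (x + t • h)).hasFDerivAt.comp_hasDerivAt t h1
    rw [inner_gr]
    exact h2
  have hc : Continuous (fun t : ℝ => (inner ℝ (gr φ (x + t • h)) h : ℝ)) := by
    have := gr_continuous hφ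
    fun_prop
  have h3 := intervalIntegral.integral_eq_sub_of_hasDerivAt (fun t _ => hd t)
    (hc.intervalIntegrable 0 1)
  simp only [one_smul, zero_smul, add_zero] at h3
  rw [← h3, intervalIntegral.integral_of_le zero_le_one, integral_Ioc_eq_integral_Ioo]
  refine (enorm_integral_le_lintegral_enorm _).trans ?_
  unfold lineI
  rw [← lintegral_const_mul' _ _ (by simp)]
  refine lintegral_mono fun t => ?_
  rw [← enorm_norm h, ← enorm_norm (gr φ (x + t • h)), ← enorm_mul]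
  rw [Real.enorm_eq_ofReal_abs, Real.enorm_eq_ofReal_abs]
  refine ENNReal.ofReal_le_ofReal ?_
  rw [abs_mul, abs_norm, abs_norm, mul_comm]
  exact abs_real_inner_le_norm _ _

theorem lineI_add_le (g g' : E → E) (hg : Measurable g) (h x : E) :
    lineI (fun y => g y + g' y) h x ≤ lineI g h x + lineI g' h x := by
  unfold lineI
  rw [← lintegral_add_left]
  · exact lintegral_mono fun t => enorm_add_le _ _
  · exact (hg.comp (measurable_const.add (measurable_id.smul_const h))).enorm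

end Pool.Agent.Lib.MP_a73848
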