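import Mathlib
import Pool.Agent.Lib.MP_a73848.Power

/-!
# MP_a73848_an: potentials and the Poincaré inequality
-/

set_option autoImplicit false
set_option linter.unusedSectionVars false

open MeasureTheory Metric Filter Topology Set
open scoped ContDiff ENNReal NNReal

namespace Pool.Agent.Lib.MP_a73848

variable {E : Type*} [NormedAddCommGroup E] [InnerProductSpace ℝ E] [FiniteDimensional ℝ E]
  [MeasurableSpace E] [BorelSpace E]

/-- difference estimate: `g` bounds the increments of `u` inside `B` -/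
def PotLe (u : E → ℝ) (g : E → E) (B : Set E) : Prop :=
  ∀ h : E, ∀ᵐ x ∂(volume : Measure E), x ∈ B → x + h ∈ B →
    ‖u (x + h) - u x‖ₑ ≤ ‖h‖ₑ * lineI g h x

theorem potLe_smooth {φ : E → ℝ} (hφ : ContDiff ℝ ∞ φ) (B : Set E) : PotLe φ (gr φ) B :=
  fun h => Eventually.of_forall fun x _ _ => enorm_sub_le_lineI hφ x h

theorem PotLe.sub_const {u : E → ℝ} {g : E → E} {B : Set E} (h : PotLe u g B) (c : ℝ) :
    PotLe (fun x => u x - c) g B := by
  intro k
  filter_upwards [h k] with x hx h1 h2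
  simpa using hx h1 h2

theorem segment_mem {B : Set E} (hB : Convex ℝ B) {x h : E} (hx : x ∈ B) (hxh : x + h ∈ B)
    {t : ℝ} (ht : t ∈ Ioo (0 : ℝ) 1) : x + t • h ∈ B := by
  have := hB hx hxh (a := 1 - t) (b := t) (by linarith [ht.2]) ht.1.le (by ring)
  convert this using 1
  rw [smul_add, ← add_assoc, ← add_smul]
  simp

theorem potLe_pow {q : ℝ} (hq : 1 ≤ q) {u : E → ℝ} {g : E → E} (hg : Measurable g)
    {B : Set E} (hB : Convex ℝ B) (hBm : MeasurableSet B) (hp : PotLe u g B) (h : E) :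
    ∫⁻ x in {x | x ∈ B ∧ x + h ∈ B}, ‖u (x + h) - u x‖ₑ ^ q ≤
      ‖h‖ₑ ^ q * ∫⁻ x in B, ‖g x‖ₑ ^ q := by
  have hS : MeasurableSet {x | x ∈ B ∧ x + h ∈ B} :=
    hBm.inter (hBm.preimage (measurable_id.add_const h))
  have hq0 : 0 ≤ q := by linarith
  calc ∫⁻ x in {x | x ∈ B ∧ x + h ∈ B}, ‖u (x + h) - u x‖ₑ ^ q
      ≤ ∫⁻ x in {x | x ∈ B ∧ x + h ∈ B}, (‖h‖ₑ * lineI g h x) ^ q := by
        refine lintegral_mono_ae ((ae_restrict_iff' hS).mpr ?_)
        filter_upwards [hp h] with x hx hx'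
        exact ENNReal.rpow_le_rpow (hx hx'.1 hx'.2) hq0
    _ = ‖h‖ₑ ^ q * ∫⁻ x in {x | x ∈ B ∧ x + h ∈ B}, lineI g h x ^ q := by
        rw [← lintegral_const_mul' _ _ (ENNReal.rpow_ne_top_of_nonneg hq0 (by simp))]
        congr 1
        ext x
        rw [ENNReal.mul_rpow_of_nonneg _ _ hq0]
    _ ≤ _ := mul_le_mul' le_rfl
        (lineI_pow hq hg h hBm (fun x hx t ht => segment_mem hB hx.1 hx.2 ht) hS)

theorem poincare {q : ℝ} (hq : 1 ≤ q) {R : ℝ} (hR : 0 < R) :
    ∃ C : ℝ≥0, ∀ (u : E → ℝ) (g : E → E), Measurable u → Measurable g →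
      PotLe u g (ball 0 R) → ∃ c : ℝ,
        ∫⁻ x in ball (0 : E) R, ‖u x - c‖ₑ ^ q ≤ C * ∫⁻ x in ball (0 : E) R, ‖g x‖ₑ ^ q := by
  have hq0 : 0 ≤ q := by linarith
  set B : Set E := ball 0 R with hB
  set V := (volume (ball (0 : E) (2 * R))) with hV
  have hV1 : V ≠ ⊤ := measure_ball_lt_top.ne
  have hB0 : volume B ≠ 0 := (measure_ball_pos _ _ hR).ne'
  have hB1 : volume B ≠ ⊤ := measure_ball_lt_top.ne
  set c₀ : ℝ≥0∞ := V * ENNReal.ofReal (2 * R) ^ q / volume B with hc₀
  have hc₀' : c₀ ≠ ⊤ := by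
    refine ENNReal.div_ne_top (ENNReal.mul_ne_top hV1 ?_) hB0
    exact ENNReal.rpow_ne_top_of_nonneg hq0 ENNReal.ofReal_ne_top
  refine ⟨c₀.toNNReal, fun u g hu hg hp => ?_⟩
  rw [ENNReal.coe_toNNReal hc₀']
  have hBm : MeasurableSet B := measurableSet_ball
  set I := ∫⁻ x in B, ‖g x‖ₑ ^ q with hI
  have hΦ : Measurable (fun p : E × E => ‖u p.1 - u p.2‖ₑ ^ q) :=
    (((hu.comp measurable_fst).sub (hu.comp measurable_snd)).enorm).pow_const q
  -- the double integral
  have key : ∫⁻ y in B, ∫⁻ x in B, ‖u x - u y‖ₑ ^ q ≤ V * ENNReal.ofReal (2 * R) ^ q * I := by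
    set Ψ : E → E → ℝ≥0∞ := fun h y =>
      ({x | x ∈ B ∧ x + h ∈ B} : Set E).indicator (fun y => ‖u (y + h) - u y‖ₑ ^ q) y with hΨ
    have hΨm : Measurable (fun p : E × E => Ψ p.1 p.2) := by
      have : (fun p : E × E => Ψ p.1 p.2) =
          ({p : E × E | p.2 ∈ B ∧ p.2 + p.1 ∈ B} : Set (E × E)).indicator
            (fun p => ‖u (p.2 + p.1) - u p.2‖ₑ ^ q) := by
        ext p
        by_cases hp' : p.2 ∈ B ∧ p.2 + p.1 ∈ B
        · rw [indicator_of_mem (show p ∈ {p : E × E | p.2 ∈ B ∧ p.2 + p.1 ∈ B} from hp')]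
          show Ψ p.1 p.2 = _
          rw [hΨ]
          exact indicator_of_mem (show p.2 ∈ {x | x ∈ B ∧ x + p.1 ∈ B} from hp') _
        · rw [indicator_of_notMem (show p ∉ {p : E × E | p.2 ∈ B ∧ p.2 + p.1 ∈ B} from hp')]
          show Ψ p.1 p.2 = _
          rw [hΨ]
          exact indicator_of_notMem (show p.2 ∉ {x | x ∈ B ∧ x + p.1 ∈ B} from hp') _
      rw [this]
      refine Measurable.indicator ?_ ?_
      · exact (((hu.comp (measurable_snd.add measurable_fst)).sub
          (hu.comp measurable_snd)).enorm).pow_const q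
      · exact (hBm.preimage measurable_snd).inter
          (hBm.preimage (measurable_snd.add measurable_fst))
    have h1 : ∀ y, (B.indicator (fun y => ∫⁻ x in B, ‖u x - u y‖ₑ ^ q) y) =
        ∫⁻ h, Ψ h y := by
      intro y
      by_cases hy : y ∈ B
      · rw [indicator_of_mem hy, ← lintegral_indicator hBm,
          ← lintegral_add_left_eq_self _ y]
        refine lintegral_congr fun h => ?_
        rw [hΨ]
        by_cases hyh : y + h ∈ B
        · rw [indicator_of_mem hyh]
          show _ = ({x | x ∈ B ∧ x + h ∈ B} : Set E).indicator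
            (fun y => ‖u (y + h) - u y‖ₑ ^ q) y
          rw [indicator_of_mem (show y ∈ {x | x ∈ B ∧ x + h ∈ B} from ⟨hy, hyh⟩)]
        · rw [indicator_of_notMem hyh]
          refine (indicator_of_notMem ?_ _).symm
          exact fun h' => hyh h'.2
      · rw [indicator_of_notMem hy]
        symm
        rw [lintegral_eq_zero_iff' (by
          exact (hΨm.comp (measurable_id.prodMk measurable_const)).aemeasurable)]
        refine Eventually.of_forall fun h => ?_
        rw [hΨ]
        exact indicator_of_notMem (fun h' => hy h'.1) _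
    calc ∫⁻ y in B, ∫⁻ x in B, ‖u x - u y‖ₑ ^ q
        = ∫⁻ y, ∫⁻ h, Ψ h y := by
          rw [← lintegral_indicator hBm]
          exact lintegral_congr h1
      _ = ∫⁻ h, ∫⁻ y, Ψ h y := by
          rw [lintegral_lintegral_swap]
          exact (hΨm.comp (measurable_snd.prodMk measurable_fst)).aemeasurable
      _ ≤ ∫⁻ h, (ball (0 : E) (2 * R)).indicator (fun _ => ENNReal.ofReal (2 * R) ^ q * I) h := by
          refine lintegral_mono fun h => ?_
          have hS : MeasurableSet {x | x ∈ B ∧ x + h ∈ B} :=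
            hBm.inter (hBm.preimage (measurable_id.add_const h))
          show ∫⁻ y, ({x | x ∈ B ∧ x + h ∈ B} : Set E).indicator _ y ≤ _
          rw [lintegral_indicator hS]
          by_cases hh : h ∈ ball (0 : E) (2 * R)
          · rw [indicator_of_mem hh]
            refine (potLe_pow hq hg (convex_ball 0 R) hBm hp h).trans ?_
            refine mul_le_mul' (ENNReal.rpow_le_rpow ?_ hq0) le_rfl
            rw [← ofReal_norm]
            exact ENNReal.ofReal_le_ofReal (by simpa using (mem_ball_zero_iff.mp hh).le)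
          · have : {x | x ∈ B ∧ x + h ∈ B} = ∅ := by
              ext x
              simp only [mem_ofPred_eq, mem_empty_iff_false, iff_false, not_and]
              intro h1 h2
              apply hh
              rw [hB, mem_ball_zero_iff] at h1 h2
              rw [mem_ball_zero_iff]
              calc ‖h‖ = ‖(x + h) - x‖ := by simp
                _ ≤ ‖x + h‖ + ‖x‖ := norm_sub_le _ _
                _ < 2 * R := by linarith
            rw [this]
            simp
      _ = V * ENNReal.ofReal (2 * R) ^ q * I := by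
          rw [lintegral_indicator measurableSet_ball, setLIntegral_const]
          ring
  have hm2 : AEMeasurable (fun y => ∫⁻ x in B, ‖u x - u y‖ₑ ^ q) (volume.restrict B) := by
    exact (Measurable.lintegral_prod_left' (f := fun p : E × E => ‖u p.1 - u p.2‖ₑ ^ q)
      hΦ).aemeasurable
  obtain ⟨y, _, hy⟩ := exists_le_setLAverage hB0 hB1 hm2
  refine ⟨u y, hy.trans ?_⟩
  rw [setLAverage_eq]
  calc (∫⁻ y in B, ∫⁻ x in B, ‖u x - u y‖ₑ ^ q) / volume B
      ≤ (V * ENNReal.ofReal (2 * R) ^ q * I) / volume B := by gcongr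
    _ = c₀ * I := by
      rw [hc₀, ENNReal.mul_div_right_comm]

end Pool.Agent.Lib.MP_a73848
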