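import Mathlib
import Pool.Agent.Lib.MP_a73848.Pot

/-!
# MP_a73848_an: existence of potentials
-/

set_option autoImplicit false
set_option linter.unusedSectionVars false

open MeasureTheory Metric Filter Topology Set
open scoped ContDiff ENNReal NNReal

namespace Pool.Agent.Lib.MP_a73848

variable {E : Type*} [NormedAddCommGroup E] [InnerProductSpace ℝ E] [FiniteDimensional ℝ E]
  [MeasurableSpace E] [BorelSpace E]

theorem gr_sub_fun {φ ψ : E → ℝ} (h1 : Differentiable ℝ φ) (h2 : Differentiable ℝ ψ) :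
    gr (fun x => φ x - ψ x) = gr φ - gr ψ := by
  ext1 x
  exact gr_sub (h1 x) (h2 x)

theorem Iq_le_of_eLpNorm_le {α F : Type*} [MeasurableSpace α] [NormedAddCommGroup F]
    {μ : Measure α} {f : α → F} {c : ℝ≥0∞} (h : eLpNorm f 2 μ ≤ c) : Iq 2 μ f ≤ c ^ (2 : ℝ) := by
  rw [Iq_two]
  exact ENNReal.rpow_le_rpow h (by norm_num)

theorem eLpNorm_le_of_Iq_le {α F : Type*} [MeasurableSpace α] [NormedAddCommGroup F]
    {μ : Measure α} {f : α → F} {c : ℝ≥0∞} (h : Iq 2 μ f ≤ c ^ (2 : ℝ)) : eLpNorm f 2 μ ≤ c := by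
  rw [Iq_two] at h
  exact (ENNReal.rpow_le_rpow_iff (by norm_num)).mp h

/-- approximating sequences with constants subtracted -/
theorem exists_approx {R : ℝ} (hR : 0 < R) {g : E → E} (hg : InV g) :
    ∃ (φ : ℕ → E → ℝ) (c : ℕ → ℝ) (u : E → ℝ), (∀ n, Test (φ n)) ∧ Measurable u ∧
      MemLp u 2 (volume.restrict (ball (0 : E) R)) ∧
      Tendsto (fun n => eLpNorm (g - gr (φ n)) 2 volume) atTop (𝓝 0) ∧
      Tendsto (fun n => eLpNorm (fun x => u x - (φ n x - c n)) 2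
        (volume.restrict (ball (0 : E) R))) atTop (𝓝 0) := by
  set μ := (volume : Measure E).restrict (ball (0 : E) R) with hμ
  have hfin : IsFiniteMeasure μ := ⟨by
    rw [hμ, Measure.restrict_apply_univ]; exact measure_ball_lt_top⟩
  obtain ⟨C, hC⟩ := poincare (E := E) (q := 2) (by norm_num) hR
  set ε : ℕ → ℝ≥0∞ := fun n => 2⁻¹ ^ n with hε
  have hε0 : ∀ n, 0 < ε n := fun n => by
    simp only [hε]
    exact ENNReal.pow_pos (by simp) n
  obtain ⟨φ, h1, h2⟩ := hg.exists_seq hε0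
  have hstep : ∀ n, ∃ c : ℝ, eLpNorm (fun x => (φ (n + 1) x - φ n x) - c) 2 μ ≤
      (C : ℝ≥0∞) ^ (1 / 2 : ℝ) * 2 * 2⁻¹ ^ n := by
    intro n
    have hD := (h1 (n + 1)).sub (h1 n)
    obtain ⟨c, hc⟩ := hC (fun x => φ (n + 1) x - φ n x) (gr fun x => φ (n + 1) x - φ n x)
      hD.smooth.continuous.measurable hD.gr_continuous.measurable (potLe_smooth hD.smooth _)
    refine ⟨c, eLpNorm_le_of_Iq_le ?_⟩
    have h3 : eLpNorm (gr fun x => φ (n + 1) x - φ n x) 2 volume ≤ 2 * 2⁻¹ ^ n := by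
      rw [gr_sub_fun (h1 (n + 1)).differentiable (h1 n).differentiable]
      have e : gr (φ (n + 1)) - gr (φ n) = (g - gr (φ n)) - (g - gr (φ (n + 1))) := by abel
      rw [e]
      refine (eLpNorm_sub_le (hg.memLp.sub ((h1 n).gr_memLp 2)).1
        (hg.memLp.sub ((h1 (n + 1)).gr_memLp 2)).1 (by norm_num)).trans ?_
      refine (add_le_add (h2 n) (h2 (n + 1))).trans ?_
      rw [two_mul]
      refine add_le_add le_rfl ?_
      simp only [hε, pow_succ]
      exact mul_le_of_le_one_right' (by simp)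
    calc Iq 2 μ (fun x => (φ (n + 1) x - φ n x) - c)
        ≤ C * ∫⁻ x in ball (0 : E) R, ‖gr (fun x => φ (n + 1) x - φ n x) x‖ₑ ^ (2 : ℝ) := hc
      _ ≤ C * Iq 2 volume (gr fun x => φ (n + 1) x - φ n x) := by
          refine mul_le_mul' le_rfl (setLIntegral_le_lintegral _ _)
      _ ≤ C * (2 * 2⁻¹ ^ n) ^ (2 : ℝ) := mul_le_mul' le_rfl (Iq_le_of_eLpNorm_le h3)
      _ = ((C : ℝ≥0∞) ^ (1 / 2 : ℝ) * 2 * 2⁻¹ ^ n) ^ (2 : ℝ) := by
          rw [mul_assoc ((C : ℝ≥0∞) ^ (1 / 2 : ℝ)),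
            ENNReal.mul_rpow_of_nonneg ((C : ℝ≥0∞) ^ (1 / 2 : ℝ)) _ (by norm_num),
            ← ENNReal.rpow_mul]
          norm_num
  choose c' hc' using hstep
  set c : ℕ → ℝ := fun n => ∑ k ∈ Finset.range n, c' k with hc
  have hmem : ∀ n, MemLp (fun x => φ n x - c n) 2 μ := fun n =>
    (((h1 n).memLp 2).restrict _).sub (memLp_const _)
  set v : ℕ → Lp ℝ 2 μ := fun n => (hmem n).toLp _ with hv
  have hcau : CauchySeq v := by
    refine cauchySeq_of_edist_le_geometric 2⁻¹ ((C : ℝ≥0∞) ^ (1 / 2 : ℝ) * 2)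
      (by simp) (ENNReal.mul_ne_top (ENNReal.rpow_ne_top_of_nonneg (by norm_num) (by simp))
        (by simp)) fun n => ?_
    rw [edist_comm, hv, Lp.edist_toLp_toLp]
    have e : (fun x => φ (n + 1) x - c (n + 1)) - (fun x => φ n x - c n) =
        fun x => (φ (n + 1) x - φ n x) - c' n := by
      ext x
      simp only [hc, Pi.sub_apply, Finset.sum_range_succ]
      ring
    rw [e]
    exact hc' n
  obtain ⟨w, hw⟩ := cauchySeq_tendsto_of_complete hcau
  refine ⟨φ, c, w, h1, (Lp.stronglyMeasurable w).measurable, Lp.memLp w, ?_, ?_⟩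
  · refine tendsto_of_tendsto_of_tendsto_of_le_of_le tendsto_const_nhds ?_
      (fun _ => zero_le) h2
    exact ENNReal.tendsto_pow_atTop_nhds_zero_of_lt_one (by simp)
  · have h3 := (Lp.tendsto_Lp_iff_tendsto_eLpNorm' v w).mp hw
    refine h3.congr fun n => ?_
    rw [← eLpNorm_neg]
    refine eLpNorm_congr_ae ?_
    filter_upwards [(hmem n).coeFn_toLp] with x hx
    simp only [Pi.neg_apply, Pi.sub_apply, hv]
    rw [hx]
    ring

end Pool.Agent.Lib.MP_a73848
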