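import Mathlib
import Pool.Agent.Lib.MP_a73848.Pot2

/-!
# MP_a73848_an: existence of potentials, continued
-/

set_option autoImplicit false
set_option linter.unusedSectionVars false

open MeasureTheory Metric Filter Topology Set
open scoped ContDiff ENNReal NNReal

namespace Pool.Agent.Lib.MP_a73848

variable {E : Type*} [NormedAddCommGroup E] [InnerProductSpace ℝ E] [FiniteDimensional ℝ E]
  [MeasurableSpace E] [BorelSpace E]

theorem tendsto_rpow_zero {α : Type*} {l : Filter α} {f : α → ℝ≥0∞} (hf : Tendsto f l (𝓝 0))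
    {q : ℝ} (hq : 0 < q) : Tendsto (fun n => f n ^ q) l (𝓝 0) := by
  have h := (ENNReal.continuous_rpow_const (y := q)).tendsto 0
  rw [ENNReal.zero_rpow_of_pos hq] at h
  exact h.comp hf

/-- passage to the limit in the difference estimate -/
theorem potLe_limit {R : ℝ} {g : E → E} (hgm : Measurable g)
    {φ : ℕ → E → ℝ} {c : ℕ → ℝ} {u : E → ℝ} (hφ : ∀ n, Test (φ n)) (hu : Measurable u)
    (h1 : Tendsto (fun n => eLpNorm (g - gr (φ n)) 2 volume) atTop (𝓝 0))
    (h2 : Tendsto (fun n => eLpNorm (fun x => u x - (φ n x - c n)) 2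
        (volume.restrict (ball (0 : E) R))) atTop (𝓝 0)) :
    PotLe u g (ball 0 R) := by
  intro h
  set B : Set E := ball 0 R with hB
  have hBm : MeasurableSet B := measurableSet_ball
  set S : Set E := {x | x ∈ B ∧ x + h ∈ B} with hSdef
  have hS : MeasurableSet S := hBm.inter (hBm.preimage (measurable_id.add_const h))
  rw [show (∀ᵐ x ∂(volume : Measure E), x ∈ B → x + h ∈ B →
      ‖u (x + h) - u x‖ₑ ≤ ‖h‖ₑ * lineI g h x) ↔ ∀ᵐ x ∂(volume : Measure E), x ∈ S →
      ‖u (x + h) - u x‖ₑ ≤ ‖h‖ₑ * lineI g h x from by simp [hSdef, and_imp],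
    ← ae_restrict_iff' hS]
  -- the error terms
  set v : ℕ → E → ℝ := fun n x => u x - (φ n x - c n) with hv
  have hvm : ∀ n, Measurable (v n) := fun n =>
    hu.sub ((hφ n).smooth.continuous.measurable.sub_const _)
  set d : ℕ → E → E := fun n x => g x - gr (φ n) x with hd
  have hdm : ∀ n, Measurable (d n) := fun n => hgm.sub (hφ n).gr_continuous.measurable
  set e : ℕ → E → ℝ≥0∞ := fun n x => (‖v n (x + h)‖ₑ + ‖v n x‖ₑ) + ‖h‖ₑ * lineI (d n) h x with he
  have hem : ∀ n, Measurable (e n) := fun n =>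
    (((hvm n).comp (measurable_id.add_const h)).enorm.add (hvm n).enorm).add
      ((lineI_measurable (hdm n) h).const_mul _)
  refine ae_le_of_approx (e := e) hem ?_ (q := 2) (by norm_num) ?_
  · intro n
    refine Eventually.of_forall fun x => ?_
    have e1 : u (x + h) - u x = (φ n (x + h) - φ n x) + (v n (x + h) - v n x) := by
      simp only [hv]; ring
    calc ‖u (x + h) - u x‖ₑ ≤ ‖φ n (x + h) - φ n x‖ₑ + ‖v n (x + h) - v n x‖ₑ := by
          rw [e1]; exact enorm_add_le _ _
      _ ≤ ‖h‖ₑ * lineI (gr (φ n)) h x + (‖v n (x + h)‖ₑ + ‖v n x‖ₑ) :=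
          add_le_add (enorm_sub_le_lineI (hφ n).smooth x h) enorm_sub_le
      _ ≤ ‖h‖ₑ * (lineI g h x + lineI (d n) h x) + (‖v n (x + h)‖ₑ + ‖v n x‖ₑ) := by
          refine add_le_add (mul_le_mul' le_rfl ?_) le_rfl
          have e2 : lineI (gr (φ n)) h x ≤ lineI g h x + lineI (fun y => - d n y) h x := by
            refine le_trans (le_of_eq ?_) (lineI_add_le g (fun y => - d n y) hgm h x)
            congr 1
            ext1 y
            simp [hd]
          refine e2.trans (add_le_add le_rfl (le_of_eq ?_))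
          simp [lineI]
      _ = ‖h‖ₑ * lineI g h x + e n x := by
          simp only [he]; ring
  · -- bound of the error integrals
    have hb : ∀ n, ∫⁻ x in S, e n x ^ (2 : ℝ) ≤
        4 * (Iq 2 (volume.restrict B) (v n) + Iq 2 (volume.restrict B) (v n)) +
        2 * (‖h‖ₑ ^ (2 : ℝ) * Iq 2 volume (d n)) := by
      intro n
      have p1 : ∀ x, e n x ^ (2 : ℝ) ≤ (4 * ‖v n (x + h)‖ₑ ^ (2 : ℝ) + 4 * ‖v n x‖ₑ ^ (2 : ℝ)) +
          2 * (‖h‖ₑ ^ (2 : ℝ) * lineI (d n) h x ^ (2 : ℝ)) := by
        intro x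
        have q1 := ENNReal.rpow_add_le_mul_rpow_add_rpow (‖v n (x + h)‖ₑ + ‖v n x‖ₑ)
          (‖h‖ₑ * lineI (d n) h x) (p := 2) (by norm_num)
        have q2 := ENNReal.rpow_add_le_mul_rpow_add_rpow (‖v n (x + h)‖ₑ) (‖v n x‖ₑ)
          (p := 2) (by norm_num)
        have e3 : (2 : ℝ≥0∞) ^ ((2 : ℝ) - 1) = 2 := by norm_num
        rw [e3] at q1 q2
        rw [ENNReal.mul_rpow_of_nonneg _ _ (by norm_num : (0 : ℝ) ≤ 2)] at q1
        refine q1.trans ?_
        calc 2 * ((‖v n (x + h)‖ₑ + ‖v n x‖ₑ) ^ (2 : ℝ) + ‖h‖ₑ ^ (2 : ℝ) * lineI (d n) h x ^ (2 : ℝ))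
            ≤ 2 * ((2 * (‖v n (x + h)‖ₑ ^ (2 : ℝ) + ‖v n x‖ₑ ^ (2 : ℝ))) +
                ‖h‖ₑ ^ (2 : ℝ) * lineI (d n) h x ^ (2 : ℝ)) := by gcongr
          _ = _ := by ring
      calc ∫⁻ x in S, e n x ^ (2 : ℝ) ≤ ∫⁻ x in S, ((4 * ‖v n (x + h)‖ₑ ^ (2 : ℝ) +
              4 * ‖v n x‖ₑ ^ (2 : ℝ)) + 2 * (‖h‖ₑ ^ (2 : ℝ) * lineI (d n) h x ^ (2 : ℝ))) :=
            lintegral_mono fun x => p1 x
        _ = (4 * ∫⁻ x in S, ‖v n (x + h)‖ₑ ^ (2 : ℝ)) + (4 * ∫⁻ x in S, ‖v n x‖ₑ ^ (2 : ℝ)) +
            2 * (‖h‖ₑ ^ (2 : ℝ) * ∫⁻ x in S, lineI (d n) h x ^ (2 : ℝ)) := by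
            have m1 : Measurable fun x => ‖v n (x + h)‖ₑ ^ (2 : ℝ) :=
              ((hvm n).comp (measurable_id.add_const h)).enorm.pow_const _
            have m2 : Measurable fun x => ‖v n x‖ₑ ^ (2 : ℝ) := (hvm n).enorm.pow_const _
            have m3 : Measurable fun x => lineI (d n) h x ^ (2 : ℝ) :=
              (lineI_measurable (hdm n) h).pow_const _
            have m12 : Measurable fun x => 4 * ‖v n (x + h)‖ₑ ^ (2 : ℝ) + 4 * ‖v n x‖ₑ ^ (2 : ℝ) :=
              (m1.const_mul _).add (m2.const_mul _)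
            rw [lintegral_add_left m12,
              lintegral_add_left (m1.const_mul _), lintegral_const_mul _ m1,
              lintegral_const_mul _ m2, lintegral_const_mul _ (m3.const_mul _),
              lintegral_const_mul _ m3]
        _ ≤ _ := by
            have b1 : ∫⁻ x in S, ‖v n (x + h)‖ₑ ^ (2 : ℝ) ≤ Iq 2 (volume.restrict B) (v n) := by
              calc ∫⁻ x in S, ‖v n (x + h)‖ₑ ^ (2 : ℝ)
                  ≤ ∫⁻ x, B.indicator (fun y => ‖v n y‖ₑ ^ (2 : ℝ)) (x + h) := by
                    rw [← lintegral_indicator hS]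
                    refine lintegral_mono fun x => ?_
                    by_cases hx : x ∈ S
                    · rw [indicator_of_mem hx, indicator_of_mem hx.2]
                    · rw [indicator_of_notMem hx]
                      exact zero_le
                _ = ∫⁻ x, B.indicator (fun y => ‖v n y‖ₑ ^ (2 : ℝ)) x :=
                    lintegral_add_right_eq_self (fun x => B.indicator _ x) h
                _ = _ := lintegral_indicator hBm _
            have b2 : ∫⁻ x in S, ‖v n x‖ₑ ^ (2 : ℝ) ≤ Iq 2 (volume.restrict B) (v n) :=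
              lintegral_mono_set fun x hx => hx.1
            have b3 : ∫⁻ x in S, lineI (d n) h x ^ (2 : ℝ) ≤ Iq 2 volume (d n) := by
              have := lineI_pow (q := 2) (by norm_num) (hdm n) h (S := S) (B := univ)
                MeasurableSet.univ (fun _ _ _ _ => mem_univ _) hS
              simpa [Iq] using this
            rw [← mul_add]
            gcongr
    have t1 : Tendsto (fun n => Iq 2 (volume.restrict B) (v n)) atTop (𝓝 0) := by
      simp only [Iq_two]
      exact tendsto_rpow_zero h2 (by norm_num)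
    have t2 : Tendsto (fun n => Iq 2 volume (d n)) atTop (𝓝 0) := by
      simp only [Iq_two]
      exact tendsto_rpow_zero h1 (by norm_num)
    refine tendsto_of_tendsto_of_tendsto_of_le_of_le tendsto_const_nhds ?_
      (fun _ => zero_le) hb
    have t3 : Tendsto (fun n => 4 * (Iq 2 (volume.restrict B) (v n) +
        Iq 2 (volume.restrict B) (v n)) + 2 * (‖h‖ₑ ^ (2 : ℝ) * Iq 2 volume (d n))) atTop
        (𝓝 (4 * (0 + 0) + 2 * (‖h‖ₑ ^ (2 : ℝ) * 0))) := by
      refine Tendsto.add ?_ ?_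
      · exact ENNReal.Tendsto.const_mul (t1.add t1) (Or.inr (by simp))
      · refine ENNReal.Tendsto.const_mul (ENNReal.Tendsto.const_mul t2 (Or.inr ?_))
          (Or.inr (by simp))
        exact ENNReal.rpow_ne_top_of_nonneg (by norm_num) (by simp)
    simpa using t3

theorem exists_bound_of_compact {F : Type*} [NormedAddCommGroup F] {f : E → F}
    (hf : Continuous f) (hc : HasCompactSupport f) : ∃ M : ℝ, 0 ≤ M ∧ ∀ x, ‖f x‖ ≤ M := by
  obtain ⟨M, hM⟩ := hf.bounded_above_of_compact_support hc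
  exact ⟨max M 0, le_max_right _ _, fun x => (hM x).trans (le_max_left _ _)⟩

theorem cutoff_inV {R : ℝ} {g : E → E} (hg : InV g)
    {φ : ℕ → E → ℝ} {c : ℕ → ℝ} {u : E → ℝ} (hφ : ∀ n, Test (φ n))
    (hu2 : MemLp u 2 (volume.restrict (ball (0 : E) R)))
    (h1 : Tendsto (fun n => eLpNorm (g - gr (φ n)) 2 volume) atTop (𝓝 0))
    (h2 : Tendsto (fun n => eLpNorm (fun x => u x - (φ n x - c n)) 2
        (volume.restrict (ball (0 : E) R))) atTop (𝓝 0))
    {η : E → ℝ} (hη : Test η) (hηs : tsupport η ⊆ ball 0 R) (c₀ : ℝ) :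
    InV (fun x => η x • g x + (u x - c₀) • gr η x) := by
  set B : Set E := ball 0 R with hB
  have hfin : IsFiniteMeasure ((volume : Measure E).restrict B) := ⟨by
    rw [Measure.restrict_apply_univ]; exact measure_ball_lt_top⟩
  have hBm : MeasurableSet B := measurableSet_ball
  obtain ⟨M, hM0, hM⟩ := exists_bound_of_compact hη.smooth.continuous hη.compact
  obtain ⟨M', hM0', hM'⟩ := exists_bound_of_compact hη.gr_continuous hη.gr_compact
  -- a general bound
  have gen : ∀ w : E → ℝ, AEStronglyMeasurable w (volume.restrict B) →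
      eLpNorm (fun x => w x • gr η x) 2 volume ≤
        ENNReal.ofReal M' * eLpNorm w 2 (volume.restrict B) := by
    intro w hw
    have e1 : eLpNorm (fun x => w x • gr η x) 2 volume =
        eLpNorm (fun x => w x • gr η x) 2 (volume.restrict B) := by
      rw [eLpNorm_restrict_eq_of_support_subset]
      intro x hx
      by_contra hc
      apply hx
      have : gr η x = 0 := gr_eq_zero fun h => hc (hηs h)
      simp [this]
    rw [e1]
    refine eLpNorm_le_mul_eLpNorm_of_ae_le_mul (Eventually.of_forall fun x => ?_) 2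
    rw [norm_smul, mul_comm]
    exact mul_le_mul_of_nonneg_right (hM' x) (norm_nonneg _)
  have mem : ∀ w : E → ℝ, MemLp w 2 (volume.restrict B) →
      MemLp (fun x => w x • gr η x) 2 volume := by
    intro w hw
    refine ⟨?_, (gen w hw.1).trans_lt (ENNReal.mul_lt_top (by simp) hw.2)⟩
    have e2 : (fun x => w x • gr η x) = B.indicator (fun x => w x • gr η x) := by
      ext1 x
      by_cases hx : x ∈ B
      · rw [indicator_of_mem hx]
      · rw [indicator_of_notMem hx]
        have : gr η x = 0 := gr_eq_zero fun h => hx (hηs h)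
        simp [this]
    rw [e2, aestronglyMeasurable_indicator_iff hBm]
    exact hw.1.smul hη.gr_continuous.aestronglyMeasurable
  have memη : ∀ w : E → E, MemLp w 2 volume → MemLp (fun x => η x • w x) 2 volume := by
    intro w hw
    refine MemLp.of_le_mul (c := M) hw (hη.smooth.continuous.aestronglyMeasurable.smul hw.1)
      (Eventually.of_forall fun x => ?_)
    rw [norm_smul]
    exact mul_le_mul_of_nonneg_right (hM x) (norm_nonneg _)
  refine InV.of_approx ((memη g hg.memLp).add (mem _ (hu2.sub (memLp_const c₀)))) fun ε hε => ?_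
  have t : Tendsto (fun n => ENNReal.ofReal M * eLpNorm (g - gr (φ n)) 2 volume +
      ENNReal.ofReal M' * eLpNorm (fun x => u x - (φ n x - c n)) 2 (volume.restrict B))
      atTop (𝓝 (ENNReal.ofReal M * 0 + ENNReal.ofReal M' * 0)) :=
    (ENNReal.Tendsto.const_mul h1 (Or.inr (by simp))).add
      (ENNReal.Tendsto.const_mul h2 (Or.inr (by simp)))
  simp only [mul_zero, add_zero] at t
  obtain ⟨n, hn⟩ := ((tendsto_order.mp t).2 ε hε).exists
  have hT : Test (fun x => η x * (φ n x - c n - c₀)) :=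
    hη.mul_left (((hφ n).smooth.sub contDiff_const).sub contDiff_const)
  refine ⟨_, hT.inV, le_trans ?_ hn.le⟩
  have e3 : (fun x => η x • g x + (u x - c₀) • gr η x) - gr (fun x => η x * (φ n x - c n - c₀)) =
      (fun x => η x • (g - gr (φ n)) x) + fun x => (u x - (φ n x - c n)) • gr η x := by
    ext1 x
    simp only [Pi.sub_apply, Pi.add_apply]
    rw [gr_mul hη.differentiableAt (((hφ n).differentiableAt.sub_const _).sub_const _),
      gr_sub_const, gr_sub_const, smul_sub]
    have : (u x - c₀) • gr η x - (φ n x - c n - c₀) • gr η x =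
        (u x - (φ n x - c n)) • gr η x := by
      rw [← sub_smul]; congr 1; ring
    rw [← this]
    abel
  rw [e3]
  refine (eLpNorm_add_le (memη _ (hg.memLp.sub ((hφ n).gr_memLp 2))).1
    (mem _ (hu2.sub ((((hφ n).memLp 2).restrict _).sub (memLp_const _)))).1 (by norm_num)).trans ?_
  refine add_le_add ?_ (gen _ (hu2.sub ((((hφ n).memLp 2).restrict _).sub (memLp_const _))).1)
  refine eLpNorm_le_mul_eLpNorm_of_ae_le_mul (Eventually.of_forall fun x => ?_) 2
  rw [norm_smul]
  exact mul_le_mul_of_nonneg_right (hM x) (norm_nonneg _)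

/-- Potentials: every gradient field has a potential on a ball, with a Poincaré inequality. -/
theorem exists_pot {q : ℝ} (hq : 1 ≤ q) {R : ℝ} (hR : 0 < R) :
    ∃ C : ℝ≥0, ∀ g : E → E, Measurable g → InV g → ∃ u : E → ℝ, Measurable u ∧
      MemLp u 2 (volume.restrict (ball (0 : E) R)) ∧ PotLe u g (ball 0 R) ∧
      (∀ η : E → ℝ, Test η → tsupport η ⊆ ball 0 R →
        InV (fun x => η x • g x + u x • gr η x)) ∧
      ∫⁻ x in ball (0 : E) R, ‖u x‖ₑ ^ q ≤ C * ∫⁻ x in ball (0 : E) R, ‖g x‖ₑ ^ q := by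
  obtain ⟨C, hC⟩ := poincare (E := E) hq hR
  refine ⟨C, fun g hgm hg => ?_⟩
  obtain ⟨φ, c, u, h1, h2, h3, h4, h5⟩ := exists_approx hR hg
  have hp := potLe_limit hgm h1 h2 h4 h5
  obtain ⟨c₀, hc₀⟩ := hC u g h2 hgm hp
  have hfin : IsFiniteMeasure ((volume : Measure E).restrict (ball 0 R)) := ⟨by
    rw [Measure.restrict_apply_univ]; exact measure_ball_lt_top⟩
  refine ⟨fun x => u x - c₀, h2.sub_const _, h3.sub (memLp_const _), hp.sub_const c₀,
    fun η hη hs => cutoff_inV hg h1 h3 h4 h5 hη hs c₀, hc₀⟩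

end Pool.Agent.Lib.MP_a73848
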