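import Mathlib
import Pool.Agent.Lib.MP_a73848.Pot3

/-!
# MP_a73848_an: equations with a lower order term, translations
-/

set_option autoImplicit false
set_option linter.unusedSectionVars false

open MeasureTheory Metric Filter Topology Set
open scoped ContDiff ENNReal NNReal

namespace Pool.Agent.Lib.MP_a73848

variable {E : Type*} [NormedAddCommGroup E] [InnerProductSpace ℝ E] [FiniteDimensional ℝ E]
  [MeasurableSpace E] [BorelSpace E]

/-- `div (a (G - F)) = s`, `G` a gradient field -/
structure Fam (a : E → E →L[ℝ] E) (F : E → E) (s : E → ℝ) (G : E → E) : Prop where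
  memF : MemLp F 2 volume
  memS : MemLp s 2 volume
  inV : InV G
  eq : ∀ φ, Test φ →
    (∫ x, (inner ℝ (a x (G x - F x)) (gr φ x) : ℝ)) + (∫ x, s x * φ x) = 0

theorem integrable_mul_test {s φ : E → ℝ} (hs : MemLp s 2 volume) (hφ : Test φ) :
    Integrable (fun x => s x * φ x) volume := by
  have := MemLp.integrable_mul (p := 2) (q := 2) hs (hφ.memLp 2)
  exact this

theorem Fam.diff {K lam : ℝ} {a a' : E → E →L[ℝ] E} (ha : Coef K lam a) (ha' : Coef K lam a')
    {F : E → E} {s : E → ℝ} {G G' : E → E} (h : Fam a F s G) (h' : Fam a' F s G') :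
    Sol a (fun x => a' x (G' x - F x) - a x (G' x - F x)) (G - G') := by
  have m1 : MemLp (fun x => G' x - F x) 2 volume := h'.inV.memLp.sub h'.memF
  have m2 : MemLp (fun x => G x - F x) 2 volume := h.inV.memLp.sub h.memF
  refine ⟨(ha'.memLp m1).sub (ha.memLp m1), h.inV.sub h'.inV, fun φ hφ => ?_⟩
  have e : (fun x => (inner ℝ (a x ((G - G') x) - (a' x (G' x - F x) - a x (G' x - F x)))
      (gr φ x) : ℝ)) = fun x => inner ℝ (a x (G x - F x)) (gr φ x) -
        inner ℝ (a' x (G' x - F x)) (gr φ x) := by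
    ext x
    rw [← inner_sub_left]
    congr 1
    simp only [Pi.sub_apply, map_sub]
    abel
  rw [e, integral_sub (integrable_inner' (ha.memLp m2) (hφ.gr_memLp 2))
    (integrable_inner' (ha'.memLp m1) (hφ.gr_memLp 2))]
  have h1 := h.eq φ hφ
  have h2 := h'.eq φ hφ
  linarith

theorem Fam.shift {a : E → E →L[ℝ] E} {F : E → E} {s : E → ℝ} {G : E → E}
    (h : Fam a F s G) (k : E) :
    Fam (fun x => a (x + k)) (fun x => F (x + k)) (fun x => s (x + k)) (fun x => G (x + k)) := by
  refine ⟨memLp_comp_add h.memF k, memLp_comp_add h.memS k, h.inV.comp_add k, fun φ hφ => ?_⟩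
  have h1 := h.eq _ (hφ.comp_add (-k))
  rw [← integral_add_right_eq_self (μ := (volume : Measure E)) _ k,
    ← integral_add_right_eq_self (μ := (volume : Measure E)) (fun x => s x * _) k] at h1
  simp only [gr_comp_add, add_neg_cancel_right] at h1
  exact h1

theorem Fam.xdiff {K lam : ℝ} {a : E → E →L[ℝ] E} (ha : Coef K lam a)
    {F F' : E → E} {s s' : E → ℝ} {G G' : E → E} (h : Fam a F s G) (h' : Fam a F' s' G')
    {k : E → E} (hk : MemLp k 2 volume)
    (hks : ∀ φ, Test φ → ∫ x, (inner ℝ (k x) (gr φ x) : ℝ) =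
      (∫ x, s x * φ x) - (∫ x, s' x * φ x)) :
    Sol a (fun x => a x (F' x - F x) + k x) (G' - G) := by
  have m1 : MemLp (fun x => G' x - F' x) 2 volume := h'.inV.memLp.sub h'.memF
  have m2 : MemLp (fun x => G x - F x) 2 volume := h.inV.memLp.sub h.memF
  have m3 : MemLp (fun x => F' x - F x) 2 volume := h'.memF.sub h.memF
  refine ⟨(ha.memLp m3).add hk, h'.inV.sub h.inV, fun φ hφ => ?_⟩
  have e : (fun x => (inner ℝ (a x ((G' - G) x) - (a x (F' x - F x) + k x))
      (gr φ x) : ℝ)) = fun x => (inner ℝ (a x (G' x - F' x)) (gr φ x) -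
        inner ℝ (a x (G x - F x)) (gr φ x)) - inner ℝ (k x) (gr φ x) := by
    ext x
    rw [← inner_sub_left, ← inner_sub_left]
    congr 1
    simp only [Pi.sub_apply, map_sub]
    abel
  have i1 := integrable_inner' (ha.memLp m1) (hφ.gr_memLp 2)
  have i2 := integrable_inner' (ha.memLp m2) (hφ.gr_memLp 2)
  have i3 : Integrable (fun x => (inner ℝ (a x (G' x - F' x)) (gr φ x) -
        inner ℝ (a x (G x - F x)) (gr φ x) : ℝ)) volume := i1.sub i2
  rw [e, integral_sub i3 (integrable_inner' hk (hφ.gr_memLp 2)),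
    integral_sub i1 i2, hks φ hφ]
  have h1 := h.eq φ hφ
  have h2 := h'.eq φ hφ
  linarith

theorem Fam.exists {K lam : ℝ} (hlam : 0 < lam) {a a₀ : E → E →L[ℝ] E} (ha : Coef K lam a)
    (ha₀ : Coef K lam a₀) {F : E → E} {s : E → ℝ} {G₀ : E → E} (h : Fam a₀ F s G₀)
    (hm : Measurable G₀) :
    ∃ G, Measurable G ∧ Fam a F s G := by
  have m2 : MemLp (fun x => G₀ x - F x) 2 volume := h.inV.memLp.sub h.memF
  obtain ⟨w, hw1, hw2⟩ := exists_sol hlam ha
    (f := fun x => a₀ x (G₀ x - F x) - a x (G₀ x - F x)) ((ha₀.memLp m2).sub (ha.memLp m2))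
  refine ⟨G₀ + w, hm.add hw1.measurable, h.memF, h.memS, h.inV.add hw2.inV, fun φ hφ => ?_⟩
  have h1 := hw2.eq φ hφ
  have h2 := h.eq φ hφ
  have e : (fun x => (inner ℝ (a x ((G₀ + w) x - F x)) (gr φ x) : ℝ)) =
      fun x => inner ℝ (a x (w x) - (a₀ x (G₀ x - F x) - a x (G₀ x - F x))) (gr φ x) +
        inner ℝ (a₀ x (G₀ x - F x)) (gr φ x) := by
    ext x
    rw [← inner_add_left]
    congr 1
    simp only [Pi.add_apply, map_sub, map_add]
    abel
  rw [e, integral_add, h1, zero_add]
  · exact h2
  · exact integrable_inner' ((ha.memLp hw2.inV.memLp).sub ((ha₀.memLp m2).sub (ha.memLp m2)))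
      (hφ.gr_memLp 2)
  · exact integrable_inner' (ha₀.memLp m2) (hφ.gr_memLp 2)

/-- difference of translates as a divergence -/
theorem exists_k {s : E → ℝ} (hsm : Measurable s) (hs : Integrable s volume)
    (hs2 : MemLp s 2 volume) (h : E) :
    ∃ k : E → E, Measurable k ∧ MemLp k 2 volume ∧
      (∀ q : ℝ, 1 ≤ q → Iq q volume k ≤ ‖h‖ₑ ^ q * Iq q volume s) ∧
      ∀ φ, Test φ → ∫ x, (inner ℝ (k x) (gr φ x) : ℝ) =
        (∫ x, s x * φ x) - (∫ x, s (x + h) * φ x) := by
  have hj : Measurable (fun p : E × ℝ => s (p.1 + p.2 • h)) :=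
    hsm.comp (measurable_fst.add (measurable_snd.smul_const h))
  set I : E → ℝ := fun x => ∫ t in Ioo (0 : ℝ) 1, s (x + t • h) with hI
  have hIm : Measurable I := by
    have : StronglyMeasurable I :=
      StronglyMeasurable.integral_prod_right (f := fun x t => s (x + t • h))
        hj.stronglyMeasurable
    exact this.measurable
  have hk : Measurable (fun x => I x • h) := hIm.smul_const h
  have hb : ∀ x, ‖I x • h‖ₑ ≤ ‖h‖ₑ * lineI s h x := by
    intro x
    rw [enorm_smul, mul_comm]
    exact mul_le_mul' le_rfl (enorm_integral_le_lintegral_enorm _)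
  have hq : ∀ q : ℝ, 1 ≤ q → Iq q volume (fun x => I x • h) ≤ ‖h‖ₑ ^ q * Iq q volume s := by
    intro q hq
    have hq0 : 0 ≤ q := by linarith
    calc Iq q volume (fun x => I x • h) ≤ ∫⁻ x, ‖h‖ₑ ^ q * lineI s h x ^ q := by
          refine lintegral_mono fun x => ?_
          rw [← ENNReal.mul_rpow_of_nonneg _ _ hq0]
          exact ENNReal.rpow_le_rpow (hb x) hq0
      _ = ‖h‖ₑ ^ q * ∫⁻ x, lineI s h x ^ q := by
          rw [lintegral_const_mul' _ _ (ENNReal.rpow_ne_top_of_nonneg hq0 (by simp))]
      _ ≤ _ := by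
          refine mul_le_mul' le_rfl ?_
          have := lineI_pow hq hsm h (S := univ) (B := univ) MeasurableSet.univ
            (fun _ _ _ _ => mem_univ _) MeasurableSet.univ
          simpa [Iq] using this
  have hk2 : MemLp (fun x => I x • h) 2 volume := by
    refine ⟨hk.aestronglyMeasurable, ?_⟩
    have h1 := hq 2 (by norm_num)
    rw [Iq_two, Iq_two] at h1
    have h2 : ‖h‖ₑ ^ (2 : ℝ) * eLpNorm s 2 volume ^ (2 : ℝ) < ⊤ :=
      ENNReal.mul_lt_top (ENNReal.rpow_lt_top_of_nonneg (by norm_num) (by simp))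
        (ENNReal.rpow_lt_top_of_nonneg (by norm_num) hs2.2.ne)
    have h3 := h1.trans_lt h2
    by_contra hc
    rw [not_lt, top_le_iff] at hc
    rw [hc, ENNReal.top_rpow_of_pos (by norm_num)] at h3
    exact lt_irrefl _ h3
  refine ⟨fun x => I x • h, hk, hk2, hq, fun φ hφ => ?_⟩
  obtain ⟨M, hM0, hM⟩ := exists_bound_of_compact hφ.gr_continuous hφ.gr_compact
  -- joint integrability
  set ν := (volume : Measure ℝ).restrict (Ioo (0 : ℝ) 1) with hν
  have hfin : IsFiniteMeasure ν := ⟨by simp [hν]⟩
  have hji : Integrable (fun p : E × ℝ => s (p.1 + p.2 • h)) (volume.prod ν) := by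
    rw [integrable_prod_iff' hj.aestronglyMeasurable]
    refine ⟨Eventually.of_forall fun t => hs.comp_add_right (t • h), ?_⟩
    have : (fun t : ℝ => ∫ x, ‖s (x + t • h)‖) = fun _ : ℝ => ∫ x, ‖s x‖ := by
      ext t
      exact integral_add_right_eq_self (fun x => ‖s x‖) (t • h)
    rw [this]
    exact integrable_const _
  have hgc : Continuous (fun x => (inner ℝ h (gr φ x) : ℝ)) := by
    have := hφ.gr_continuous
    fun_prop
  have hji2 : Integrable (fun p : E × ℝ => s (p.1 + p.2 • h) * inner ℝ h (gr φ p.1))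
      (volume.prod ν) := by
    refine hji.mul_bdd (c := ‖h‖ * M) (hgc.comp continuous_fst).aestronglyMeasurable ?_
    refine Eventually.of_forall fun p => ?_
    rw [Real.norm_eq_abs]
    exact (abs_real_inner_le_norm _ _).trans (mul_le_mul_of_nonneg_left (hM _) (norm_nonneg _))
  calc ∫ x, (inner ℝ (I x • h) (gr φ x) : ℝ)
      = ∫ x, ∫ t, s (x + t • h) * inner ℝ h (gr φ x) ∂ν := by
        refine integral_congr_ae (Eventually.of_forall fun x => ?_)
        simp only [inner_smul_left, hI]
        rw [integral_mul_const]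
        simp
    _ = ∫ t, (∫ x, s (x + t • h) * inner ℝ h (gr φ x)) ∂ν := by
        rw [integral_integral_swap hji2]
    _ = ∫ t, (∫ x, s x * inner ℝ h (gr φ (x - t • h))) ∂ν := by
        refine integral_congr_ae (Eventually.of_forall fun t => ?_)
        show ∫ x, s (x + t • h) * inner ℝ h (gr φ x) = ∫ x, s x * inner ℝ h (gr φ (x - t • h))
        rw [← integral_add_right_eq_self (fun x => s x * inner ℝ h (gr φ (x - t • h))) (t • h)]
        simp
    _ = ∫ x, ∫ t, s x * inner ℝ h (gr φ (x - t • h)) ∂ν := by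
        rw [integral_integral_swap]
        have h1 : Integrable (fun p : ℝ × E => s p.2) (ν.prod volume) :=
          hs.comp_snd ν
        refine h1.mul_bdd (c := ‖h‖ * M) ?_ ?_
        · refine Continuous.aestronglyMeasurable ?_
          have : Continuous fun p : ℝ × E => p.2 - p.1 • h := by fun_prop
          exact hgc.comp this
        · refine Eventually.of_forall fun p => ?_
          rw [Real.norm_eq_abs]
          exact (abs_real_inner_le_norm _ _).trans
            (mul_le_mul_of_nonneg_left (hM _) (norm_nonneg _))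
    _ = ∫ x, (s x * φ x - s x * φ (x - h)) := by
        refine integral_congr_ae (Eventually.of_forall fun x => ?_)
        simp only
        rw [integral_const_mul]
        have hd : ∀ t : ℝ, HasDerivAt (fun t : ℝ => - φ (x - t • h))
            (inner ℝ h (gr φ (x - t • h))) t := by
          intro t
          have h1 : HasDerivAt (fun t : ℝ => x - t • h) (-h) t := by
            have := ((hasDerivAt_id t).smul_const h).const_sub x
            simpa using this
          have h2 := ((hφ.differentiable (x - t • h)).hasFDerivAt.comp_hasDerivAt t h1).neg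
          rw [inner_gr']
          refine h2.congr_deriv ?_
          simp
        have hc : Continuous (fun t : ℝ => (inner ℝ h (gr φ (x - t • h)) : ℝ)) := by
          have : Continuous fun t : ℝ => x - t • h := by fun_prop
          exact hgc.comp this
        have h3 := intervalIntegral.integral_eq_sub_of_hasDerivAt (fun t _ => hd t)
          (hc.intervalIntegrable 0 1)
        rw [intervalIntegral.integral_of_le zero_le_one, integral_Ioc_eq_integral_Ioo] at h3
        rw [hν, h3]
        simp only [one_smul, zero_smul, sub_zero]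
        ring
    _ = (∫ x, s x * φ x) - (∫ x, s x * φ (x - h)) := by
        rw [integral_sub (integrable_mul_test hs2 hφ)]
        have := integrable_mul_test hs2 (hφ.comp_add (-h))
        simpa [sub_eq_add_neg] using this
    _ = (∫ x, s x * φ x) - (∫ x, s (x + h) * φ x) := by
        rw [← integral_add_right_eq_self (fun x => s x * φ (x - h)) h]
        simp

end Pool.Agent.Lib.MP_a73848
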