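import Mathlib
import Pool.Agent.Lib.MP_a73848.Fam

/-!
# MP_a73848_an: localisation
-/

set_option autoImplicit false
set_option linter.unusedSectionVars false

open MeasureTheory Metric Filter Topology Set
open scoped ContDiff ENNReal NNReal

namespace Pool.Agent.Lib.MP_a73848

variable {E : Type*} [NormedAddCommGroup E] [InnerProductSpace ℝ E] [FiniteDimensional ℝ E]
  [MeasurableSpace E] [BorelSpace E]

theorem Coef.measurable_apply {K lam : ℝ} {a : E → E →L[ℝ] E} (ha : Coef K lam a) {g : E → E}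
    (hg : Measurable g) : Measurable (fun x => a x (g x)) := by
  have h1 : StronglyMeasurable (fun x => a x (g x)) :=
    isBoundedBilinearMap_apply.continuous.comp_stronglyMeasurable
      (ha.meas.prodMk hg.stronglyMeasurable)
  exact h1.measurable

/-- A cutoff function. -/
theorem exists_cutoff {ρ₁ : ℝ} (h1 : 1 < ρ₁) : ∃ η : E → ℝ, Test η ∧
    tsupport η ⊆ closedBall 0 ρ₁ ∧ (∀ x, 0 ≤ η x ∧ η x ≤ 1) ∧ (∀ x ∈ ball (0 : E) 1, η x = 1) ∧
    (∀ x ∈ ball (0 : E) 1, gr η x = 0) ∧ ∃ L : ℝ≥0, LipschitzWith L (gr η) := by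
  let b : ContDiffBump (0 : E) := ⟨1, ρ₁, one_pos, h1⟩
  have hT : Test (b : E → ℝ) := ⟨b.contDiff, b.hasCompactSupport⟩
  have h1 : ∀ x ∈ ball (0 : E) 1, b x = 1 := fun x hx =>
    b.one_of_mem_closedBall (ball_subset_closedBall hx)
  refine ⟨b, hT, ?_, fun x => ⟨b.nonneg, b.le_one⟩, h1, fun x hx => ?_, ?_⟩
  · rw [b.tsupport_eq]
  · have h2 : (b : E → ℝ) =ᶠ[𝓝 x] fun _ => (1 : ℝ) := by
      filter_upwards [isOpen_ball.mem_nhds hx] with y hy using h1 y hy
    simp only [gr]
    rw [h2.fderiv_eq]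
    simp
  · exact ContDiff.lipschitzWith_of_hasCompactSupport (𝕂 := ℝ) hT.gr_compact
      (gr_contDiff hT.smooth) (by simp)

/-- From a local solution to an equation on the whole space. -/
theorem cutoff_fam {q : ℝ} (hq : 2 ≤ q) {ρ₁ ρ₂ : ℝ} (h1 : 1 < ρ₁) (h12 : ρ₁ < ρ₂) (K : ℝ) :
    ∃ C : ℝ≥0, ∀ (lam : ℝ) (a : E → E →L[ℝ] E), Coef K lam a → ∀ g : E → E, Measurable g →
      LocSol a (ball 0 ρ₂) g → ∃ (F : E → E) (s : E → ℝ) (G₀ : E → E),
        Measurable F ∧ Measurable s ∧ Measurable G₀ ∧ Fam a F s G₀ ∧ Integrable s volume ∧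
        (∀ x ∈ ball (0 : E) 1, G₀ x = g x) ∧
        Iq q volume G₀ ≤ C * Iq q (volume.restrict (ball 0 ρ₂)) g ∧
        Iq q volume F ≤ C * Iq q (volume.restrict (ball 0 ρ₂)) g ∧
        Iq q volume s ≤ C * Iq q (volume.restrict (ball 0 ρ₂)) g ∧
        ∀ h : E, ‖h‖ < ρ₂ - ρ₁ → Iq q volume (fun x => F (x + h) - F x) ≤
          C * ‖h‖ₑ ^ q * Iq q (volume.restrict (ball 0 ρ₂)) g := by
  have hq1 : 1 ≤ q := by linarith
  have hq0 : 0 ≤ q := by linarith
  have hρ₂ : 0 < ρ₂ := by linarith
  obtain ⟨η, hη, hηs, hη01, hη1, hη2, L, hL⟩ := exists_cutoff (E := E) h1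
  obtain ⟨CP, hCP⟩ := exists_pot (E := E) hq1 hρ₂
  obtain ⟨M', hM0', hM'⟩ := exists_bound_of_compact hη.gr_continuous hη.gr_compact
  set B : Set E := ball 0 ρ₂ with hB
  have hBm : MeasurableSet B := measurableSet_ball
  have hsub : tsupport η ⊆ B := hηs.trans (closedBall_subset_ball h12)
  have hg0 : ∀ x, x ∉ B → gr η x = 0 := fun x hx => gr_eq_zero fun h => hx (hsub h)
  have hη0 : ∀ x, x ∉ B → η x = 0 := fun x hx => image_eq_zero_of_notMem_tsupport
    fun h => hx (hsub h)
  -- the constants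
  set m : ℝ≥0∞ := ENNReal.ofReal M' with hm
  have hmt : m ^ q ≠ ⊤ := ENNReal.rpow_ne_top_of_nonneg hq0 (by simp [hm])
  set c1 : ℝ≥0∞ := m ^ q * CP with hc1
  set c2 : ℝ≥0∞ := 2 ^ (q - 1) * (1 + c1) with hc2
  set c3 : ℝ≥0∞ := (ENNReal.ofReal K * m) ^ q with hc3
  set c4 : ℝ≥0∞ := 2 ^ (q - 1) * ((L : ℝ≥0∞) ^ q * CP + m ^ q) with hc4
  have h2t : (2 : ℝ≥0∞) ^ (q - 1) ≠ ⊤ := ENNReal.rpow_ne_top_of_nonneg (by linarith) (by simp)
  have hc1t : c1 ≠ ⊤ := ENNReal.mul_ne_top hmt (by simp)
  have hc2t : c2 ≠ ⊤ := ENNReal.mul_ne_top h2t (by simp [hc1t])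
  have hc3t : c3 ≠ ⊤ := ENNReal.rpow_ne_top_of_nonneg hq0 (ENNReal.mul_ne_top (by simp) (by simp [hm]))
  have hc4t : c4 ≠ ⊤ := ENNReal.mul_ne_top h2t (ENNReal.add_ne_top.mpr
    ⟨ENNReal.mul_ne_top (ENNReal.rpow_ne_top_of_nonneg hq0 (by simp)) (by simp), hmt⟩)
  set C : ℝ≥0∞ := c1 + c2 + c3 + c4 with hC
  have hCt : C ≠ ⊤ := by simp [hC, hc1t, hc2t, hc3t, hc4t]
  have l1 : c1 ≤ C := by rw [hC, add_assoc, add_assoc]; exact le_self_add
  have l2 : c2 ≤ C := by
    rw [hC, add_comm c1 c2, add_assoc, add_assoc]; exact le_self_add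
  have l3 : c3 ≤ C := by rw [hC, add_assoc, add_comm c3 c4, ← add_assoc]; exact le_add_self
  have l4 : c4 ≤ C := by rw [hC]; exact le_add_self
  refine ⟨C.toNNReal, fun lam a ha g hgm hg => ?_⟩
  rw [ENNReal.coe_toNNReal hCt]
  set J := Iq q (volume.restrict B) g with hJ
  obtain ⟨u, hum, hu2, hup, huV, huq⟩ := hCP g hgm hg.inV
  have hK : 0 ≤ K := (norm_nonneg _).trans (ha.bound 0)
  -- truncated potential
  set ub : E → ℝ := B.indicator u with hub
  have hubm : Measurable ub := hum.indicator hBm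
  have hub2 : MemLp ub 2 volume := (memLp_indicator_iff_restrict hBm).mpr hu2
  have hubq : Iq q volume ub ≤ CP * J := by
    have : Iq q volume ub = ∫⁻ x in B, ‖u x‖ₑ ^ q := by
      rw [← lintegral_indicator hBm]
      refine lintegral_congr fun x => ?_
      by_cases hx : x ∈ B
      · rw [hub, indicator_of_mem hx, indicator_of_mem hx]
      · rw [hub, indicator_of_notMem hx, indicator_of_notMem hx, enorm_zero,
          ENNReal.zero_rpow_of_pos (by linarith)]
    rw [this]
    exact huq
  have hgb : Iq q volume (B.indicator g) = J := by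
    rw [hJ]
    unfold Iq
    rw [← lintegral_indicator hBm]
    refine lintegral_congr fun x => ?_
    by_cases hx : x ∈ B
    · rw [indicator_of_mem hx, indicator_of_mem hx]
    · rw [indicator_of_notMem hx, indicator_of_notMem hx, enorm_zero,
        ENNReal.zero_rpow_of_pos (by linarith)]
  set F : E → E := fun x => u x • gr η x with hF
  set s : E → ℝ := fun x => inner ℝ (a x (g x)) (gr η x) with hs
  set G₀ : E → E := fun x => η x • g x + u x • gr η x with hG₀
  have hFm : Measurable F := hum.smul hη.gr_continuous.measurable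
  have hsm : Measurable s := (ha.measurable_apply hgm).inner hη.gr_continuous.measurable
  have hG₀m : Measurable G₀ :=
    (hη.smooth.continuous.measurable.smul hgm).add hFm
  have hFub : ∀ x, F x = ub x • gr η x := by
    intro x
    by_cases hx : x ∈ B
    · simp only [hF, hub]; rw [indicator_of_mem hx]
    · simp only [hF]; rw [hg0 x hx]; simp
  have hF2 : MemLp F 2 volume := by
    refine MemLp.of_le_mul (c := M') hub2 hFm.aestronglyMeasurable
      (Eventually.of_forall fun x => ?_)
    rw [hFub, norm_smul, mul_comm]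
    exact mul_le_mul_of_nonneg_right (hM' x) (norm_nonneg _)
  have hs2 : MemLp s 2 volume := by
    refine MemLp.of_le_mul (c := K * M') hg.inV.memLp hsm.aestronglyMeasurable
      (Eventually.of_forall fun x => ?_)
    rw [Real.norm_eq_abs]
    refine (abs_real_inner_le_norm _ _).trans ?_
    calc ‖a x (g x)‖ * ‖gr η x‖ ≤ (K * ‖g x‖) * M' := by
          refine mul_le_mul ?_ (hM' x) (norm_nonneg _) (by positivity)
          exact ((a x).le_opNorm _).trans (mul_le_mul_of_nonneg_right (ha.bound x) (norm_nonneg _))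
      _ = K * M' * ‖g x‖ := by ring
  have hsi : Integrable s volume := by
    have h3 : IntegrableOn s B volume := by
      have hfin : IsFiniteMeasure ((volume : Measure E).restrict B) := ⟨by
        rw [Measure.restrict_apply_univ]; exact measure_ball_lt_top⟩
      exact (hs2.restrict B).integrable (by norm_num)
    refine (integrableOn_iff_integrable_of_support_subset ?_).mp h3
    intro x hx
    by_contra hc
    apply hx
    simp only [hs]
    rw [hg0 x hc]
    simp
  have hη2' : ∀ w : E → E, MemLp w 2 volume → MemLp (fun x => η x • w x) 2 volume := by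
    intro w hw
    refine MemLp.of_le_mul (c := 1) hw (hη.smooth.continuous.aestronglyMeasurable.smul hw.1)
      (Eventually.of_forall fun x => ?_)
    rw [norm_smul, Real.norm_eq_abs, abs_of_nonneg (hη01 x).1]
    exact mul_le_mul_of_nonneg_right (hη01 x).2 (norm_nonneg _)
  have hηg : Iq q volume (fun x => η x • g x) ≤ J := by
    rw [← hgb]
    refine Iq_mono hq0 (Eventually.of_forall fun x => ?_)
    by_cases hx : x ∈ B
    · rw [indicator_of_mem hx, enorm_smul]
      refine mul_le_of_le_one_left' ?_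
      rw [Real.enorm_eq_ofReal (hη01 x).1]
      exact ENNReal.ofReal_le_one.mpr (hη01 x).2
    · rw [indicator_of_notMem hx, hη0 x hx]
      simp
  have hFq : Iq q volume F ≤ c1 * J := by
    have h3 : Iq q volume F ≤ m ^ q * Iq q volume ub := by
      refine Iq_mono_le hq0 m (by simp [hm]) (Eventually.of_forall fun x => ?_)
      rw [hFub, enorm_smul, mul_comm]
      refine mul_le_mul' ?_ le_rfl
      rw [← ofReal_norm]
      exact ENNReal.ofReal_le_ofReal (hM' x)
    refine h3.trans ?_
    rw [hc1, mul_assoc]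
    exact mul_le_mul' le_rfl hubq
  refine ⟨F, s, G₀, hFm, hsm, hG₀m, ⟨hF2, hs2, huV η hη hsub, fun φ hφ => ?_⟩, hsi, ?_, ?_, ?_,
    ?_, ?_⟩
  · -- the equation
    have hηφ : Test (fun x => η x * φ x) := hη.mul_left hφ.smooth
    have hts : tsupport (fun x => η x * φ x) ⊆ B :=
      (tsupport_mul_subset_left (f := η) (g := φ)).trans hsub
    have h3 := hg.eq _ hηφ hts
    have e1 : (fun x => (inner ℝ (a x (G₀ x - F x)) (gr φ x) : ℝ)) =
        fun x => inner ℝ (a x (η x • g x)) (gr φ x) := by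
      ext x
      simp [hG₀, hF]
    have e2 : (fun x => (inner ℝ (a x (g x)) (gr (fun y => η y * φ y) x) : ℝ)) =
        fun x => inner ℝ (a x (η x • g x)) (gr φ x) + s x * φ x := by
      ext x
      rw [gr_mul hη.differentiableAt hφ.differentiableAt]
      simp only [map_smul, inner_add_right, inner_smul_right, inner_smul_left, hs]
      simp
      ring
    rw [e2, integral_add (integrable_inner' (ha.memLp (hη2' g hg.inV.memLp)) (hφ.gr_memLp 2))
      (integrable_mul_test hs2 hφ)] at h3
    rw [e1]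
    exact h3
  · intro x hx
    simp only [hG₀]
    rw [hη1 x hx, hη2 x hx]
    simp
  · calc Iq q volume G₀ ≤ 2 ^ (q - 1) * (Iq q volume (fun x => η x • g x) + Iq q volume F) :=
          Iq_add_le hq1 (hη.smooth.continuous.measurable.smul hgm).aestronglyMeasurable
      _ ≤ 2 ^ (q - 1) * (J + c1 * J) := by gcongr
      _ = c2 * J := by rw [hc2]; ring
      _ ≤ C * J := mul_le_mul' l2 le_rfl
  · exact hFq.trans (mul_le_mul' l1 le_rfl)
  · refine le_trans ?_ (mul_le_mul' l3 le_rfl)
    rw [hc3, ← hgb]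
    refine Iq_mono_le hq0 _ (ENNReal.mul_ne_top (by simp) (by simp [hm]))
      (Eventually.of_forall fun x => ?_)
    by_cases hx : x ∈ B
    · rw [indicator_of_mem hx]
      simp only [hs]
      rw [Real.enorm_eq_ofReal_abs, ← ofReal_norm (g x), hm,
        ← ENNReal.ofReal_mul hK, ← ENNReal.ofReal_mul (by positivity)]
      refine ENNReal.ofReal_le_ofReal ((abs_real_inner_le_norm _ _).trans ?_)
      calc ‖a x (g x)‖ * ‖gr η x‖ ≤ (K * ‖g x‖) * M' := by
            refine mul_le_mul ?_ (hM' x) (norm_nonneg _) (by positivity)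
            exact ((a x).le_opNorm _).trans
              (mul_le_mul_of_nonneg_right (ha.bound x) (norm_nonneg _))
        _ = K * M' * ‖g x‖ := by ring
    · simp only [hs]
      rw [hg0 x hx]
      simp
  · intro h hh
    have hS : MeasurableSet {x | x ∈ B ∧ x + h ∈ B} :=
      hBm.inter (hBm.preimage (measurable_id.add_const h))
    set D : E → ℝ := ({x | x ∈ B ∧ x + h ∈ B} : Set E).indicator (fun x => u (x + h) - u x)
      with hD
    have hDm : Measurable D := ((hum.comp (measurable_id.add_const h)).sub hum).indicator hS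
    have pt : ∀ x, ‖F (x + h) - F x‖ₑ ≤
        ‖ub (x + h) • (L : ℝ) • h‖ₑ + ‖D x • (M' • (1 : ℝ))‖ₑ := by
      intro x
      have hcase : (x ∈ B ∧ x + h ∈ B) ∨ (gr η x = 0 ∧ gr η (x + h) = 0) := by
        by_cases hx : x ∈ tsupport η
        · left
          have hx1 := hηs hx
          rw [mem_closedBall_zero_iff] at hx1
          refine ⟨hsub hx, ?_⟩
          rw [hB, mem_ball_zero_iff]
          calc ‖x + h‖ ≤ ‖x‖ + ‖h‖ := norm_add_le _ _
            _ < ρ₂ := by linarith
        · by_cases hx' : x + h ∈ tsupport η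
          · left
            have hx1 := hηs hx'
            rw [mem_closedBall_zero_iff] at hx1
            refine ⟨?_, hsub hx'⟩
            rw [hB, mem_ball_zero_iff]
            calc ‖x‖ = ‖(x + h) - h‖ := by simp
              _ ≤ ‖x + h‖ + ‖h‖ := norm_sub_le _ _
              _ < ρ₂ := by linarith
          · right
            exact ⟨gr_eq_zero hx, gr_eq_zero hx'⟩
      rcases hcase with ⟨hx1, hx2⟩ | ⟨hx1, hx2⟩
      · have e1 : F (x + h) - F x = ub (x + h) • (gr η (x + h) - gr η x) + D x • gr η x := by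
          simp only [hF, hub, hD]
          rw [indicator_of_mem hx2, indicator_of_mem (show x ∈ {x | x ∈ B ∧ x + h ∈ B} from
            ⟨hx1, hx2⟩), smul_sub, sub_smul]
          abel
        rw [e1]
        refine (enorm_add_le _ _).trans (add_le_add ?_ ?_)
        · rw [enorm_smul, enorm_smul]
          refine mul_le_mul' le_rfl ?_
          rw [← ofReal_norm, ← ofReal_norm]
          refine ENNReal.ofReal_le_ofReal ?_
          rw [norm_smul]
          have := hL.dist_le_mul (x + h) x
          rw [dist_eq_norm, dist_eq_norm] at this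
          simpa using this
        · rw [enorm_smul, enorm_smul]
          refine mul_le_mul' le_rfl ?_
          rw [← ofReal_norm, ← ofReal_norm]
          refine ENNReal.ofReal_le_ofReal ?_
          simpa [abs_of_nonneg hM0'] using hM' x
      · simp only [hF]
        rw [hx1, hx2]
        simp
    calc Iq q volume (fun x => F (x + h) - F x)
        ≤ ∫⁻ x, (‖ub (x + h) • (L : ℝ) • h‖ₑ + ‖D x • (M' • (1 : ℝ))‖ₑ) ^ q :=
          lintegral_mono fun x => ENNReal.rpow_le_rpow (pt x) hq0
      _ ≤ ∫⁻ x, 2 ^ (q - 1) * (((L : ℝ≥0∞) ^ q * ‖h‖ₑ ^ q) * ‖ub (x + h)‖ₑ ^ q +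
            m ^ q * ‖D x‖ₑ ^ q) := by
          refine lintegral_mono fun x => ?_
          refine (ENNReal.rpow_add_le_mul_rpow_add_rpow _ _ hq1).trans (le_of_eq ?_)
          congr 1
          rw [enorm_smul, enorm_smul, enorm_smul, enorm_smul,
            ENNReal.mul_rpow_of_nonneg _ _ hq0, ENNReal.mul_rpow_of_nonneg _ _ hq0,
            ENNReal.mul_rpow_of_nonneg _ _ hq0]
          have e2 : ‖(L : ℝ)‖ₑ = (L : ℝ≥0∞) := by
            rw [← ofReal_norm, NNReal.norm_eq, ENNReal.ofReal_coe_nnreal]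
          have e3 : ‖M'‖ₑ * ‖(1 : ℝ)‖ₑ = m := by
            rw [Real.enorm_eq_ofReal hM0', hm]; simp
          rw [e2, e3]
          ring
      _ = 2 ^ (q - 1) * (((L : ℝ≥0∞) ^ q * ‖h‖ₑ ^ q) * Iq q volume ub +
            m ^ q * Iq q volume D) := by
          have m1 : Measurable (fun x => ‖ub (x + h)‖ₑ ^ q) :=
            (hubm.comp (measurable_id.add_const h)).enorm.pow_const q
          have m2 : Measurable (fun x => ‖D x‖ₑ ^ q) := hDm.enorm.pow_const q
          have m12 : Measurable (fun x => ((L : ℝ≥0∞) ^ q * ‖h‖ₑ ^ q) * ‖ub (x + h)‖ₑ ^ q +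
              m ^ q * ‖D x‖ₑ ^ q) := (m1.const_mul _).add (m2.const_mul _)
          rw [lintegral_const_mul _ m12,
            lintegral_add_left (m1.const_mul _), lintegral_const_mul _ m1,
            lintegral_const_mul _ m2]
          congr 3
          exact Iq_comp_add q ub h
      _ ≤ 2 ^ (q - 1) * (((L : ℝ≥0∞) ^ q * ‖h‖ₑ ^ q) * (CP * J) +
            m ^ q * (‖h‖ₑ ^ q * J)) := by
          have hDq : Iq q volume D ≤ ‖h‖ₑ ^ q * J := by
            have : Iq q volume D = ∫⁻ x in {x | x ∈ B ∧ x + h ∈ B}, ‖u (x + h) - u x‖ₑ ^ q := by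
              rw [← lintegral_indicator hS]
              refine lintegral_congr fun x => ?_
              by_cases hx : x ∈ {x | x ∈ B ∧ x + h ∈ B}
              · rw [hD, indicator_of_mem hx, indicator_of_mem hx]
              · rw [hD, indicator_of_notMem hx, indicator_of_notMem hx, enorm_zero,
                  ENNReal.zero_rpow_of_pos (by linarith)]
            rw [this]
            exact potLe_pow hq1 hgm (convex_ball 0 ρ₂) hBm hup h
          gcongr
      _ = c4 * ‖h‖ₑ ^ q * J := by rw [hc4]; ring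
      _ ≤ C * ‖h‖ₑ ^ q * J := by gcongr

end Pool.Agent.Lib.MP_a73848
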