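import Mathlib
import Pool.Agent.Lib.MP_a73848.Cut
import Pool.Agent.Lib.MP_a73848.AdmDef

/-!
# MP_a73848_an: the class of coefficients and the lifted family
-/

set_option autoImplicit false
set_option linter.unusedSectionVars false

open MeasureTheory Metric Filter Topology Set
open scoped ContDiff ENNReal NNReal

namespace Pool.Agent.Lib.MP_a73848

variable {E : Type*} [NormedAddCommGroup E] [InnerProductSpace ℝ E] [FiniteDimensional ℝ E]
  [MeasurableSpace E] [BorelSpace E]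
variable {𝕋 : Type*} [NormedAddCommGroup 𝕋]

/-- the coefficient field on the leaf through `θ` -/
def leaf (A : 𝕋 → E →L[ℝ] E) (ι : E →+ 𝕋) (θ : 𝕋) (x : E) : E →L[ℝ] E := A (θ + ι x)

theorem Adm.continuous {K lam L gam : ℝ} (hgam : 0 < gam) {A : 𝕋 → E →L[ℝ] E}
    (hA : Adm K lam L gam A) : Continuous A := by
  rw [continuous_iff_continuousAt]
  intro θ
  rw [ContinuousAt, tendsto_iff_norm_sub_tendsto_zero]
  have h1 : Tendsto (fun θ' => L * ‖θ' - θ‖ ^ gam) (𝓝 θ) (𝓝 (L * 0)) := by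
    refine Tendsto.const_mul L ?_
    have h2 : Tendsto (fun θ' => ‖θ' - θ‖) (𝓝 θ) (𝓝 0) := by
      have : Continuous fun θ' : 𝕋 => ‖θ' - θ‖ := by fun_prop
      simpa using this.tendsto θ
    have h3 := h2.rpow_const (p := gam) (Or.inr hgam.le)
    rwa [Real.zero_rpow hgam.ne'] at h3
  rw [mul_zero] at h1
  exact squeeze_zero (fun _ => norm_nonneg _) (fun θ' => hA.hol θ' θ) h1

theorem Adm.coef {K lam L gam : ℝ} (hgam : 0 < gam) {A : 𝕋 → E →L[ℝ] E}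
    (hA : Adm K lam L gam A) {ι : E →+ 𝕋} (hι : Continuous ι) (θ : 𝕋) :
    Coef K lam (leaf A ι θ) := by
  refine ⟨?_, fun x => hA.bound _, fun x ξ => hA.ell _ ξ⟩
  have : Continuous (leaf A ι θ) := (hA.continuous hgam).comp (continuous_const.add hι)
  exact this.stronglyMeasurable

theorem Adm.translate {K lam L gam : ℝ} {A : 𝕋 → E →L[ℝ] E}
    (hA : Adm K lam L gam A) (θ₀ : 𝕋) : Adm K lam L gam (fun θ => A (θ₀ + θ)) := by
  refine ⟨fun θ => hA.bound _, fun θ ξ => hA.ell _ ξ, fun θ θ' => ?_⟩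
  have := hA.hol (θ₀ + θ) (θ₀ + θ')
  simpa using this

/-- global `L^q` estimate, uniformly over the class -/
def HH (𝕋 E : Type*) [NormedAddCommGroup E] [InnerProductSpace ℝ E] [FiniteDimensional ℝ E]
    [MeasurableSpace E] [BorelSpace E] [NormedAddCommGroup 𝕋] (K lam L gam q : ℝ) : Prop :=
  ∃ C : ℝ≥0, ∀ A : 𝕋 → E →L[ℝ] E, Adm K lam L gam A → ∀ ι : E →+ 𝕋, Continuous ι →
    ∀ (θ : 𝕋) (f g : E → E), Sol (leaf A ι θ) f g → Iq q volume g ≤ C * Iq q volume f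

theorem HH_two {K lam L gam : ℝ} (hlam : 0 < lam) (hgam : 0 < gam) :
    HH 𝕋 E K lam L gam 2 := by
  refine ⟨(ENNReal.ofReal (1 / lam) ^ (2 : ℝ)).toNNReal, fun A hA ι hι θ f g h => ?_⟩
  rw [ENNReal.coe_toNNReal (ENNReal.rpow_ne_top_of_nonneg (by norm_num) (by simp)), Iq_two, Iq_two,
    ← ENNReal.mul_rpow_of_nonneg _ _ (by norm_num)]
  exact ENNReal.rpow_le_rpow (h.energy hlam (hA.coef hgam hι θ)) (by norm_num)

theorem enorm_rpow_eq {x y : ℝ} (hx : 0 ≤ x) (hy : 0 ≤ y) :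
    ENNReal.ofReal (x ^ y) = ENNReal.ofReal x ^ y := by
  rw [ENNReal.ofReal_rpow_of_nonneg hx hy]

theorem leaf_diff_le {K lam L gam : ℝ} (hL : 0 ≤ L) (hgam : 0 ≤ gam) {A : 𝕋 → E →L[ℝ] E}
    (hA : Adm K lam L gam A) (ι : E →+ 𝕋) (θ θ' : 𝕋) (x v : E) :
    ‖leaf A ι θ' x v - leaf A ι θ x v‖ₑ ≤
      (ENNReal.ofReal L * ‖θ - θ'‖ₑ ^ gam) * ‖v‖ₑ := by
  have h1 : ‖leaf A ι θ' x v - leaf A ι θ x v‖ ≤ (L * ‖θ - θ'‖ ^ gam) * ‖v‖ := by
    have h2 := hA.hol (θ' + ι x) (θ + ι x)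
    have e : θ' + ι x - (θ + ι x) = θ' - θ := by abel
    rw [e, norm_sub_rev θ' θ] at h2
    have h3 : leaf A ι θ' x v - leaf A ι θ x v = (A (θ' + ι x) - A (θ + ι x)) v := rfl
    rw [h3]
    exact ((A (θ' + ι x) - A (θ + ι x)).le_opNorm v).trans
      (mul_le_mul_of_nonneg_right h2 (norm_nonneg _))
  rw [← ofReal_norm, ← ofReal_norm (θ - θ'), ← ofReal_norm v,
    ← enorm_rpow_eq (norm_nonneg _) hgam, ← ENNReal.ofReal_mul hL,
    ← ENNReal.ofReal_mul (by positivity)]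
  exact ENNReal.ofReal_le_ofReal h1

theorem leaf_diff_le' {K lam L gam : ℝ} {A : 𝕋 → E →L[ℝ] E}
    (hA : Adm K lam L gam A) (ι : E →+ 𝕋) (θ θ' : 𝕋) (x v : E) :
    ‖leaf A ι θ' x v - leaf A ι θ x v‖ₑ ≤ ENNReal.ofReal (2 * K) * ‖v‖ₑ := by
  have hK : 0 ≤ K := (norm_nonneg _).trans (hA.bound 0)
  have h1 : ‖leaf A ι θ' x v - leaf A ι θ x v‖ ≤ (2 * K) * ‖v‖ := by
    have h2 := ((A (θ' + ι x)).le_opNorm v).trans
      (mul_le_mul_of_nonneg_right (hA.bound _) (norm_nonneg _))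
    have h3 := ((A (θ + ι x)).le_opNorm v).trans
      (mul_le_mul_of_nonneg_right (hA.bound _) (norm_nonneg _))
    have h4 : ‖leaf A ι θ' x v - leaf A ι θ x v‖ ≤ ‖A (θ' + ι x) v‖ + ‖A (θ + ι x) v‖ :=
      norm_sub_le _ _
    linarith
  rw [← ofReal_norm, ← ofReal_norm v, ← ENNReal.ofReal_mul (by positivity)]
  exact ENNReal.ofReal_le_ofReal h1

theorem Fam.diff_le {q : ℝ} (hq : 0 ≤ q) {K lam L gam : ℝ} (hL : 0 ≤ L) (hgam : 0 < gam) {C : ℝ≥0}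
    (hC : ∀ A : 𝕋 → E →L[ℝ] E, Adm K lam L gam A → ∀ ι : E →+ 𝕋, Continuous ι →
      ∀ (θ : 𝕋) (f g : E → E), Sol (leaf A ι θ) f g → Iq q volume g ≤ C * Iq q volume f)
    {A : 𝕋 → E →L[ℝ] E} (hA : Adm K lam L gam A) {ι : E →+ 𝕋} (hι : Continuous ι) {θ θ' : 𝕋}
    {F : E → E} {s : E → ℝ} {G G' : E → E} (h : Fam (leaf A ι θ) F s G)
    (h' : Fam (leaf A ι θ') F s G') :
    Iq q volume (fun x => G x - G' x) ≤
      C * ENNReal.ofReal L ^ q * ‖θ - θ'‖ₑ ^ (gam * q) * Iq q volume (fun x => G' x - F x) ∧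
    Iq q volume (fun x => G x - G' x) ≤
      C * ENNReal.ofReal (2 * K) ^ q * Iq q volume (fun x => G' x - F x) := by
  have h1 := hC A hA ι hι θ _ _ (h.diff (hA.coef hgam hι θ) (hA.coef hgam hι θ') h')
  refine ⟨h1.trans ?_, h1.trans ?_⟩
  · rw [mul_assoc, mul_assoc]
    refine mul_le_mul' le_rfl ?_
    have h2 : Iq q volume (fun x => leaf A ι θ' x (G' x - F x) - leaf A ι θ x (G' x - F x)) ≤
        (ENNReal.ofReal L * ‖θ - θ'‖ₑ ^ gam) ^ q * Iq q volume (fun x => G' x - F x) := by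
      refine Iq_mono_le hq _ ?_ (Eventually.of_forall fun x => ?_)
      · exact ENNReal.mul_ne_top (by simp) (ENNReal.rpow_ne_top_of_nonneg hgam.le (by simp))
      · exact leaf_diff_le hL hgam.le hA ι θ θ' x _
    refine h2.trans (le_of_eq ?_)
    rw [ENNReal.mul_rpow_of_nonneg _ _ hq, ← ENNReal.rpow_mul, mul_assoc]
  · rw [mul_assoc]
    refine mul_le_mul' le_rfl ?_
    refine Iq_mono_le hq _ ENNReal.ofReal_ne_top (Eventually.of_forall fun x => ?_)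
    exact leaf_diff_le' hA ι θ θ' x _

/-- The lifted family attached to a local solution. -/
theorem family {q : ℝ} (hq : 2 ≤ q) {K lam L gam : ℝ} (hlam : 0 < lam) (hgam : 0 < gam)
    (hL : 0 ≤ L) (hH : HH 𝕋 E K lam L gam q) {ρ₁ ρ₂ : ℝ} (h1 : 1 < ρ₁) (h12 : ρ₁ < ρ₂) :
    ∃ C : ℝ≥0, ∀ A : 𝕋 → E →L[ℝ] E, Adm K lam L gam A → ∀ ι : E →+ 𝕋, Continuous ι →
      ∀ g : E → E, Measurable g → LocSol (leaf A ι 0) (ball 0 ρ₂) g → ∃ G : 𝕋 → E → E,
        (∀ θ, Measurable (G θ)) ∧ (∀ᵐ x ∂(volume : Measure E), x ∈ ball (0 : E) 1 → G 0 x = g x) ∧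
        (∀ θ, Iq q volume (G θ) ≤ C * Iq q (volume.restrict (ball 0 ρ₂)) g) ∧
        (∀ θ θ', Iq q volume (fun x => G θ x - G θ' x) ≤
          C * ‖θ - θ'‖ₑ ^ (gam * q) * Iq q (volume.restrict (ball 0 ρ₂)) g) ∧
        (∀ θ (h : E), ‖h‖ < ρ₂ - ρ₁ → Iq q volume (fun x => G (θ - ι h) (x + h) - G θ x) ≤
          C * ‖h‖ₑ ^ q * Iq q (volume.restrict (ball 0 ρ₂)) g) ∧
        ∃ M : ℝ≥0∞, M ≠ ⊤ ∧ ∀ θ θ', Iq 2 volume (fun x => G θ x - G θ' x) ≤
          M * ‖θ - θ'‖ₑ ^ (gam * 2) := by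
  have hq1 : 1 ≤ q := by linarith
  have hq0 : 0 ≤ q := by linarith
  obtain ⟨CH, hCH⟩ := hH
  obtain ⟨CH2, hCH2⟩ := HH_two (𝕋 := 𝕋) (E := E) (K := K) (L := L) hlam hgam
  obtain ⟨C, hC⟩ := cutoff_fam (E := E) hq h1 h12 K
  -- constants
  set t : ℝ≥0∞ := 2 ^ (q - 1) with ht
  have htt : t ≠ ⊤ := ENNReal.rpow_ne_top_of_nonneg (by linarith) (by simp)
  set kk : ℝ≥0∞ := ENNReal.ofReal (2 * K) ^ q with hkk
  have hkkt : kk ≠ ⊤ := ENNReal.rpow_ne_top_of_nonneg hq0 ENNReal.ofReal_ne_top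
  set k1 : ℝ≥0∞ := ENNReal.ofReal K ^ q with hk1
  have hk1t : k1 ≠ ⊤ := ENNReal.rpow_ne_top_of_nonneg hq0 (by simp)
  set ll : ℝ≥0∞ := ENNReal.ofReal L ^ q with hll
  have hllt : ll ≠ ⊤ := ENNReal.rpow_ne_top_of_nonneg hq0 (by simp)
  -- bound of `G₀ - F`
  set d0 : ℝ≥0∞ := t * (C + C) with hd0
  have hd0t : d0 ≠ ⊤ := ENNReal.mul_ne_top htt (by simp)
  -- bound of `G θ`
  set d1 : ℝ≥0∞ := t * (CH * kk * d0 + C) with hd1
  have hd1t : d1 ≠ ⊤ := ENNReal.mul_ne_top htt (by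
    refine ENNReal.add_ne_top.mpr ⟨ENNReal.mul_ne_top (ENNReal.mul_ne_top (by simp) hkkt) hd0t, ?_⟩
    simp)
  -- bound of `G θ - F`
  set d2 : ℝ≥0∞ := t * (d1 + C) with hd2
  have hd2t : d2 ≠ ⊤ := ENNReal.mul_ne_top htt (by simp [hd1t])
  set d3 : ℝ≥0∞ := CH * ll * d2 with hd3
  have hd3t : d3 ≠ ⊤ := ENNReal.mul_ne_top (ENNReal.mul_ne_top (by simp) hllt) hd2t
  set d4 : ℝ≥0∞ := CH * (t * (k1 * C + C)) with hd4
  have hd4t : d4 ≠ ⊤ := ENNReal.mul_ne_top (by simp) (ENNReal.mul_ne_top htt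
    (ENNReal.add_ne_top.mpr ⟨ENNReal.mul_ne_top hk1t (by simp), by simp⟩))
  set CC : ℝ≥0∞ := d1 + d3 + d4 with hCC
  have hCCt : CC ≠ ⊤ := by simp [hCC, hd1t, hd3t, hd4t]
  refine ⟨CC.toNNReal, fun A hA ι hι g hgm hg => ?_⟩
  rw [ENNReal.coe_toNNReal hCCt]
  have hco : ∀ θ, Coef K lam (leaf A ι θ) := fun θ => hA.coef hgam hι θ
  obtain ⟨F, s, G₀, hFm, hsm, hG₀m, hfam, hsi, hG₀g, b1, b2, b3, b4⟩ :=
    hC lam _ (hco 0) g hgm hg
  set J := Iq q (volume.restrict (ball 0 ρ₂)) g with hJ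
  choose G hGm hGf using fun θ => Fam.exists hlam (hco θ) (hco 0) hfam hG₀m
  have c0 : Iq q volume (fun x => G₀ x - F x) ≤ d0 * J := by
    calc _ ≤ t * (Iq q volume G₀ + Iq q volume F) := Iq_sub_le hq1 hG₀m.aestronglyMeasurable
      _ ≤ t * (C * J + C * J) := by gcongr
      _ = d0 * J := by rw [hd0]; ring
  have c1 : ∀ θ, Iq q volume (G θ) ≤ d1 * J := by
    intro θ
    have h3 := (Fam.diff_le hq0 hL hgam hCH hA hι (hGf θ) hfam).2
    calc Iq q volume (G θ) = Iq q volume (fun x => (G θ x - G₀ x) + G₀ x) := by simp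
      _ ≤ t * (Iq q volume (fun x => G θ x - G₀ x) + Iq q volume G₀) :=
          Iq_add_le hq1 ((hGm θ).sub hG₀m).aestronglyMeasurable
      _ ≤ t * (CH * kk * (d0 * J) + C * J) := by
          gcongr
          exact h3.trans (mul_le_mul' le_rfl c0)
      _ = d1 * J := by rw [hd1]; ring
  have c2 : ∀ θ, Iq q volume (fun x => G θ x - F x) ≤ d2 * J := by
    intro θ
    calc _ ≤ t * (Iq q volume (G θ) + Iq q volume F) := Iq_sub_le hq1 (hGm θ).aestronglyMeasurable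
      _ ≤ t * (d1 * J + C * J) := by gcongr; exact c1 θ
      _ = d2 * J := by rw [hd2]; ring
  refine ⟨G, hGm, ?_, ?_, ?_, ?_, ?_⟩
  · have h3 := (hGf 0).diff (hco 0) (hco 0) hfam
    have h4 : Sol (leaf A ι 0) (0 : E → E) (0 : E → E) := by
      refine ⟨MemLp.zero, InV.zero, fun φ _ => ?_⟩
      simp
    have h5 := h3.ae_unique hlam (hco 0) h4 (Eventually.of_forall fun x => by simp)
    filter_upwards [h5] with x hx hx1
    have : G 0 x = G₀ x := by simpa [sub_eq_zero] using hx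
    rw [this, hG₀g x hx1]
  · intro θ
    refine (c1 θ).trans (mul_le_mul' ?_ le_rfl)
    rw [hCC, add_assoc]; exact le_self_add
  · intro θ θ'
    have h3 := (Fam.diff_le hq0 hL hgam hCH hA hι (hGf θ) (hGf θ')).1
    calc _ ≤ _ := h3
      _ ≤ CH * ll * ‖θ - θ'‖ₑ ^ (gam * q) * (d2 * J) := by gcongr; exact c2 θ'
      _ = d3 * ‖θ - θ'‖ₑ ^ (gam * q) * J := by rw [hd3]; ring
      _ ≤ CC * ‖θ - θ'‖ₑ ^ (gam * q) * J := by
          gcongr
          rw [hCC, add_comm d1 d3, add_assoc]; exact le_self_add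
  · intro θ h hh
    have h3 := (hGf (θ - ι h)).shift h
    have e1 : (fun x => leaf A ι (θ - ι h) (x + h)) = leaf A ι θ := by
      ext1 x
      simp only [leaf]
      congr 1
      rw [map_add]
      abel
    rw [e1] at h3
    obtain ⟨k, hkm, hk2, hkq, hke⟩ := exists_k hsm hsi hfam.memS h
    have h4 := (hGf θ).xdiff (hco θ) h3 hk2 hke
    have h5 := hCH A hA ι hι θ _ _ h4
    have h6 : Iq q volume (fun x => leaf A ι θ x (F (x + h) - F x) + k x) ≤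
        t * (k1 * (C * ‖h‖ₑ ^ q * J) + ‖h‖ₑ ^ q * (C * J)) := by
      have m1 : Measurable (fun x => F (x + h) - F x) :=
        (hFm.comp (measurable_id.add_const h)).sub hFm
      refine (Iq_add_le hq1 ((hco θ).measurable_apply m1).aestronglyMeasurable).trans ?_
      refine mul_le_mul' le_rfl (add_le_add ?_ ?_)
      · refine le_trans (Iq_mono_le (g := fun x => F (x + h) - F x) hq0 (ENNReal.ofReal K)
          (by simp) (Eventually.of_forall fun x => ?_)) (mul_le_mul' le_rfl (b4 h hh))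
        rw [← ofReal_norm, ← ofReal_norm (F (x + h) - F x),
          ← ENNReal.ofReal_mul ((norm_nonneg _).trans (hA.bound 0))]
        refine ENNReal.ofReal_le_ofReal ?_
        exact ((leaf A ι θ x).le_opNorm _).trans
          (mul_le_mul_of_nonneg_right (hA.bound _) (norm_nonneg _))
      · exact (hkq q hq1).trans (mul_le_mul' le_rfl b3)
    calc Iq q volume (fun x => G (θ - ι h) (x + h) - G θ x)
        ≤ CH * Iq q volume (fun x => leaf A ι θ x (F (x + h) - F x) + k x) := h5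
      _ ≤ CH * (t * (k1 * (C * ‖h‖ₑ ^ q * J) + ‖h‖ₑ ^ q * (C * J))) := mul_le_mul' le_rfl h6
      _ = d4 * ‖h‖ₑ ^ q * J := by rw [hd4]; ring
      _ ≤ CC * ‖h‖ₑ ^ q * J := by
          gcongr
          rw [hCC]; exact le_add_self
  · -- L² Hölder continuity
    set e0 : ℝ≥0∞ := Iq 2 volume (fun x => G₀ x - F x) with he0
    have he0t : e0 ≠ ⊤ := by
      rw [he0, Iq_two]
      exact ENNReal.rpow_ne_top_of_nonneg (by norm_num) (hfam.inV.memLp.sub hfam.memF).2.ne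
    have h2q : (0 : ℝ) ≤ 2 := by norm_num
    set kk2 : ℝ≥0∞ := ENNReal.ofReal (2 * K) ^ (2 : ℝ) with hkk2
    set e1 : ℝ≥0∞ := 2 * (CH2 * kk2 * e0 + e0) with he1
    have he1t : e1 ≠ ⊤ := ENNReal.mul_ne_top (by simp) (ENNReal.add_ne_top.mpr
      ⟨ENNReal.mul_ne_top (ENNReal.mul_ne_top (by simp)
        (ENNReal.rpow_ne_top_of_nonneg h2q ENNReal.ofReal_ne_top)) he0t, he0t⟩)
    refine ⟨CH2 * ENNReal.ofReal L ^ (2 : ℝ) * e1, ENNReal.mul_ne_top (ENNReal.mul_ne_top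
      (by simp) (ENNReal.rpow_ne_top_of_nonneg h2q (by simp))) he1t, fun θ θ' => ?_⟩
    have h3 := (Fam.diff_le h2q hL hgam hCH2 hA hι (hGf θ) (hGf θ')).1
    have h4 := (Fam.diff_le h2q hL hgam hCH2 hA hι (hGf θ') hfam).2
    have h5 : Iq 2 volume (fun x => G θ' x - F x) ≤ e1 := by
      calc Iq 2 volume (fun x => G θ' x - F x)
          = Iq 2 volume (fun x => (G θ' x - G₀ x) + (G₀ x - F x)) := by simp
        _ ≤ 2 ^ ((2 : ℝ) - 1) * (Iq 2 volume (fun x => G θ' x - G₀ x) + e0) :=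
            Iq_add_le (by norm_num) ((hGm θ').sub hG₀m).aestronglyMeasurable
        _ ≤ e1 := by
            have : (2 : ℝ≥0∞) ^ ((2 : ℝ) - 1) = 2 := by norm_num
            rw [this, he1]
            gcongr
    calc _ ≤ _ := h3
      _ ≤ CH2 * ENNReal.ofReal L ^ (2 : ℝ) * ‖θ - θ'‖ₑ ^ (gam * 2) * e1 := by gcongr
      _ = _ := by ring

end Pool.Agent.Lib.MP_a73848
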