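import Mathlib
import Pool.Agent.Lib.MP_a73848.Family

/-!
# MP_a73848_an: dilations
-/

set_option autoImplicit false
set_option linter.unusedSectionVars false

open MeasureTheory Metric Filter Topology Set Module
open scoped ContDiff ENNReal NNReal

namespace Pool.Agent.Lib.MP_a73848

variable {E : Type*} [NormedAddCommGroup E] [InnerProductSpace ℝ E] [FiniteDimensional ℝ E]
  [MeasurableSpace E] [BorelSpace E]
variable {𝕋 : Type*} [NormedAddCommGroup 𝕋]

/-- `r ^ d` as an extended nonnegative number -/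
noncomputable def rd (E : Type*) [NormedAddCommGroup E] [InnerProductSpace ℝ E] (r : ℝ) : ℝ≥0∞ :=
  ENNReal.ofReal (r ^ finrank ℝ E)

theorem rd_pos {r : ℝ} (hr : 0 < r) : rd E r ≠ 0 := by
  simp only [rd]
  exact (ENNReal.ofReal_pos.mpr (pow_pos hr _)).ne'

theorem rd_ne_top (r : ℝ) : rd E r ≠ ⊤ := ENNReal.ofReal_ne_top

theorem lintegral_affine (f : E → ℝ≥0∞) (x₀ : E) {r : ℝ} (hr : 0 < r) :
    ∫⁻ x, f (x₀ + r • x) = (rd E r)⁻¹ * ∫⁻ x, f x := by
  have h1 : ∫⁻ x, f (x₀ + r • x) = ∫⁻ y, f (x₀ + y) ∂(Measure.map (fun x : E => r • x) volume) := by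
    have he : MeasurableEmbedding (fun x : E => r • x) :=
      (Homeomorph.smulOfNeZero r hr.ne').measurableEmbedding
    rw [he.lintegral_map]
  rw [h1, Measure.map_addHaar_smul volume hr.ne', lintegral_smul_measure,
    lintegral_add_left_eq_self f x₀, smul_eq_mul]
  congr 1
  rw [abs_of_pos (inv_pos.mpr (pow_pos hr _)), ENNReal.ofReal_inv_of_pos (pow_pos hr _)]
  rfl

theorem affine_mem_ball {x₀ x : E} {r : ℝ} (hr : 0 < r) (ρ : ℝ) :
    x₀ + r • x ∈ ball x₀ (ρ * r) ↔ x ∈ ball (0 : E) ρ := by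
  rw [mem_ball_iff_norm, mem_ball_zero_iff, add_sub_cancel_left, norm_smul, Real.norm_eq_abs,
    abs_of_pos hr, mul_comm, mul_lt_mul_iff_left₀ hr]

theorem lintegral_affine_ball (f : E → ℝ≥0∞) (x₀ : E) {r : ℝ} (hr : 0 < r) (ρ : ℝ) :
    ∫⁻ x in ball (0 : E) ρ, f (x₀ + r • x) = (rd E r)⁻¹ * ∫⁻ x in ball x₀ (ρ * r), f x := by
  rw [← lintegral_indicator measurableSet_ball, ← lintegral_indicator measurableSet_ball,
    ← lintegral_affine _ x₀ hr]
  refine lintegral_congr fun x => ?_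
  by_cases hx : x ∈ ball (0 : E) ρ
  · rw [indicator_of_mem hx, indicator_of_mem ((affine_mem_ball hr ρ).mpr hx)]
  · rw [indicator_of_notMem hx, indicator_of_notMem (fun h => hx ((affine_mem_ball hr ρ).mp h))]

theorem integral_affine (f : E → ℝ) (x₀ : E) {r : ℝ} (hr : 0 < r) :
    ∫ x, f (x₀ + r • x) = (r ^ finrank ℝ E)⁻¹ * ∫ x, f x := by
  have := Measure.integral_comp_smul (μ := (volume : Measure E)) (fun y => f (x₀ + y)) r
  rw [this, integral_add_left_eq_self f x₀, abs_of_pos (inv_pos.mpr (pow_pos hr _)), smul_eq_mul]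

theorem eLpNorm_affine (F : E → E) (x₀ : E) {r : ℝ} (hr : 0 < r) :
    eLpNorm (fun x => F (x₀ + r • x)) 2 volume = ((rd E r)⁻¹) ^ (1 / 2 : ℝ) * eLpNorm F 2 volume := by
  have h1 : Iq 2 volume (fun x => F (x₀ + r • x)) = (rd E r)⁻¹ * Iq 2 volume F :=
    lintegral_affine (fun x => ‖F x‖ₑ ^ (2 : ℝ)) x₀ hr
  rw [Iq_two, Iq_two] at h1
  have h2 : eLpNorm (fun x => F (x₀ + r • x)) 2 volume =
      (eLpNorm (fun x => F (x₀ + r • x)) 2 volume ^ (2 : ℝ)) ^ (1 / 2 : ℝ) := by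
    rw [← ENNReal.rpow_mul]; norm_num
  rw [h2, h1, ENNReal.mul_rpow_of_nonneg _ _ (by norm_num), ← ENNReal.rpow_mul _ 2]
  norm_num

theorem InV.affine {g : E → E} (hg : InV g) (x₀ : E) {r : ℝ} (hr : 0 < r) :
    InV (fun x => g (x₀ + r • x)) := by
  have hc0 : ((rd E r)⁻¹) ^ (1 / 2 : ℝ) ≠ 0 := by
    refine (ENNReal.rpow_pos ?_ ?_).ne'
    · simp [rd_ne_top]
    · simp [rd_pos hr]
  have hct : ((rd E r)⁻¹) ^ (1 / 2 : ℝ) ≠ ⊤ :=
    ENNReal.rpow_ne_top_of_nonneg (by norm_num) (by simp [rd_pos hr])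
  have hmeas : AEStronglyMeasurable (fun x => g (x₀ + r • x)) volume := by
    have he : Measurable (fun x : E => x₀ + r • x) := by fun_prop
    refine hg.memLp.1.comp_quasiMeasurePreserving ⟨he, ?_⟩
    have h1 : Measure.map (fun x : E => x₀ + r • x) volume =
        Measure.map (fun x => x₀ + x) (Measure.map (fun x : E => r • x) volume) := by
      rw [Measure.map_map (measurable_const_add x₀) (measurable_const_smul r)]
      rfl
    rw [h1, Measure.map_addHaar_smul volume hr.ne', Measure.map_smul, map_add_left_eq_self]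
    exact Measure.smul_absolutelyContinuous
  refine ⟨⟨hmeas, ?_⟩, fun ε hε => ?_⟩
  · rw [eLpNorm_affine g x₀ hr]
    exact ENNReal.mul_lt_top hct.lt_top hg.memLp.2
  · obtain ⟨ψ, h1, h2⟩ := hg.approx (ε / ((rd E r)⁻¹) ^ (1 / 2 : ℝ))
      (ENNReal.div_pos hε.ne' hct)
    refine ⟨fun x => r⁻¹ * ψ (x₀ + r • x), (h1.comp_affine x₀ hr.ne').const_mul _, ?_⟩
    have e : (fun x => g (x₀ + r • x)) - gr (fun x => r⁻¹ * ψ (x₀ + r • x)) =
        fun x => (g - gr ψ) (x₀ + r • x) := by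
      ext1 x
      simp only [Pi.sub_apply]
      rw [gr_const_mul (h1.comp_affine x₀ hr.ne').differentiableAt,
        gr_comp_affine h1.differentiable, smul_smul, inv_mul_cancel₀ hr.ne', one_smul]
    rw [e, eLpNorm_affine _ x₀ hr]
    calc _ ≤ ((rd E r)⁻¹) ^ (1 / 2 : ℝ) * (ε / ((rd E r)⁻¹) ^ (1 / 2 : ℝ)) := by gcongr
      _ = ε := ENNReal.mul_div_cancel hc0 hct

theorem LocSol.affine {a : E → E →L[ℝ] E} {g : E → E} {x₀ : E} {r : ℝ} (hr : 0 < r) {κ : ℝ}
    (h : LocSol a (ball x₀ (κ * r)) g) :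
    LocSol (fun x => a (x₀ + r • x)) (ball 0 κ) (fun x => g (x₀ + r • x)) := by
  refine ⟨h.inV.affine x₀ hr, fun φ hφ hs => ?_⟩
  -- the test function on the other side
  set ψ : E → ℝ := fun y => r * φ (-(r⁻¹ • x₀) + r⁻¹ • y) with hψ
  have hψT : Test ψ := (hφ.comp_affine (-(r⁻¹ • x₀)) (inv_ne_zero hr.ne')).const_mul r
  have hgr : ∀ x, gr ψ (x₀ + r • x) = gr φ x := by
    intro x
    rw [hψ, gr_const_mul (hφ.comp_affine _ (inv_ne_zero hr.ne')).differentiableAt,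
      gr_comp_affine hφ.differentiable, smul_smul, mul_inv_cancel₀ hr.ne', one_smul]
    congr 1
    rw [smul_add, smul_smul, inv_mul_cancel₀ hr.ne', one_smul]
    abel
  have hsupp : tsupport ψ ⊆ ball x₀ (κ * r) := by
    have h1 : tsupport ψ ⊆ (fun y : E => -(r⁻¹ • x₀) + r⁻¹ • y) ⁻¹' tsupport φ := by
      refine closure_minimal ?_ ((isClosed_tsupport φ).preimage (by fun_prop))
      intro y hy
      refine subset_tsupport _ ?_
      intro hc
      apply hy
      simp only [hψ]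
      rw [hc, mul_zero]
    intro y hy
    have h2 := hs (h1 hy)
    have h3 := (affine_mem_ball (x₀ := x₀) hr κ).mpr h2
    convert h3 using 1
    rw [smul_add, smul_neg, smul_smul, smul_smul, mul_inv_cancel₀ hr.ne', one_smul, one_smul]
    abel
  have h4 := h.eq ψ hψT hsupp
  have h5 := integral_affine (fun y => (inner ℝ (a y (g y)) (gr ψ y) : ℝ)) x₀ hr
  rw [h4, mul_zero] at h5
  simpa [hgr] using h5

/-- composition of the homomorphism with a dilation -/
noncomputable def dil (ι : E →+ 𝕋) (r : ℝ) : E →+ 𝕋 where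
  toFun x := ι (r • x)
  map_zero' := by simp
  map_add' x y := by rw [smul_add, map_add]

theorem dil_continuous {ι : E →+ 𝕋} (hι : Continuous ι) (r : ℝ) : Continuous (dil ι r) :=
  hι.comp (continuous_const_smul r)

theorem leaf_affine (A : 𝕋 → E →L[ℝ] E) (ι : E →+ 𝕋) (θ : 𝕋) (x₀ : E) (r : ℝ) :
    (fun x => leaf A ι θ (x₀ + r • x)) =
      leaf (fun θ' => A ((θ + ι x₀) + θ')) (dil ι r) 0 := by
  ext1 x
  simp only [leaf, dil, map_add]
  congr 1
  show θ + (ι x₀ + ι (r • x)) = θ + ι x₀ + (0 + ι (r • x))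
  abel

/-- local reverse Hölder inequality, uniformly over the class -/
def RR (𝕋 E : Type*) [NormedAddCommGroup E] [InnerProductSpace ℝ E] [FiniteDimensional ℝ E]
    [MeasurableSpace E] [BorelSpace E] [NormedAddCommGroup 𝕋] (K lam L gam q : ℝ) : Prop :=
  ∀ κ : ℝ, 1 < κ → ∃ N : ℝ≥0, ∀ A : 𝕋 → E →L[ℝ] E, Adm K lam L gam A →
    ∀ ι : E →+ 𝕋, Continuous ι → ∀ g : E → E, Measurable g → LocSol (leaf A ι 0) (ball 0 κ) g →
      Iq q (volume.restrict (ball 0 1)) g ≤ N * Iq 2 (volume.restrict (ball 0 κ)) g ^ (q / 2)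

theorem LocSol.const_smul {a : E → E →L[ℝ] E} {B : Set E} {g : E → E} (h : LocSol a B g) (c : ℝ) :
    LocSol a B (c • g) := by
  refine ⟨h.inV.const_smul c, fun φ hφ hs => ?_⟩
  have : (fun x => (inner ℝ (a x ((c • g) x)) (gr φ x) : ℝ)) =
      fun x => c * inner ℝ (a x (g x)) (gr φ x) := by
    ext x
    simp [inner_smul_left]
  rw [this, integral_const_mul, h.eq φ hφ hs, mul_zero]

theorem Iq_const_smul {α : Type*} [MeasurableSpace α] {μ : Measure α} {q : ℝ} (hq : 0 ≤ q)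
    (c : ℝ) (g : α → E) : Iq q μ (c • g) = ‖c‖ₑ ^ q * Iq q μ g := by
  unfold Iq
  rw [← lintegral_const_mul' _ _ (ENNReal.rpow_ne_top_of_nonneg hq (by simp))]
  refine lintegral_congr fun x => ?_
  rw [Pi.smul_apply, enorm_smul, ENNReal.mul_rpow_of_nonneg _ _ hq]

/-- it is enough to treat normalised solutions -/
theorem RR_of_normalised {K lam L gam q : ℝ} (hq : 2 ≤ q)
    (h : ∀ κ : ℝ, 1 < κ → ∃ N : ℝ≥0, ∀ A : 𝕋 → E →L[ℝ] E, Adm K lam L gam A →
      ∀ ι : E →+ 𝕋, Continuous ι → ∀ g : E → E, Measurable g →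
        LocSol (leaf A ι 0) (ball 0 κ) g → Iq 2 (volume.restrict (ball 0 κ)) g ≤ 1 →
        Iq q (volume.restrict (ball 0 1)) g ≤ N) : RR 𝕋 E K lam L gam q := by
  intro κ hκ
  obtain ⟨N, hN⟩ := h κ hκ
  refine ⟨N, fun A hA ι hι g hgm hg => ?_⟩
  have hq0 : 0 ≤ q := by linarith
  set I := Iq 2 (volume.restrict (ball 0 κ)) g with hI
  have hIt : I ≠ ⊤ := by
    rw [hI, Iq_two]
    exact ENNReal.rpow_ne_top_of_nonneg (by norm_num) (hg.inV.memLp.restrict _).2.ne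
  by_cases hI0 : I = 0
  · -- g vanishes
    have h1 : g =ᵐ[volume.restrict (ball 0 κ)] 0 := by
      rw [hI] at hI0
      unfold Iq at hI0
      rw [lintegral_eq_zero_iff (hgm.enorm.pow_const _)] at hI0
      filter_upwards [hI0] with x hx
      have : ‖g x‖ₑ = 0 := by
        have := (ENNReal.rpow_eq_zero_iff_of_pos (by norm_num)).mp hx
        exact this
      simpa using this
    have h2 : g =ᵐ[volume.restrict (ball 0 1)] 0 :=
      ae_restrict_of_ae_restrict_of_subset (ball_subset_ball hκ.le) h1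
    rw [Iq_congr h2]
    have : Iq q (volume.restrict (ball (0 : E) 1)) (0 : E → E) = 0 := by
      simp [Iq, ENNReal.zero_rpow_of_pos (show 0 < q by linarith)]
    rw [this]
    exact zero_le
  · set e : ℝ := (I.toReal) ^ (1 / 2 : ℝ) with he
    have hIpos : 0 < I.toReal := ENNReal.toReal_pos hI0 hIt
    have hepos : 0 < e := Real.rpow_pos_of_pos hIpos _
    have hee : ENNReal.ofReal e = I ^ (1 / 2 : ℝ) := by
      rw [he, ← ENNReal.ofReal_rpow_of_pos hIpos, ENNReal.ofReal_toReal hIt]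
    have hinv : ‖e⁻¹‖ₑ = (I ^ (1 / 2 : ℝ))⁻¹ := by
      rw [Real.enorm_eq_ofReal (inv_nonneg.mpr hepos.le), ENNReal.ofReal_inv_of_pos hepos, hee]
    have hs0 : I ^ (1 / 2 : ℝ) ≠ 0 := (ENNReal.rpow_pos (pos_iff_ne_zero.mpr hI0) hIt).ne'
    have hst : I ^ (1 / 2 : ℝ) ≠ ⊤ := ENNReal.rpow_ne_top_of_nonneg (by norm_num) hIt
    have hm : Measurable (e⁻¹ • g) := hgm.const_smul _
    have h1 := hN A hA ι hι (e⁻¹ • g) hm (hg.const_smul _) (by
      have h12 : (1 / 2 : ℝ) * 2 = 1 := by norm_num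
      rw [Iq_const_smul (by norm_num), ← hI, hinv, ENNReal.inv_rpow, ← ENNReal.rpow_mul, h12,
        ENNReal.rpow_one, ENNReal.inv_mul_cancel hI0 hIt])
    rw [Iq_const_smul hq0, hinv, ENNReal.inv_rpow, ← ENNReal.rpow_mul] at h1
    have e2 : (1 / 2 : ℝ) * q = q / 2 := by ring
    rw [e2] at h1
    have hp0 : I ^ (q / 2) ≠ 0 := (ENNReal.rpow_pos (pos_iff_ne_zero.mpr hI0) hIt).ne'
    have hpt : I ^ (q / 2) ≠ ⊤ := ENNReal.rpow_ne_top_of_nonneg (by positivity) hIt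
    calc Iq q (volume.restrict (ball 0 1)) g
        = I ^ (q / 2) * ((I ^ (q / 2))⁻¹ * Iq q (volume.restrict (ball 0 1)) g) := by
          rw [← mul_assoc, ENNReal.mul_inv_cancel hp0 hpt, one_mul]
      _ ≤ I ^ (q / 2) * N := mul_le_mul' le_rfl h1
      _ = _ := mul_comm _ _

/-- reverse Hölder inequality on arbitrary balls -/
theorem RR.scaled {K lam L gam q : ℝ} (hq : 2 ≤ q) (h : RR 𝕋 E K lam L gam q) {κ : ℝ}
    (hκ : 1 < κ) : ∃ N : ℝ≥0, ∀ A : 𝕋 → E →L[ℝ] E, Adm K lam L gam A →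
    ∀ ι : E →+ 𝕋, Continuous ι → ∀ (θ : 𝕋) (x₀ : E) (r : ℝ), 0 < r → ∀ g : E → E, Measurable g →
      LocSol (leaf A ι θ) (ball x₀ (κ * r)) g →
      Iq q (volume.restrict (ball x₀ r)) g ≤
        N * rd E r ^ (1 - q / 2) * Iq 2 (volume.restrict (ball x₀ (κ * r))) g ^ (q / 2) := by
  obtain ⟨N, hN⟩ := h κ hκ
  refine ⟨N, fun A hA ι hι θ x₀ r hr g hgm hg => ?_⟩
  have h1 := hg.affine hr
  rw [leaf_affine] at h1
  have h2 := hN _ (hA.translate _) (dil ι r) (dil_continuous hι r) _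
    (hgm.comp (by fun_prop)) h1
  have e1 : Iq q (volume.restrict (ball 0 1)) (fun x => g (x₀ + r • x)) =
      (rd E r)⁻¹ * Iq q (volume.restrict (ball x₀ r)) g := by
    have := lintegral_affine_ball (fun x => ‖g x‖ₑ ^ q) x₀ hr 1
    rw [one_mul] at this
    exact this
  have e2 : Iq 2 (volume.restrict (ball 0 κ)) (fun x => g (x₀ + r • x)) =
      (rd E r)⁻¹ * Iq 2 (volume.restrict (ball x₀ (κ * r))) g :=
    lintegral_affine_ball (fun x => ‖g x‖ₑ ^ (2 : ℝ)) x₀ hr κ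
  have h3 : (rd E r)⁻¹ * Iq q (volume.restrict (ball x₀ r)) g ≤
      N * ((rd E r)⁻¹ * Iq 2 (volume.restrict (ball x₀ (κ * r))) g) ^ (q / 2) := by
    rw [← e1, ← e2]; exact h2
  set R := rd E r with hR
  have hR0 : R ≠ 0 := rd_pos hr
  have hRt : R ≠ ⊤ := rd_ne_top r
  calc Iq q (volume.restrict (ball x₀ r)) g
      = R * (R⁻¹ * Iq q (volume.restrict (ball x₀ r)) g) := by
        rw [← mul_assoc, ENNReal.mul_inv_cancel hR0 hRt, one_mul]
    _ ≤ R * (N * (R⁻¹ * Iq 2 (volume.restrict (ball x₀ (κ * r))) g) ^ (q / 2)) :=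
        mul_le_mul' le_rfl h3
    _ = _ := by
        rw [ENNReal.mul_rpow_of_nonneg _ _ (by positivity), ENNReal.rpow_sub _ _ hR0 hRt,
          ENNReal.rpow_one, ENNReal.inv_rpow, div_eq_mul_inv R]
        ring

theorem RR_two {K lam L gam : ℝ} : RR 𝕋 E K lam L gam 2 := by
  intro κ hκ
  refine ⟨1, fun A hA ι hι g hgm hg => ?_⟩
  have : (2 : ℝ) / 2 = 1 := by norm_num
  rw [this, ENNReal.rpow_one, ENNReal.coe_one, one_mul]
  exact lintegral_mono_set (ball_subset_ball hκ.le)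

end Pool.Agent.Lib.MP_a73848
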