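import Mathlib
import Pool.Agent.Lib.MP_a73848.Scale

/-!
# MP_a73848_an: from local to global estimates, by the real variable theorem
-/

set_option autoImplicit false
set_option linter.unusedSectionVars false

open MeasureTheory Metric Filter Topology Set Module
open scoped ContDiff ENNReal NNReal

namespace Pool.Agent.Lib.MP_a73848

variable {E : Type*} [NormedAddCommGroup E] [InnerProductSpace ℝ E] [FiniteDimensional ℝ E]
  [MeasurableSpace E] [BorelSpace E]
variable {𝕋 : Type*} [NormedAddCommGroup 𝕋]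

/-- the statement of the real variable theorem -/
def RVProp (E : Type*) [NormedAddCommGroup E] [InnerProductSpace ℝ E] [FiniteDimensional ℝ E]
    [MeasurableSpace E] [BorelSpace E] : Prop :=
  ∀ (σ s : ℝ), 1 < σ → σ < s → ∀ (C₀ N : ℝ≥0),
    ∃ C : ℝ≥0, ∀ F h : E → ℝ≥0∞, Measurable F → Measurable h → ∫⁻ x, F x ≠ ⊤ →
      (∀ (x : E) (r : ℝ), 0 < r → ∃ F₁ F₂ : E → ℝ≥0∞, Measurable F₁ ∧ Measurable F₂ ∧
        (∀ᵐ y ∂(volume.restrict (ball x r)), F y ≤ F₁ y + F₂ y) ∧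
        ∫⁻ y, F₁ y ≤ C₀ * ∫⁻ y in ball x (2 * r), h y ∧
        ∫⁻ y in ball x r, F₂ y ^ s ≤
          N * volume (ball x r) ^ (1 - s) * (∫⁻ y in ball x (2 * r), (F y + h y)) ^ s) →
      ∫⁻ x, F x ^ σ ≤ C * ∫⁻ x, h x ^ σ

theorem Sol.congr {a : E → E →L[ℝ] E} {f f' g g' : E → E} (h : Sol a f g)
    (hf : f =ᵐ[volume] f') (hg : g =ᵐ[volume] g') : Sol a f' g' := by
  refine ⟨h.memLp.ae_eq hf, h.inV.congr hg, fun φ hφ => ?_⟩
  rw [← h.eq φ hφ]
  refine integral_congr_ae ?_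
  filter_upwards [hf, hg] with x h1 h2
  rw [h1, h2]

theorem enorm_add_sq_le (x y : E) : ‖x + y‖ₑ ^ (2 : ℝ) ≤ 2 * ‖x‖ₑ ^ (2 : ℝ) + 2 * ‖y‖ₑ ^ (2 : ℝ) := by
  have h1 := ENNReal.rpow_add_le_mul_rpow_add_rpow ‖x‖ₑ ‖y‖ₑ (p := 2) (by norm_num)
  have e3 : (2 : ℝ≥0∞) ^ ((2 : ℝ) - 1) = 2 := by norm_num
  rw [e3] at h1
  refine (ENNReal.rpow_le_rpow (enorm_add_le x y) (by norm_num)).trans (h1.trans (le_of_eq ?_))
  ring

theorem HH_of_RR (hRV : RVProp E) {K lam L gam : ℝ} (hlam : 0 < lam) (hgam : 0 < gam)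
    {p q : ℝ} (hq : 2 < q) (hqp : q < p) (hR : RR 𝕋 E K lam L gam p) :
    HH 𝕋 E K lam L gam q := by
  obtain ⟨N, hN⟩ := hR.scaled (by linarith) (κ := 2) (by norm_num)
  obtain ⟨CE, hCE⟩ := HH_two (𝕋 := 𝕋) (E := E) (K := K) (L := L) hlam hgam
  set s : ℝ := p / 2 with hs
  set σ : ℝ := q / 2 with hσ
  have hs0 : 0 ≤ s := by rw [hs]; linarith
  set wv : ℝ≥0∞ := volume (ball (0 : E) 1) with hwv
  have hwv0 : wv ≠ 0 := (measure_ball_pos _ _ one_pos).ne'
  have hwvt : wv ≠ ⊤ := measure_ball_lt_top.ne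
  set NN : ℝ≥0∞ := 2 ^ s * N * wv ^ (s - 1) * (2 + 2 * CE) ^ s with hNN
  have hNNt : NN ≠ ⊤ := by
    refine ENNReal.mul_ne_top (ENNReal.mul_ne_top (ENNReal.mul_ne_top
      (ENNReal.rpow_ne_top_of_nonneg hs0 (by simp)) (by simp)) ?_)
      (ENNReal.rpow_ne_top_of_nonneg hs0 ?_)
    · exact ENNReal.rpow_ne_top_of_nonneg (by rw [hs]; linarith) hwvt
    · exact ENNReal.add_ne_top.mpr ⟨by simp, ENNReal.mul_ne_top (by simp) (by simp)⟩
  obtain ⟨C, hC⟩ := hRV σ s (by rw [hσ]; linarith) (by rw [hσ, hs]; linarith) (2 * CE) NN.toNNReal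
  refine ⟨C, fun A hA ι hι θ f g hfg => ?_⟩
  have ha := hA.coef hgam hι θ
  set a := leaf A ι θ with haa
  -- measurable representatives
  wlog hmeas : Measurable f ∧ Measurable g generalizing f g
  · have hf := hfg.memLp.1
    have hg := hfg.inV.memLp.1
    have h1 := this (hf.mk f) (hg.mk g) (hfg.congr hf.ae_eq_mk hg.ae_eq_mk)
      ⟨hf.stronglyMeasurable_mk.measurable, hg.stronglyMeasurable_mk.measurable⟩
    rwa [← Iq_congr hf.ae_eq_mk, ← Iq_congr hg.ae_eq_mk] at h1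
  obtain ⟨hfm, hgm⟩ := hmeas
  have key := hC (fun x => ‖g x‖ₑ ^ (2 : ℝ)) (fun x => ‖f x‖ₑ ^ (2 : ℝ))
    (hgm.enorm.pow_const _) (hfm.enorm.pow_const _) ?_ ?_
  · have e1 : ∀ (w : E → E), (∫⁻ x, (‖w x‖ₑ ^ (2 : ℝ)) ^ σ) = Iq q volume w := by
      intro w
      refine lintegral_congr fun x => ?_
      rw [← ENNReal.rpow_mul]
      congr 1
      rw [hσ]; ring
    rwa [e1, e1] at key
  · have : ∫⁻ x, ‖g x‖ₑ ^ (2 : ℝ) = Iq 2 volume g := rfl
    rw [this, Iq_two]
    exact ENNReal.rpow_ne_top_of_nonneg (by norm_num) hfg.inV.memLp.2.ne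
  · intro x r hr
    set B : Set E := ball x (2 * r) with hB
    have hBm : MeasurableSet B := measurableSet_ball
    set f₁ : E → E := B.indicator f with hf₁
    have hf₁2 : MemLp f₁ 2 volume := hfg.memLp.indicator hBm
    obtain ⟨g₁, hg₁m, hg₁⟩ := exists_sol hlam ha hf₁2
    have hg₂ := hfg.sub ha hg₁
    set g₂ : E → E := g - g₁ with hg₂def
    have hg₂m : Measurable g₂ := hgm.sub hg₁m.measurable
    have hloc : LocSol a (ball x (2 * r)) g₂ := by
      refine ⟨hg₂.inV, fun φ hφ hs => ?_⟩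
      have h1 := hg₂.eq φ hφ
      rw [← h1]
      refine integral_congr_ae (Eventually.of_forall fun y => ?_)
      simp only
      by_cases hy : y ∈ B
      · have : (f - f₁) y = 0 := by
          simp only [Pi.sub_apply, hf₁]
          rw [indicator_of_mem hy, sub_self]
        rw [this, sub_zero]
      · have : gr φ y = 0 := gr_eq_zero fun h => hy (hs h)
        rw [this, inner_zero_right, inner_zero_right]
    have hhB : Iq 2 volume f₁ = ∫⁻ y in B, ‖f y‖ₑ ^ (2 : ℝ) := by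
      rw [← lintegral_indicator hBm]
      refine lintegral_congr fun y => ?_
      by_cases hy : y ∈ B
      · rw [hf₁, indicator_of_mem hy, indicator_of_mem hy]
      · rw [hf₁, indicator_of_notMem hy, indicator_of_notMem hy, enorm_zero,
          ENNReal.zero_rpow_of_pos (by norm_num)]
    have hE1 : Iq 2 volume g₁ ≤ CE * ∫⁻ y in B, ‖f y‖ₑ ^ (2 : ℝ) := by
      rw [← hhB]
      exact hCE A hA ι hι θ _ _ hg₁
    refine ⟨fun y => 2 * ‖g₁ y‖ₑ ^ (2 : ℝ), fun y => 2 * ‖g₂ y‖ₑ ^ (2 : ℝ),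
      (hg₁m.measurable.enorm.pow_const _).const_mul _, (hg₂m.enorm.pow_const _).const_mul _,
      Eventually.of_forall fun y => ?_, ?_, ?_⟩
    · have : g y = g₁ y + g₂ y := by simp [hg₂def]
      rw [this]
      exact enorm_add_sq_le _ _
    · rw [lintegral_const_mul' _ _ (by simp)]
      have : ((2 * CE : ℝ≥0) : ℝ≥0∞) = 2 * CE := by push_cast; rfl
      rw [this, mul_assoc]
      exact mul_le_mul' le_rfl hE1
    · rw [ENNReal.coe_toNNReal hNNt]
      have h1 := hN A hA ι hι θ x r hr g₂ hg₂m hloc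
      set X : ℝ≥0∞ := ∫⁻ y in B, (‖g y‖ₑ ^ (2 : ℝ) + ‖f y‖ₑ ^ (2 : ℝ)) with hX
      have h2 : Iq 2 (volume.restrict B) g₂ ≤ (2 + 2 * CE) * X := by
        have hXg : ∫⁻ y in B, ‖g y‖ₑ ^ (2 : ℝ) ≤ X := lintegral_mono fun y => le_self_add
        have hXf : ∫⁻ y in B, ‖f y‖ₑ ^ (2 : ℝ) ≤ X := lintegral_mono fun y => le_add_self
        calc Iq 2 (volume.restrict B) g₂
            ≤ 2 ^ ((2 : ℝ) - 1) * (Iq 2 (volume.restrict B) g + Iq 2 (volume.restrict B) g₁) :=
              Iq_sub_le (by norm_num) hgm.aestronglyMeasurable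
          _ = 2 * (Iq 2 (volume.restrict B) g + Iq 2 (volume.restrict B) g₁) := by
              have : (2 : ℝ≥0∞) ^ ((2 : ℝ) - 1) = 2 := by norm_num
              rw [this]
          _ ≤ 2 * (X + CE * X) := by
              refine mul_le_mul' le_rfl (add_le_add hXg ?_)
              exact (setLIntegral_le_lintegral _ _).trans
                (hE1.trans (mul_le_mul' le_rfl hXf))
          _ = (2 + 2 * CE) * X := by ring
      have e1 : ∫⁻ y in ball x r, (2 * ‖g₂ y‖ₑ ^ (2 : ℝ)) ^ s =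
          2 ^ s * Iq p (volume.restrict (ball x r)) g₂ := by
        unfold Iq
        rw [← lintegral_const_mul' _ _ (ENNReal.rpow_ne_top_of_nonneg hs0 (by simp))]
        refine lintegral_congr fun y => ?_
        rw [ENNReal.mul_rpow_of_nonneg _ _ hs0, ← ENNReal.rpow_mul]
        congr 2
        rw [hs]; ring
      have hball : volume (ball x r) = rd E r * wv := Measure.addHaar_ball_of_pos volume x hr
      have e2 : volume (ball x r) ^ (1 - s) * wv ^ (s - 1) = rd E r ^ (1 - s) := by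
        rw [hball, ENNReal.mul_rpow_of_ne_zero (rd_pos hr) hwv0, mul_assoc,
          ← ENNReal.rpow_add _ _ hwv0 hwvt]
        have : 1 - s + (s - 1) = 0 := by ring
        rw [this, ENNReal.rpow_zero, mul_one]
      rw [e1]
      calc 2 ^ s * Iq p (volume.restrict (ball x r)) g₂
          ≤ 2 ^ s * (N * rd E r ^ (1 - s) * ((2 + 2 * CE) * X) ^ s) := by
            refine mul_le_mul' le_rfl (h1.trans ?_)
            refine mul_le_mul' le_rfl (ENNReal.rpow_le_rpow h2 hs0)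
        _ = NN * volume (ball x r) ^ (1 - s) * X ^ s := by
            rw [← e2, ENNReal.mul_rpow_of_nonneg _ _ hs0, hNN]
            ring

end Pool.Agent.Lib.MP_a73848
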