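import Mathlib
import Pool.Agent.Lib.MP_a73848.Power

/-!
# MP_a73848_an: a Morrey type estimate on a group
-/

set_option autoImplicit false
set_option linter.unusedSectionVars false

open MeasureTheory Metric Filter Topology Set
open scoped ContDiff ENNReal NNReal

namespace Pool.Agent.Lib.MP_a73848

variable {Z : Type*} [NormedAddCommGroup Z] [MeasurableSpace Z] [BorelSpace Z]
  [SecondCountableTopology Z] (μ : Measure Z) [SFinite μ] [μ.IsAddLeftInvariant]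
variable {F : Type*} [NormedAddCommGroup F] [MeasurableSpace F] [BorelSpace F]
  [SecondCountableTopology F]

/-- the double integral of differences -/
theorem double_diff {q : ℝ} {Ψ : Z → F} (hΨ : Measurable Ψ) (z : Z) {δ δ' : ℝ} (hδ : δ' ≤ δ)
    {b : ℝ≥0∞} (hb : ∀ v : Z, ‖v‖ < 2 * δ → ∫⁻ w, ‖Ψ w - Ψ (w + v)‖ₑ ^ q ∂μ ≤ b) :
    ∫⁻ w in ball (0 : Z) δ', ∫⁻ w' in ball (0 : Z) δ, ‖Ψ (z + w) - Ψ (z + w')‖ₑ ^ q ∂μ ∂μ ≤
      μ (ball 0 (2 * δ)) * b := by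
  have hjm : Measurable (fun p : Z × Z => ‖Ψ (z + p.1) - Ψ (z + (p.1 + p.2))‖ₑ ^ q) := by
    refine Measurable.pow_const (Measurable.enorm (Measurable.sub ?_ ?_)) q
    · exact hΨ.comp (measurable_const.add measurable_fst)
    · exact hΨ.comp (measurable_const.add (measurable_fst.add measurable_snd))
  calc ∫⁻ w in ball (0 : Z) δ', ∫⁻ w' in ball (0 : Z) δ, ‖Ψ (z + w) - Ψ (z + w')‖ₑ ^ q ∂μ ∂μ
      ≤ ∫⁻ w in ball (0 : Z) δ', ∫⁻ v in ball (0 : Z) (2 * δ),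
          ‖Ψ (z + w) - Ψ (z + (w + v))‖ₑ ^ q ∂μ ∂μ := by
        refine setLIntegral_mono' measurableSet_ball fun w hw => ?_
        rw [← lintegral_indicator measurableSet_ball, ← lintegral_indicator measurableSet_ball,
          ← lintegral_add_left_eq_self _ w]
        refine lintegral_mono fun v => ?_
        by_cases hv : w + v ∈ ball (0 : Z) δ
        · rw [indicator_of_mem hv]
          have : v ∈ ball (0 : Z) (2 * δ) := by
            rw [mem_ball_zero_iff] at hv hw ⊢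
            have e : v = (w + v) - w := by abel
            rw [e]
            refine (norm_sub_le _ _).trans_lt ?_
            linarith
          rw [indicator_of_mem this]
        · rw [indicator_of_notMem hv]
          exact zero_le
    _ ≤ ∫⁻ w, ∫⁻ v in ball (0 : Z) (2 * δ), ‖Ψ (z + w) - Ψ (z + (w + v))‖ₑ ^ q ∂μ ∂μ :=
        setLIntegral_le_lintegral _ _
    _ = ∫⁻ v in ball (0 : Z) (2 * δ), (∫⁻ w, ‖Ψ (z + w) - Ψ (z + (w + v))‖ₑ ^ q ∂μ) ∂μ := by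
        rw [lintegral_lintegral_swap]
        exact hjm.aemeasurable
    _ ≤ ∫⁻ _v in ball (0 : Z) (2 * δ), b ∂μ := by
        refine setLIntegral_mono' measurableSet_ball fun v hv => ?_
        have e : ∀ w, z + (w + v) = (z + w) + v := fun w => by abel
        simp_rw [e]
        rw [lintegral_add_left_eq_self (fun w => ‖Ψ w - Ψ (w + v)‖ₑ ^ q) z]
        exact hb v (mem_ball_zero_iff.mp hv)
    _ = μ (ball 0 (2 * δ)) * b := by
        rw [setLIntegral_const, mul_comm]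

/-- comparison of averages over two balls -/
theorem avg_step {q : ℝ} (hq : 1 ≤ q) {Ψ : Z → F} (hΨ : Measurable Ψ) (z : Z) {δ δ' : ℝ}
    (hδ : δ' ≤ δ) {b : ℝ≥0∞}
    (hb : ∀ v : Z, ‖v‖ < 2 * δ → ∫⁻ w, ‖Ψ w - Ψ (w + v)‖ₑ ^ q ∂μ ≤ b)
    (h0 : μ (ball (0 : Z) δ) ≠ 0) (h1 : μ (ball (0 : Z) δ) ≠ ⊤)
    (h0' : μ (ball (0 : Z) δ') ≠ 0) (h1' : μ (ball (0 : Z) δ') ≠ ⊤) :
    ((∫⁻ w in ball (0 : Z) δ', ‖Ψ (z + w)‖ₑ ^ q ∂μ) / μ (ball (0 : Z) δ')) ^ (1 / q) ≤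
      ((∫⁻ w in ball (0 : Z) δ, ‖Ψ (z + w)‖ₑ ^ q ∂μ) / μ (ball (0 : Z) δ)) ^ (1 / q) +
        (μ (ball (0 : Z) (2 * δ)) * b / (μ (ball (0 : Z) δ) * μ (ball (0 : Z) δ'))) ^ (1 / q) := by
  have hq0 : 0 < q := by linarith
  have hq1 : 0 ≤ 1 / q := by positivity
  set m := μ (ball (0 : Z) δ) with hm
  set m' := μ (ball (0 : Z) δ') with hm'
  set I := ∫⁻ w in ball (0 : Z) δ, ‖Ψ (z + w)‖ₑ ^ q ∂μ with hI
  set I' := ∫⁻ w in ball (0 : Z) δ', ‖Ψ (z + w)‖ₑ ^ q ∂μ with hI'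
  set P : Measure (Z × Z) := (μ.restrict (ball (0 : Z) δ')).prod (μ.restrict (ball (0 : Z) δ))
    with hP
  have mf : Measurable (fun p : Z × Z => ‖Ψ (z + p.2)‖ₑ) :=
    (hΨ.comp (measurable_const.add measurable_snd)).enorm
  have mg : Measurable (fun p : Z × Z => ‖Ψ (z + p.1) - Ψ (z + p.2)‖ₑ) :=
    ((hΨ.comp (measurable_const.add measurable_fst)).sub
      (hΨ.comp (measurable_const.add measurable_snd))).enorm
  have mh : Measurable (fun p : Z × Z => ‖Ψ (z + p.1)‖ₑ) :=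
    (hΨ.comp (measurable_const.add measurable_fst)).enorm
  have key := ENNReal.lintegral_Lp_add_le (μ := P) mf.aemeasurable mg.aemeasurable hq
  have e1 : ∫⁻ p, ‖Ψ (z + p.2)‖ₑ ^ q ∂P = m' * I := by
    rw [hP, lintegral_prod _ (mf.pow_const q).aemeasurable]
    simp only
    rw [lintegral_const, Measure.restrict_apply_univ, mul_comm]
  have e2 : ∫⁻ p, ‖Ψ (z + p.1)‖ₑ ^ q ∂P = m * I' := by
    rw [hP, lintegral_prod _ (mh.pow_const q).aemeasurable]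
    simp only [lintegral_const, Measure.restrict_apply_univ]
    rw [lintegral_mul_const' _ _ h1, mul_comm]
  have e3 : ∫⁻ p, ‖Ψ (z + p.1) - Ψ (z + p.2)‖ₑ ^ q ∂P ≤ μ (ball (0 : Z) (2 * δ)) * b := by
    rw [hP, lintegral_prod _ (mg.pow_const q).aemeasurable]
    exact double_diff μ hΨ z hδ hb
  have e4 : (m * I') ^ (1 / q) ≤ (m' * I) ^ (1 / q) + (μ (ball (0 : Z) (2 * δ)) * b) ^ (1 / q) := by
    calc (m * I') ^ (1 / q) = (∫⁻ p, ‖Ψ (z + p.1)‖ₑ ^ q ∂P) ^ (1 / q) := by rw [e2]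
      _ ≤ (∫⁻ p, ((fun p : Z × Z => ‖Ψ (z + p.2)‖ₑ) +
            fun p : Z × Z => ‖Ψ (z + p.1) - Ψ (z + p.2)‖ₑ) p ^ q ∂P) ^ (1 / q) := by
          refine ENNReal.rpow_le_rpow (lintegral_mono fun p => ENNReal.rpow_le_rpow ?_ hq0.le) hq1
          simp only [Pi.add_apply]
          calc ‖Ψ (z + p.1)‖ₑ = ‖Ψ (z + p.2) + (Ψ (z + p.1) - Ψ (z + p.2))‖ₑ := by
                congr 1; abel
            _ ≤ _ := enorm_add_le _ _
      _ ≤ (∫⁻ p, ‖Ψ (z + p.2)‖ₑ ^ q ∂P) ^ (1 / q) +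
            (∫⁻ p, ‖Ψ (z + p.1) - Ψ (z + p.2)‖ₑ ^ q ∂P) ^ (1 / q) := key
      _ ≤ _ := by
          rw [e1]
          gcongr
  -- divide by `(m m')^(1/q)`
  have hmm0 : m * m' ≠ 0 := mul_ne_zero h0 h0'
  have hmmt : m * m' ≠ ⊤ := ENNReal.mul_ne_top h1 h1'
  have f1 : I' / m' = (m * I') / (m * m') := by
    rw [ENNReal.mul_div_mul_left _ _ h0 h1]
  have f2 : I / m = (m' * I) / (m * m') := by
    rw [mul_comm m m', ENNReal.mul_div_mul_left _ _ h0' h1']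
  rw [f1, f2, ENNReal.div_rpow_of_nonneg _ _ hq1, ENNReal.div_rpow_of_nonneg _ _ hq1,
    ENNReal.div_rpow_of_nonneg _ _ hq1, ← ENNReal.add_div]
  exact ENNReal.div_le_div_right e4 _

/-- Morrey type bound for averages of `‖Ψ‖ ^ q`. -/
theorem morrey {q γ D : ℝ} (hq : 1 ≤ q) (hγ : 0 < γ) (hD : 0 ≤ D) (hDq : D < γ * q)
    {c C M : ℝ≥0∞} (hc0 : c ≠ 0) (hct : c ≠ ⊤) (hCt : C ≠ ⊤) (hMt : M ≠ ⊤)
    (hlow : ∀ δ : ℝ, 0 < δ → δ ≤ 1 → c * ENNReal.ofReal δ ^ D ≤ μ (ball (0 : Z) δ))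
    (hup : ∀ δ : ℝ, 0 < δ → δ ≤ 1 → μ (ball (0 : Z) δ) ≤ C * ENNReal.ofReal δ ^ D)
    {δ₁ : ℝ} (hδ₁ : 0 < δ₁) (hδ₁1 : 2 * δ₁ ≤ 1) :
    ∃ S : ℝ≥0∞, S ≠ ⊤ ∧ ∀ Ψ : Z → F, Measurable Ψ → ∫⁻ w, ‖Ψ w‖ₑ ^ q ∂μ ≤ M →
      (∀ (v : Z) (δ : ℝ), 0 < δ → δ ≤ 2 * δ₁ → ‖v‖ < δ →
        ∫⁻ w, ‖Ψ w - Ψ (w + v)‖ₑ ^ q ∂μ ≤ M * ENNReal.ofReal δ ^ (γ * q)) →
      ∀ (z : Z) (j : ℕ), ((∫⁻ w in ball (0 : Z) (δ₁ * 2⁻¹ ^ j), ‖Ψ (z + w)‖ₑ ^ q ∂μ) /
        μ (ball (0 : Z) (δ₁ * 2⁻¹ ^ j))) ^ (1 / q) ≤ S := by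
  have hq0 : 0 < q := by linarith
  have hq1 : 0 ≤ 1 / q := by positivity
  set r : ℕ → ℝ := fun j => δ₁ * 2⁻¹ ^ j with hr
  have hrpos : ∀ j, 0 < r j := fun j => by positivity
  have hrle : ∀ j, r j ≤ δ₁ := fun j => by
    rw [hr]
    exact mul_le_of_le_one_right hδ₁.le (pow_le_one₀ (by norm_num) (by norm_num))
  set m : ℕ → ℝ≥0∞ := fun j => μ (ball (0 : Z) (r j)) with hm
  set e : ℝ≥0∞ := ENNReal.ofReal δ₁ with he
  have he0 : e ≠ 0 := (ENNReal.ofReal_pos.mpr hδ₁).ne'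
  have het : e ≠ ⊤ := ENNReal.ofReal_ne_top
  have hre : ∀ j, ENNReal.ofReal (r j) = e * 2⁻¹ ^ j := by
    intro j
    rw [hr]
    simp only
    rw [ENNReal.ofReal_mul hδ₁.le, ENNReal.ofReal_pow (by norm_num),
      ENNReal.ofReal_inv_of_pos (by norm_num)]
    simp [he]
  have hr0 : ∀ j, ENNReal.ofReal (r j) ≠ 0 := fun j => (ENNReal.ofReal_pos.mpr (hrpos j)).ne'
  have hrt : ∀ j, ENNReal.ofReal (r j) ≠ ⊤ := fun j => ENNReal.ofReal_ne_top
  have hmlow : ∀ j, c * ENNReal.ofReal (r j) ^ D ≤ m j := fun j =>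
    hlow _ (hrpos j) (by linarith [hrle j])
  have hmup : ∀ j, m j ≤ C * ENNReal.ofReal (r j) ^ D := fun j =>
    hup _ (hrpos j) (by linarith [hrle j])
  have hrD0 : ∀ j, ENNReal.ofReal (r j) ^ D ≠ 0 := fun j =>
    (ENNReal.rpow_pos (pos_iff_ne_zero.mpr (hr0 j)) (hrt j)).ne'
  have hrDt : ∀ j, ENNReal.ofReal (r j) ^ D ≠ ⊤ := fun j =>
    ENNReal.rpow_ne_top_of_nonneg hD (hrt j)
  have hm0 : ∀ j, m j ≠ 0 := fun j h => by
    have := hmlow j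
    rw [h, nonpos_iff_eq_zero, mul_eq_zero] at this
    rcases this with h' | h'
    · exact hc0 h'
    · exact hrD0 j h'
  have hmt : ∀ j, m j ≠ ⊤ := fun j => ne_top_of_le_ne_top (ENNReal.mul_ne_top hCt (hrDt j)) (hmup j)
  -- the geometric bound of the error terms
  set β : ℝ := (γ * q - D) / q with hβ
  have hβ0 : 0 < β := div_pos (by linarith) hq0
  set K : ℝ≥0∞ := C * 2 ^ D * M * 2 ^ (γ * q) * (c * c)⁻¹ * 2 ^ D * e ^ (γ * q - D) with hK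
  have hKt : K ≠ ⊤ := by
    refine ENNReal.mul_ne_top (ENNReal.mul_ne_top (ENNReal.mul_ne_top (ENNReal.mul_ne_top
      (ENNReal.mul_ne_top (ENNReal.mul_ne_top hCt ?_) hMt) ?_) ?_) ?_) ?_
    · exact ENNReal.rpow_ne_top_of_nonneg hD (by simp)
    · exact ENNReal.rpow_ne_top_of_nonneg (by positivity) (by simp)
    · exact ENNReal.inv_ne_top.mpr (mul_ne_zero hc0 hc0)
    · exact ENNReal.rpow_ne_top_of_nonneg hD (by simp)
    · exact ENNReal.rpow_ne_top_of_nonneg (by linarith) het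
  set ρ : ℝ≥0∞ := 2⁻¹ ^ β with hρ
  have hρ1 : ρ < 1 := ENNReal.rpow_lt_one (by norm_num) hβ0
  have herr : ∀ j, (μ (ball (0 : Z) (2 * r j)) * (M * ENNReal.ofReal (2 * r j) ^ (γ * q)) /
      (m j * m (j + 1))) ^ (1 / q) ≤ K ^ (1 / q) * ρ ^ j := by
    intro j
    have g1 : ENNReal.ofReal (2 * r j) = 2 * ENNReal.ofReal (r j) := by
      rw [ENNReal.ofReal_mul (by norm_num)]; simp
    have g2 : μ (ball (0 : Z) (2 * r j)) ≤ C * (2 ^ D * ENNReal.ofReal (r j) ^ D) := by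
      refine (hup _ (by have := hrpos j; linarith) (by linarith [hrle j])).trans ?_
      rw [g1, ENNReal.mul_rpow_of_nonneg _ _ hD]
    have g3 : ENNReal.ofReal (r (j + 1)) = 2⁻¹ * ENNReal.ofReal (r j) := by
      rw [hre, hre, pow_succ]; ring
    have g4 : c * c * (2⁻¹ ^ D * (ENNReal.ofReal (r j) ^ D * ENNReal.ofReal (r j) ^ D)) ≤
        m j * m (j + 1) := by
      calc _ = (c * ENNReal.ofReal (r j) ^ D) * (c * (2⁻¹ ^ D * ENNReal.ofReal (r j) ^ D)) := by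
            ring
        _ = (c * ENNReal.ofReal (r j) ^ D) * (c * ENNReal.ofReal (r (j + 1)) ^ D) := by
            rw [g3, ENNReal.mul_rpow_of_nonneg _ _ hD]
        _ ≤ _ := mul_le_mul' (hmlow j) (hmlow (j + 1))
    set x := ENNReal.ofReal (r j) with hx
    have h2inv : ((2 : ℝ≥0∞)⁻¹ ^ D)⁻¹ = 2 ^ D := by
      rw [ENNReal.inv_rpow, inv_inv]
    have g5 : μ (ball (0 : Z) (2 * r j)) * (M * ENNReal.ofReal (2 * r j) ^ (γ * q)) /
        (m j * m (j + 1)) ≤ K * (2⁻¹ ^ j) ^ (γ * q - D) := by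
      calc _ ≤ C * (2 ^ D * x ^ D) * (M * (2 ^ (γ * q) * x ^ (γ * q))) /
            (c * c * (2⁻¹ ^ D * (x ^ D * x ^ D))) := by
            refine ENNReal.div_le_div (mul_le_mul' g2 ?_) g4
            rw [g1, ENNReal.mul_rpow_of_nonneg _ _ (by positivity)]
        _ = (C * 2 ^ D * M * 2 ^ (γ * q) * (c * c)⁻¹ * 2 ^ D) * (x ^ (γ * q) / x ^ D) := by
            have hcc0 : c * c ≠ 0 := mul_ne_zero hc0 hc0
            have hcct : c * c ≠ ⊤ := ENNReal.mul_ne_top hct hct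
            have hxD0 : x ^ D ≠ 0 := hrD0 j
            have hxDt : x ^ D ≠ ⊤ := hrDt j
            have j1 : (x ^ D * x ^ D)⁻¹ = (x ^ D)⁻¹ * (x ^ D)⁻¹ :=
              ENNReal.mul_inv (Or.inl hxD0) (Or.inl hxDt)
            have j2 : (2⁻¹ ^ D * (x ^ D * x ^ D))⁻¹ = 2 ^ D * ((x ^ D)⁻¹ * (x ^ D)⁻¹) := by
              rw [← j1, ← h2inv]
              exact ENNReal.mul_inv (Or.inr (ENNReal.mul_ne_top hxDt hxDt))
                (Or.inr (mul_ne_zero hxD0 hxD0))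
            have i1 : (c * c * (2⁻¹ ^ D * (x ^ D * x ^ D)))⁻¹ =
                (c * c)⁻¹ * (2 ^ D * ((x ^ D)⁻¹ * (x ^ D)⁻¹)) := by
              rw [← j2]
              exact ENNReal.mul_inv (Or.inl hcc0) (Or.inl hcct)
            rw [div_eq_mul_inv, i1, div_eq_mul_inv]
            calc C * (2 ^ D * x ^ D) * (M * (2 ^ (γ * q) * x ^ (γ * q))) *
                  ((c * c)⁻¹ * (2 ^ D * ((x ^ D)⁻¹ * (x ^ D)⁻¹)))
                = (C * 2 ^ D * M * 2 ^ (γ * q) * (c * c)⁻¹ * 2 ^ D) *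
                    (x ^ (γ * q) * (x ^ D)⁻¹) * (x ^ D * (x ^ D)⁻¹) := by ring
              _ = _ := by rw [ENNReal.mul_inv_cancel hxD0 hxDt, mul_one]
        _ = K * (2⁻¹ ^ j) ^ (γ * q - D) := by
            rw [← ENNReal.rpow_sub _ _ (hr0 j) (hrt j), hre,
              ENNReal.mul_rpow_of_nonneg _ _ (by linarith), hK]
            ring
    refine (ENNReal.rpow_le_rpow g5 hq1).trans (le_of_eq ?_)
    rw [ENNReal.mul_rpow_of_nonneg _ _ hq1]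
    congr 1
    rw [← ENNReal.rpow_natCast, ← ENNReal.rpow_mul, ← ENNReal.rpow_mul, hρ,
      ← ENNReal.rpow_natCast (2⁻¹ ^ β) j, ← ENNReal.rpow_mul]
    congr 1
    rw [hβ]
    ring
  set S : ℝ≥0∞ := (M / m 0) ^ (1 / q) + ∑' j, K ^ (1 / q) * ρ ^ j with hS
  refine ⟨S, ?_, fun Ψ hΨ hΨM hΨd z j => ?_⟩
  · refine ENNReal.add_ne_top.mpr ⟨ENNReal.rpow_ne_top_of_nonneg hq1
      (ENNReal.div_ne_top hMt (hm0 0)), ?_⟩
    rw [ENNReal.tsum_mul_left, ENNReal.tsum_geometric]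
    exact ENNReal.mul_ne_top (ENNReal.rpow_ne_top_of_nonneg hq1 hKt)
      (ENNReal.inv_ne_top.mpr (tsub_pos_iff_lt.mpr hρ1).ne')
  · have hind : ∀ j : ℕ, ((∫⁻ w in ball (0 : Z) (r j), ‖Ψ (z + w)‖ₑ ^ q ∂μ) / m j) ^ (1 / q) ≤
        (M / m 0) ^ (1 / q) + ∑ i ∈ Finset.range j, K ^ (1 / q) * ρ ^ i := by
      intro j
      induction j with
      | zero =>
        rw [Finset.range_zero, Finset.sum_empty, add_zero]
        refine ENNReal.rpow_le_rpow (ENNReal.div_le_div_right ?_ _) hq1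
        refine (setLIntegral_le_lintegral _ _).trans ?_
        rw [lintegral_add_left_eq_self (fun w => ‖Ψ w‖ₑ ^ q) z]
        exact hΨM
      | succ j ih =>
        rw [Finset.sum_range_succ, ← add_assoc]
        have hle : r (j + 1) ≤ r j := by
          rw [hr]; simp only
          rw [pow_succ]
          have : 0 < δ₁ * 2⁻¹ ^ j := hrpos j
          linarith
        have h3 := avg_step μ hq hΨ z hle (b := M * ENNReal.ofReal (2 * r j) ^ (γ * q))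
          (fun v hv => hΨd v (2 * r j) (by have := hrpos j; linarith) (by linarith [hrle j]) hv)
          (hm0 j) (hmt j) (hm0 (j + 1)) (hmt (j + 1))
        exact h3.trans (add_le_add ih (herr j))
    refine (hind j).trans (add_le_add le_rfl ?_)
    exact ENNReal.sum_le_tsum _

end Pool.Agent.Lib.MP_a73848
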