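import Mathlib

/-!
# MP_a73848_an: higher integrability from the decay of level integrals
-/

set_option autoImplicit false
set_option linter.unusedSectionVars false

open MeasureTheory Metric Filter Topology Set
open scoped ContDiff ENNReal NNReal

namespace Pool.Agent.Lib.MP_a73848

theorem pow_le_tsum {a b : ℝ≥0∞} (ha0 : a ≠ 0) (hat : a ≠ ⊤) (hb : 1 < b) (hbt : b ≠ ⊤) {s : ℝ} (hs : 0 < s) (f : ℝ≥0∞) :
    f ^ (1 + s) ≤ a ^ (1 + s) + ∑' j : ℕ, (a * b ^ (j + 1)) ^ s * (if a * b ^ j < f then f else 0) := by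
  classical
  by_cases hfa : f ≤ a
  · exact (ENNReal.rpow_le_rpow hfa (by linarith)).trans le_self_add
  rw [not_le] at hfa
  by_cases hft : f = ⊤
  · -- infinite value
    refine le_trans ?_ le_add_self
    refine le_trans ?_ (ENNReal.le_tsum 0)
    have h1 : a * b ^ 0 < f := by simpa using hfa
    rw [if_pos h1, hft]
    have h2 : (a * b ^ (0 + 1)) ^ s ≠ 0 := by
      refine (ENNReal.rpow_pos ?_ ?_).ne'
      · refine ENNReal.mul_pos ha0 ?_
        simp only [zero_add, pow_one]
        exact (zero_lt_one.trans hb).ne'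
      · exact ENNReal.mul_ne_top hat (ENNReal.pow_ne_top hbt)
    rw [ENNReal.mul_top h2]
    exact le_top
  · -- finite value
    have hex : ∃ k : ℕ, f ≤ a * b ^ k := by
      have h1 : Tendsto (fun k : ℕ => a * b ^ k) atTop (𝓝 ⊤) := by
        have h2 := ENNReal.tendsto_pow_atTop_nhds_top_iff.mpr hb
        have h3 := ENNReal.Tendsto.const_mul (a := a) h2 (Or.inl (by simp))
        rwa [ENNReal.mul_top ha0] at h3
      have h4 := (tendsto_order.mp h1).1 f (lt_top_iff_ne_top.mpr hft)
      obtain ⟨k, hk⟩ := h4.exists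
      exact ⟨k, hk.le⟩
    have hk := Nat.find_spec hex
    set k := Nat.find hex with hkdef
    have hk0 : k ≠ 0 := by
      intro h0
      rw [h0] at hk
      simp only [pow_zero, mul_one] at hk
      exact absurd hk (not_le.mpr hfa)
    obtain ⟨j, hj⟩ := Nat.exists_eq_succ_of_ne_zero hk0
    have hj1 : a * b ^ j < f := by
      have := Nat.find_min hex (m := j) (by rw [← hkdef, hj]; exact Nat.lt_succ_self j)
      exact not_le.mp this
    refine le_trans ?_ le_add_self
    refine le_trans ?_ (ENNReal.le_tsum j)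
    rw [if_pos hj1, ENNReal.rpow_add_of_nonneg _ _ (by norm_num) hs.le, ENNReal.rpow_one, mul_comm]
    refine mul_le_mul' (ENNReal.rpow_le_rpow ?_ hs.le) le_rfl
    rw [hj] at hk
    exact hk

theorem higher {α : Type*} [MeasurableSpace α] {μ : Measure α} {f : α → ℝ≥0∞} (hf : Measurable f)
    {a b c ρ : ℝ≥0∞} (ha0 : a ≠ 0) (hat : a ≠ ⊤) (hb : 1 < b) (hbt : b ≠ ⊤) {s : ℝ} (hs : 0 < s)
    (h : ∀ j : ℕ, ∫⁻ x in {x | a * b ^ j < f x}, f x ∂μ ≤ c * ρ ^ j) (S : Set α) :
    ∫⁻ x in S, f x ^ (1 + s) ∂μ ≤ a ^ (1 + s) * μ S + (a * b) ^ s * c * (1 - b ^ s * ρ)⁻¹ := by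
  have hm : ∀ j : ℕ, Measurable fun x =>
      (a * b ^ (j + 1)) ^ s * (if a * b ^ j < f x then f x else 0) := by
    intro j
    refine Measurable.const_mul ?_ _
    exact Measurable.ite (measurableSet_lt measurable_const hf) hf measurable_const
  calc ∫⁻ x in S, f x ^ (1 + s) ∂μ
      ≤ ∫⁻ x in S, (a ^ (1 + s) + ∑' j : ℕ, (a * b ^ (j + 1)) ^ s *
          (if a * b ^ j < f x then f x else 0)) ∂μ :=
        lintegral_mono fun x => pow_le_tsum ha0 hat hb hbt hs (f x)
    _ = a ^ (1 + s) * μ S + ∑' j : ℕ, ∫⁻ x in S, (a * b ^ (j + 1)) ^ s *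
          (if a * b ^ j < f x then f x else 0) ∂μ := by
        rw [lintegral_add_left measurable_const, setLIntegral_const,
          lintegral_tsum fun j => (hm j).aemeasurable]
    _ ≤ a ^ (1 + s) * μ S + ∑' j : ℕ, (a * b) ^ s * c * (b ^ s * ρ) ^ j := by
        refine add_le_add le_rfl (ENNReal.tsum_le_tsum fun j => ?_)
        have hct : (a * b ^ (j + 1)) ^ s ≠ ⊤ := ENNReal.rpow_ne_top_of_nonneg hs.le
          (ENNReal.mul_ne_top hat (ENNReal.pow_ne_top hbt))
        rw [lintegral_const_mul' _ _ hct]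
        have h1 : ∫⁻ x in S, (if a * b ^ j < f x then f x else 0) ∂μ ≤ c * ρ ^ j := by
          refine le_trans (setLIntegral_le_lintegral _ _) ?_
          refine le_trans (le_of_eq ?_) (h j)
          rw [← lintegral_indicator (measurableSet_lt measurable_const hf)]
          refine lintegral_congr fun x => ?_
          by_cases hx : a * b ^ j < f x
          · rw [if_pos hx, indicator_of_mem (show x ∈ {x | a * b ^ j < f x} from hx)]
          · rw [if_neg hx, indicator_of_notMem (show x ∉ {x | a * b ^ j < f x} from hx)]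
        calc (a * b ^ (j + 1)) ^ s * ∫⁻ x in S, (if a * b ^ j < f x then f x else 0) ∂μ
            ≤ (a * b ^ (j + 1)) ^ s * (c * ρ ^ j) := by gcongr
          _ = (a * b) ^ s * c * (b ^ s * ρ) ^ j := by
              have e1 : (b ^ j) ^ s = (b ^ s) ^ j := by
                rw [← ENNReal.rpow_natCast b j, ← ENNReal.rpow_natCast (b ^ s) j,
                  ← ENNReal.rpow_mul, ← ENNReal.rpow_mul, mul_comm (j : ℝ) s]
              have e2 : (a * b ^ (j + 1)) ^ s = (a * b) ^ s * (b ^ s) ^ j := by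
                rw [← e1, ← ENNReal.mul_rpow_of_nonneg _ _ hs.le]
                congr 1
                ring
              rw [e2, mul_pow]
              ring
    _ = _ := by
        rw [ENNReal.tsum_mul_left, ENNReal.tsum_geometric]

end Pool.Agent.Lib.MP_a73848
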