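import Mathlib
import Pool.Agent.Lib.MP_a73848.Family

/-!
# MP_a73848_an: jointly measurable versions of Hölder continuous families
-/

set_option autoImplicit false
set_option linter.unusedSectionVars false

open MeasureTheory Metric Filter Topology Set
open scoped ContDiff ENNReal NNReal

namespace Pool.Agent.Lib.MP_a73848

variable {E : Type*} [NormedAddCommGroup E] [InnerProductSpace ℝ E] [FiniteDimensional ℝ E]
  [MeasurableSpace E] [BorelSpace E]
variable {𝕋 : Type*} [NormedAddCommGroup 𝕋] [MeasurableSpace 𝕋] [BorelSpace 𝕋]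
  [SecondCountableTopology 𝕋]

theorem joint {β : ℝ} (hβ : 0 < β) {G : 𝕋 → E → E} (hG : ∀ θ, Measurable (G θ)) {M : ℝ≥0∞}
    (hM : M ≠ ⊤)
    (hMG : ∀ θ θ', Iq 2 volume (fun x => G θ x - G θ' x) ≤ M * ‖θ - θ'‖ₑ ^ β) :
    ∃ Γ : 𝕋 × E → E, Measurable Γ ∧ ∀ θ, (fun x => Γ (θ, x)) =ᵐ[volume] G θ := by
  classical
  obtain ⟨d, hd⟩ := TopologicalSpace.exists_dense_seq 𝕋
  -- radii
  set r : ℕ → ℝ := fun n => (2⁻¹ : ℝ) ^ ((n : ℝ) / β) with hr
  have hrpos : ∀ n, 0 < r n := fun n => Real.rpow_pos_of_pos (by norm_num) _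
  have hex : ∀ n, ∀ θ : 𝕋, ∃ k, ‖θ - d k‖ < r n := by
    intro n θ
    obtain ⟨k, hk⟩ := hd.exists_dist_lt θ (hrpos n)
    exact ⟨k, by rwa [dist_eq_norm] at hk⟩
  set κ : ℕ → 𝕋 → ℕ := fun n θ => Nat.find (hex n θ) with hκ
  have hκm : ∀ n, Measurable (κ n) := by
    intro n
    refine measurable_find (hex n) fun k => ?_
    have : IsOpen {θ : 𝕋 | ‖θ - d k‖ < r n} := isOpen_lt (by fun_prop) continuous_const
    exact this.measurableSet
  have hκs : ∀ n θ, ‖θ - d (κ n θ)‖ < r n := fun n θ => Nat.find_spec (hex n θ)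
  set Γn : ℕ → 𝕋 × E → E := fun n p => G (d (κ n p.1)) p.2 with hΓn
  have hΓm : ∀ n, Measurable (Γn n) := by
    intro n
    have h1 : Measurable (fun p : ℕ × E => G (d p.1) p.2) :=
      measurable_from_prod_countable_right fun k => hG (d k)
    exact h1.comp (((hκm n).comp measurable_fst).prodMk measurable_snd)
  refine ⟨fun p => limUnder atTop (fun n => Γn n p),
    (StronglyMeasurable.limUnder fun n => (hΓm n).stronglyMeasurable).measurable, fun θ => ?_⟩
  -- a.e. convergence on every leaf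
  have hbound : ∀ n, Iq 2 volume (fun x => Γn n (θ, x) - G θ x) ≤ M * 2⁻¹ ^ n := by
    intro n
    refine (hMG (d (κ n θ)) θ).trans (mul_le_mul' le_rfl ?_)
    have h1 : ‖d (κ n θ) - θ‖ ≤ r n := by
      rw [norm_sub_rev]; exact (hκs n θ).le
    have h2 : ‖d (κ n θ) - θ‖ₑ ^ β ≤ ENNReal.ofReal (r n) ^ β := by
      rw [← ofReal_norm]
      exact ENNReal.rpow_le_rpow (ENNReal.ofReal_le_ofReal h1) hβ.le
    refine h2.trans (le_of_eq ?_)
    rw [ENNReal.ofReal_rpow_of_nonneg (hrpos n).le hβ.le, hr, ← Real.rpow_mul (by norm_num),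
      div_mul_cancel₀ _ hβ.ne', Real.rpow_natCast, ENNReal.ofReal_pow (by norm_num)]
    congr 1
    rw [ENNReal.ofReal_inv_of_pos (by norm_num)]
    simp
  have hdm : ∀ n, Measurable (fun x => ‖Γn n (θ, x) - G θ x‖ₑ ^ (2 : ℝ)) := fun n =>
    ((((hΓm n).comp (measurable_const.prodMk measurable_id)).sub (hG θ)).enorm).pow_const _
  have hsum : ∫⁻ x, ∑' n, ‖Γn n (θ, x) - G θ x‖ₑ ^ (2 : ℝ) ≠ ⊤ := by
    rw [lintegral_tsum fun n => (hdm n).aemeasurable]
    refine ne_top_of_le_ne_top ?_ (ENNReal.tsum_le_tsum hbound)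
    rw [ENNReal.tsum_mul_left, ENNReal.tsum_geometric]
    refine ENNReal.mul_ne_top hM ?_
    simp
  have hae := ae_lt_top (Measurable.tsum hdm) hsum
  filter_upwards [hae] with x hx
  have h1 := ENNReal.tendsto_atTop_zero_of_tsum_ne_top hx.ne
  have h2 : Tendsto (fun n => ‖Γn n (θ, x) - G θ x‖ₑ) atTop (𝓝 0) := by
    have h3 := tendsto_rpow_zero h1 (q := 1 / 2) (by norm_num)
    refine h3.congr fun n => ?_
    rw [← ENNReal.rpow_mul]
    norm_num
  have h3 : Tendsto (fun n => Γn n (θ, x)) atTop (𝓝 (G θ x)) := by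
    rw [tendsto_iff_edist_tendsto_0]
    simpa [edist_eq_enorm_sub] using h2
  exact h3.limUnder_eq

end Pool.Agent.Lib.MP_a73848
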