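import Mathlib
import Pool.Agent.Lib.MP_a73848.Joint

/-!
# MP_a73848_an: averaging over the lifted space
-/

set_option autoImplicit false
set_option linter.unusedSectionVars false

open MeasureTheory Metric Filter Topology Set
open scoped ContDiff ENNReal NNReal

namespace Pool.Agent.Lib.MP_a73848

variable {E : Type*} [NormedAddCommGroup E] [InnerProductSpace ℝ E] [FiniteDimensional ℝ E]
  [MeasurableSpace E] [BorelSpace E]
variable {𝕋 : Type*} [NormedAddCommGroup 𝕋] [MeasurableSpace 𝕋] [BorelSpace 𝕋]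
  [SecondCountableTopology 𝕋] (ν : Measure 𝕋) [IsFiniteMeasure ν] [ν.IsAddLeftInvariant]

theorem sup_bound {q : ℝ} {Γ : 𝕋 × E → E} (hΓ : Measurable Γ) {ι : E →+ 𝕋}
    {N : ℝ≥0∞} (hN : ∀ θ, ∫⁻ y, ‖Γ (θ, y)‖ₑ ^ q ≤ N) (x : E)
    (B : Set E) (S : Set 𝕋) :
    ∫⁻ h in B, ∫⁻ ζ in S, ‖Γ (ζ - ι h, x + h)‖ₑ ^ q ∂ν ≤ ν univ * N := by
  have hm : Measurable (fun p : 𝕋 × E => ‖Γ p‖ₑ ^ q) := hΓ.enorm.pow_const q
  calc ∫⁻ h in B, ∫⁻ ζ in S, ‖Γ (ζ - ι h, x + h)‖ₑ ^ q ∂ν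
      ≤ ∫⁻ h, ∫⁻ ζ, ‖Γ (ζ - ι h, x + h)‖ₑ ^ q ∂ν :=
        (setLIntegral_le_lintegral _ _).trans
          (lintegral_mono fun h => setLIntegral_le_lintegral _ _)
    _ = ∫⁻ h, ∫⁻ θ, ‖Γ (θ, x + h)‖ₑ ^ q ∂ν := by
        refine lintegral_congr fun h => ?_
        have := lintegral_sub_right_eq_self (μ := ν) (fun θ => ‖Γ (θ, x + h)‖ₑ ^ q) (ι h)
        exact this
    _ = ∫⁻ θ, (∫⁻ h, ‖Γ (θ, x + h)‖ₑ ^ q) ∂ν := by
        rw [lintegral_lintegral_swap]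
        exact (hm.comp (measurable_snd.prodMk (measurable_const.add measurable_fst))).aemeasurable
    _ = ∫⁻ θ, (∫⁻ y, ‖Γ (θ, y)‖ₑ ^ q) ∂ν := by
        refine lintegral_congr fun θ => ?_
        exact lintegral_add_left_eq_self (fun y => ‖Γ (θ, y)‖ₑ ^ q) x
    _ ≤ ∫⁻ _θ : 𝕋, N ∂ν := lintegral_mono fun θ => hN θ
    _ = ν univ * N := by rw [lintegral_const, mul_comm]

theorem level_bound {q : ℝ} (hq : 1 ≤ q) {Γ : 𝕋 × E → E} (hΓ : Measurable Γ) {ι : E →+ 𝕋}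
    (hι : Continuous ι) {N : ℝ≥0∞} (hN : ∀ θ, ∫⁻ y, ‖Γ (θ, y)‖ₑ ^ q ≤ N)
    {δ : ℝ} {b : ℝ≥0∞}
    (hb : ∀ (h : E) (ζ : 𝕋), ‖h‖ < δ → ‖ζ‖ < δ →
      ∫⁻ x, ‖Γ (0, x) - Γ (ζ - ι h, x + h)‖ₑ ^ q ≤ b)
    {m : ℝ≥0∞} (hm : m = volume (ball (0 : E) δ) * ν (ball (0 : 𝕋) δ)) (hm0 : m ≠ 0) :
    ∫⁻ x in {x | 2 ^ q * (ν univ * N) < m * ‖Γ (0, x)‖ₑ ^ q}, ‖Γ (0, x)‖ₑ ^ q ≤ 2 ^ q * b := by
  have hq0 : 0 ≤ q := by linarith
  have hmt : m ≠ ⊤ := by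
    rw [hm]; exact ENNReal.mul_ne_top measure_ball_lt_top.ne (measure_ne_top _ _)
  set t : ℝ≥0∞ := 2 ^ (q - 1) with ht
  have htt : t ≠ ⊤ := ENNReal.rpow_ne_top_of_nonneg (by linarith) (by simp)
  have h2t : (2 : ℝ≥0∞) ^ q = 2 * t := by
    rw [ht, ENNReal.rpow_sub _ _ (by simp) (by simp), ENNReal.rpow_one]
    rw [ENNReal.mul_div_cancel (by simp) (by simp)]
  set W : E → ℝ≥0∞ := fun x => ∫⁻ h in ball (0 : E) δ, ∫⁻ ζ in ball (0 : 𝕋) δ,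
    ‖Γ (0, x) - Γ (ζ - ι h, x + h)‖ₑ ^ q ∂ν with hW
  -- joint measurability
  have hjm : Measurable (fun p : (E × E) × 𝕋 =>
      ‖Γ (0, p.1.1) - Γ (p.2 - ι p.1.2, p.1.1 + p.1.2)‖ₑ ^ q) := by
    refine Measurable.pow_const (Measurable.enorm (Measurable.sub ?_ ?_)) q
    · exact hΓ.comp (measurable_const.prodMk (measurable_fst.comp measurable_fst))
    · refine hΓ.comp (Measurable.prodMk ?_ ?_)
      · exact measurable_snd.sub (hι.measurable.comp (measurable_snd.comp measurable_fst))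
      · exact (measurable_fst.comp measurable_fst).add (measurable_snd.comp measurable_fst)
  have hin : Measurable (fun p : E × E => ∫⁻ ζ in ball (0 : 𝕋) δ,
      ‖Γ (0, p.1) - Γ (ζ - ι p.2, p.1 + p.2)‖ₑ ^ q ∂ν) :=
    Measurable.lintegral_prod_right' (f := fun p : (E × E) × 𝕋 =>
      ‖Γ (0, p.1.1) - Γ (p.2 - ι p.1.2, p.1.1 + p.1.2)‖ₑ ^ q) hjm
  have hWm : Measurable W := Measurable.lintegral_prod_right' (f := fun p : E × E =>
    ∫⁻ ζ in ball (0 : 𝕋) δ, ‖Γ (0, p.1) - Γ (ζ - ι p.2, p.1 + p.2)‖ₑ ^ q ∂ν) hin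
  -- integral of W
  have hWi : ∫⁻ x, W x ≤ m * b := by
    calc ∫⁻ x, W x = ∫⁻ h in ball (0 : E) δ, ∫⁻ x, ∫⁻ ζ in ball (0 : 𝕋) δ,
          ‖Γ (0, x) - Γ (ζ - ι h, x + h)‖ₑ ^ q ∂ν := by
          rw [lintegral_lintegral_swap]
          exact hin.aemeasurable
      _ = ∫⁻ h in ball (0 : E) δ, ∫⁻ ζ in ball (0 : 𝕋) δ, (∫⁻ x,
          ‖Γ (0, x) - Γ (ζ - ι h, x + h)‖ₑ ^ q) ∂ν := by
          refine lintegral_congr fun h => ?_
          rw [lintegral_lintegral_swap]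
          exact (hjm.comp ((measurable_fst.prodMk measurable_const).prodMk
            measurable_snd)).aemeasurable
      _ ≤ ∫⁻ _h in ball (0 : E) δ, ∫⁻ _ζ in ball (0 : 𝕋) δ, b ∂ν := by
          refine setLIntegral_mono' measurableSet_ball fun h hh => ?_
          refine setLIntegral_mono' measurableSet_ball fun ζ hζ => ?_
          exact hb h ζ (mem_ball_zero_iff.mp hh) (mem_ball_zero_iff.mp hζ)
      _ = m * b := by
          rw [setLIntegral_const, setLIntegral_const, hm]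
          ring
  -- pointwise
  have hpt : ∀ x, m * ‖Γ (0, x)‖ₑ ^ q ≤ t * (W x + ν univ * N) := by
    intro x
    have h1 : ∀ z : E, ‖Γ (0, x)‖ₑ ^ q ≤ t * (‖Γ (0, x) - z‖ₑ ^ q + ‖z‖ₑ ^ q) := by
      intro z
      have : ‖Γ (0, x)‖ₑ ≤ ‖Γ (0, x) - z‖ₑ + ‖z‖ₑ := by
        calc ‖Γ (0, x)‖ₑ = ‖(Γ (0, x) - z) + z‖ₑ := by simp
          _ ≤ _ := enorm_add_le _ _
      exact (ENNReal.rpow_le_rpow this hq0).trans (ENNReal.rpow_add_le_mul_rpow_add_rpow _ _ hq)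
    have m1 : ∀ h : E, Measurable (fun ζ : 𝕋 => ‖Γ (0, x) - Γ (ζ - ι h, x + h)‖ₑ ^ q) :=
      fun h => hjm.comp (measurable_prodMk_left (x := ((x, h) : E × E)))
    have m2 : Measurable (fun p : E × 𝕋 => ‖Γ (p.2 - ι p.1, x + p.1)‖ₑ ^ q) := by
      refine Measurable.pow_const (Measurable.enorm (hΓ.comp (Measurable.prodMk ?_ ?_))) q
      · exact measurable_snd.sub (hι.measurable.comp measurable_fst)
      · exact measurable_const.add measurable_fst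
    calc m * ‖Γ (0, x)‖ₑ ^ q
        = ∫⁻ _h in ball (0 : E) δ, ∫⁻ _ζ in ball (0 : 𝕋) δ, ‖Γ (0, x)‖ₑ ^ q ∂ν := by
          rw [setLIntegral_const, setLIntegral_const, hm]
          ring
      _ ≤ ∫⁻ h in ball (0 : E) δ, ∫⁻ ζ in ball (0 : 𝕋) δ,
            t * (‖Γ (0, x) - Γ (ζ - ι h, x + h)‖ₑ ^ q + ‖Γ (ζ - ι h, x + h)‖ₑ ^ q) ∂ν :=
          lintegral_mono fun h => lintegral_mono fun ζ => h1 _
      _ = ∫⁻ h in ball (0 : E) δ, t * ((∫⁻ ζ in ball (0 : 𝕋) δ,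
            ‖Γ (0, x) - Γ (ζ - ι h, x + h)‖ₑ ^ q ∂ν) +
            ∫⁻ ζ in ball (0 : 𝕋) δ, ‖Γ (ζ - ι h, x + h)‖ₑ ^ q ∂ν) := by
          refine lintegral_congr fun h => ?_
          rw [lintegral_const_mul' _ _ htt, lintegral_add_left (m1 h)]
      _ = t * (W x + ∫⁻ h in ball (0 : E) δ, ∫⁻ ζ in ball (0 : 𝕋) δ,
            ‖Γ (ζ - ι h, x + h)‖ₑ ^ q ∂ν) := by
          rw [lintegral_const_mul' _ _ htt, lintegral_add_left]
          exact hin.comp (measurable_const.prodMk measurable_id)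
      _ ≤ t * (W x + ν univ * N) := by
          gcongr
          exact sup_bound ν hΓ hN x _ _
  have hpt2 : ∀ x ∈ {x | 2 ^ q * (ν univ * N) < m * ‖Γ (0, x)‖ₑ ^ q},
      m * ‖Γ (0, x)‖ₑ ^ q ≤ 2 ^ q * W x := by
    intro x hx
    have hx' : 2 ^ q * (ν univ * N) < m * ‖Γ (0, x)‖ₑ ^ q := hx
    have hfin : m * ‖Γ (0, x)‖ₑ ^ q ≠ ⊤ :=
      ENNReal.mul_ne_top hmt (ENNReal.rpow_ne_top_of_nonneg hq0 (by simp))
    set y := m * ‖Γ (0, x)‖ₑ ^ q with hy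
    have h3 := hpt x
    rw [h2t] at hx' ⊢
    -- y ≤ tW + t(νN), 2 t νN < y
    have h4 : 2 * y ≤ 2 * t * W x + y := by
      calc 2 * y ≤ 2 * (t * (W x + ν univ * N)) := by gcongr
        _ = 2 * t * W x + 2 * t * (ν univ * N) := by ring
        _ ≤ 2 * t * W x + y := by gcongr
    rw [two_mul] at h4
    exact (ENNReal.add_le_add_iff_right hfin).mp h4
  have hsm : MeasurableSet {x | 2 ^ q * (ν univ * N) < m * ‖Γ (0, x)‖ₑ ^ q} := by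
    refine measurableSet_lt measurable_const (Measurable.const_mul ?_ m)
    exact (hΓ.comp (measurable_const.prodMk measurable_id)).enorm.pow_const q
  have h5 : m * ∫⁻ x in {x | 2 ^ q * (ν univ * N) < m * ‖Γ (0, x)‖ₑ ^ q}, ‖Γ (0, x)‖ₑ ^ q ≤
      m * (2 ^ q * b) := by
    rw [← lintegral_const_mul' _ _ hmt]
    calc _ ≤ ∫⁻ x in {x | 2 ^ q * (ν univ * N) < m * ‖Γ (0, x)‖ₑ ^ q}, 2 ^ q * W x :=
          setLIntegral_mono' hsm hpt2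
      _ ≤ ∫⁻ x, 2 ^ q * W x := setLIntegral_le_lintegral _ _
      _ = 2 ^ q * ∫⁻ x, W x := by
          rw [lintegral_const_mul' _ _ (ENNReal.rpow_ne_top_of_nonneg hq0 (by simp))]
      _ ≤ 2 ^ q * (m * b) := by gcongr
      _ = m * (2 ^ q * b) := by ring
  exact (ENNReal.mul_le_mul_iff_right hm0 hmt).mp h5

end Pool.Agent.Lib.MP_a73848
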