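import Mathlib
import Pool.Agent.Lib.MP_a73848.Scale
import Pool.Agent.Lib.MP_a73848.Lift
import Pool.Agent.Lib.MP_a73848.Higher

/-!
# MP_a73848_an: gain of integrability
-/

set_option autoImplicit false
set_option linter.unusedSectionVars false

open MeasureTheory Metric Filter Topology Set Module
open scoped ContDiff ENNReal NNReal

namespace Pool.Agent.Lib.MP_a73848

variable {E : Type*} [NormedAddCommGroup E] [InnerProductSpace ℝ E] [FiniteDimensional ℝ E]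
  [MeasurableSpace E] [BorelSpace E]
variable {𝕋 : Type*} [NormedAddCommGroup 𝕋] [MeasurableSpace 𝕋] [BorelSpace 𝕋]
  [SecondCountableTopology 𝕋]

/-- The family on jointly measurable form with all estimates needed later. -/
theorem family_joint {q : ℝ} (hq : 2 ≤ q) {K lam L gam : ℝ} (hlam : 0 < lam) (hgam : 0 < gam)
    (hgam1 : gam ≤ 1) (hL : 0 ≤ L) (hH : HH 𝕋 E K lam L gam q) (hR : RR 𝕋 E K lam L gam q)
    {κ : ℝ} (hκ : 1 < κ) :
    ∃ (N : ℝ≥0) (δ₀ : ℝ), 0 < δ₀ ∧ δ₀ ≤ 1 ∧ ∀ A : 𝕋 → E →L[ℝ] E, Adm K lam L gam A →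
      ∀ ι : E →+ 𝕋, Continuous ι → ∀ g : E → E, Measurable g → LocSol (leaf A ι 0) (ball 0 κ) g →
      Iq 2 (volume.restrict (ball 0 κ)) g ≤ 1 → ∃ Γ : 𝕋 × E → E, Measurable Γ ∧
        (∀ᵐ x ∂(volume.restrict (ball (0 : E) 1)), Γ (0, x) = g x) ∧
        (∀ θ, ∫⁻ x, ‖Γ (θ, x)‖ₑ ^ q ≤ N) ∧
        (∀ (θ ζ : 𝕋) (h : E) (δ : ℝ), ‖h‖ ≤ δ → ‖ζ‖ ≤ δ → δ < δ₀ →
          ∫⁻ x, ‖Γ (θ, x) - Γ (θ + ζ - ι h, x + h)‖ₑ ^ q ≤ N * ENNReal.ofReal δ ^ (gam * q)) := by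
  have hq1 : 1 ≤ q := by linarith
  have hq0 : 0 ≤ q := by linarith
  set ρ₂ : ℝ := (1 + κ) / 2 with hρ₂
  set ρ₁ : ℝ := (1 + ρ₂) / 2 with hρ₁
  have h2 : 1 < ρ₂ := by rw [hρ₂]; linarith
  have h1 : 1 < ρ₁ := by rw [hρ₁]; linarith
  have h12 : ρ₁ < ρ₂ := by rw [hρ₁]; linarith
  have h2κ : ρ₂ < κ := by rw [hρ₂]; linarith
  have hρ₂pos : 0 < ρ₂ := by linarith
  have hratio : 1 < κ / ρ₂ := by rw [lt_div_iff₀ hρ₂pos]; linarith
  obtain ⟨N1, hN1⟩ := hR.scaled hq hratio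
  obtain ⟨C, hC⟩ := family (𝕋 := 𝕋) (E := E) hq hlam hgam hL hH h1 h12
  -- the bound of the `q`-integral on `B_{ρ₂}`
  set J0 : ℝ≥0∞ := N1 * rd E ρ₂ ^ (1 - q / 2) with hJ0
  have hJ0t : J0 ≠ ⊤ := by
    refine ENNReal.mul_ne_top (by simp) ?_
    rw [Ne, ENNReal.rpow_eq_top_iff]
    push Not
    exact ⟨fun h => absurd h (rd_pos hρ₂pos), fun h => absurd h (rd_ne_top ρ₂)⟩
  set t : ℝ≥0∞ := 2 ^ (q - 1) with ht
  have htt : t ≠ ⊤ := ENNReal.rpow_ne_top_of_nonneg (by linarith) (by simp)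
  set NN : ℝ≥0∞ := C * J0 + t * (C * J0 + C * J0) with hNN
  have hNNt : NN ≠ ⊤ := by
    have : (C : ℝ≥0∞) * J0 ≠ ⊤ := ENNReal.mul_ne_top (by simp) hJ0t
    refine ENNReal.add_ne_top.mpr ⟨this, ENNReal.mul_ne_top htt (ENNReal.add_ne_top.mpr
      ⟨this, this⟩)⟩
  refine ⟨NN.toNNReal, min 1 (ρ₂ - ρ₁), lt_min one_pos (by linarith), min_le_left _ _,
    fun A hA ι hι g hgm hg hg1 => ?_⟩
  rw [ENNReal.coe_toNNReal hNNt]
  have hg2 : LocSol (leaf A ι 0) (ball 0 ρ₂) g :=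
    ⟨hg.inV, fun φ hφ hs => hg.eq φ hφ (hs.trans (ball_subset_ball h2κ.le))⟩
  have hJ : Iq q (volume.restrict (ball 0 ρ₂)) g ≤ J0 := by
    have h3 := hN1 A hA ι hι 0 0 ρ₂ hρ₂pos g hgm (by
      rw [div_mul_cancel₀ _ hρ₂pos.ne']; exact hg)
    rw [div_mul_cancel₀ _ hρ₂pos.ne'] at h3
    refine h3.trans ?_
    rw [hJ0]
    refine mul_le_of_le_one_right' ?_
    calc Iq 2 (volume.restrict (ball 0 κ)) g ^ (q / 2) ≤ 1 ^ (q / 2) :=
          ENNReal.rpow_le_rpow hg1 (by positivity)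
      _ = 1 := ENNReal.one_rpow _
  obtain ⟨G, hGm, hG0, hGN, hGd, hGx, M, hM, hGM⟩ := hC A hA ι hι g hgm hg2
  obtain ⟨Γ, hΓm, hΓ⟩ := joint (β := gam * 2) (by positivity) hGm hM hGM
  refine ⟨Γ, hΓm, ?_, ?_, ?_⟩
  · have h3 : ∀ᵐ x ∂(volume : Measure E), x ∈ ball (0 : E) 1 → Γ (0, x) = g x := by
      filter_upwards [hΓ 0, hG0] with x h4 h5 h6
      rw [h4, h5 h6]
    exact (ae_restrict_iff' measurableSet_ball).mpr h3
  · intro θ
    have h3 : ∫⁻ x, ‖Γ (θ, x)‖ₑ ^ q = Iq q volume (G θ) := Iq_congr (hΓ θ)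
    rw [h3]
    refine (hGN θ).trans ?_
    refine le_trans (mul_le_mul' le_rfl hJ) ?_
    rw [hNN]; exact le_self_add
  · intro θ ζ h δ hh hζ hδ
    have hδ1 : δ ≤ 1 := (hδ.le.trans (min_le_left _ _))
    have hδ0 : 0 ≤ δ := (norm_nonneg h).trans hh
    have hh' : ‖h‖ < ρ₂ - ρ₁ := hh.trans_lt (hδ.trans_le (min_le_right _ _))
    have e1 : ∫⁻ x, ‖Γ (θ, x) - Γ (θ + ζ - ι h, x + h)‖ₑ ^ q =
        Iq q volume (fun x => (G θ x - G (θ + ζ) x) - (G (θ + ζ - ι h) (x + h) - G (θ + ζ) x)) := by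
      refine Iq_congr ?_
      have h4 : (fun x => Γ (θ + ζ - ι h, x + h)) =ᵐ[volume] fun x => G (θ + ζ - ι h) (x + h) :=
        (measurePreserving_add_right (volume : Measure E) h).quasiMeasurePreserving.ae_eq
          (hΓ (θ + ζ - ι h))
      filter_upwards [hΓ θ, h4] with x h5 h6
      rw [h5, h6]
      abel
    rw [e1]
    refine (Iq_sub_le hq1 ((hGm θ).sub (hGm (θ + ζ))).aestronglyMeasurable).trans ?_
    have b1 : Iq q volume (fun x => G θ x - G (θ + ζ) x) ≤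
        C * J0 * ENNReal.ofReal δ ^ (gam * q) := by
      refine (hGd θ (θ + ζ)).trans ?_
      have : θ - (θ + ζ) = -ζ := by abel
      rw [this, enorm_neg]
      calc C * ‖ζ‖ₑ ^ (gam * q) * Iq q (volume.restrict (ball 0 ρ₂)) g
          ≤ C * ENNReal.ofReal δ ^ (gam * q) * J0 := by
            gcongr
            rw [← ofReal_norm]
            exact ENNReal.ofReal_le_ofReal hζ
        _ = _ := by ring
    have b2 : Iq q volume (fun x => G (θ + ζ - ι h) (x + h) - G (θ + ζ) x) ≤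
        C * J0 * ENNReal.ofReal δ ^ (gam * q) := by
      refine (hGx (θ + ζ) h hh').trans ?_
      calc C * ‖h‖ₑ ^ q * Iq q (volume.restrict (ball 0 ρ₂)) g
          ≤ C * ENNReal.ofReal δ ^ (gam * q) * J0 := by
            gcongr
            calc ‖h‖ₑ ^ q ≤ ENNReal.ofReal δ ^ q := by
                  rw [← ofReal_norm]
                  exact ENNReal.rpow_le_rpow (ENNReal.ofReal_le_ofReal hh) hq0
              _ ≤ ENNReal.ofReal δ ^ (gam * q) := by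
                  refine ENNReal.rpow_le_rpow_of_exponent_ge (ENNReal.ofReal_le_one.mpr hδ1) ?_
                  nlinarith
        _ = _ := by ring
    calc t * (Iq q volume (fun x => G θ x - G (θ + ζ) x) +
          Iq q volume (fun x => G (θ + ζ - ι h) (x + h) - G (θ + ζ) x))
        ≤ t * (C * J0 * ENNReal.ofReal δ ^ (gam * q) +
            C * J0 * ENNReal.ofReal δ ^ (gam * q)) := by gcongr
      _ = t * (C * J0 + C * J0) * ENNReal.ofReal δ ^ (gam * q) := by ring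
      _ ≤ NN * ENNReal.ofReal δ ^ (gam * q) := by
          gcongr
          rw [hNN]; exact le_add_self

/-- lower bound for the measure of small balls -/
def BallLower (ν : Measure 𝕋) (Md : ℝ) : Prop :=
  ∃ c : ℝ≥0∞, c ≠ 0 ∧ c ≠ ⊤ ∧ ∀ δ : ℝ, 0 < δ → δ ≤ 1 →
    c * ENNReal.ofReal δ ^ Md ≤ ν (ball (0 : 𝕋) δ)

theorem prod_lower {ν : Measure 𝕋} {Md : ℝ} (hMd : 0 ≤ Md) (h : BallLower ν Md) :
    ∃ c : ℝ≥0∞, c ≠ 0 ∧ c ≠ ⊤ ∧ ∀ δ : ℝ, 0 < δ → δ ≤ 1 →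
      c * ENNReal.ofReal δ ^ ((finrank ℝ E : ℝ) + Md) ≤
        volume (ball (0 : E) δ) * ν (ball (0 : 𝕋) δ) := by
  obtain ⟨c, hc0, hct, hc⟩ := h
  refine ⟨volume (ball (0 : E) 1) * c, mul_ne_zero (measure_ball_pos _ _ one_pos).ne' hc0,
    ENNReal.mul_ne_top measure_ball_lt_top.ne hct, fun δ h0 h1 => ?_⟩
  rw [Measure.addHaar_ball_of_pos volume (0 : E) h0]
  have e1 : ENNReal.ofReal (δ ^ finrank ℝ E) = ENNReal.ofReal δ ^ (finrank ℝ E : ℝ) := by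
    rw [ENNReal.rpow_natCast, ENNReal.ofReal_pow h0.le]
  rw [e1, ENNReal.rpow_add_of_nonneg _ _ (Nat.cast_nonneg _) hMd]
  calc volume (ball (0 : E) 1) * c * (ENNReal.ofReal δ ^ (finrank ℝ E : ℝ) * ENNReal.ofReal δ ^ Md)
      = ENNReal.ofReal δ ^ (finrank ℝ E : ℝ) * volume (ball (0 : E) 1) *
          (c * ENNReal.ofReal δ ^ Md) := by ring
    _ ≤ _ := mul_le_mul' le_rfl (hc δ h0 h1)

/-- Gain of integrability. -/
theorem step (ν : Measure 𝕋) [IsFiniteMeasure ν] [ν.IsAddLeftInvariant] {Md : ℝ} (hMd : 0 ≤ Md)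
    (hν : BallLower ν Md) {D : ℝ} (hD : D = (finrank ℝ E : ℝ) + Md) (hD0 : 0 < D)
    {q : ℝ} (hq : 2 ≤ q) {K lam L gam : ℝ} (hlam : 0 < lam) (hgam : 0 < gam)
    (hgam1 : gam ≤ 1) (hL : 0 ≤ L) (hH : HH 𝕋 E K lam L gam q) (hR : RR 𝕋 E K lam L gam q)
    {p : ℝ} (hqp : q < p) (hp : D * (p / q - 1) < gam * q) : RR 𝕋 E K lam L gam p := by
  have hq1 : 1 ≤ q := by linarith
  have hq0 : 0 ≤ q := by linarith
  have hqpos : 0 < q := by linarith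
  refine RR_of_normalised (by linarith) fun κ hκ => ?_
  obtain ⟨N, δ₀, hδ₀, hδ₀1, hfam⟩ := family_joint (𝕋 := 𝕋) (E := E) hq hlam hgam hgam1 hL hH hR hκ
  obtain ⟨c, hc0, hct, hc⟩ := prod_lower (E := E) hMd hν
  rw [← hD] at hc
  set s : ℝ := p / q - 1 with hs
  have hs0 : 0 < s := by
    rw [hs, sub_pos, lt_div_iff₀ hqpos]; linarith
  -- scale `δ₀ / 2` to have strict inequalities
  set δ₁ : ℝ := δ₀ / 2 with hδ₁
  have hδ₁pos : 0 < δ₁ := by rw [hδ₁]; linarith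
  have hδ₁lt : δ₁ < δ₀ := by rw [hδ₁]; linarith
  set e₁ : ℝ≥0∞ := ENNReal.ofReal δ₁ with he₁
  have he₁0 : e₁ ≠ 0 := (ENNReal.ofReal_pos.mpr hδ₁pos).ne'
  have he₁t : e₁ ≠ ⊤ := ENNReal.ofReal_ne_top
  set T : ℝ≥0∞ := c * e₁ ^ D with hT
  have hT0 : T ≠ 0 := mul_ne_zero hc0 (ENNReal.rpow_pos (pos_iff_ne_zero.mpr he₁0) he₁t).ne'
  have hTt : T ≠ ⊤ := ENNReal.mul_ne_top hct (ENNReal.rpow_ne_top_of_nonneg hD0.le he₁t)
  set U : ℝ≥0∞ := 2 ^ q * (ν univ * N) with hU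
  have h2q : (2 : ℝ≥0∞) ^ q ≠ ⊤ := ENNReal.rpow_ne_top_of_nonneg hq0 (by simp)
  have hUt : U ≠ ⊤ := ENNReal.mul_ne_top h2q (ENNReal.mul_ne_top (measure_ne_top _ _) (by simp))
  set a : ℝ≥0∞ := U * T⁻¹ + 1 with ha
  have ha0 : a ≠ 0 := by rw [ha]; simp
  have hat : a ≠ ⊤ := by
    rw [ha]
    exact ENNReal.add_ne_top.mpr ⟨ENNReal.mul_ne_top hUt (ENNReal.inv_ne_top.mpr hT0), by simp⟩
  set b : ℝ≥0∞ := 2 ^ D with hb
  have hb1 : 1 < b := by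
    rw [hb]; exact ENNReal.one_lt_rpow (by norm_num) hD0
  have hbt : b ≠ ⊤ := ENNReal.rpow_ne_top_of_nonneg hD0.le (by simp)
  set ρ : ℝ≥0∞ := 2⁻¹ ^ (gam * q) with hρ
  set cc : ℝ≥0∞ := 2 ^ q * (N * e₁ ^ (gam * q)) with hcc
  have hcct : cc ≠ ⊤ := ENNReal.mul_ne_top h2q (ENNReal.mul_ne_top (by simp)
    (ENNReal.rpow_ne_top_of_nonneg (by positivity) he₁t))
  have hbρ : b ^ s * ρ < 1 := by
    rw [hb, hρ, ← ENNReal.rpow_mul, ENNReal.inv_rpow, ← ENNReal.rpow_neg,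
      ← ENNReal.rpow_add _ _ (by simp) (by simp)]
    exact ENNReal.rpow_lt_one_of_one_lt_of_neg (by norm_num) (by linarith)
  set V := volume (ball (0 : E) 1) with hV
  set NN : ℝ≥0∞ := a ^ (1 + s) * V + (a * b) ^ s * cc * (1 - b ^ s * ρ)⁻¹ with hNN
  have hNNt : NN ≠ ⊤ := by
    refine ENNReal.add_ne_top.mpr ⟨ENNReal.mul_ne_top
      (ENNReal.rpow_ne_top_of_nonneg (by linarith) hat) measure_ball_lt_top.ne,
      ENNReal.mul_ne_top (ENNReal.mul_ne_top (ENNReal.rpow_ne_top_of_nonneg hs0.le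
        (ENNReal.mul_ne_top hat hbt)) hcct) (ENNReal.inv_ne_top.mpr ?_)⟩
    exact (tsub_pos_iff_lt.mpr hbρ).ne'
  refine ⟨NN.toNNReal, fun A hA ι hι g hgm hg hg1 => ?_⟩
  rw [ENNReal.coe_toNNReal hNNt]
  obtain ⟨Γ, hΓm, hΓg, hΓN, hΓd⟩ := hfam A hA ι hι g hgm hg hg1
  set f : E → ℝ≥0∞ := fun x => ‖Γ (0, x)‖ₑ ^ q with hf
  have hfm : Measurable f := (hΓm.comp (measurable_const.prodMk measurable_id)).enorm.pow_const q
  have hlev : ∀ j : ℕ, ∫⁻ x in {x | a * b ^ j < f x}, f x ≤ cc * ρ ^ j := by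
    intro j
    set δ : ℝ := δ₁ * (2⁻¹) ^ j with hδ
    have hδpos : 0 < δ := by positivity
    have hδle : δ ≤ δ₁ := by
      rw [hδ]
      exact mul_le_of_le_one_right hδ₁pos.le (pow_le_one₀ (by norm_num) (by norm_num))
    have hδe : ENNReal.ofReal δ = e₁ * 2⁻¹ ^ j := by
      rw [hδ, ENNReal.ofReal_mul hδ₁pos.le, ENNReal.ofReal_pow (by norm_num),
        ENNReal.ofReal_inv_of_pos (by norm_num)]
      simp [he₁]
    set m : ℝ≥0∞ := volume (ball (0 : E) δ) * ν (ball (0 : 𝕋) δ) with hm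
    have hmlow : T * (b ^ j)⁻¹ ≤ m := by
      refine le_trans (le_of_eq ?_) (hc δ hδpos (by linarith))
      rw [hδe, ENNReal.mul_rpow_of_nonneg _ _ hD0.le, hT, mul_assoc]
      congr 2
      have e3 : ((2 : ℝ≥0∞)⁻¹ ^ j) ^ D = ((2 ^ D) ^ j)⁻¹ := by
        rw [← ENNReal.inv_pow, ENNReal.inv_rpow]
        congr 1
        rw [← ENNReal.rpow_natCast 2 j, ← ENNReal.rpow_natCast (2 ^ D) j,
          ← ENNReal.rpow_mul, ← ENNReal.rpow_mul, mul_comm]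
      rw [hb, e3]
    have hbj0 : b ^ j ≠ 0 := pow_ne_zero _ (zero_lt_one.trans hb1).ne'
    have hbjt : b ^ j ≠ ⊤ := ENNReal.pow_ne_top hbt
    have hm0 : m ≠ 0 := by
      intro h0
      rw [h0, nonpos_iff_eq_zero, mul_eq_zero] at hmlow
      rcases hmlow with h | h
      · exact hT0 h
      · exact hbjt (ENNReal.inv_eq_zero.mp h)
    have h1 := level_bound ν hq1 hΓm hι hΓN (δ := δ) (b := N * ENNReal.ofReal δ ^ (gam * q))
      (fun h ζ hh hζ => by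
        have := hΓd 0 ζ h δ hh.le hζ.le (by linarith)
        simpa using this) hm hm0
    have hsub : {x | a * b ^ j < f x} ⊆ {x | 2 ^ q * (ν univ * N) < m * ‖Γ (0, x)‖ₑ ^ q} := by
      intro x hx
      have hx' : a * b ^ j < f x := hx
      show U < m * f x
      have h3 : T * (b ^ j)⁻¹ * (a * b ^ j) = T * a := by
        calc T * (b ^ j)⁻¹ * (a * b ^ j) = T * a * ((b ^ j)⁻¹ * b ^ j) := by ring
          _ = T * a := by rw [ENNReal.inv_mul_cancel hbj0 hbjt, mul_one]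
      have h4 : U ≤ T * a := by
        rw [ha, mul_add, mul_one]
        calc U = T * (U * T⁻¹) := by
              rw [mul_comm U, ← mul_assoc, ENNReal.mul_inv_cancel hT0 hTt, one_mul]
          _ ≤ _ := le_self_add
      have h5 : T * (b ^ j)⁻¹ ≠ 0 := mul_ne_zero hT0 (ENNReal.inv_ne_zero.mpr hbjt)
      have h6 : T * (b ^ j)⁻¹ ≠ ⊤ := ENNReal.mul_ne_top hTt (ENNReal.inv_ne_top.mpr hbj0)
      calc U ≤ T * (b ^ j)⁻¹ * (a * b ^ j) := by rw [h3]; exact h4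
        _ < T * (b ^ j)⁻¹ * f x := (ENNReal.mul_lt_mul_iff_right h5 h6).mpr hx'
        _ ≤ m * f x := mul_le_mul' hmlow le_rfl
    calc ∫⁻ x in {x | a * b ^ j < f x}, f x
        ≤ ∫⁻ x in {x | 2 ^ q * (ν univ * N) < m * ‖Γ (0, x)‖ₑ ^ q}, f x :=
          lintegral_mono_set hsub
      _ ≤ 2 ^ q * (N * ENNReal.ofReal δ ^ (gam * q)) := h1
      _ = cc * ρ ^ j := by
          rw [hδe, ENNReal.mul_rpow_of_nonneg _ _ (by positivity), hcc, hρ,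
            ← ENNReal.rpow_natCast (2⁻¹) j, ← ENNReal.rpow_natCast _ j, ← ENNReal.rpow_mul,
            ← ENNReal.rpow_mul, mul_comm (j : ℝ)]
          ring
  have h7 := higher hfm ha0 hat hb1 hbt hs0 hlev (ball (0 : E) 1)
  have h8 : Iq p (volume.restrict (ball 0 1)) g = ∫⁻ x in ball (0 : E) 1, f x ^ (1 + s) := by
    refine lintegral_congr_ae ?_
    filter_upwards [hΓg] with x hx
    rw [hf]
    simp only
    rw [hx, ← ENNReal.rpow_mul]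
    congr 1
    rw [hs]
    field_simp
    ring
  rw [h8]
  exact h7

end Pool.Agent.Lib.MP_a73848
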