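import Mathlib
import Pool.Agent.Lib.MP_a73848.Morrey
import Pool.Agent.Lib.MP_a73848.Step

/-!
# MP_a73848_an: boundedness of the gradient
-/

set_option autoImplicit false
set_option linter.unusedSectionVars false

open MeasureTheory Metric Filter Topology Set Module
open scoped ContDiff ENNReal NNReal

namespace Pool.Agent.Lib.MP_a73848

section point

variable {Z : Type*} [MeasurableSpace Z] (μ : Measure Z)
variable {F : Type*} [NormedAddCommGroup F] [MeasurableSpace F] [BorelSpace F]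
  [SecondCountableTopology F]

theorem point_le_avg {q : ℝ} (hq : 1 ≤ q) {Φ : Z → F} (hΦ : Measurable Φ) (c : F) {B : Set Z}
    (h0 : μ B ≠ 0) (h1 : μ B ≠ ⊤) :
    ‖c‖ₑ ≤ ((∫⁻ w in B, ‖Φ w‖ₑ ^ q ∂μ) / μ B) ^ (1 / q) +
      ((∫⁻ w in B, ‖c - Φ w‖ₑ ^ q ∂μ) / μ B) ^ (1 / q) := by
  have hq0 : 0 < q := by linarith
  have hq1 : 0 ≤ 1 / q := by positivity
  have mf : Measurable (fun w => ‖Φ w‖ₑ) := hΦ.enorm
  have mg : Measurable (fun w => ‖c - Φ w‖ₑ) := (measurable_const.sub hΦ).enorm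
  have key := ENNReal.lintegral_Lp_add_le (μ := μ.restrict B) mf.aemeasurable mg.aemeasurable hq
  have h2 : (μ B * ‖c‖ₑ ^ q) ^ (1 / q) ≤ (∫⁻ w in B, ‖Φ w‖ₑ ^ q ∂μ) ^ (1 / q) +
      (∫⁻ w in B, ‖c - Φ w‖ₑ ^ q ∂μ) ^ (1 / q) := by
    refine le_trans ?_ key
    rw [mul_comm, ← setLIntegral_const]
    refine ENNReal.rpow_le_rpow (lintegral_mono fun w => ENNReal.rpow_le_rpow ?_ hq0.le) hq1
    simp only [Pi.add_apply]
    calc ‖c‖ₑ = ‖Φ w + (c - Φ w)‖ₑ := by congr 1; abel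
      _ ≤ _ := enorm_add_le _ _
  have h3 : ‖c‖ₑ = (μ B * ‖c‖ₑ ^ q) ^ (1 / q) / μ B ^ (1 / q) := by
    rw [ENNReal.mul_rpow_of_nonneg _ _ hq1, ← ENNReal.rpow_mul, mul_one_div_cancel hq0.ne',
      ENNReal.rpow_one, mul_comm, ENNReal.mul_div_cancel_right]
    · exact (ENNReal.rpow_pos (pos_iff_ne_zero.mpr h0) h1).ne'
    · exact ENNReal.rpow_ne_top_of_nonneg hq1 h1
  rw [h3, ENNReal.div_rpow_of_nonneg _ _ hq1, ENNReal.div_rpow_of_nonneg _ _ hq1,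
    ← ENNReal.add_div]
  exact ENNReal.div_le_div_right h2 _

end point

variable {E : Type*} [NormedAddCommGroup E] [InnerProductSpace ℝ E] [FiniteDimensional ℝ E]
  [MeasurableSpace E] [BorelSpace E]
variable {𝕋 : Type*} [NormedAddCommGroup 𝕋] [MeasurableSpace 𝕋] [BorelSpace 𝕋]
  [SecondCountableTopology 𝕋]

/-- upper bound for the measure of small balls -/
def BallUpper (ν : Measure 𝕋) (Md : ℝ) : Prop :=
  ∃ C : ℝ≥0∞, C ≠ ⊤ ∧ ∀ δ : ℝ, 0 < δ → δ ≤ 1 → ν (ball (0 : 𝕋) δ) ≤ C * ENNReal.ofReal δ ^ Md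

theorem prod_ball (ν : Measure 𝕋) [IsFiniteMeasure ν] (δ : ℝ) :
    (ν.prod (volume : Measure E)) (ball (0 : 𝕋 × E) δ) =
      volume (ball (0 : E) δ) * ν (ball (0 : 𝕋) δ) := by
  have : ball (0 : 𝕋 × E) δ = ball (0 : 𝕋) δ ×ˢ ball (0 : E) δ := by
    rw [ball_prod_same]; rfl
  rw [this, Measure.prod_prod, mul_comm]

theorem prod_upper {ν : Measure 𝕋} {Md : ℝ} (hMd : 0 ≤ Md) (h : BallUpper ν Md) :
    ∃ C : ℝ≥0∞, C ≠ ⊤ ∧ ∀ δ : ℝ, 0 < δ → δ ≤ 1 →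
      volume (ball (0 : E) δ) * ν (ball (0 : 𝕋) δ) ≤
        C * ENNReal.ofReal δ ^ ((finrank ℝ E : ℝ) + Md) := by
  obtain ⟨C, hCt, hC⟩ := h
  refine ⟨volume (ball (0 : E) 1) * C,
    ENNReal.mul_ne_top measure_ball_lt_top.ne hCt, fun δ h0 h1 => ?_⟩
  rw [Measure.addHaar_ball_of_pos volume (0 : E) h0]
  have e1 : ENNReal.ofReal (δ ^ finrank ℝ E) = ENNReal.ofReal δ ^ (finrank ℝ E : ℝ) := by
    rw [ENNReal.rpow_natCast, ENNReal.ofReal_pow h0.le]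
  rw [e1, ENNReal.rpow_add_of_nonneg _ _ (Nat.cast_nonneg _) hMd]
  calc ENNReal.ofReal δ ^ (finrank ℝ E : ℝ) * volume (ball (0 : E) 1) * ν (ball (0 : 𝕋) δ)
      ≤ ENNReal.ofReal δ ^ (finrank ℝ E : ℝ) * volume (ball (0 : E) 1) *
          (C * ENNReal.ofReal δ ^ Md) := mul_le_mul' le_rfl (hC δ h0 h1)
    _ = _ := by ring

/-- Bound of the gradient of normalised solutions. -/
theorem linf (ν : Measure 𝕋) [IsFiniteMeasure ν] [ν.IsAddLeftInvariant] {Md : ℝ} (hMd : 0 ≤ Md)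
    (hν : BallLower ν Md) (hν' : BallUpper ν Md) {D : ℝ} (hD : D = (finrank ℝ E : ℝ) + Md)
    {q : ℝ} (hq : 2 ≤ q) {K lam L gam : ℝ} (hlam : 0 < lam) (hgam : 0 < gam)
    (hgam1 : gam ≤ 1) (hL : 0 ≤ L) (hDq : D < gam * q) (hH : HH 𝕋 E K lam L gam q)
    (hR : RR 𝕋 E K lam L gam q) {κ : ℝ} (hκ : 1 < κ) :
    ∃ N : ℝ≥0, ∀ A : 𝕋 → E →L[ℝ] E, Adm K lam L gam A →
      ∀ ι : E →+ 𝕋, Continuous ι → ∀ g : E → E, Measurable g → LocSol (leaf A ι 0) (ball 0 κ) g →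
      Iq 2 (volume.restrict (ball 0 κ)) g ≤ 1 →
      ∀ᵐ x ∂(volume.restrict (ball (0 : E) 1)), ‖g x‖ₑ ≤ N := by
  have hq1 : 1 ≤ q := by linarith
  have hq0 : 0 < q := by linarith
  have hq2 : 0 ≤ 1 / q := by positivity
  have hD0 : 0 ≤ D := by rw [hD]; positivity
  obtain ⟨N, δ₀, hδ₀, hδ₀1, hfam⟩ := family_joint (𝕋 := 𝕋) (E := E) hq hlam hgam hgam1 hL hH hR hκ
  obtain ⟨c, hc0, hct, hc⟩ := prod_lower (E := E) hMd hν
  obtain ⟨C, hCt, hC⟩ := prod_upper (E := E) hMd hν'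
  rw [← hD] at hc hC
  set δ₁ : ℝ := δ₀ / 4 with hδ₁
  have hδ₁pos : 0 < δ₁ := by rw [hδ₁]; linarith
  set P : Measure (𝕋 × E) := ν.prod (volume : Measure E) with hP
  set M : ℝ≥0∞ := ν univ * N with hM
  have hMt : M ≠ ⊤ := ENNReal.mul_ne_top (measure_ne_top _ _) (by simp)
  have hlow : ∀ δ : ℝ, 0 < δ → δ ≤ 1 → c * ENNReal.ofReal δ ^ D ≤ P (ball (0 : 𝕋 × E) δ) := by
    intro δ h0 h1
    rw [hP, prod_ball]
    exact hc δ h0 h1
  have hup : ∀ δ : ℝ, 0 < δ → δ ≤ 1 → P (ball (0 : 𝕋 × E) δ) ≤ C * ENNReal.ofReal δ ^ D := by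
    intro δ h0 h1
    rw [hP, prod_ball]
    exact hC δ h0 h1
  obtain ⟨S, hSt, hS⟩ := morrey (Z := 𝕋 × E) (F := E) P hq1 hgam hD0 hDq hc0 hct hCt hMt
    hlow hup hδ₁pos (by rw [hδ₁]; linarith)
  refine ⟨S.toNNReal, fun A hA ι hι g hgm hg hg1 => ?_⟩
  rw [ENNReal.coe_toNNReal hSt]
  obtain ⟨Γ, hΓm, hΓg, hΓN, hΓd⟩ := hfam A hA ι hι g hgm hg hg1
  set Ψ : 𝕋 × E → E := fun p => Γ (p.1 - ι p.2, p.2) with hΨ
  have hshm : Measurable (fun p : 𝕋 × E => (p.1 - ι p.2, p.2)) :=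
    (measurable_fst.sub (hι.measurable.comp measurable_snd)).prodMk measurable_snd
  have hΨm : Measurable Ψ := hΓm.comp hshm
  -- the two hypotheses of Morrey's estimate
  have hA1 : ∫⁻ w, ‖Ψ w‖ₑ ^ q ∂P ≤ M := by
    rw [hP, lintegral_prod_symm _ (hΨm.enorm.pow_const q).aemeasurable]
    calc ∫⁻ y, ∫⁻ ζ, ‖Ψ (ζ, y)‖ₑ ^ q ∂ν = ∫⁻ y, ∫⁻ θ, ‖Γ (θ, y)‖ₑ ^ q ∂ν := by
          refine lintegral_congr fun y => ?_
          exact lintegral_sub_right_eq_self (μ := ν) (fun θ => ‖Γ (θ, y)‖ₑ ^ q) (ι y)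
      _ = ∫⁻ θ, (∫⁻ y, ‖Γ (θ, y)‖ₑ ^ q) ∂ν := by
          rw [lintegral_lintegral_swap]
          exact ((hΓm.enorm.pow_const q).comp measurable_swap).aemeasurable
      _ ≤ ∫⁻ _θ : 𝕋, N ∂ν := lintegral_mono fun θ => hΓN θ
      _ = M := by rw [lintegral_const, mul_comm]
  have hA2 : ∀ (v : 𝕋 × E) (δ : ℝ), 0 < δ → δ ≤ 2 * δ₁ → ‖v‖ < δ →
      ∫⁻ w, ‖Ψ w - Ψ (w + v)‖ₑ ^ q ∂P ≤ M * ENNReal.ofReal δ ^ (gam * q) := by
    rintro ⟨ζ, h⟩ δ h0 hδ hv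
    have hζ : ‖ζ‖ ≤ δ := (norm_fst_le (ζ, h)).trans hv.le
    have hh : ‖h‖ ≤ δ := (norm_snd_le (ζ, h)).trans hv.le
    have hδ' : δ < δ₀ := by rw [hδ₁] at hδ; linarith
    have m1 : Measurable (fun w : 𝕋 × E => ‖Ψ w - Ψ (w + (ζ, h))‖ₑ ^ q) :=
      (hΨm.sub (hΨm.comp (measurable_id.add_const _))).enorm.pow_const q
    have m2 : Measurable (fun p : 𝕋 × E => ‖Γ p - Γ (p.1 + ζ - ι h, p.2 + h)‖ₑ ^ q) := by
      refine ((hΓm.sub (hΓm.comp ?_)).enorm).pow_const q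
      exact ((measurable_fst.add_const ζ).sub_const _).prodMk (measurable_snd.add_const h)
    rw [hP, lintegral_prod_symm _ m1.aemeasurable]
    calc ∫⁻ y, ∫⁻ ζ', ‖Ψ (ζ', y) - Ψ ((ζ', y) + (ζ, h))‖ₑ ^ q ∂ν
        = ∫⁻ y, ∫⁻ θ, ‖Γ (θ, y) - Γ (θ + ζ - ι h, y + h)‖ₑ ^ q ∂ν := by
          refine lintegral_congr fun y => ?_
          have e := lintegral_sub_right_eq_self (μ := ν)
            (fun θ => ‖Γ (θ, y) - Γ (θ + ζ - ι h, y + h)‖ₑ ^ q) (ι y)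
          rw [← e]
          refine lintegral_congr fun ζ' => ?_
          have : Ψ ((ζ', y) + (ζ, h)) = Γ (ζ' - ι y + ζ - ι h, y + h) := by
            simp only [hΨ, Prod.mk_add_mk, map_add]
            congr 2
            abel
          rw [this]
      _ = ∫⁻ θ, (∫⁻ y, ‖Γ (θ, y) - Γ (θ + ζ - ι h, y + h)‖ₑ ^ q) ∂ν := by
          rw [lintegral_lintegral_swap]
          exact (m2.comp measurable_swap).aemeasurable
      _ ≤ ∫⁻ _θ : 𝕋, N * ENNReal.ofReal δ ^ (gam * q) ∂ν :=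
          lintegral_mono fun θ => hΓd θ ζ h δ hh hζ hδ'
      _ = M * ENNReal.ofReal δ ^ (gam * q) := by
          rw [lintegral_const, hM]; ring
  have hSb := hS Ψ hΨm hA1 hA2
  -- radii
  set r : ℕ → ℝ := fun j => δ₁ * 2⁻¹ ^ j with hr
  have hrpos : ∀ j, 0 < r j := fun j => by positivity
  have hrle : ∀ j, r j ≤ δ₁ := fun j => by
    rw [hr]
    exact mul_le_of_le_one_right hδ₁pos.le (pow_le_one₀ (by norm_num) (by norm_num))
  have hr1 : ∀ j, r j ≤ 1 := fun j => by have := hrle j; rw [hδ₁] at this; linarith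
  set m : ℕ → ℝ≥0∞ := fun j => P (ball (0 : 𝕋 × E) (r j)) with hm
  have hr0 : ∀ j, ENNReal.ofReal (r j) ≠ 0 := fun j => (ENNReal.ofReal_pos.mpr (hrpos j)).ne'
  have hm0 : ∀ j, m j ≠ 0 := fun j h => by
    have := hlow _ (hrpos j) (hr1 j)
    rw [show P (ball (0 : 𝕋 × E) (r j)) = 0 from h, nonpos_iff_eq_zero, mul_eq_zero] at this
    rcases this with h' | h'
    · exact hc0 h'
    · exact (ENNReal.rpow_pos (pos_iff_ne_zero.mpr (hr0 j)) ENNReal.ofReal_ne_top).ne' h'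
  have hmt : ∀ j, m j ≠ ⊤ := fun j => ne_top_of_le_ne_top
    (ENNReal.mul_ne_top hCt (ENNReal.rpow_ne_top_of_nonneg hD0 ENNReal.ofReal_ne_top))
    (hup _ (hrpos j) (hr1 j))
  -- the error terms
  set W : ℕ → E → ℝ≥0∞ := fun j x =>
    (∫⁻ w in ball (0 : 𝕋 × E) (r j), ‖Γ (0, x) - Ψ ((ι x, x) + w)‖ₑ ^ q ∂P) / m j with hW
  have hjm : Measurable (fun p : E × (𝕋 × E) =>
      ‖Γ (0, p.1) - Ψ ((ι p.1, p.1) + p.2)‖ₑ ^ q) := by
    refine Measurable.pow_const (Measurable.enorm (Measurable.sub ?_ ?_)) q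
    · exact hΓm.comp (measurable_const.prodMk measurable_fst)
    · exact hΨm.comp ((((hι.measurable.comp measurable_fst).prodMk measurable_fst)).add
        measurable_snd)
  have hWm : ∀ j, Measurable (W j) := fun j =>
    (Measurable.lintegral_prod_right' (ν := P.restrict (ball (0 : 𝕋 × E) (r j))) hjm).div_const _
  have hWi : ∀ j, ∫⁻ x, W j x ≤ N * ENNReal.ofReal (r j) ^ (gam * q) := by
    intro j
    have hmi : (m j)⁻¹ ≠ ⊤ := ENNReal.inv_ne_top.mpr (hm0 j)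
    calc ∫⁻ x, W j x = (∫⁻ x, ∫⁻ w in ball (0 : 𝕋 × E) (r j),
            ‖Γ (0, x) - Ψ ((ι x, x) + w)‖ₑ ^ q ∂P) / m j := by
          rw [hW]
          simp only [div_eq_mul_inv]
          rw [lintegral_mul_const' _ _ hmi]
      _ = (∫⁻ w in ball (0 : 𝕋 × E) (r j), (∫⁻ x,
            ‖Γ (0, x) - Ψ ((ι x, x) + w)‖ₑ ^ q) ∂P) / m j := by
          rw [lintegral_lintegral_swap]
          exact hjm.aemeasurable
      _ ≤ (∫⁻ _w in ball (0 : 𝕋 × E) (r j), N * ENNReal.ofReal (r j) ^ (gam * q) ∂P) / m j := by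
          refine ENNReal.div_le_div_right ?_ _
          refine setLIntegral_mono' measurableSet_ball fun w hw => ?_
          obtain ⟨ζ, h⟩ := w
          rw [mem_ball_zero_iff] at hw
          have hζ : ‖ζ‖ ≤ r j := (norm_fst_le (ζ, h)).trans hw.le
          have hh : ‖h‖ ≤ r j := (norm_snd_le (ζ, h)).trans hw.le
          have h3 := hΓd 0 ζ h (r j) hh hζ (by have := hrle j; rw [hδ₁] at this; linarith)
          refine le_trans (le_of_eq ?_) h3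
          refine lintegral_congr fun x => ?_
          have : Ψ ((ι x, x) + (ζ, h)) = Γ (0 + ζ - ι h, x + h) := by
            simp only [hΨ, Prod.mk_add_mk, map_add]
            congr 2
            abel
          rw [this]
      _ = N * ENNReal.ofReal (r j) ^ (gam * q) := by
          rw [setLIntegral_const]
          exact ENNReal.mul_div_cancel_right (hm0 j) (hmt j)
  have hpt : ∀ j x, ‖Γ (0, x)‖ₑ ≤ S + W j x ^ (1 / q) := by
    intro j x
    have h3 := point_le_avg P hq1 (Φ := fun w => Ψ ((ι x, x) + w))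
      (hΨm.comp (measurable_const.add measurable_id)) (Γ (0, x)) (hm0 j) (hmt j)
    exact h3.trans (add_le_add (hSb (ι x, x) j) le_rfl)
  have hrlim : Tendsto (fun j => (N : ℝ≥0∞) * ENNReal.ofReal (r j) ^ (gam * q)) atTop (𝓝 0) := by
    have h3 : Tendsto r atTop (𝓝 0) := by
      have := (tendsto_pow_atTop_nhds_zero_of_lt_one (r := (2⁻¹ : ℝ)) (by norm_num)
        (by norm_num)).const_mul δ₁
      simpa [hr] using this
    have h4 : Tendsto (fun j => ENNReal.ofReal (r j)) atTop (𝓝 0) := by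
      have := ENNReal.tendsto_ofReal h3
      simpa using this
    have h5 := tendsto_rpow_zero h4 (q := gam * q) (by positivity)
    have h6 := ENNReal.Tendsto.const_mul h5 (a := (N : ℝ≥0∞)) (Or.inr (by simp))
    simpa using h6
  have hlim : Tendsto (fun j => ∫⁻ x, (W j x ^ (1 / q)) ^ q) atTop (𝓝 0) := by
    refine tendsto_of_tendsto_of_tendsto_of_le_of_le tendsto_const_nhds hrlim
      (fun _ => zero_le) fun j => ?_
    refine le_trans (le_of_eq ?_) (hWi j)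
    refine lintegral_congr fun x => ?_
    rw [← ENNReal.rpow_mul, one_div_mul_cancel hq0.ne', ENNReal.rpow_one]
  have hfin := ae_le_of_approx (μ := (volume : Measure E)) (a := fun x => ‖Γ (0, x)‖ₑ)
    (b := fun _ => S) (fun j => (hWm j).pow_const (1 / q))
    (fun j => Eventually.of_forall fun x => hpt j x) hq0 hlim
  filter_upwards [hΓg, ae_restrict_of_ae hfin] with x h1 h2
  rw [← h1]
  exact h2

end Pool.Agent.Lib.MP_a73848
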