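import Mathlib
import Pool.Agent.Lib.MP_a73848.Linf
import Pool.Agent.Lib.MP_a73848.Global

/-!
# MP_a73848_an: the bootstrap and the scaled gradient bound
-/

set_option autoImplicit false
set_option linter.unusedSectionVars false

open MeasureTheory Metric Filter Topology Set Module
open scoped ContDiff ENNReal NNReal

namespace Pool.Agent.Lib.MP_a73848

variable {E : Type*} [NormedAddCommGroup E] [InnerProductSpace ℝ E] [FiniteDimensional ℝ E]
  [MeasurableSpace E] [BorelSpace E]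
variable {𝕋 : Type*} [NormedAddCommGroup 𝕋] [MeasurableSpace 𝕋] [BorelSpace 𝕋]
  [SecondCountableTopology 𝕋]

theorem LocSol.congr {a : E → E →L[ℝ] E} {B : Set E} {g g' : E → E} (h : LocSol a B g)
    (hg : g =ᵐ[volume] g') : LocSol a B g' := by
  refine ⟨h.inV.congr hg, fun φ hφ hs => ?_⟩
  rw [← h.eq φ hφ hs]
  refine integral_congr_ae ?_
  filter_upwards [hg] with x h1
  rw [h1]

/-- The bootstrap: all exponents are reached. -/
theorem exists_exponent (hRV : RVProp E) (ν : Measure 𝕋) [IsFiniteMeasure ν]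
    [ν.IsAddLeftInvariant] {Md : ℝ} (hMd : 0 ≤ Md) (hν : BallLower ν Md) {D : ℝ}
    (hD : D = (finrank ℝ E : ℝ) + Md) (hD0 : 0 < D) {K lam L gam : ℝ} (hlam : 0 < lam)
    (hgam : 0 < gam) (hgam1 : gam ≤ 1) (hL : 0 ≤ L) :
    ∃ q : ℝ, 2 ≤ q ∧ D < gam * q ∧ HH 𝕋 E K lam L gam q ∧ RR 𝕋 E K lam L gam q := by
  set η : ℝ := gam / D with hη
  have hη0 : 0 < η := by positivity
  have hDη : D * η = gam := by rw [hη]; field_simp
  have hind : ∀ k : ℕ, HH 𝕋 E K lam L gam (2 + k * η) ∧ RR 𝕋 E K lam L gam (2 + k * η) := by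
    intro k
    induction k with
    | zero =>
      simp only [Nat.cast_zero, zero_mul, add_zero]
      exact ⟨HH_two hlam hgam, RR_two⟩
    | succ k ih =>
      obtain ⟨h1, h2⟩ := ih
      set q : ℝ := 2 + k * η with hq
      have hq2 : 2 ≤ q := by rw [hq]; have : 0 ≤ (k : ℝ) * η := by positivity
                             linarith
      have hqpos : 0 < q := by linarith
      have hqq : 4 ≤ q * q := by nlinarith
      have hgq : gam * 4 ≤ gam * (q * q) := mul_le_mul_of_nonneg_left hqq hgam.le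
      have e : (2 : ℝ) + ((k + 1 : ℕ) : ℝ) * η = q + η := by
        rw [hq]; push_cast; ring
      rw [e]
      have h3 : RR 𝕋 E K lam L gam (q + 2 * η) := by
        refine step ν hMd hν hD hD0 hq2 hlam hgam hgam1 hL h1 h2 (by linarith) ?_
        have e1 : D * ((q + 2 * η) / q - 1) = 2 * gam / q := by
          rw [← hDη]; field_simp; ring
        rw [e1, div_lt_iff₀ hqpos, mul_assoc]
        linarith
      have h4 : RR 𝕋 E K lam L gam (q + η) := by
        refine step ν hMd hν hD hD0 hq2 hlam hgam hgam1 hL h1 h2 (by linarith) ?_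
        have e1 : D * ((q + η) / q - 1) = gam / q := by
          rw [← hDη]; field_simp; ring
        rw [e1, div_lt_iff₀ hqpos, mul_assoc]
        linarith
      exact ⟨HH_of_RR hRV hlam hgam (by linarith) (by linarith) h3, h4⟩
  obtain ⟨k, hk⟩ := exists_nat_gt (D / gam / η)
  refine ⟨2 + k * η, ?_, ?_, hind k⟩
  · have : 0 ≤ (k : ℝ) * η := by positivity
    linarith
  · rw [div_div, div_lt_iff₀ (by positivity)] at hk
    nlinarith

/-- gradient bound, unnormalised, unit ball -/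
theorem grad_bound_unit {K lam L gam κ : ℝ} (hκ : 1 < κ) {N : ℝ≥0}
    (hN : ∀ A : 𝕋 → E →L[ℝ] E, Adm K lam L gam A →
      ∀ ι : E →+ 𝕋, Continuous ι → ∀ g : E → E, Measurable g → LocSol (leaf A ι 0) (ball 0 κ) g →
      Iq 2 (volume.restrict (ball 0 κ)) g ≤ 1 →
      ∀ᵐ x ∂(volume.restrict (ball (0 : E) 1)), ‖g x‖ₑ ≤ N)
    {A : 𝕋 → E →L[ℝ] E} (hA : Adm K lam L gam A) {ι : E →+ 𝕋} (hι : Continuous ι) {g : E → E}
    (hgm : Measurable g) (hg : LocSol (leaf A ι 0) (ball 0 κ) g) :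
    ∀ᵐ x ∂(volume.restrict (ball (0 : E) 1)),
      ‖g x‖ₑ ≤ N * Iq 2 (volume.restrict (ball 0 κ)) g ^ (1 / 2 : ℝ) := by
  set I := Iq 2 (volume.restrict (ball 0 κ)) g with hI
  have hIt : I ≠ ⊤ := by
    rw [hI, Iq_two]
    exact ENNReal.rpow_ne_top_of_nonneg (by norm_num) (hg.inV.memLp.restrict _).2.ne
  by_cases hI0 : I = 0
  · have h1 : g =ᵐ[volume.restrict (ball 0 κ)] 0 := by
      rw [hI] at hI0
      unfold Iq at hI0
      rw [lintegral_eq_zero_iff (hgm.enorm.pow_const _)] at hI0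
      filter_upwards [hI0] with x hx
      have : ‖g x‖ₑ = 0 := (ENNReal.rpow_eq_zero_iff_of_pos (by norm_num)).mp hx
      simpa using this
    have h2 : g =ᵐ[volume.restrict (ball 0 1)] 0 :=
      ae_restrict_of_ae_restrict_of_subset (ball_subset_ball hκ.le) h1
    filter_upwards [h2] with x hx
    rw [hx]
    simp
  · set e : ℝ := (I.toReal) ^ (1 / 2 : ℝ) with he
    have hIpos : 0 < I.toReal := ENNReal.toReal_pos hI0 hIt
    have hepos : 0 < e := Real.rpow_pos_of_pos hIpos _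
    have hee : ENNReal.ofReal e = I ^ (1 / 2 : ℝ) := by
      rw [he, ← ENNReal.ofReal_rpow_of_pos hIpos, ENNReal.ofReal_toReal hIt]
    have hinv : ‖e⁻¹‖ₑ = (I ^ (1 / 2 : ℝ))⁻¹ := by
      rw [Real.enorm_eq_ofReal (inv_nonneg.mpr hepos.le), ENNReal.ofReal_inv_of_pos hepos, hee]
    have hs0 : I ^ (1 / 2 : ℝ) ≠ 0 := (ENNReal.rpow_pos (pos_iff_ne_zero.mpr hI0) hIt).ne'
    have hst : I ^ (1 / 2 : ℝ) ≠ ⊤ := ENNReal.rpow_ne_top_of_nonneg (by norm_num) hIt
    have hm : Measurable (e⁻¹ • g) := hgm.const_smul _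
    have h1 := hN A hA ι hι (e⁻¹ • g) hm (hg.const_smul _) (by
      have h12 : (1 / 2 : ℝ) * 2 = 1 := by norm_num
      rw [Iq_const_smul (by norm_num), ← hI, hinv, ENNReal.inv_rpow, ← ENNReal.rpow_mul, h12,
        ENNReal.rpow_one, ENNReal.inv_mul_cancel hI0 hIt])
    filter_upwards [h1] with x hx
    rw [Pi.smul_apply, enorm_smul, hinv] at hx
    calc ‖g x‖ₑ = I ^ (1 / 2 : ℝ) * ((I ^ (1 / 2 : ℝ))⁻¹ * ‖g x‖ₑ) := by
          rw [← mul_assoc, ENNReal.mul_inv_cancel hs0 hst, one_mul]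
      _ ≤ I ^ (1 / 2 : ℝ) * N := mul_le_mul' le_rfl hx
      _ = _ := mul_comm _ _

/-- gradient bound on arbitrary balls -/
theorem grad_bound {K lam L gam κ : ℝ} (hκ : 1 < κ) {N : ℝ≥0}
    (hN : ∀ A : 𝕋 → E →L[ℝ] E, Adm K lam L gam A →
      ∀ ι : E →+ 𝕋, Continuous ι → ∀ g : E → E, Measurable g → LocSol (leaf A ι 0) (ball 0 κ) g →
      Iq 2 (volume.restrict (ball 0 κ)) g ≤ 1 →
      ∀ᵐ x ∂(volume.restrict (ball (0 : E) 1)), ‖g x‖ₑ ≤ N)
    {A : 𝕋 → E →L[ℝ] E} (hA : Adm K lam L gam A) {ι : E →+ 𝕋} (hι : Continuous ι) (θ : 𝕋)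
    (x₀ : E) {r : ℝ} (hr : 0 < r) {g : E → E}
    (hg : LocSol (leaf A ι θ) (ball x₀ (κ * r)) g) :
    ∀ᵐ x ∂(volume.restrict (ball x₀ r)),
      ‖g x‖ₑ ≤ N * ((rd E r)⁻¹ * Iq 2 (volume.restrict (ball x₀ (κ * r))) g) ^ (1 / 2 : ℝ) := by
  wlog hgm : Measurable g generalizing g
  · have hm := hg.inV.memLp.1
    have h1 := this (hg.congr hm.ae_eq_mk) hm.stronglyMeasurable_mk.measurable
    rw [← Iq_congr (ae_restrict_of_ae hm.ae_eq_mk)] at h1
    filter_upwards [h1, ae_restrict_of_ae hm.ae_eq_mk] with x h2 h3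
    rw [h3]
    exact h2
  have h1 := hg.affine hr
  rw [leaf_affine] at h1
  have h2 := grad_bound_unit hκ hN (hA.translate _) (dil_continuous hι r)
    (g := fun x => g (x₀ + r • x)) (hgm.comp (by fun_prop)) h1
  have e2 : Iq 2 (volume.restrict (ball 0 κ)) (fun x => g (x₀ + r • x)) =
      (rd E r)⁻¹ * Iq 2 (volume.restrict (ball x₀ (κ * r))) g :=
    lintegral_affine_ball (fun x => ‖g x‖ₑ ^ (2 : ℝ)) x₀ hr κ
  rw [e2] at h2
  set c : ℝ≥0∞ := N * ((rd E r)⁻¹ * Iq 2 (volume.restrict (ball x₀ (κ * r))) g) ^ (1 / 2 : ℝ)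
    with hc
  set T : Set E := {y | ¬ ‖g y‖ₑ ≤ c} with hT
  have hTm : MeasurableSet T := (measurableSet_le hgm.enorm measurable_const).compl
  have h3 : ∫⁻ x in ball (0 : E) 1, T.indicator (fun _ => (1 : ℝ≥0∞)) (x₀ + r • x) = 0 := by
    have : ∀ᵐ x ∂(volume.restrict (ball (0 : E) 1)),
        T.indicator (fun _ => (1 : ℝ≥0∞)) (x₀ + r • x) = 0 := by
      filter_upwards [h2] with x hx
      exact indicator_of_notMem (fun h => (show ¬ ‖g (x₀ + r • x)‖ₑ ≤ c from h) hx) _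
    rw [lintegral_congr_ae this]
    simp
  have h4 := lintegral_affine_ball (T.indicator fun _ => (1 : ℝ≥0∞)) x₀ hr 1
  rw [h3, one_mul] at h4
  have h5 : ∫⁻ x in ball x₀ r, T.indicator (fun _ => (1 : ℝ≥0∞)) x = 0 := by
    rcases mul_eq_zero.mp h4.symm with h | h
    · exact absurd (ENNReal.inv_eq_zero.mp h) (rd_ne_top r)
    · exact h
  rw [lintegral_eq_zero_iff (measurable_const.indicator hTm)] at h5
  filter_upwards [h5] with x hx
  by_contra hcon
  have : T.indicator (fun _ => (1 : ℝ≥0∞)) x = 1 := indicator_of_mem (show x ∈ T from hcon) _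
  rw [this] at hx
  simp at hx

end Pool.Agent.Lib.MP_a73848
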