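import Mathlib

set_option autoImplicit false
set_option linter.unusedSectionVars false

open MeasureTheory Metric Filter Topology Set Module
open scoped ENNReal NNReal

namespace Pool.Agent.Lib.MP_a73848

namespace RV

variable {E : Type*} [NormedAddCommGroup E] [NormedSpace ℝ E] [FiniteDimensional ℝ E]
    [MeasurableSpace E] [BorelSpace E] (μ : Measure E) [μ.IsAddHaarMeasure]

/-- superlevel set of the dyadic (centred) maximal function, at height `t`. -/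
def Ms (f : E → ℝ≥0∞) (t : ℝ≥0∞) : Set E :=
  {x | ∃ k : ℤ, t * μ (ball x ((2 : ℝ) ^ k)) < ∫⁻ y in ball x ((2 : ℝ) ^ k), f y ∂μ}

theorem Ms_mono_ae {f g : E → ℝ≥0∞} (h : ∀ᵐ x ∂μ, f x ≤ g x) (t : ℝ≥0∞) : Ms μ f t ⊆ Ms μ g t := by
  rintro x ⟨k, hk⟩
  exact ⟨k, hk.trans_le (lintegral_mono_ae (ae_restrict_of_ae h))⟩

theorem Ms_anti {f : E → ℝ≥0∞} {s t : ℝ≥0∞} (h : s ≤ t) : Ms μ f t ⊆ Ms μ f s := by
  rintro x ⟨k, hk⟩
  exact ⟨k, (mul_le_mul_left h _).trans_lt hk⟩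

theorem Ms_add {f g : E → ℝ≥0∞} (hf : Measurable f) (s t : ℝ≥0∞) :
    Ms μ (fun x => f x + g x) (s + t) ⊆ Ms μ f s ∪ Ms μ g t := by
  rintro x ⟨k, hk⟩
  by_contra hcon
  simp only [mem_union, not_or] at hcon
  obtain ⟨h1, h2⟩ := hcon
  have h1' : ∫⁻ y in ball x ((2 : ℝ) ^ k), f y ∂μ ≤ s * μ (ball x ((2 : ℝ) ^ k)) :=
    not_lt.mp fun h => h1 ⟨k, h⟩
  have h2' : ∫⁻ y in ball x ((2 : ℝ) ^ k), g y ∂μ ≤ t * μ (ball x ((2 : ℝ) ^ k)) :=
    not_lt.mp fun h => h2 ⟨k, h⟩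
  rw [lintegral_add_left hf, add_mul] at hk
  exact absurd (add_le_add h1' h2') (not_le.mpr hk)

theorem ball_pos (x : E) (k : ℤ) : 0 < μ (ball x ((2 : ℝ) ^ k)) :=
  measure_ball_pos μ x (by positivity)

theorem ball_ne_top (x : E) (r : ℝ) : μ (ball x r) ≠ ⊤ := measure_ball_lt_top.ne

variable [Nontrivial E]

theorem ball_eq (x : E) {r : ℝ} (hr : 0 ≤ r) :
    μ (ball x r) = ENNReal.ofReal (r ^ finrank ℝ E) * μ (ball 0 1) := Measure.addHaar_ball μ x hr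

theorem ball_scale (x y : E) {c r : ℝ} (hc : 0 ≤ c) (hr : 0 ≤ r) :
    μ (ball x (c * r)) = ENNReal.ofReal (c ^ finrank ℝ E) * μ (ball y r) := by
  rw [ball_eq μ x (mul_nonneg hc hr), ball_eq μ y hr, mul_pow, ENNReal.ofReal_mul (by positivity),
    mul_assoc]

theorem radius_bound {f : E → ℝ≥0∞} (htop : ∫⁻ x, f x ∂μ ≠ ⊤) {t : ℝ≥0∞} (ht : t ≠ 0)
    (ht' : t ≠ ⊤) : ∃ R : ℝ, ∀ (x : E) (k : ℤ),
      t * μ (ball x ((2 : ℝ) ^ k)) < ∫⁻ y in ball x ((2 : ℝ) ^ k), f y ∂μ → (2 : ℝ) ^ k ≤ R := by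
  set d := finrank ℝ E with hd
  have hd0 : 0 < d := finrank_pos
  set M : ℝ := ((∫⁻ x, f x ∂μ) / (t * μ (ball (0 : E) 1))).toReal with hM
  have hb1 : μ (ball (0 : E) 1) ≠ 0 := (measure_ball_pos μ _ one_pos).ne'
  have hb1' : μ (ball (0 : E) 1) ≠ ⊤ := ball_ne_top μ _ _
  refine ⟨max 1 M, fun x k h1 => ?_⟩
  set r : ℝ := (2 : ℝ) ^ k with hr
  have hrpos : 0 < r := by rw [hr]; positivity
  have h2 : t * μ (ball x r) ≤ ∫⁻ x, f x ∂μ := h1.le.trans (setLIntegral_le_lintegral _ _)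
  rw [ball_eq μ x hrpos.le] at h2
  have h3 : ENNReal.ofReal (r ^ d) ≤ (∫⁻ x, f x ∂μ) / (t * μ (ball (0 : E) 1)) := by
    rw [ENNReal.le_div_iff_mul_le (Or.inl (mul_ne_zero ht hb1))
      (Or.inl (ENNReal.mul_ne_top ht' hb1'))]
    calc ENNReal.ofReal (r ^ d) * (t * μ (ball (0 : E) 1))
        = t * (ENNReal.ofReal (r ^ d) * μ (ball (0 : E) 1)) := by ring
      _ ≤ _ := h2
  have h4 : r ^ d ≤ M := by
    have hne : (∫⁻ x, f x ∂μ) / (t * μ (ball (0 : E) 1)) ≠ ⊤ :=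
      ENNReal.div_ne_top htop (mul_ne_zero ht hb1)
    have := ENNReal.toReal_mono hne h3
    rwa [ENNReal.toReal_ofReal (by positivity)] at this
  rcases le_or_gt r 1 with h5 | h5
  · exact le_max_of_le_left h5
  · exact le_max_of_le_right ((le_self_pow₀ h5.le hd0.ne').trans h4)

/-- The weak (1,1) inequality. -/
theorem weak11 (f : E → ℝ≥0∞) {t : ℝ≥0∞} (ht : t ≠ 0) (ht' : t ≠ ⊤) :
    μ (Ms μ f t) ≤ 5 ^ finrank ℝ E * t⁻¹ * ∫⁻ x, f x ∂μ := by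
  set d := finrank ℝ E with hd
  have hd0 : 0 < d := finrank_pos
  rcases eq_or_ne (∫⁻ x, f x ∂μ) ⊤ with htop | htop
  · rw [htop, ENNReal.mul_top]
    · exact le_top
    · apply mul_ne_zero
      · positivity
      · exact ENNReal.inv_ne_zero.mpr ht'
  choose! k hk using fun (x : E) (hx : x ∈ Ms μ f t) => hx
  set r : E → ℝ := fun x => (2 : ℝ) ^ (k x) with hr
  have hrpos : ∀ x, 0 < r x := fun x => by rw [hr]; positivity
  obtain ⟨R, hR⟩ := radius_bound μ htop ht ht'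
  have hbound : ∀ x ∈ Ms μ f t, r x ≤ R := fun x hx => hR x (k x) (hk x hx)
  obtain ⟨u, hut, hdisj, hcov⟩ := Vitali.exists_disjoint_subfamily_covering_enlargement_closedBall
    (Ms μ f t) (fun x : E => x) r R hbound 5 (by norm_num)
  have hdisj' : u.PairwiseDisjoint fun a => ball a (r a) :=
    hdisj.mono fun a => ball_subset_closedBall
  have hcount : u.Countable := hdisj'.countable_of_isOpen (fun a _ => isOpen_ball)
    (fun a _ => nonempty_ball.mpr (hrpos a))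
  have hcover : Ms μ f t ⊆ ⋃ a ∈ u, closedBall a (5 * r a) := by
    intro x hx
    obtain ⟨b, hb, hsub⟩ := hcov x hx
    exact mem_biUnion hb (hsub (mem_closedBall_self (hrpos x).le))
  calc μ (Ms μ f t) ≤ μ (⋃ a ∈ u, closedBall a (5 * r a)) := measure_mono hcover
    _ ≤ ∑' a : u, μ (closedBall (a : E) (5 * r a)) := measure_biUnion_le μ hcount _
    _ ≤ ∑' a : u, 5 ^ d * t⁻¹ * ∫⁻ y in ball (a : E) (r a), f y ∂μ := by
        apply ENNReal.tsum_le_tsum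
        intro a
        rw [Measure.addHaar_closedBall_eq_addHaar_ball,
          ball_scale μ (a : E) (a : E) (by norm_num) (hrpos a).le]
        have h1 : μ (ball (a : E) (r a)) ≤ t⁻¹ * ∫⁻ y in ball (a : E) (r a), f y ∂μ := by
          have h2 : t * μ (ball (a : E) (r a)) ≤ ∫⁻ y in ball (a : E) (r a), f y ∂μ :=
            (hk a (hut a.2)).le
          calc μ (ball (a : E) (r a)) = t⁻¹ * (t * μ (ball (a : E) (r a))) := by
                rw [← mul_assoc, ENNReal.inv_mul_cancel ht ht', one_mul]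
            _ ≤ _ := by gcongr
        have h5 : ENNReal.ofReal ((5 : ℝ) ^ d) = 5 ^ d := by
          rw [ENNReal.ofReal_pow (by norm_num)]; norm_num
        rw [← hd, h5, mul_assoc]
        gcongr
    _ = 5 ^ d * t⁻¹ * ∑' a : u, ∫⁻ y in ball (a : E) (r a), f y ∂μ := by rw [ENNReal.tsum_mul_left]
    _ = 5 ^ d * t⁻¹ * ∫⁻ y in ⋃ a ∈ u, ball (a : E) (r a), f y ∂μ := by
        rw [lintegral_biUnion hcount (fun a _ => measurableSet_ball) hdisj']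
    _ ≤ 5 ^ d * t⁻¹ * ∫⁻ x, f x ∂μ := by
        gcongr
        exact Measure.restrict_le_self

/-- refined weak (1,1) inequality -/
theorem weak11' {f : E → ℝ≥0∞} (hf : Measurable f) {t : ℝ≥0∞} (ht : t ≠ 0) (ht' : t ≠ ⊤) :
    μ (Ms μ f t) ≤ 5 ^ finrank ℝ E * (t / 2)⁻¹ * ∫⁻ x in {x | t / 2 < f x}, f x ∂μ := by
  set S : Set E := {x | t / 2 < f x} with hS
  have hSm : MeasurableSet S := measurableSet_lt measurable_const hf
  have h1 : Ms μ f t ⊆ Ms μ (S.indicator f) (t / 2) := by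
    have hle : ∀ x, f x ≤ S.indicator f x + t / 2 := by
      intro x
      by_cases hx : x ∈ S
      · simp [hx]
      · simp only [indicator_of_notMem hx, zero_add]
        exact not_lt.mp hx
    intro x hx
    have hx1 : x ∈ Ms μ (fun x => S.indicator f x + (fun _ => t / 2) x) (t / 2 + t / 2) := by
      rw [ENNReal.add_halves]
      exact Ms_mono_ae μ (Eventually.of_forall hle) t hx
    rcases Ms_add μ (hf.indicator hSm) _ _ hx1 with h | h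
    · exact h
    · obtain ⟨k, hk⟩ := h
      simp at hk
  have ht2 : t / 2 ≠ 0 := by simpa using ht
  have ht2' : t / 2 ≠ ⊤ := ENNReal.div_ne_top ht' (by norm_num)
  calc μ (Ms μ f t) ≤ μ (Ms μ (S.indicator f) (t / 2)) := measure_mono h1
    _ ≤ 5 ^ finrank ℝ E * (t / 2)⁻¹ * ∫⁻ x, S.indicator f x ∂μ := weak11 μ _ ht2 ht2'
    _ = _ := by rw [lintegral_indicator hSm]

/-- Jensen -/
theorem Ms_rpow {f : E → ℝ≥0∞} (hf : Measurable f) {s : ℝ} (hs : 1 < s) (t : ℝ≥0∞) :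
    Ms μ f t ⊆ Ms μ (fun x => f x ^ s) (t ^ s) := by
  rintro x ⟨k, hk⟩
  refine ⟨k, ?_⟩
  set B := ball x ((2 : ℝ) ^ k) with hB
  have hs0 : 0 < s := by linarith
  have hpos : μ B ≠ 0 := (ball_pos μ x k).ne'
  have hfin : μ B ≠ ⊤ := ball_ne_top μ x _
  have hconj : s.HolderConjugate (s / (s - 1)) := Real.HolderConjugate.conjExponent hs
  have hH := ENNReal.lintegral_mul_le_Lp_mul_Lq (μ.restrict B) hconj hf.aemeasurable
    (g := fun _ => 1) aemeasurable_const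
  simp only [Pi.mul_apply, mul_one, ENNReal.one_rpow, lintegral_one, Measure.restrict_apply,
    MeasurableSet.univ, univ_inter] at hH
  -- (t μB)^s < (∫ f^s) (μ B)^(s-1)
  have h1 : (t * μ B) ^ s < (∫⁻ y in B, f y ^ s ∂μ) * μ B ^ (s - 1) := by
    calc (t * μ B) ^ s < (∫⁻ y in B, f y ∂μ) ^ s := ENNReal.rpow_lt_rpow hk hs0
      _ ≤ ((∫⁻ y in B, f y ^ s ∂μ) ^ (1 / s) * μ B ^ (1 / (s / (s - 1)))) ^ s :=
          ENNReal.rpow_le_rpow hH hs0.le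
      _ = (∫⁻ y in B, f y ^ s ∂μ) * μ B ^ (s - 1) := by
          rw [ENNReal.mul_rpow_of_nonneg _ _ hs0.le, ← ENNReal.rpow_mul, ← ENNReal.rpow_mul]
          have e1 : 1 / s * s = 1 := by field_simp
          have e2 : 1 / (s / (s - 1)) * s = s - 1 := by
            have : s - 1 ≠ 0 := by linarith
            field_simp
          rw [e1, e2, ENNReal.rpow_one]
  rw [ENNReal.mul_rpow_of_nonneg _ _ hs0.le] at h1
  have h2 : μ B ^ s = μ B * μ B ^ (s - 1) := by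
    conv_lhs => rw [show s = 1 + (s - 1) by ring]
    rw [ENNReal.rpow_add _ _ hpos hfin, ENNReal.rpow_one]
  rw [h2, ← mul_assoc] at h1
  exact lt_of_mul_lt_mul_right h1 (by positivity)

theorem tsum_inter_le {ι : Type*} {u : Set ι} (hu : u.Countable) {B : ι → Set E}
    (hB : ∀ i ∈ u, MeasurableSet (B i)) (hd : u.PairwiseDisjoint B) (S : Set E) :
    ∑' i : u, μ (B i ∩ S) ≤ μ S := by
  calc ∑' i : u, μ (B i ∩ S) = ∑' i : u, (μ.restrict S) (B i) := by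
        congr 1; ext i; rw [Measure.restrict_apply (hB i i.2)]
    _ = (μ.restrict S) (⋃ i ∈ u, B i) := (measure_biUnion hu hd hB).symm
    _ ≤ (μ.restrict S) univ := measure_mono (subset_univ _)
    _ = μ S := by simp

theorem two_pow_real_eq (d : ℕ) : ENNReal.ofReal ((2 : ℝ) ^ d) = 2 ^ d := by
  rw [ENNReal.ofReal_pow (by norm_num)]; norm_num

theorem exists_max {f : E → ℝ≥0∞} (htop : ∫⁻ x, f x ∂μ ≠ ⊤) {t : ℝ≥0∞} (ht : t ≠ 0)
    (ht' : t ≠ ⊤) {x : E} (hx : x ∈ Ms μ f t) : ∃ k : ℤ,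
      t * μ (ball x ((2 : ℝ) ^ k)) < ∫⁻ y in ball x ((2 : ℝ) ^ k), f y ∂μ ∧
      ∀ j : ℤ, k < j → ∫⁻ y in ball x ((2 : ℝ) ^ j), f y ∂μ ≤ t * μ (ball x ((2 : ℝ) ^ j)) := by
  obtain ⟨R, hR⟩ := radius_bound μ htop ht ht'
  obtain ⟨n, hn⟩ := pow_unbounded_of_one_lt R (by norm_num : (1 : ℝ) < 2)
  obtain ⟨k, hk, hmax⟩ := Int.exists_greatest_of_bdd
    (P := fun k : ℤ => t * μ (ball x ((2 : ℝ) ^ k)) < ∫⁻ y in ball x ((2 : ℝ) ^ k), f y ∂μ)
    ⟨n, fun z hz => by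
      have h1 := hR x z hz
      have h2 : (2 : ℝ) ^ z < (2 : ℝ) ^ (n : ℤ) := by rw [zpow_natCast]; linarith
      exact ((zpow_lt_zpow_iff_right₀ (by norm_num : (1 : ℝ) < 2)).mp h2).le⟩ hx
  refine ⟨k, hk, fun j hj => ?_⟩
  by_contra hcon
  have := hmax j (not_le.mp hcon)
  omega

/-- the local estimate on a good ball -/
theorem local_good {s : ℝ} (hs : 1 < s) {C₀ N : ℝ≥0∞} {F h F₁ F₂ : E → ℝ≥0∞} (hF₁ : Measurable F₁)
    (hF₂ : Measurable F₂) {t N₀ γ : ℝ≥0∞} (ht : t ≠ 0) (ht' : t ≠ ⊤) (hN₀ : 2 ^ finrank ℝ E ≤ N₀)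
    (hN₀' : N₀ ≠ ⊤) (hγ : γ ≤ 1) {x : E} {k : ℤ}
    (hmax : ∀ j : ℤ, k < j → ∫⁻ y in ball x ((2 : ℝ) ^ j), F y ∂μ ≤ t * μ (ball x ((2 : ℝ) ^ j)))
    (hae : ∀ᵐ y ∂(μ.restrict (ball x (16 * 2 ^ k))), F y ≤ F₁ y + F₂ y)
    (h1 : ∫⁻ y, F₁ y ∂μ ≤ C₀ * ∫⁻ y in ball x (2 * (16 * 2 ^ k)), h y ∂μ)
    (h2 : ∫⁻ y in ball x (16 * 2 ^ k), F₂ y ^ s ∂μ ≤
          N * μ (ball x (16 * 2 ^ k)) ^ (1 - s) *
            (∫⁻ y in ball x (2 * (16 * 2 ^ k)), (F y + h y) ∂μ) ^ s)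
    (hFm : Measurable F)
    {y₀ : E} (hy₀ : y₀ ∈ ball x ((2 : ℝ) ^ k)) (hgood : y₀ ∉ Ms μ h (γ * t)) :
    μ (closedBall x (5 * 2 ^ k) ∩ Ms μ F (N₀ * t)) ≤
      (5 ^ finrank ℝ E * (64 ^ finrank ℝ E * 2 * C₀ * γ * N₀⁻¹) +
        5 ^ finrank ℝ E * N * (4 * 64 ^ finrank ℝ E * N₀⁻¹) ^ s) * μ (ball x ((2 : ℝ) ^ k)) := by
  set d := finrank ℝ E with hd
  set r : ℝ := (2 : ℝ) ^ k with hr
  have hrpos : 0 < r := by rw [hr]; positivity
  set m := μ (ball x r) with hm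
  have hm0 : m ≠ 0 := (ball_pos μ x k).ne'
  have hmt : m ≠ ⊤ := ball_ne_top μ x _
  set P := ball x (16 * r) with hP
  have hN₀0 : N₀ ≠ 0 := by
    intro h0
    rw [h0] at hN₀
    simp at hN₀
  have hs0 : 0 < s := by linarith
  have e32 : 2 * (16 * r) = (2 : ℝ) ^ (k + 5) := by
    rw [zpow_add₀ (by norm_num), hr]; norm_num; ring
  have e64 : 64 * r = (2 : ℝ) ^ (k + 6) := by
    rw [zpow_add₀ (by norm_num), hr]; norm_num; ring
  have h64 : ENNReal.ofReal ((64 : ℝ) ^ d) = 64 ^ d := by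
    rw [ENNReal.ofReal_pow (by norm_num)]; norm_num
  have hμ64 : ∀ y : E, μ (ball y (64 * r)) = 64 ^ d * m := by
    intro y
    rw [ball_scale μ y x (by norm_num) hrpos.le, h64]
  -- bound for h
  have hh64 : ∫⁻ y in ball x (2 * (16 * r)), h y ∂μ ≤ γ * t * (64 ^ d * m) := by
    have hsub : ball x (2 * (16 * r)) ⊆ ball y₀ (64 * r) := by
      apply ball_subset_ball'
      have := mem_ball'.mp hy₀
      rw [mem_ball, dist_comm] at hy₀
      linarith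
    have h3 : ∫⁻ y in ball y₀ (64 * r), h y ∂μ ≤ γ * t * μ (ball y₀ (64 * r)) := by
      rw [e64]
      exact not_lt.mp fun h => hgood ⟨k + 6, h⟩
    rw [hμ64] at h3
    exact (lintegral_mono_set hsub).trans h3
  have hF32 : ∫⁻ y in ball x (2 * (16 * r)), F y ∂μ ≤ t * (64 ^ d * m) := by
    rw [e32]
    refine (hmax (k + 5) (by omega)).trans ?_
    rw [← e32, ← hμ64 x]
    exact mul_le_mul' le_rfl (measure_mono (ball_subset_ball (by linarith)))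
  have hFh : ∫⁻ y in ball x (2 * (16 * r)), (F y + h y) ∂μ ≤ 2 * t * (64 ^ d * m) := by
    rw [lintegral_add_left hFm]
    calc _ ≤ t * (64 ^ d * m) + γ * t * (64 ^ d * m) := add_le_add hF32 hh64
      _ ≤ t * (64 ^ d * m) + 1 * t * (64 ^ d * m) := by gcongr
      _ = _ := by ring
  -- F₁
  have hF₁' : ∫⁻ y, F₁ y ∂μ ≤ C₀ * (γ * t * (64 ^ d * m)) := h1.trans (by gcongr)
  -- F₂
  have hmP : m ≤ μ P := measure_mono (ball_subset_ball (by linarith))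
  have hF₂' : ∫⁻ y in P, F₂ y ^ s ∂μ ≤ N * (2 * t * 64 ^ d) ^ s * m := by
    calc _ ≤ N * μ P ^ (1 - s) * (∫⁻ y in ball x (2 * (16 * r)), (F y + h y) ∂μ) ^ s := h2
      _ ≤ N * m ^ (1 - s) * (2 * t * (64 ^ d * m)) ^ s := by
          gcongr ?_ * ?_
          · gcongr N * ?_
            have e1 : (1 : ℝ) - s = -(s - 1) := by ring
            rw [e1, ENNReal.rpow_neg, ENNReal.rpow_neg]
            exact ENNReal.inv_le_inv.mpr (ENNReal.rpow_le_rpow hmP (by linarith))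
          · exact ENNReal.rpow_le_rpow hFh hs0.le
      _ = N * (2 * t * 64 ^ d) ^ s * (m ^ (1 - s) * m ^ s) := by
          rw [show 2 * t * (64 ^ d * m) = (2 * t * 64 ^ d) * m by ring,
            ENNReal.mul_rpow_of_nonneg _ m hs0.le]
          ring
      _ = N * (2 * t * 64 ^ d) ^ s * m := by
          rw [← ENNReal.rpow_add _ _ hm0 hmt]; simp
  -- inclusion
  have hPm : MeasurableSet P := measurableSet_ball
  set a : ℝ≥0∞ := N₀ * t / 2 with ha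
  have ha0 : a ≠ 0 := by
    rw [ha]; simp [ht, hN₀0]
  have hat : a ≠ ⊤ := ENNReal.div_ne_top (ENNReal.mul_ne_top hN₀' ht') (by norm_num)
  have hincl : closedBall x (5 * r) ∩ Ms μ F (N₀ * t) ⊆
      Ms μ F₁ a ∪ Ms μ (fun y => (P.indicator F₂ y) ^ s) (a ^ s) := by
    rintro y ⟨hy, j, hj⟩
    have hjk : j ≤ k + 2 := by
      by_contra hcon
      push Not at hcon
      have hbig : 8 * r ≤ (2 : ℝ) ^ j := by
        have : (2 : ℝ) ^ (k + 3) ≤ (2 : ℝ) ^ j := zpow_le_zpow_right₀ (by norm_num) (by omega)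
        rw [zpow_add₀ (by norm_num)] at this
        norm_num at this
        rw [hr]; linarith
      have hsub : ball y ((2 : ℝ) ^ j) ⊆ ball x ((2 : ℝ) ^ (j + 1)) := by
        apply ball_subset_ball'
        rw [mem_closedBall] at hy
        rw [zpow_add_one₀ (by norm_num)]
        linarith
      have h4 := hmax (j + 1) (by omega)
      have h5 : μ (ball x ((2 : ℝ) ^ (j + 1))) = 2 ^ d * μ (ball y ((2 : ℝ) ^ j)) := by
        rw [zpow_add_one₀ (by norm_num), mul_comm, ball_scale μ x y (by norm_num) (by positivity),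
          two_pow_real_eq]
      rw [h5] at h4
      have h6 : N₀ * t * μ (ball y ((2 : ℝ) ^ j)) < N₀ * t * μ (ball y ((2 : ℝ) ^ j)) := by
        calc N₀ * t * μ (ball y ((2 : ℝ) ^ j)) < ∫⁻ y in ball y ((2 : ℝ) ^ j), F y ∂μ := hj
          _ ≤ ∫⁻ y in ball x ((2 : ℝ) ^ (j + 1)), F y ∂μ := lintegral_mono_set hsub
          _ ≤ t * (2 ^ d * μ (ball y ((2 : ℝ) ^ j))) := h4
          _ = 2 ^ d * (t * μ (ball y ((2 : ℝ) ^ j))) := by ring
          _ ≤ N₀ * (t * μ (ball y ((2 : ℝ) ^ j))) := by gcongr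
          _ = _ := by ring
      exact lt_irrefl _ h6
    have hsmall : (2 : ℝ) ^ j ≤ 4 * r := by
      have : (2 : ℝ) ^ j ≤ (2 : ℝ) ^ (k + 2) := zpow_le_zpow_right₀ (by norm_num) hjk
      rw [zpow_add₀ (by norm_num)] at this
      norm_num at this
      rw [hr]; linarith
    have hsub : ball y ((2 : ℝ) ^ j) ⊆ P := by
      apply ball_subset_ball'
      rw [mem_closedBall] at hy
      linarith
    have h7 : y ∈ Ms μ (fun y => F₁ y + P.indicator F₂ y) (a + a) := by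
      refine ⟨j, ?_⟩
      rw [ha, ENNReal.add_halves]
      refine hj.trans_le ?_
      apply lintegral_mono_ae
      have h8 : ∀ᵐ z ∂(μ.restrict (ball y ((2 : ℝ) ^ j))), F z ≤ F₁ z + F₂ z :=
        ae_restrict_of_ae_restrict_of_subset hsub hae
      have h9 : ∀ᵐ z ∂(μ.restrict (ball y ((2 : ℝ) ^ j))), z ∈ ball y ((2 : ℝ) ^ j) :=
        ae_restrict_mem measurableSet_ball
      filter_upwards [h8, h9] with z hz hz'
      rw [indicator_of_mem (hsub hz')]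
      exact hz
    rcases Ms_add μ hF₁ _ _ h7 with h | h
    · exact Or.inl h
    · exact Or.inr (Ms_rpow μ (hF₂.indicator hPm) hs _ h)
  have has0 : a ^ s ≠ 0 := by
    simp only [ne_eq, ENNReal.rpow_eq_zero_iff, not_or, not_and_or]
    exact ⟨Or.inl ha0, Or.inl hat⟩
  have hast : a ^ s ≠ ⊤ := ENNReal.rpow_ne_top_of_nonneg hs0.le hat
  have ea : a⁻¹ * t = 2 * N₀⁻¹ := by
    rw [ha, ENNReal.div_eq_inv_mul, ENNReal.mul_inv (Or.inl (by norm_num)) (Or.inl (by norm_num)),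
      inv_inv, ENNReal.mul_inv (Or.inl hN₀0) (Or.inl hN₀')]
    calc 2 * (N₀⁻¹ * t⁻¹) * t = 2 * N₀⁻¹ * (t⁻¹ * t) := by ring
      _ = _ := by rw [ENNReal.inv_mul_cancel ht ht', mul_one]
  calc μ (closedBall x (5 * r) ∩ Ms μ F (N₀ * t))
      ≤ μ (Ms μ F₁ a) + μ (Ms μ (fun y => (P.indicator F₂ y) ^ s) (a ^ s)) :=
        (measure_mono hincl).trans (measure_union_le _ _)
    _ ≤ 5 ^ d * a⁻¹ * (∫⁻ y, F₁ y ∂μ) + 5 ^ d * (a ^ s)⁻¹ * ∫⁻ y, (P.indicator F₂ y) ^ s ∂μ :=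
        add_le_add (weak11 μ _ ha0 hat) (weak11 μ _ has0 hast)
    _ = 5 ^ d * a⁻¹ * (∫⁻ y, F₁ y ∂μ) + 5 ^ d * (a ^ s)⁻¹ * ∫⁻ y in P, F₂ y ^ s ∂μ := by
        congr 2
        rw [← lintegral_indicator hPm]
        congr 1
        ext y
        by_cases hy : y ∈ P
        · simp [hy]
        · simp [hy, hs0]
    _ ≤ 5 ^ d * a⁻¹ * (C₀ * (γ * t * (64 ^ d * m))) +
          5 ^ d * (a ^ s)⁻¹ * (N * (2 * t * 64 ^ d) ^ s * m) := by gcongr
    _ = 5 ^ d * (64 ^ d * C₀ * γ * (a⁻¹ * t)) * m +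
          5 ^ d * N * ((a ^ s)⁻¹ * (2 * t * 64 ^ d) ^ s) * m := by ring
    _ = (5 ^ d * (64 ^ d * 2 * C₀ * γ * N₀⁻¹) + 5 ^ d * N * (4 * 64 ^ d * N₀⁻¹) ^ s) * m := by
        rw [ea, ← ENNReal.inv_rpow, ← ENNReal.mul_rpow_of_nonneg _ _ hs0.le,
          show a⁻¹ * (2 * t * 64 ^ d) = (a⁻¹ * t) * (2 * 64 ^ d) by ring, ea,
          show 2 * N₀⁻¹ * (2 * 64 ^ d) = 4 * 64 ^ d * N₀⁻¹ by ring]
        ring

/-- The hypothesis of the real variable theorem. -/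
def Hyp (s : ℝ) (C₀ N : ℝ≥0∞) (F h : E → ℝ≥0∞) : Prop :=
  ∀ (x : E) (r : ℝ), 0 < r → ∃ F₁ F₂ : E → ℝ≥0∞, Measurable F₁ ∧ Measurable F₂ ∧
        (∀ᵐ y ∂(μ.restrict (ball x r)), F y ≤ F₁ y + F₂ y) ∧
        ∫⁻ y, F₁ y ∂μ ≤ C₀ * ∫⁻ y in ball x (2 * r), h y ∂μ ∧
        ∫⁻ y in ball x r, F₂ y ^ s ∂μ ≤
          N * μ (ball x r) ^ (1 - s) * (∫⁻ y in ball x (2 * r), (F y + h y) ∂μ) ^ s

theorem good_lambda {s : ℝ} (hs : 1 < s) {C₀ N : ℝ≥0∞} {F h : E → ℝ≥0∞} (hFm : Measurable F)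
    (hfin : ∫⁻ x, F x ∂μ ≠ ⊤) (H : Hyp μ s C₀ N F h) {t N₀ γ : ℝ≥0∞} (ht : t ≠ 0) (ht' : t ≠ ⊤)
    (hN₀ : 2 ^ finrank ℝ E ≤ N₀) (hN₀' : N₀ ≠ ⊤) (hγ : γ ≤ 1) :
    μ (Ms μ F (N₀ * t)) ≤
      (5 ^ finrank ℝ E * (64 ^ finrank ℝ E * 2 * C₀ * γ * N₀⁻¹) +
        5 ^ finrank ℝ E * N * (4 * 64 ^ finrank ℝ E * N₀⁻¹) ^ s) *
          μ (Ms μ F ((2 ^ finrank ℝ E)⁻¹ * t)) + 5 ^ finrank ℝ E * μ (Ms μ h (γ * t)) := by
  set d := finrank ℝ E with hd
  set ε : ℝ≥0∞ := 5 ^ d * (64 ^ d * 2 * C₀ * γ * N₀⁻¹) + 5 ^ d * N * (4 * 64 ^ d * N₀⁻¹) ^ s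
    with hε
  choose! k hk hmax using fun (x : E) (hx : x ∈ Ms μ F t) => exists_max μ hfin ht ht' hx
  obtain ⟨R, hR⟩ := radius_bound μ hfin ht ht'
  set r : E → ℝ := fun x => (2 : ℝ) ^ (k x) with hr
  have hrpos : ∀ x, 0 < r x := fun x => by rw [hr]; positivity
  obtain ⟨u, hut, hdisj, hcov⟩ := Vitali.exists_disjoint_subfamily_covering_enlargement_closedBall
    (Ms μ F t) (fun x : E => x) r R (fun x hx => hR x (k x) (hk x hx)) 5 (by norm_num)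
  have hdisj' : u.PairwiseDisjoint fun a => ball a (r a) :=
    hdisj.mono fun a => ball_subset_closedBall
  have hcount : u.Countable := hdisj'.countable_of_isOpen (fun a _ => isOpen_ball)
    (fun a _ => nonempty_ball.mpr (hrpos a))
  have h1N : 1 ≤ N₀ := le_trans (one_le_pow₀ (by norm_num)) hN₀
  have hcover : Ms μ F (N₀ * t) ⊆ ⋃ a ∈ u, (closedBall a (5 * r a) ∩ Ms μ F (N₀ * t)) := by
    intro x hx
    have hx' : x ∈ Ms μ F t := Ms_anti μ (by simpa using mul_le_mul' h1N (le_refl t)) hx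
    obtain ⟨b, hb, hsub⟩ := hcov x hx'
    exact mem_biUnion hb ⟨hsub (mem_closedBall_self (hrpos x).le), hx⟩
  have hlow : ∀ a ∈ u, ball a (r a) ⊆ Ms μ F ((2 ^ d)⁻¹ * t) := by
    intro a ha y hy
    refine ⟨k a + 1, ?_⟩
    have h5 : μ (ball y ((2 : ℝ) ^ (k a + 1))) = 2 ^ d * μ (ball a (r a)) := by
      rw [zpow_add_one₀ (by norm_num), mul_comm, ball_scale μ y a (by norm_num) (hrpos a).le,
        two_pow_real_eq]
    rw [h5]
    have h6 : ball a (r a) ⊆ ball y ((2 : ℝ) ^ (k a + 1)) := by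
      apply ball_subset_ball'
      rw [mem_ball, dist_comm] at hy
      rw [zpow_add_one₀ (by norm_num)]
      have : r a = (2 : ℝ) ^ (k a) := rfl
      rw [← this]; linarith
    have h7 : (2 : ℝ≥0∞) ^ d ≠ 0 := by positivity
    have h8 : (2 : ℝ≥0∞) ^ d ≠ ⊤ := ENNReal.pow_ne_top (by norm_num)
    calc (2 ^ d)⁻¹ * t * (2 ^ d * μ (ball a (r a)))
        = ((2 ^ d)⁻¹ * 2 ^ d) * (t * μ (ball a (r a))) := by ring
      _ = t * μ (ball a (r a)) := by rw [ENNReal.inv_mul_cancel h7 h8, one_mul]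
      _ < ∫⁻ y in ball a (r a), F y ∂μ := hk a (hut ha)
      _ ≤ _ := lintegral_mono_set h6
  have hlocal : ∀ a : u, μ (closedBall (a : E) (5 * r a) ∩ Ms μ F (N₀ * t)) ≤
      ε * μ (ball (a : E) (r a) ∩ Ms μ F ((2 ^ d)⁻¹ * t)) +
        5 ^ d * μ (ball (a : E) (r a) ∩ Ms μ h (γ * t)) := by
    intro a
    rw [inter_eq_left.mpr (hlow a a.2)]
    by_cases hg : ∃ y₀ ∈ ball (a : E) (r a), y₀ ∉ Ms μ h (γ * t)
    · obtain ⟨y₀, hy₀, hgood⟩ := hg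
      obtain ⟨F₁, F₂, hF₁, hF₂, hae, h1, h2⟩ := H a (16 * r a) (by have := hrpos a; linarith)
      exact le_add_of_le_left (local_good μ hs hF₁ hF₂ ht ht' hN₀ hN₀' hγ (hmax a (hut a.2)) hae h1
        h2 hFm hy₀ hgood)
    · push Not at hg
      refine le_add_of_le_right ?_
      rw [inter_eq_left.mpr hg]
      calc μ (closedBall (a : E) (5 * r a) ∩ Ms μ F (N₀ * t))
          ≤ μ (closedBall (a : E) (5 * r a)) := measure_mono inter_subset_left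
        _ = 5 ^ d * μ (ball (a : E) (r a)) := by
            rw [Measure.addHaar_closedBall_eq_addHaar_ball,
              ball_scale μ (a : E) (a : E) (by norm_num) (hrpos a).le,
              ENNReal.ofReal_pow (by norm_num), ← hd]
            norm_num
  calc μ (Ms μ F (N₀ * t))
      ≤ μ (⋃ a ∈ u, (closedBall a (5 * r a) ∩ Ms μ F (N₀ * t))) := measure_mono hcover
    _ ≤ ∑' a : u, μ (closedBall (a : E) (5 * r a) ∩ Ms μ F (N₀ * t)) :=
        measure_biUnion_le μ hcount _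
    _ ≤ ∑' a : u, (ε * μ (ball (a : E) (r a) ∩ Ms μ F ((2 ^ d)⁻¹ * t)) +
        5 ^ d * μ (ball (a : E) (r a) ∩ Ms μ h (γ * t))) := ENNReal.tsum_le_tsum hlocal
    _ = ε * ∑' a : u, μ (ball (a : E) (r a) ∩ Ms μ F ((2 ^ d)⁻¹ * t)) +
        5 ^ d * ∑' a : u, μ (ball (a : E) (r a) ∩ Ms μ h (γ * t)) := by
        rw [ENNReal.tsum_add, ENNReal.tsum_mul_left, ENNReal.tsum_mul_left]
    _ ≤ _ := by
        gcongr
        · exact tsum_inter_le μ hcount (fun _ _ => measurableSet_ball) hdisj' _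
        · exact tsum_inter_le μ hcount (fun _ _ => measurableSet_ball) hdisj' _

theorem ae_mem_Ms {F : E → ℝ≥0∞} (hF : Measurable F) (hfin : ∫⁻ x, F x ∂μ ≠ ⊤) :
    ∀ᵐ x ∂μ, ∀ t : ℝ≥0∞, t < F x → x ∈ Ms μ F t := by
  filter_upwards [(Besicovitch.vitaliFamily μ).ae_tendsto_lintegral_div hF.aemeasurable hfin]
    with x hx t htF
  have h1 := hx.comp (Besicovitch.tendsto_filterAt μ x)
  have h2 : Tendsto (fun n : ℕ => ((1 / 2 : ℝ)) ^ n) atTop (𝓝[>] 0) := by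
    rw [tendsto_nhdsWithin_iff]
    refine ⟨tendsto_pow_atTop_nhds_zero_of_lt_one (by norm_num) (by norm_num), ?_⟩
    exact Eventually.of_forall fun n => by simp
  have h3 := h1.comp h2
  obtain ⟨n, hn⟩ := (h3.eventually (lt_mem_nhds htF)).exists
  refine ⟨-(n : ℤ), ?_⟩
  have e : (2 : ℝ) ^ (-(n : ℤ)) = (1 / 2 : ℝ) ^ n := by
    rw [zpow_neg, zpow_natCast, one_div, inv_pow]
  rw [e]
  simp only [Function.comp_apply] at hn
  set r : ℝ := (1 / 2 : ℝ) ^ n with hr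
  have hrpos : 0 < r := by rw [hr]; positivity
  have hb : μ (closedBall x r) = μ (ball x r) := Measure.addHaar_closedBall_eq_addHaar_ball μ x r
  have hset : ball x r =ᵐ[μ] closedBall x r :=
    ae_eq_of_subset_of_measure_ge ball_subset_closedBall hb.le
      measurableSet_ball.nullMeasurableSet (by rw [hb]; exact ball_ne_top μ x r)
  rw [hb, ← setLIntegral_congr hset, ENNReal.lt_div_iff_mul_lt
    (Or.inl (measure_ball_pos μ x hrpos).ne') (Or.inl (ball_ne_top μ x r))] at hn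
  exact hn

end RV

namespace RV

/-! ### Summation over `b ^ k` -/

theorem tsum_int_eq {a : ℤ → ℝ≥0∞} (K : ℤ) (ha : ∀ k, K < k → a k = 0) :
    ∑' n : ℕ, a (K - n) = ∑' k : ℤ, a k := by
  have hinj : Function.Injective (fun n : ℕ => K - (n : ℤ)) := by
    intro m n h
    simp only at h
    omega
  refine hinj.tsum_eq (f := a) ?_
  intro k hk
  by_contra hcon
  apply hk
  apply ha
  by_contra hle
  apply hcon
  exact ⟨(K - k).toNat, by simp only; omega⟩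

theorem tsum_int_le {a : ℤ → ℝ≥0∞} {C : ℝ≥0∞} (h : ∀ K : ℤ, ∑' n : ℕ, a (K - n) ≤ C) :
    ∑' k : ℤ, a k ≤ C := by
  rw [ENNReal.tsum_eq_iSup_sum]
  refine iSup_le fun s => ?_
  obtain ⟨K, hK⟩ := s.bddAbove
  calc ∑ k ∈ s, a k ≤ ∑' k : ℤ, (if k ≤ K then a k else 0) := by
        refine le_trans (le_of_eq ?_) (ENNReal.sum_le_tsum s)
        refine Finset.sum_congr rfl fun k hk => ?_
        rw [if_pos (hK hk)]
    _ = ∑' n : ℕ, (if K - (n : ℤ) ≤ K then a (K - n) else 0) := by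
        rw [tsum_int_eq (a := fun k => if k ≤ K then a k else 0) K]
        intro k hk
        rw [if_neg (not_le.mpr hk)]
    _ = ∑' n : ℕ, a (K - n) := by
        congr 1; ext n; rw [if_pos (by omega)]
    _ ≤ C := h K

/-- The heights. -/
noncomputable def T (b : ℝ≥0) (k : ℤ) : ℝ≥0∞ := ((b ^ k : ℝ≥0) : ℝ≥0∞)

theorem T_ne_top (b : ℝ≥0) (k : ℤ) : T b k ≠ ⊤ := ENNReal.coe_ne_top

theorem T_ne_zero {b : ℝ≥0} (hb : 1 < b) (k : ℤ) : T b k ≠ 0 := by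
  unfold T
  have : (b : ℝ≥0) ^ k ≠ 0 := zpow_ne_zero _ (by positivity)
  exact_mod_cast this

theorem T_succ {b : ℝ≥0} (hb : 1 < b) (k : ℤ) : T b (k + 1) = b * T b k := by
  unfold T
  rw [zpow_add_one₀ (by positivity)]
  push_cast
  ring

theorem T_sub {b : ℝ≥0} (hb : 1 < b) (K : ℤ) (n : ℕ) (p : ℝ) :
    T b (K - n) ^ p = T b K ^ p * ((b : ℝ≥0∞) ^ (-p)) ^ n := by
  have hb0 : b ≠ 0 := by positivity
  have h1 : T b (K - n) = T b K * (b : ℝ≥0∞)⁻¹ ^ n := by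
    unfold T
    rw [zpow_sub₀ hb0, zpow_natCast, div_eq_mul_inv, ← inv_pow]
    push_cast
    rw [ENNReal.coe_inv hb0]
  have h2 : (b : ℝ≥0∞)⁻¹ ^ n ≠ ⊤ := ENNReal.pow_ne_top (by simpa using hb0)
  rw [h1, ENNReal.mul_rpow_of_ne_top (T_ne_top b K) h2]
  congr 1
  rw [ENNReal.rpow_neg, ← ENNReal.inv_rpow, ← ENNReal.rpow_natCast, ← ENNReal.rpow_natCast,
    ← ENNReal.rpow_mul, ← ENNReal.rpow_mul, mul_comm]

theorem T_lt_iff {b : ℝ≥0} (hb : 1 < b) {j k : ℤ} : T b j < T b k ↔ j < k := by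
  unfold T
  rw [ENNReal.coe_lt_coe]
  exact zpow_lt_zpow_iff_right₀ hb

theorem T_le_iff {b : ℝ≥0} (hb : 1 < b) {j k : ℤ} : T b j ≤ T b k ↔ j ≤ k := by
  rw [← not_lt, T_lt_iff hb, not_lt]

theorem exists_T {b : ℝ≥0} (hb : 1 < b) {v : ℝ≥0∞} (hv : v ≠ 0) (hv' : v ≠ ⊤) :
    ∃ K : ℤ, T b K < v ∧ v ≤ T b (K + 1) := by
  lift v to ℝ≥0 using hv'
  have hv0 : (0 : ℝ) < v := by
    have : v ≠ 0 := by exact_mod_cast hv
    positivity
  obtain ⟨K, h1, h2⟩ := exists_mem_Ioc_zpow (x := (v : ℝ)) (y := (b : ℝ)) hv0 (by exact_mod_cast hb)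
  refine ⟨K, ?_, ?_⟩
  · unfold T; rw [ENNReal.coe_lt_coe]; exact_mod_cast h1
  · unfold T; rw [ENNReal.coe_le_coe]; exact_mod_cast h2

/-- geometric sums -/
theorem geom {b : ℝ≥0} (hb : 1 < b) {p : ℝ} (hp : 0 < p) : ∃ G : ℝ≥0, 0 < G ∧
    (∀ K : ℤ, ∑' n : ℕ, T b (K - n) ^ p = G * T b K ^ p) ∧
    ∀ v : ℝ≥0∞, ∑' k : ℤ, (if T b k < v then T b k ^ p else 0) ≤ G * v ^ p := by
  set q : ℝ≥0∞ := (b : ℝ≥0∞) ^ (-p) with hq
  have hq1 : q < 1 := by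
    rw [hq, ENNReal.rpow_neg]
    rw [ENNReal.inv_lt_one]
    exact ENNReal.one_lt_rpow (by exact_mod_cast hb) hp
  have hG1 : (1 - q)⁻¹ ≠ ⊤ := by
    rw [ENNReal.inv_ne_top]
    exact (tsub_pos_of_lt hq1).ne'
  have hG0 : (1 - q)⁻¹ ≠ 0 := by
    rw [ENNReal.inv_ne_zero]
    exact ENNReal.sub_ne_top (by norm_num)
  have hGcoe : (((1 - q)⁻¹).toNNReal : ℝ≥0∞) = (1 - q)⁻¹ := ENNReal.coe_toNNReal hG1
  have h1 : ∀ K : ℤ, ∑' n : ℕ, T b (K - n) ^ p = ((1 - q)⁻¹).toNNReal * T b K ^ p := by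
    intro K
    rw [hGcoe]
    simp_rw [T_sub hb K _ p]
    rw [ENNReal.tsum_mul_left, ENNReal.tsum_geometric, mul_comm]
  refine ⟨((1 - q)⁻¹).toNNReal, ENNReal.toNNReal_pos hG0 hG1, h1, fun v => ?_⟩
  rcases eq_or_ne v 0 with h0 | h0
  · subst h0; simp
  rcases eq_or_ne v ⊤ with ht | ht
  · subst ht
    rw [ENNReal.top_rpow_of_pos hp, ENNReal.mul_top (by rw [hGcoe]; exact hG0)]
    exact le_top
  obtain ⟨K, hK1, hK2⟩ := exists_T hb h0 ht
  rw [← tsum_int_eq K]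
  · calc ∑' n : ℕ, (if T b (K - n) < v then T b (K - n) ^ p else 0)
        ≤ ∑' n : ℕ, T b (K - n) ^ p := by
          apply ENNReal.tsum_le_tsum
          intro n
          split_ifs
          · exact le_rfl
          · exact zero_le
      _ = ((1 - q)⁻¹).toNNReal * T b K ^ p := h1 K
      _ ≤ ((1 - q)⁻¹).toNNReal * v ^ p := by
          gcongr
  · intro k hk
    rw [if_neg]
    rw [not_lt]
    exact hK2.trans ((T_le_iff hb).mpr (by omega))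

/-- absorbing recursion -/
theorem absorb {c e : ℤ → ℝ≥0∞} {A : ℝ≥0∞} (hrec : ∀ k, c (k + 1) ≤ 2⁻¹ * c k + A * e k)
    (hfin : ∀ K : ℤ, ∑' n : ℕ, c (K - n) ≠ ⊤) : ∑' k : ℤ, c k ≤ 2 * (A * ∑' k : ℤ, e k) := by
  apply tsum_int_le
  intro K
  set S := ∑' n : ℕ, c (K - n) with hS
  have h1 : S ≤ 2⁻¹ * S + A * ∑' k : ℤ, e k := by
    calc S ≤ ∑' n : ℕ, (2⁻¹ * c (K - ((n + 1 : ℕ) : ℤ)) + A * e (K - ((n + 1 : ℕ) : ℤ))) := by
          apply ENNReal.tsum_le_tsum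
          intro n
          have := hrec (K - ((n + 1 : ℕ) : ℤ))
          have e1 : K - ((n + 1 : ℕ) : ℤ) + 1 = K - n := by push_cast; ring
          rwa [e1] at this
      _ = 2⁻¹ * ∑' n : ℕ, c (K - ((n + 1 : ℕ) : ℤ)) + A * ∑' n : ℕ, e (K - ((n + 1 : ℕ) : ℤ)) := by
          rw [ENNReal.tsum_add, ENNReal.tsum_mul_left, ENNReal.tsum_mul_left]
      _ ≤ 2⁻¹ * S + A * ∑' k : ℤ, e k := by
          gcongr
          · exact ENNReal.tsum_comp_le_tsum_of_injective (f := fun n : ℕ => n + 1)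
              (add_left_injective 1) (fun n : ℕ => c (K - (n : ℤ)))
          · exact ENNReal.tsum_comp_le_tsum_of_injective
              (f := fun n : ℕ => K - ((n + 1 : ℕ) : ℤ))
              (fun m n h => by simp only at h; omega) e
  have h2 : S = 2⁻¹ * S + 2⁻¹ * S := by
    rw [← add_mul, ENNReal.inv_two_add_inv_two, one_mul]
  have h3 : 2⁻¹ * S ≠ ⊤ := ENNReal.mul_ne_top (by norm_num) (hfin K)
  have h4 : 2⁻¹ * S ≤ A * ∑' k : ℤ, e k := by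
    rw [← ENNReal.add_le_add_iff_left h3, ← h2]
    exact h1
  calc S = 2 * (2⁻¹ * S) := by
        rw [← mul_assoc, ENNReal.mul_inv_cancel (by norm_num) (by norm_num), one_mul]
    _ ≤ _ := by gcongr

end RV

namespace RV

/-- choice of the constants -/
theorem exists_constants (d : ℕ) {σ s : ℝ} (_hσ : 1 < σ) (hσs : σ < s) (C₀ N : ℝ≥0) :
    ∃ N₀ γ : ℝ≥0, 2 ^ d ≤ N₀ ∧ 1 < N₀ ∧ 0 < γ ∧ γ ≤ 1 ∧
      (N₀ * 2 ^ d) ^ σ * (5 ^ d * (64 ^ d * 2 * C₀ * γ * N₀⁻¹) +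
        5 ^ d * N * (4 * 64 ^ d * N₀⁻¹) ^ s) ≤ 2⁻¹ := by
  set c : ℝ := (2 ^ d) ^ σ * (5 ^ d * N * (4 * 64 ^ d) ^ s) with hc
  have h1 : Tendsto (fun x : ℝ => c * x ^ (-(s - σ))) atTop (𝓝 (c * 0)) :=
    (tendsto_rpow_neg_atTop (by linarith)).const_mul c
  rw [mul_zero] at h1
  obtain ⟨x, hx1, hx2, hx3⟩ := ((h1.eventually (gt_mem_nhds (show (0 : ℝ) < 1 / 4 by norm_num))).and
    ((eventually_ge_atTop ((2 : ℝ) ^ d)).and (eventually_gt_atTop (1 : ℝ)))).exists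
  have hx0 : 0 < x := by linarith
  set N₀ : ℝ≥0 := ⟨x, hx0.le⟩ with hN₀
  have hN₀x : (N₀ : ℝ) = x := rfl
  set c₁ : ℝ≥0 := (N₀ * 2 ^ d) ^ σ * (5 ^ d * (64 ^ d * 2 * C₀ * N₀⁻¹)) with hc₁
  refine ⟨N₀, min 1 (4 * (c₁ + 1))⁻¹, ?_, ?_, ?_, min_le_left _ _, ?_⟩
  · rw [← NNReal.coe_le_coe]; push_cast; exact hx2
  · rw [← NNReal.coe_lt_coe]; push_cast; exact hx3
  · exact lt_min one_pos (by positivity)
  · rw [mul_add]
    have e2 : (2⁻¹ : ℝ≥0) = 4⁻¹ + 4⁻¹ := by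
      rw [← NNReal.coe_inj]; push_cast; norm_num
    rw [e2]
    apply add_le_add
    · calc (N₀ * 2 ^ d) ^ σ * (5 ^ d * (64 ^ d * 2 * C₀ * min 1 (4 * (c₁ + 1))⁻¹ * N₀⁻¹))
          = c₁ * min 1 (4 * (c₁ + 1))⁻¹ := by rw [hc₁]; ring
        _ ≤ c₁ * (4 * (c₁ + 1))⁻¹ := by gcongr; exact min_le_right _ _
        _ ≤ (c₁ + 1) * (4 * (c₁ + 1))⁻¹ := by gcongr; exact le_add_of_nonneg_right zero_le_one
        _ = 4⁻¹ := by
            have : c₁ + 1 ≠ 0 := by positivity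
            field_simp
    · rw [← NNReal.coe_le_coe]
      push_cast
      rw [hN₀x]
      have hxs : (4 * 64 ^ d * x⁻¹) ^ s = (4 * 64 ^ d) ^ s * x ^ (-s) := by
        rw [Real.mul_rpow (by positivity) (by positivity), Real.inv_rpow hx0.le,
          Real.rpow_neg hx0.le]
      have hxσ : (x * 2 ^ d) ^ σ = x ^ σ * (2 ^ d) ^ σ :=
        Real.mul_rpow hx0.le (by positivity)
      have hsum : x ^ (-(s - σ)) = x ^ σ * x ^ (-s) := by
        rw [← Real.rpow_add hx0]; congr 1; ring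
      rw [hxs, hxσ]
      have : x ^ σ * (2 ^ d) ^ σ * (5 ^ d * (N : ℝ) * ((4 * 64 ^ d) ^ s * x ^ (-s))) =
          c * x ^ (-(s - σ)) := by
        rw [hsum, hc]; ring
      rw [this]
      have h4 : (1 : ℝ) / 4 = 4⁻¹ := by norm_num
      rw [h4] at hx1
      exact hx1.le

end RV

/-- TASK RV (Calderon-Zygmund / Shen type real variable theorem). -/
theorem rv {E : Type*} [NormedAddCommGroup E] [NormedSpace ℝ E] [FiniteDimensional ℝ E]
    [Nontrivial E] [MeasurableSpace E] [BorelSpace E] (μ : Measure E) [μ.IsAddHaarMeasure]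
    {σ s : ℝ} (hσ : 1 < σ) (hσs : σ < s) (C₀ N : ℝ≥0) :
    ∃ C : ℝ≥0, ∀ F h : E → ℝ≥0∞, Measurable F → Measurable h → ∫⁻ x, F x ∂μ ≠ ⊤ →
      (∀ (x : E) (r : ℝ), 0 < r → ∃ F₁ F₂ : E → ℝ≥0∞, Measurable F₁ ∧ Measurable F₂ ∧
        (∀ᵐ y ∂(μ.restrict (ball x r)), F y ≤ F₁ y + F₂ y) ∧
        ∫⁻ y, F₁ y ∂μ ≤ C₀ * ∫⁻ y in ball x (2 * r), h y ∂μ ∧
        ∫⁻ y in ball x r, F₂ y ^ s ∂μ ≤
          N * μ (ball x r) ^ (1 - s) * (∫⁻ y in ball x (2 * r), (F y + h y) ∂μ) ^ s) →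
      ∫⁻ x, F x ^ σ ∂μ ≤ C * ∫⁻ x, h x ^ σ ∂μ := by
  set d := finrank ℝ E with hd
  have hs : 1 < s := hσ.trans hσs
  have hσ0 : 0 < σ := by linarith
  obtain ⟨N₀, γ, hN₀2, hN₀1, hγ0, hγ1, hconst⟩ := RV.exists_constants d hσ hσs C₀ N
  set b : ℝ≥0 := N₀ * 2 ^ d with hb
  have hb1 : 1 < b := by
    rw [hb]
    have h2 : (1 : ℝ≥0) ≤ 2 ^ d := one_le_pow₀ (by norm_num)
    calc (1 : ℝ≥0) < N₀ := hN₀1
      _ = N₀ * 1 := by ring
      _ ≤ N₀ * 2 ^ d := by gcongr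
  obtain ⟨G, hG0, hG1, hG2⟩ := RV.geom hb1 (p := σ - 1) (by linarith)
  set κ : ℝ≥0 := γ / 2 with hκ
  have hκ0 : 0 < κ := by rw [hκ]; positivity
  refine ⟨b ^ σ * (2 * (b ^ σ * 5 ^ d * (5 ^ d * κ⁻¹ * (G * (κ⁻¹) ^ (σ - 1))))), ?_⟩
  intro F h hF hh hfin H
  have hb0' : (b : ℝ≥0∞) ≠ 0 := by
    have : b ≠ 0 := by positivity
    exact_mod_cast this
  have hT0 := RV.T_ne_zero hb1
  have hTt := RV.T_ne_top b
  have hN₀0 : N₀ ≠ 0 := by positivity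
  set ε : ℝ≥0∞ := 5 ^ d * (64 ^ d * 2 * C₀ * γ * (N₀ : ℝ≥0∞)⁻¹) +
    5 ^ d * N * (4 * 64 ^ d * (N₀ : ℝ≥0∞)⁻¹) ^ s with hε
  have hεb : (b : ℝ≥0∞) ^ σ * ε ≤ 2⁻¹ := by
    have h1 : ((b ^ σ * (5 ^ d * (64 ^ d * 2 * C₀ * γ * N₀⁻¹) +
        5 ^ d * N * (4 * 64 ^ d * N₀⁻¹) ^ s) : ℝ≥0) : ℝ≥0∞) ≤ ((2⁻¹ : ℝ≥0) : ℝ≥0∞) :=
      ENNReal.coe_le_coe.mpr hconst
    have h2 : ((2⁻¹ : ℝ≥0) : ℝ≥0∞) = 2⁻¹ := by
      rw [ENNReal.coe_inv (by norm_num)]; norm_num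
    rw [h2] at h1
    refine le_trans (le_of_eq ?_) h1
    rw [hε]
    push_cast
    rw [ENNReal.coe_rpow_of_nonneg _ hσ0.le, ENNReal.coe_rpow_of_nonneg _ (by linarith : 0 ≤ s)]
    push_cast
    rw [ENNReal.coe_inv hN₀0]
  -- one step
  have hstep : ∀ k : ℤ, μ (RV.Ms μ F (RV.T b (k + 1))) ≤
      ε * μ (RV.Ms μ F (RV.T b k)) + 5 ^ d * μ (RV.Ms μ h (γ * RV.T b k)) := by
    intro k
    have h2d : (2 : ℝ≥0∞) ^ d ≠ 0 := by positivity
    have h2d' : (2 : ℝ≥0∞) ^ d ≠ ⊤ := ENNReal.pow_ne_top (by norm_num)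
    have h3 := RV.good_lambda μ hs (C₀ := C₀) (N := N) (F := F) (h := h) hF hfin H
      (t := 2 ^ d * RV.T b k) (N₀ := N₀) (γ := γ) (mul_ne_zero h2d (hT0 k))
      (ENNReal.mul_ne_top h2d' (hTt k)) (by rw [← hd]; exact_mod_cast hN₀2) ENNReal.coe_ne_top
      (by exact_mod_cast hγ1)
    rw [← hd] at h3
    have e1 : (N₀ : ℝ≥0∞) * (2 ^ d * RV.T b k) = RV.T b (k + 1) := by
      rw [RV.T_succ hb1, hb]; push_cast; ring
    have e2 : ((2 : ℝ≥0∞) ^ d)⁻¹ * (2 ^ d * RV.T b k) = RV.T b k := by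
      rw [← mul_assoc, ENNReal.inv_mul_cancel h2d h2d', one_mul]
    rw [e1, e2] at h3
    refine h3.trans ?_
    gcongr
    apply RV.Ms_anti
    gcongr
    exact le_mul_of_one_le_left (zero_le) (one_le_pow₀ (by norm_num))
  set c : ℤ → ℝ≥0∞ := fun k => RV.T b k ^ σ * μ (RV.Ms μ F (RV.T b k)) with hc
  set e : ℤ → ℝ≥0∞ := fun k => RV.T b k ^ σ * μ (RV.Ms μ h (γ * RV.T b k)) with he
  have hrec : ∀ k, c (k + 1) ≤ 2⁻¹ * c k + (b : ℝ≥0∞) ^ σ * 5 ^ d * e k := by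
    intro k
    have hTs : RV.T b (k + 1) ^ σ = (b : ℝ≥0∞) ^ σ * RV.T b k ^ σ := by
      rw [RV.T_succ hb1, ENNReal.mul_rpow_of_nonneg _ _ hσ0.le]
    calc c (k + 1) = (b : ℝ≥0∞) ^ σ * RV.T b k ^ σ * μ (RV.Ms μ F (RV.T b (k + 1))) := by
          rw [hc]; simp only; rw [hTs]
      _ ≤ (b : ℝ≥0∞) ^ σ * RV.T b k ^ σ *
          (ε * μ (RV.Ms μ F (RV.T b k)) + 5 ^ d * μ (RV.Ms μ h (γ * RV.T b k))) := by
          gcongr; exact hstep k
      _ = ((b : ℝ≥0∞) ^ σ * ε) * c k + (b : ℝ≥0∞) ^ σ * 5 ^ d * e k := by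
          rw [hc, he]; simp only; ring
      _ ≤ _ := by gcongr
  have hsub1 : ∀ t : ℝ≥0∞, t ≠ 0 → t ≠ ⊤ → t ^ σ * t⁻¹ = t ^ (σ - 1) := by
    intro t h0 h1
    rw [ENNReal.rpow_sub _ _ h0 h1, ENNReal.rpow_one, div_eq_mul_inv]
  have hfinS : ∀ K : ℤ, ∑' n : ℕ, c (K - n) ≠ ⊤ := by
    intro K
    have h1 : ∑' n : ℕ, c (K - n) ≤ ∑' n : ℕ, (5 ^ d * ∫⁻ x, F x ∂μ) * RV.T b (K - n) ^ (σ - 1) := by
      apply ENNReal.tsum_le_tsum
      intro n
      calc c (K - n) ≤ RV.T b (K - n) ^ σ * (5 ^ d * (RV.T b (K - n))⁻¹ * ∫⁻ x, F x ∂μ) := by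
            rw [hc]; simp only
            gcongr
            exact RV.weak11 μ F (hT0 _) (hTt _)
        _ = (5 ^ d * ∫⁻ x, F x ∂μ) * (RV.T b (K - n) ^ σ * (RV.T b (K - n))⁻¹) := by ring
        _ = _ := by rw [hsub1 _ (hT0 _) (hTt _)]
    refine ne_top_of_le_ne_top ?_ h1
    rw [ENNReal.tsum_mul_left, hG1]
    refine ENNReal.mul_ne_top (ENNReal.mul_ne_top (ENNReal.pow_ne_top (by norm_num)) hfin)
      (ENNReal.mul_ne_top ENNReal.coe_ne_top ?_)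
    exact ENNReal.rpow_ne_top_of_nonneg (by linarith) (hTt K)
  have hmain := RV.absorb hrec hfinS
  -- bound on the sum of `e`
  have hκ0' : (κ : ℝ≥0∞) ≠ 0 := by exact_mod_cast hκ0.ne'
  have hE : ∑' k : ℤ, e k ≤ 5 ^ d * (κ : ℝ≥0∞)⁻¹ *
      ((G : ℝ≥0∞) * ((κ : ℝ≥0∞)⁻¹) ^ (σ - 1)) * ∫⁻ x, h x ^ σ ∂μ := by
    have hek : ∀ k : ℤ, e k ≤ 5 ^ d * (κ : ℝ≥0∞)⁻¹ *
        ∫⁻ x, (if RV.T b k < (κ : ℝ≥0∞)⁻¹ * h x then RV.T b k ^ (σ - 1) else 0) * h x ∂μ := by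
      intro k
      have hγT0 : (γ : ℝ≥0∞) * RV.T b k ≠ 0 :=
        mul_ne_zero (by exact_mod_cast hγ0.ne') (hT0 k)
      have hγTt : (γ : ℝ≥0∞) * RV.T b k ≠ ⊤ := ENNReal.mul_ne_top ENNReal.coe_ne_top (hTt k)
      have h1 := RV.weak11' μ hh hγT0 hγTt
      have h2 : (γ : ℝ≥0∞) * RV.T b k / 2 = κ * RV.T b k := by
        rw [hκ, ENNReal.coe_div (by norm_num), ENNReal.div_eq_inv_mul, ENNReal.div_eq_inv_mul]
        push_cast; ring
      rw [h2, ← hd] at h1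
      set S : Set E := {x | (κ : ℝ≥0∞) * RV.T b k < h x} with hS
      have hSm : MeasurableSet S := measurableSet_lt measurable_const hh
      have hS' : ∀ x, x ∈ S ↔ RV.T b k < (κ : ℝ≥0∞)⁻¹ * h x := by
        intro x
        rw [hS, mem_ofPred_eq, mul_comm, ← ENNReal.div_eq_inv_mul, ENNReal.lt_div_iff_mul_lt
          (Or.inl hκ0') (Or.inl ENNReal.coe_ne_top)]
      calc e k ≤ RV.T b k ^ σ * (5 ^ d * ((κ : ℝ≥0∞) * RV.T b k)⁻¹ * ∫⁻ x in S, h x ∂μ) := by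
            rw [he]; simp only; gcongr
        _ = 5 ^ d * (κ : ℝ≥0∞)⁻¹ * (RV.T b k ^ (σ - 1) * ∫⁻ x in S, h x ∂μ) := by
            rw [ENNReal.mul_inv (Or.inl hκ0') (Or.inl ENNReal.coe_ne_top),
              ← hsub1 _ (hT0 k) (hTt k)]
            ring
        _ = _ := by
            congr 1
            rw [← lintegral_const_mul _ hh, ← lintegral_indicator hSm]
            congr 1
            ext x
            by_cases hx : x ∈ S
            · rw [indicator_of_mem hx, if_pos ((hS' x).mp hx)]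
            · rw [indicator_of_notMem hx, if_neg (fun h => hx ((hS' x).mpr h)), zero_mul]
    calc ∑' k : ℤ, e k ≤ ∑' k : ℤ, 5 ^ d * (κ : ℝ≥0∞)⁻¹ *
        ∫⁻ x, (if RV.T b k < (κ : ℝ≥0∞)⁻¹ * h x then RV.T b k ^ (σ - 1) else 0) * h x ∂μ :=
          ENNReal.tsum_le_tsum hek
      _ = 5 ^ d * (κ : ℝ≥0∞)⁻¹ * ∫⁻ x, ∑' k : ℤ,
          (if RV.T b k < (κ : ℝ≥0∞)⁻¹ * h x then RV.T b k ^ (σ - 1) else 0) * h x ∂μ := by
          rw [ENNReal.tsum_mul_left, lintegral_tsum]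
          intro k
          refine AEMeasurable.mul ?_ hh.aemeasurable
          refine (Measurable.ite ?_ measurable_const measurable_const).aemeasurable
          exact measurableSet_lt measurable_const (hh.const_mul _)
      _ ≤ 5 ^ d * (κ : ℝ≥0∞)⁻¹ * ∫⁻ x, ((G : ℝ≥0∞) * ((κ : ℝ≥0∞)⁻¹) ^ (σ - 1)) * h x ^ σ ∂μ := by
          gcongr with x
          rw [ENNReal.tsum_mul_right]
          calc _ ≤ (G * ((κ : ℝ≥0∞)⁻¹ * h x) ^ (σ - 1)) * h x := by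
                gcongr; exact hG2 _
            _ = (G * ((κ : ℝ≥0∞)⁻¹) ^ (σ - 1)) * (h x ^ (σ - 1) * h x) := by
                rw [ENNReal.mul_rpow_of_nonneg _ _ (by linarith)]; ring
            _ = _ := by
                congr 1
                rcases eq_or_ne (h x) 0 with h0 | h0
                · rw [h0]; simp [hσ0, ENNReal.zero_rpow_of_pos]
                rcases eq_or_ne (h x) ⊤ with h0' | h0'
                · rw [h0', ENNReal.top_rpow_of_pos hσ0, ENNReal.mul_top]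
                  rw [ENNReal.top_rpow_of_pos (by linarith)]; exact ENNReal.top_ne_zero
                · conv_rhs => rw [show σ = (σ - 1) + 1 by ring]
                  rw [ENNReal.rpow_add _ _ h0 h0', ENNReal.rpow_one]
      _ = _ := by
          rw [lintegral_const_mul _ (hh.pow_const _)]; ring
  -- final
  have hFσ : ∫⁻ x, F x ^ σ ∂μ ≤ (b : ℝ≥0∞) ^ σ * ∑' k : ℤ, c k := by
    have hpt : ∀ᵐ x ∂μ, F x ^ σ ≤
        ∑' k : ℤ, (if RV.T b k < F x then RV.T b (k + 1) ^ σ else 0) := by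
      filter_upwards [ae_lt_top hF hfin] with x hx
      rcases eq_or_ne (F x) 0 with h0 | h0
      · rw [h0, ENNReal.zero_rpow_of_pos hσ0]; exact zero_le
      obtain ⟨K, hK1, hK2⟩ := RV.exists_T hb1 h0 hx.ne
      calc F x ^ σ ≤ RV.T b (K + 1) ^ σ := ENNReal.rpow_le_rpow hK2 hσ0.le
        _ = (if RV.T b K < F x then RV.T b (K + 1) ^ σ else 0) := by rw [if_pos hK1]
        _ ≤ _ := ENNReal.le_tsum K
    calc ∫⁻ x, F x ^ σ ∂μ ≤ ∫⁻ x, ∑' k : ℤ, (if RV.T b k < F x then RV.T b (k + 1) ^ σ else 0) ∂μ :=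
          lintegral_mono_ae hpt
      _ = ∑' k : ℤ, ∫⁻ x, (if RV.T b k < F x then RV.T b (k + 1) ^ σ else 0) ∂μ := by
          rw [lintegral_tsum]
          intro k
          refine (Measurable.ite ?_ measurable_const measurable_const).aemeasurable
          exact measurableSet_lt measurable_const hF
      _ ≤ ∑' k : ℤ, (b : ℝ≥0∞) ^ σ * c k := by
          apply ENNReal.tsum_le_tsum
          intro k
          set S : Set E := {x | RV.T b k < F x} with hS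
          have hSm : MeasurableSet S := measurableSet_lt measurable_const hF
          have h1 : ∫⁻ x, (if RV.T b k < F x then RV.T b (k + 1) ^ σ else 0) ∂μ =
              RV.T b (k + 1) ^ σ * μ S := by
            rw [← lintegral_indicator_const hSm]
            congr 1
            ext x
            by_cases hx : RV.T b k < F x
            · rw [if_pos hx, indicator_of_mem (show x ∈ S from hx)]
            · rw [if_neg hx, indicator_of_notMem (show x ∉ S from hx)]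
          rw [h1, RV.T_succ hb1, ENNReal.mul_rpow_of_nonneg _ _ hσ0.le, mul_assoc]
          rw [hc]
          refine mul_le_mul' le_rfl (mul_le_mul' le_rfl ?_)
          apply measure_mono_ae
          filter_upwards [RV.ae_mem_Ms μ hF hfin] with x hx hxS
          exact hx _ hxS
      _ = _ := by rw [ENNReal.tsum_mul_left]
  calc ∫⁻ x, F x ^ σ ∂μ ≤ (b : ℝ≥0∞) ^ σ * ∑' k : ℤ, c k := hFσ
    _ ≤ (b : ℝ≥0∞) ^ σ * (2 * ((b : ℝ≥0∞) ^ σ * 5 ^ d * (5 ^ d * (κ : ℝ≥0∞)⁻¹ *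
      ((G : ℝ≥0∞) * ((κ : ℝ≥0∞)⁻¹) ^ (σ - 1)) * ∫⁻ x, h x ^ σ ∂μ))) := by
        gcongr
        exact hmain.trans (by gcongr)
    _ = _ := by
        push_cast
        rw [ENNReal.coe_rpow_of_nonneg _ hσ0.le, ENNReal.coe_rpow_of_nonneg _ (by linarith),
          ENNReal.coe_inv hκ0.ne']
        ring

end Pool.Agent.Lib.MP_a73848
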