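import Mathlib
import Pool.Agent.Lib.MP_a73848.Base
import Pool.Agent.Lib.MP_a73848.Defs
import Pool.Agent.Lib.MP_a73848.Grad

/-!
# MP_a73848_an, Task H, part 1: mollification
-/

set_option autoImplicit false

open MeasureTheory Metric Filter Topology Set
open scoped ContDiff ENNReal NNReal Convolution

namespace Pool.Agent.Lib.MP_a73848

namespace TH

variable {E : Type*} [NormedAddCommGroup E] [InnerProductSpace ℝ E] [FiniteDimensional ℝ E]
  [MeasurableSpace E] [BorelSpace E]

variable {X : Type*} [NormedAddCommGroup X] [NormedSpace ℝ X] [CompleteSpace X]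

/-- `v` has weak gradient `G` on the whole space. -/
structure WG (v : E → ℝ) (G : E → E) : Prop where
  memLp : MemLp v 2 volume
  memLp_grad : MemLp G 2 volume
  weak : ∀ φ, Test φ → ∫ x, v x • gr φ x = - ∫ x, φ x • G x

/-- convolution with a real kernel -/
noncomputable def cv (ρ : E → ℝ) (F : E → X) (x : E) : X := ∫ t, ρ t • F (x - t)

omit [CompleteSpace X] in
theorem cv_eq (ρ : E → ℝ) (F : E → X) :
    cv ρ F = (ρ ⋆[ContinuousLinearMap.lsmul ℝ ℝ, volume] F) := rfl

omit [CompleteSpace X] in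
theorem cv_swap (ρ : E → ℝ) (F : E → X) (x : E) : cv ρ F x = ∫ y, ρ (x - y) • F y := by
  rw [cv_eq, convolution_eq_swap]
  rfl

theorem memLp_locInt {F : E → X} (h : MemLp F 2 volume) : LocallyIntegrable F volume :=
  h.locallyIntegrable (by norm_num)

theorem cv_smooth {ρ v : E → ℝ} (hρ : Test ρ) (hv : LocallyIntegrable v volume) :
    ContDiff ℝ ∞ (cv ρ v) := by
  rw [cv_eq]
  exact hρ.compact.contDiff_convolution_left _ hρ.smooth hv

theorem cv_integrable {ρ : E → ℝ} {F : E → X} (hρ : Test ρ) (hF : LocallyIntegrable F volume)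
    (x : E) : Integrable (fun t => ρ t • F (x - t)) :=
  (hρ.compact.convolutionExists_left (ContinuousLinearMap.lsmul ℝ ℝ) (μ := volume)
    hρ.smooth.continuous hF) x

theorem integrable_smul_gr {v φ : E → ℝ} (hv : LocallyIntegrable v volume) (hφ : Test φ) :
    Integrable (fun x => v x • gr φ x) := by
  have h := hv.integrable_smul_right_of_hasCompactSupport (𝕜 := ℝ) hφ.gr_continuous hφ.gr_compact
  exact h

theorem integrable_test_smul {φ : E → ℝ} {G : E → X} (hG : LocallyIntegrable G volume)
    (hφ : Test φ) : Integrable (fun x => φ x • G x) := by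
  exact hG.integrable_smul_left_of_hasCompactSupport hφ.smooth.continuous hφ.compact

theorem gr_cv {ρ v : E → ℝ} {G : E → E} (hρ : Test ρ) (h : WG v G) (x : E) :
    gr (cv ρ v) x = cv ρ G x := by
  have hv := memLp_locInt h.memLp
  have hG := memLp_locInt h.memLp_grad
  have hT : Test (fun y => ρ (x - y)) :=
    ⟨hρ.smooth.comp (contDiff_const.sub contDiff_id),
      hρ.compact.comp_homeomorph (Homeomorph.subLeft x)⟩
  have hd := hρ.compact.hasFDerivAt_convolution_left (μ := volume)
    (ContinuousLinearMap.lsmul ℝ ℝ) (hρ.smooth.of_le (by simp)) hv x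
  refine ext_inner_right ℝ fun e => ?_
  rw [inner_gr, cv_eq, hd.fderiv]
  have hc' : HasCompactSupport (fderiv ℝ ρ) := hρ.compact.fderiv (𝕜 := ℝ)
  have hex := (hc'.convolutionExists_left
    (ContinuousLinearMap.precompL E (ContinuousLinearMap.lsmul ℝ ℝ)) (μ := volume)
    (hρ.smooth.continuous_fderiv (by simp)) hv) x
  have e1 : (convolution (fderiv ℝ ρ) v
      (ContinuousLinearMap.precompL E (ContinuousLinearMap.lsmul ℝ ℝ)) volume x) e
      = ∫ t, ((ContinuousLinearMap.precompL E (ContinuousLinearMap.lsmul ℝ ℝ)) (fderiv ℝ ρ t)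
        (v (x - t))) e := by
    rw [convolution_def]
    exact ContinuousLinearMap.integral_apply hex e
  rw [e1]
  have e2 : ∫ t, ((ContinuousLinearMap.precompL E (ContinuousLinearMap.lsmul ℝ ℝ)) (fderiv ℝ ρ t)
        (v (x - t))) e = ∫ y, (fderiv ℝ ρ (x - y) e) * v y := by
    rw [← integral_sub_left_eq_self _ volume x]
    congr 1
    ext y
    simp [ContinuousLinearMap.precompL_apply]
  rw [e2]
  have e3 : ∀ y, inner ℝ (v y • gr (fun y => ρ (x - y)) y) e = - ((fderiv ℝ ρ (x - y) e) * v y) := by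
    intro y
    rw [inner_smul_left, inner_gr]
    have : fderiv ℝ (fun y => ρ (x - y)) y = - fderiv ℝ ρ (x - y) := by
      have h1 : HasFDerivAt (fun y : E => x - y) (-(ContinuousLinearMap.id ℝ E)) y :=
        (hasFDerivAt_id y).const_sub x
      have h2 := (hρ.differentiable (x - y)).hasFDerivAt.comp y h1
      rw [show (fun y => ρ (x - y)) = ρ ∘ (fun y : E => x - y) from rfl, h2.fderiv]
      ext w
      simp
    rw [this]
    simp
    ring
  have e4 : ∫ y, (fderiv ℝ ρ (x - y) e) * v y
      = - ∫ y, inner ℝ (v y • gr (fun y => ρ (x - y)) y) e := by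
    simp_rw [e3]
    rw [integral_neg, neg_neg]
  rw [e4]
  have e5 : ∫ y, inner ℝ (v y • gr (fun y => ρ (x - y)) y) e
      = inner ℝ (∫ y, v y • gr (fun y => ρ (x - y)) y) e := by
    simp_rw [real_inner_comm e]
    exact integral_inner (integrable_smul_gr hv hT) e
  rw [e5, h.weak _ hT, inner_neg_left, neg_neg]
  have e6 : (ρ ⋆[ContinuousLinearMap.lsmul ℝ ℝ, volume] G) x = cv ρ G x := rfl
  rw [cv_swap]

end TH

end Pool.Agent.Lib.MP_a73848
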