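import Mathlib
import Pool.Agent.Lib.MP_a73848.TaskH1

/-!
# MP_a73848_an, Task H, part 2: convergence of mollifications in `L²`
-/

set_option autoImplicit false
set_option linter.unusedSectionVars false

open MeasureTheory Metric Filter Topology Set
open scoped ContDiff ENNReal NNReal Convolution

namespace Pool.Agent.Lib.MP_a73848

namespace TH

variable {E : Type*} [NormedAddCommGroup E] [InnerProductSpace ℝ E] [FiniteDimensional ℝ E]
  [MeasurableSpace E] [BorelSpace E]

variable {X : Type*} [NormedAddCommGroup X] [NormedSpace ℝ X] [CompleteSpace X]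

/-- translations are continuous in `L²` -/
theorem translation_L2 {F : E → X} (hF : MemLp F 2 volume) {ε : ℝ≥0∞} (hε : 0 < ε) :
    ∃ δ > 0, ∀ h : E, ‖h‖ < δ → eLpNorm (fun x => F (x - h) - F x) 2 volume ≤ ε := by
  let gm : E → C(E, E) := fun h => ⟨fun x => x - h, continuous_id.sub continuous_const⟩
  have hgm : Continuous gm := by
    apply ContinuousMap.continuous_of_continuous_uncurry
    exact continuous_snd.sub continuous_fst
  have hmp : ∀ h, MeasurePreserving (gm h) volume volume := fun h =>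
    measurePreserving_sub_right volume h
  have hcont : Continuous (fun h : E => Lp.compMeasurePreserving (gm h) (hmp h) (hF.toLp F)) :=
    continuous_const.compMeasurePreservingLp hgm hmp (by norm_num)
  have h0 := (EMetric.tendsto_nhds.1 (hcont.tendsto 0)) ε hε
  rw [Metric.eventually_nhds_iff] at h0
  obtain ⟨δ, hδ, h1⟩ := h0
  refine ⟨δ, hδ, fun h hh => ?_⟩
  have h2 := h1 (y := h) (by simpa using hh)
  refine le_trans (le_of_eq ?_) h2.le
  rw [Lp.edist_def]
  apply eLpNorm_congr_ae
  have a1 := Lp.coeFn_compMeasurePreserving (hF.toLp F) (hmp h)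
  have a2 := Lp.coeFn_compMeasurePreserving (hF.toLp F) (hmp 0)
  have a3 := (hmp h).quasiMeasurePreserving.ae_eq_comp (MemLp.coeFn_toLp hF)
  have a4 := (hmp 0).quasiMeasurePreserving.ae_eq_comp (MemLp.coeFn_toLp hF)
  filter_upwards [a1, a2, a3, a4] with x b1 b2 b3 b4
  rw [Pi.sub_apply, b1, b2]
  rw [b3, b4]
  simp [gm]

theorem holder22 {α : Type*} [MeasurableSpace α] {μ : Measure α} {f g : α → ℝ≥0∞}
    (hf : AEMeasurable f μ) (hg : AEMeasurable g μ) :
    (∫⁻ a, f a * g a ∂μ) ^ 2 ≤ (∫⁻ a, f a ^ 2 ∂μ) * (∫⁻ a, g a ^ 2 ∂μ) := by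
  have hpq : (2 : ℝ).HolderConjugate 2 := by
    rw [Real.holderConjugate_iff]; norm_num
  have h := ENNReal.lintegral_mul_le_Lp_mul_Lq μ hpq hf hg
  simp only [ENNReal.rpow_two, Pi.mul_apply] at h
  calc (∫⁻ a, f a * g a ∂μ) ^ 2
      ≤ ((∫⁻ a, f a ^ 2 ∂μ) ^ (1 / 2 : ℝ) * (∫⁻ a, g a ^ 2 ∂μ) ^ (1 / 2 : ℝ)) ^ 2 := by gcongr
    _ = _ := by
      rw [mul_pow, ← ENNReal.rpow_two, ← ENNReal.rpow_two, ← ENNReal.rpow_mul, ← ENNReal.rpow_mul]
      norm_num

theorem eLpNorm_two_sq {α : Type*} [MeasurableSpace α] {μ : Measure α} {Y : Type*}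
    [NormedAddCommGroup Y] (f : α → Y) :
    eLpNorm f 2 μ ^ 2 = ∫⁻ a, ‖f a‖ₑ ^ 2 ∂μ := by
  rw [eLpNorm_eq_lintegral_rpow_enorm_toReal (by norm_num) (by norm_num)]
  rw [← ENNReal.rpow_natCast, ← ENNReal.rpow_mul]
  norm_num

theorem bump_lint (b : ContDiffBump (0 : E)) :
    ∫⁻ t, ENNReal.ofReal (b.normed volume t) = 1 := by
  rw [← ofReal_integral_eq_lintegral_ofReal b.integrable_normed
    (Eventually.of_forall fun t => b.nonneg_normed t), b.integral_normed]
  simp

theorem bump_test (b : ContDiffBump (0 : E)) : Test (b.normed volume) :=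
  ⟨b.contDiff_normed, b.hasCompactSupport_normed⟩

/-- pointwise Jensen inequality -/
theorem jensen_pt (b : ContDiffBump (0 : E)) {F : E → X} (hF : StronglyMeasurable F)
    (hF2 : LocallyIntegrable F volume) (x : E) :
    ‖cv (b.normed volume) F x - F x‖ₑ ^ 2 ≤
      ∫⁻ t, ENNReal.ofReal (b.normed volume t) * ‖F (x - t) - F x‖ₑ ^ 2 := by
  have e1 : cv (b.normed volume) F x - F x = ∫ t, b.normed volume t • (F (x - t) - F x) := by
    simp_rw [smul_sub]
    rw [integral_sub (cv_integrable (bump_test b) hF2 x) (b.integrable_normed.smul_const _),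
      b.integral_normed_smul]
    rfl
  rw [e1]
  have e2 : ‖∫ t, b.normed volume t • (F (x - t) - F x)‖ₑ ≤
      ∫⁻ t, ENNReal.ofReal (b.normed volume t) * ‖F (x - t) - F x‖ₑ := by
    refine (enorm_integral_le_lintegral_enorm _).trans (le_of_eq ?_)
    congr 1
    ext t
    rw [enorm_smul, Real.enorm_eq_ofReal (b.nonneg_normed t)]
  have hm1 : Measurable fun t => ENNReal.ofReal (b.normed volume t) :=
    b.continuous_normed.measurable.ennreal_ofReal
  have hm2 : Measurable fun t => ‖F (x - t) - F x‖ₑ :=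
    ((hF.comp_measurable (measurable_const.sub measurable_id)).sub
      stronglyMeasurable_const).enorm
  calc ‖∫ t, b.normed volume t • (F (x - t) - F x)‖ₑ ^ 2
      ≤ (∫⁻ t, ENNReal.ofReal (b.normed volume t) * ‖F (x - t) - F x‖ₑ) ^ 2 := by gcongr
    _ = (∫⁻ t, 1 * ‖F (x - t) - F x‖ₑ ∂(volume.withDensity
          fun t => ENNReal.ofReal (b.normed volume t))) ^ 2 := by
        simp only [one_mul]
        rw [lintegral_withDensity_eq_lintegral_mul _ hm1 hm2]
        rfl
    _ ≤ _ := holder22 aemeasurable_const hm2.aemeasurable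
    _ = _ := by
        rw [lintegral_withDensity_eq_lintegral_mul _ hm1 (hm2.pow_const 2)]
        simp only [one_pow, lintegral_const, one_mul, Pi.mul_apply]
        rw [withDensity_apply _ MeasurableSet.univ, Measure.restrict_univ, bump_lint, one_mul]

theorem moll_L2_sm (b : ContDiffBump (0 : E)) {F : E → X} (hF : StronglyMeasurable F)
    (hF2 : LocallyIntegrable F volume) {ε : ℝ≥0∞}
    (h : ∀ h : E, ‖h‖ < b.rOut → eLpNorm (fun x => F (x - h) - F x) 2 volume ≤ ε) :
    eLpNorm (cv (b.normed volume) F - F) 2 volume ≤ ε := by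
  have key : eLpNorm (cv (b.normed volume) F - F) 2 volume ^ 2 ≤ ε ^ 2 := by
    rw [eLpNorm_two_sq]
    have hm1 : Measurable fun t => ENNReal.ofReal (b.normed volume t) :=
      b.continuous_normed.measurable.ennreal_ofReal
    calc ∫⁻ x, ‖(cv (b.normed volume) F - F) x‖ₑ ^ 2
        ≤ ∫⁻ x, ∫⁻ t, ENNReal.ofReal (b.normed volume t) * ‖F (x - t) - F x‖ₑ ^ 2 :=
          lintegral_mono fun x => jensen_pt b hF hF2 x
      _ = ∫⁻ t, ∫⁻ x, ENNReal.ofReal (b.normed volume t) * ‖F (x - t) - F x‖ₑ ^ 2 := by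
          apply lintegral_lintegral_swap
          apply Measurable.aemeasurable
          apply Measurable.mul (hm1.comp measurable_snd)
          apply Measurable.pow_const
          exact ((hF.comp_measurable (measurable_fst.sub measurable_snd)).sub
            (hF.comp_measurable measurable_fst)).enorm
      _ ≤ ∫⁻ t, ENNReal.ofReal (b.normed volume t) * ε ^ 2 := by
          refine lintegral_mono fun t => ?_
          rw [lintegral_const_mul']
          swap
          · exact ENNReal.ofReal_ne_top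
          by_cases ht : ‖t‖ < b.rOut
          · gcongr
            have := h t ht
            rw [← eLpNorm_two_sq (fun x => F (x - t) - F x)]
            gcongr
          · have : b.normed volume t = 0 := by
              by_contra hc
              have h2 : t ∈ Function.support (b.normed volume) := hc
              rw [b.support_normed_eq] at h2
              exact ht (by simpa using h2)
            simp [this]
      _ = ε ^ 2 := by
          rw [lintegral_mul_const _ hm1, bump_lint, one_mul]
  exact (ENNReal.pow_le_pow_left_iff (by norm_num)).1 key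

theorem cv_congr {ρ : E → ℝ} {F F' : E → X} (h : F =ᵐ[volume] F') (x : E) :
    cv ρ F x = cv ρ F' x := by
  rw [cv_swap, cv_swap]
  apply integral_congr_ae
  filter_upwards [h] with y hy
  rw [hy]

/-- convergence of mollifications in `L²` -/
theorem moll_L2 {F : E → X} (hF : MemLp F 2 volume) {ε : ℝ≥0∞} (hε : 0 < ε) :
    ∃ δ > 0, ∀ b : ContDiffBump (0 : E), b.rOut < δ →
      eLpNorm (cv (b.normed volume) F - F) 2 volume ≤ ε := by
  obtain ⟨F', hF', hFF'⟩ := hF.aestronglyMeasurable
  have hF2 : MemLp F' 2 volume := hF.ae_eq hFF'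
  obtain ⟨δ, hδ, h⟩ := translation_L2 hF2 hε
  refine ⟨δ, hδ, fun b hb => ?_⟩
  have := moll_L2_sm b hF' (memLp_locInt hF2) (fun t ht => h t (ht.trans hb))
  refine le_trans (le_of_eq ?_) this
  apply eLpNorm_congr_ae
  filter_upwards [hFF'] with x hx
  simp only [Pi.sub_apply]
  rw [cv_congr hFF', hx]

/-- gradient fields of functions with compact support are in `V` -/
theorem WG.inV {v : E → ℝ} {G : E → E} (h : WG v G) (hc : HasCompactSupport v) : InV G := by
  refine ⟨h.memLp_grad, fun ε hε => ?_⟩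
  obtain ⟨δ, hδ, h1⟩ := moll_L2 h.memLp_grad hε
  let b : ContDiffBump (0 : E) := ⟨δ / 4, δ / 2, by positivity, by linarith⟩
  refine ⟨cv (b.normed volume) v, ⟨cv_smooth (bump_test b) (memLp_locInt h.memLp), ?_⟩, ?_⟩
  · rw [cv_eq]
    exact (bump_test b).compact.convolution _ hc
  · have h2 := h1 b (show δ / 2 < δ by linarith)
    rw [← eLpNorm_neg, neg_sub]
    refine le_trans (le_of_eq ?_) h2
    congr 1
    ext1 x
    simp only [Pi.sub_apply]
    rw [gr_cv (bump_test b) h]

end TH

end Pool.Agent.Lib.MP_a73848
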