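import Mathlib
import Pool.Agent.Lib.MP_a73848.TaskH2

/-!
# MP_a73848_an, Task H, part 3: cutoff and Caccioppoli inequality
-/

set_option autoImplicit false
set_option linter.unusedSectionVars false

open MeasureTheory Metric Filter Topology Set
open scoped ContDiff ENNReal NNReal Convolution

namespace Pool.Agent.Lib.MP_a73848

namespace TH

section general

variable {α : Type*} [MeasurableSpace α] {μ : Measure α}
variable {E : Type*} [NormedAddCommGroup E] [InnerProductSpace ℝ E]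

theorem int_inner {f h : α → E} (hf : MemLp f 2 μ) (hh : MemLp h 2 μ) :
    Integrable (fun x => inner ℝ (f x) (h x)) μ := by
  have h1 : Integrable (fun x => ‖f x‖ * ‖h x‖) μ := hf.norm.integrable_mul hh.norm
  refine h1.mono' (hf.aestronglyMeasurable.inner hh.aestronglyMeasurable) ?_
  exact Eventually.of_forall fun x => norm_inner_le_norm _ _

theorem enorm_int_inner {f h : α → E} (hf : MemLp f 2 μ) (hh : MemLp h 2 μ) :
    ‖∫ x, inner ℝ (f x) (h x) ∂μ‖ₑ ≤ eLpNorm f 2 μ * eLpNorm h 2 μ := by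
  have h2 : (‖∫ x, inner ℝ (f x) (h x) ∂μ‖ₑ) ^ 2 ≤ (eLpNorm f 2 μ * eLpNorm h 2 μ) ^ 2 := by
    rw [mul_pow, eLpNorm_two_sq, eLpNorm_two_sq]
    refine le_trans ?_ (holder22 hf.aestronglyMeasurable.enorm hh.aestronglyMeasurable.enorm)
    gcongr
    refine (enorm_integral_le_lintegral_enorm _).trans (lintegral_mono fun x => ?_)
    have h3 := norm_inner_le_norm (𝕜 := ℝ) (f x) (h x)
    rw [← ofReal_norm, ← ofReal_norm, ← ofReal_norm, ← ENNReal.ofReal_mul (norm_nonneg _)]
    exact ENNReal.ofReal_le_ofReal h3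
  exact (ENNReal.pow_le_pow_left_iff (by norm_num)).1 h2

/-- passing to the limit in an orthogonality relation -/
theorem inner_int_zero {f Ψ : α → E} (hf : MemLp f 2 μ) (hΨ : MemLp Ψ 2 μ)
    (h : ∀ ε : ℝ≥0∞, 0 < ε → ∃ k : α → E, MemLp k 2 μ ∧ ∫ x, inner ℝ (f x) (k x) ∂μ = 0 ∧
      eLpNorm (k - Ψ) 2 μ ≤ ε) : ∫ x, inner ℝ (f x) (Ψ x) ∂μ = 0 := by
  have key : ∀ ε : ℝ≥0∞, 0 < ε → ‖∫ x, inner ℝ (f x) (Ψ x) ∂μ‖ₑ ≤ eLpNorm f 2 μ * ε := by
    intro ε hε
    obtain ⟨k, hk, h1, h2⟩ := h ε hε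
    have e : ∫ x, inner ℝ (f x) ((k - Ψ) x) ∂μ = - ∫ x, inner ℝ (f x) (Ψ x) ∂μ := by
      simp only [Pi.sub_apply, inner_sub_right]
      rw [integral_sub (int_inner hf hk) (int_inner hf hΨ), h1, zero_sub]
    have h3 := enorm_int_inner hf (hk.sub hΨ)
    rw [e, enorm_neg] at h3
    exact h3.trans (by gcongr)
  have hA : eLpNorm f 2 μ ≠ ⊤ := hf.eLpNorm_ne_top
  have hlim : Tendsto (fun ε : ℝ≥0∞ => eLpNorm f 2 μ * ε) (𝓝[>] 0) (𝓝 (eLpNorm f 2 μ * 0)) := by
    apply Tendsto.mono_left _ nhdsWithin_le_nhds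
    exact ENNReal.Tendsto.const_mul tendsto_id (Or.inr hA)
  have h0 : ‖∫ x, inner ℝ (f x) (Ψ x) ∂μ‖ₑ ≤ eLpNorm f 2 μ * 0 :=
    ge_of_tendsto hlim (eventually_nhdsWithin_of_forall fun ε hε => key ε hε)
  simpa using h0

end general

variable {d : ℕ}

theorem gr_apply (φ : Rd d → ℝ) (x : Rd d) (i : Fin d) : gr φ x i = pd i φ x := by
  have h := inner_gr φ x (EuclideanSpace.single i 1)
  rw [EuclideanSpace.inner_single_right] at h
  simpa [pd] using h

theorem integral_apply' {μ : Measure (Rd d)} {F : Rd d → Rd d} (hF : Integrable F μ) (i : Fin d) :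
    (∫ x, F x ∂μ) i = ∫ x, F x i ∂μ := by
  have h := (EuclideanSpace.proj i : Rd d →L[ℝ] ℝ).integral_comp_comm hF
  simpa using h.symm

theorem TestIn.toTest {φ : Rd d → ℝ} (h : TestIn φ) : Test φ := ⟨h.smooth, h.compact⟩

theorem bdd_of_cs {X : Type*} [NormedAddCommGroup X] {f : Rd d → X} (hf : Continuous f)
    (hc : HasCompactSupport f) : ∃ M : ℝ, ∀ x, ‖f x‖ ≤ M :=
  hc.exists_bound_of_continuous hf

theorem memLp_smul_bdd {μ : Measure (Rd d)} {u : Rd d → ℝ} (hu : MemLp u 2 μ) {F : Rd d → Rd d}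
    (hF : Continuous F) {M : ℝ} (hM : ∀ x, ‖F x‖ ≤ M) : MemLp (fun x => u x • F x) 2 μ := by
  refine hu.of_le_mul (c := M) (hu.aestronglyMeasurable.smul hF.aestronglyMeasurable) ?_
  refine Eventually.of_forall fun x => ?_
  rw [norm_smul, mul_comm]
  exact mul_le_mul_of_nonneg_right (hM x) (norm_nonneg _)

theorem memLp_bdd_smul {X : Type*} [NormedAddCommGroup X] [NormedSpace ℝ X]
    {μ : Measure (Rd d)} {g : Rd d → X} (hg : MemLp g 2 μ) {F : Rd d → ℝ}
    (hF : Continuous F) {M : ℝ} (hM : ∀ x, ‖F x‖ ≤ M) : MemLp (fun x => F x • g x) 2 μ := by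
  refine hg.of_le_mul (c := M) (hF.aestronglyMeasurable.smul hg.aestronglyMeasurable) ?_
  refine Eventually.of_forall fun x => ?_
  rw [norm_smul]
  exact mul_le_mul_of_nonneg_right (hM x) (norm_nonneg _)

instance : IsFiniteMeasure (volume.restrict (ball (0 : Rd d) 1)) :=
  ⟨by rw [Measure.restrict_apply_univ]; exact measure_ball_lt_top⟩

theorem weak_vec {u : Rd d → ℝ} {g : Rd d → Rd d} (h : IsH1 u g) {φ : Rd d → ℝ} (hφ : TestIn φ) :
    ∫ x in ball (0 : Rd d) 1, u x • gr φ x = - ∫ x in ball (0 : Rd d) 1, φ x • g x := by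
  obtain ⟨M, hM⟩ := bdd_of_cs (TestIn.toTest hφ).gr_continuous (TestIn.toTest hφ).gr_compact
  obtain ⟨M', hM'⟩ := bdd_of_cs hφ.smooth.continuous hφ.compact
  have i1 : Integrable (fun x => u x • gr φ x) (volume.restrict (ball (0 : Rd d) 1)) :=
    (memLp_smul_bdd h.memLp (TestIn.toTest hφ).gr_continuous hM).integrable (by norm_num)
  have i2 : Integrable (fun x => φ x • g x) (volume.restrict (ball (0 : Rd d) 1)) :=
    (memLp_bdd_smul h.memLp_grad hφ.smooth.continuous hM').integrable (by norm_num)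
  ext i
  rw [PiLp.neg_apply, integral_apply' i1, integral_apply' i2]
  have := h.weak φ hφ i
  simp only [PiLp.smul_apply, smul_eq_mul, gr_apply]
  rw [this]
  congr 1
  congr 1
  ext x
  ring

/-- the cutoff function -/
noncomputable def eta (d : ℕ) : ContDiffBump (0 : Rd d) := ⟨4 / 5, 9 / 10, by norm_num, by norm_num⟩

theorem eta_testIn : TestIn (eta d) := by
  refine ⟨(eta d).contDiff, (eta d).hasCompactSupport, ?_⟩
  rw [(eta d).tsupport_eq]
  exact closedBall_subset_ball (by norm_num [eta])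

theorem eta_test : Test (eta d) := TestIn.toTest eta_testIn

theorem eta_zero {x : Rd d} (hx : x ∉ ball (0 : Rd d) 1) : eta d x = 0 := by
  by_contra h
  exact hx (eta_testIn.supp (subset_tsupport _ h))

theorem eta_one {x : Rd d} (hx : x ∈ ball (0 : Rd d) (4 / 5)) : eta d x = 1 :=
  (eta d).one_of_mem_closedBall (ball_subset_closedBall hx)

theorem gr_eta_zero {x : Rd d} (hx : x ∈ ball (0 : Rd d) (4 / 5)) : gr (eta d) x = 0 := by
  have h1 : (eta d : Rd d → ℝ) =ᶠ[𝓝 x] fun _ => (1 : ℝ) := by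
    filter_upwards [isOpen_ball.mem_nhds hx] with y hy using eta_one hy
  simp only [gr]
  rw [h1.fderiv_eq]
  simp

theorem gr_eta_zero' {x : Rd d} (hx : x ∉ ball (0 : Rd d) 1) : gr (eta d) x = 0 :=
  gr_eq_zero fun h => hx (eta_testIn.supp h)

noncomputable def cutv (u : Rd d → ℝ) (x : Rd d) : ℝ :=
  (ball (0 : Rd d) 1).indicator (fun x => eta d x * u x) x

noncomputable def cutG (u : Rd d → ℝ) (g : Rd d → Rd d) (x : Rd d) : Rd d :=
  (ball (0 : Rd d) 1).indicator (fun x => eta d x • g x + u x • gr (eta d) x) x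

theorem abs_eta_le (x : Rd d) : ‖eta d x‖ ≤ 1 := by
  rw [Real.norm_of_nonneg (eta d).nonneg]; exact (eta d).le_one

theorem testIn_mul {φ : Rd d → ℝ} (hφ : ContDiff ℝ ∞ φ) : TestIn (fun x => eta d x * φ x) := by
  refine ⟨(eta d).contDiff.mul hφ, (eta d).hasCompactSupport.mul_right, ?_⟩
  exact (tsupport_mul_subset_left).trans eta_testIn.supp

theorem cut_WG {u : Rd d → ℝ} {g : Rd d → Rd d} (h : IsH1 u g) : WG (cutv u) (cutG u g) := by
  obtain ⟨M, hM⟩ := bdd_of_cs (eta_test (d := d)).gr_continuous eta_test.gr_compact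
  have m1 : MemLp (fun x => eta d x • u x) 2 (volume.restrict (ball (0 : Rd d) 1)) :=
    memLp_bdd_smul h.memLp (eta d).continuous abs_eta_le
  have m2 : MemLp (fun x => eta d x • g x) 2 (volume.restrict (ball (0 : Rd d) 1)) :=
    memLp_bdd_smul h.memLp_grad (eta d).continuous abs_eta_le
  have m3 : MemLp (fun x => u x • gr (eta d) x) 2 (volume.restrict (ball (0 : Rd d) 1)) :=
    memLp_smul_bdd h.memLp eta_test.gr_continuous hM
  refine ⟨?_, ?_, ?_⟩
  · exact (memLp_indicator_iff_restrict measurableSet_ball).2 m1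
  · exact (memLp_indicator_iff_restrict measurableSet_ball).2 (m2.add m3)
  · intro φ hφ
    obtain ⟨M₁, hM₁⟩ := bdd_of_cs hφ.gr_continuous hφ.gr_compact
    obtain ⟨M₂, hM₂⟩ := bdd_of_cs hφ.smooth.continuous hφ.compact
    have e1 : ∫ x, cutv u x • gr φ x
        = ∫ x in ball (0 : Rd d) 1, (eta d x * u x) • gr φ x := by
      rw [← integral_indicator measurableSet_ball]
      congr 1
      ext1 x
      by_cases hx : x ∈ ball (0 : Rd d) 1 <;> simp [cutv, hx]
    have e2 : ∫ x, φ x • cutG u g x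
        = ∫ x in ball (0 : Rd d) 1, φ x • (eta d x • g x + u x • gr (eta d) x) := by
      rw [← integral_indicator measurableSet_ball]
      congr 1
      ext1 x
      by_cases hx : x ∈ ball (0 : Rd d) 1 <;> simp [cutG, hx]
    have ht := testIn_mul (d := d) hφ.smooth
    have e3 := weak_vec h ht
    have e4 : ∀ x, u x • gr (fun x => eta d x * φ x) x
        = (eta d x * u x) • gr φ x + φ x • (u x • gr (eta d) x) := by
      intro x
      rw [gr_mul eta_test.differentiableAt hφ.differentiableAt, smul_add, smul_smul, smul_smul,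
        smul_smul, mul_comm (u x) (eta d x), mul_comm (u x) (φ x)]
    have i1 : Integrable (fun x => (eta d x * u x) • gr φ x)
        (volume.restrict (ball (0 : Rd d) 1)) :=
      (memLp_smul_bdd m1 hφ.gr_continuous hM₁).integrable (by norm_num)
    have i2 : Integrable (fun x => φ x • (u x • gr (eta d) x))
        (volume.restrict (ball (0 : Rd d) 1)) :=
      (memLp_bdd_smul m3 hφ.smooth.continuous hM₂).integrable (by norm_num)
    have i3 : Integrable (fun x => φ x • (eta d x • g x))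
        (volume.restrict (ball (0 : Rd d) 1)) :=
      (memLp_bdd_smul m2 hφ.smooth.continuous hM₂).integrable (by norm_num)
    simp_rw [e4] at e3
    rw [integral_add i1 i2] at e3
    rw [e1, e2]
    simp_rw [smul_add]
    rw [integral_add i3 i2]
    have e5 : ∫ x in ball (0 : Rd d) 1, φ x • (eta d x • g x)
        = ∫ x in ball (0 : Rd d) 1, (eta d x * φ x) • g x := by
      congr 1
      ext1 x
      rw [smul_smul, mul_comm]
    rw [e5, neg_add, ← e3]
    abel

theorem cutv_compact (u : Rd d → ℝ) : HasCompactSupport (cutv u) := by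
  refine HasCompactSupport.intro (K := tsupport (eta d)) (eta d).hasCompactSupport ?_
  intro x hx
  have : eta d x = 0 := by
    by_contra h
    exact hx (subset_tsupport _ h)
  simp [cutv, this]

theorem cutG_eq (u : Rd d → ℝ) (g : Rd d → Rd d) {x : Rd d} (hx : x ∈ ball (0 : Rd d) (4 / 5)) :
    cutG u g x = g x := by
  have hx' : x ∈ ball (0 : Rd d) 1 := ball_subset_ball (by norm_num) hx
  simp [cutG, hx', eta_one hx, gr_eta_zero hx]

theorem cutv_eq (u : Rd d → ℝ) {x : Rd d} (hx : x ∈ ball (0 : Rd d) (4 / 5)) :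
    cutv u x = u x := by
  have hx' : x ∈ ball (0 : Rd d) 1 := ball_subset_ball (by norm_num) hx
  simp [cutv, hx', eta_one hx]

theorem cut_locSol {u : Rd d → ℝ} {g : Rd d → Rd d} (h : IsH1 u g) (b : Rd d → Rd d →L[ℝ] Rd d)
    (he : ∀ φ, TestIn φ → ∫ x in ball (0 : Rd d) 1, inner ℝ (b x (g x)) (gr φ x) = 0) :
    LocSol b (ball 0 (3 / 4)) (cutG u g) := by
  refine ⟨(cut_WG h).inV (cutv_compact u), fun φ hφ hs => ?_⟩
  have hs1 : tsupport φ ⊆ ball 0 1 := hs.trans (ball_subset_ball (by norm_num))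
  rw [← he φ ⟨hφ.smooth, hφ.compact, hs1⟩, ← integral_indicator measurableSet_ball]
  congr 1
  ext1 x
  by_cases hx : x ∈ ball (0 : Rd d) (3 / 4)
  · have hx' : x ∈ ball (0 : Rd d) 1 := ball_subset_ball (by norm_num) hx
    have hx'' : x ∈ ball (0 : Rd d) (4 / 5) := ball_subset_ball (by norm_num) hx
    rw [indicator_of_mem hx', cutG_eq u g hx'']
  · have : gr φ x = 0 := gr_eq_zero fun hc => hx (hs hc)
    by_cases hx' : x ∈ ball (0 : Rd d) 1 <;> simp [hx', this]

end TH

end Pool.Agent.Lib.MP_a73848
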