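import Mathlib
import Pool.Agent.Lib.MP_a73848.TaskH3

/-!
# MP_a73848_an, Task H: from the `L²` to `L^∞` gradient estimate for whole-space fields to the
Lipschitz estimate for weak solutions in the unit ball
-/

set_option autoImplicit false
set_option linter.unusedSectionVars false

open MeasureTheory Metric Filter Topology Set
open scoped ContDiff ENNReal NNReal Convolution

namespace Pool.Agent.Lib.MP_a73848

namespace TH

variable {d : ℕ}

theorem memLp_b {K : ℝ} {b : Rd d → Rd d →L[ℝ] Rd d} (hb : StronglyMeasurable b)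
    (hK : ∀ x, ‖b x‖ ≤ K) {μ : Measure (Rd d)} {g : Rd d → Rd d} (hg : MemLp g 2 μ) :
    MemLp (fun x => b x (g x)) 2 μ := by
  refine hg.of_le_mul (c := K) ?_ ?_
  · exact (ContinuousLinearMap.id ℝ (Rd d →L[ℝ] Rd d)).aestronglyMeasurable_comp₂
      hb.aestronglyMeasurable hg.aestronglyMeasurable
  · refine Eventually.of_forall fun x => ?_
    exact (ContinuousLinearMap.le_opNorm _ _).trans (by gcongr; exact hK x)

/-- the limit test field -/
noncomputable def Psi (u : Rd d → ℝ) (g : Rd d → Rd d) (x : Rd d) : Rd d :=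
  eta d x • cutG u g x + cutv u x • gr (eta d) x

theorem Psi_eq (u : Rd d → ℝ) (g : Rd d → Rd d) {x : Rd d} (hx : x ∈ ball (0 : Rd d) 1) :
    Psi u g x = (eta d x ^ 2) • g x + (2 * (eta d x * u x)) • gr (eta d) x := by
  simp only [Psi, cutG, cutv, indicator_of_mem hx]
  module

theorem ortho {K : ℝ} {b : Rd d → Rd d →L[ℝ] Rd d} (hb : StronglyMeasurable b)
    (hK : ∀ x, ‖b x‖ ≤ K) {u : Rd d → ℝ} {g : Rd d → Rd d} (h : IsH1 u g)
    (he : ∀ φ, TestIn φ → ∫ x in ball (0 : Rd d) 1, inner ℝ (b x (g x)) (gr φ x) = 0) :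
    ∫ x in ball (0 : Rd d) 1, inner ℝ (b x (g x)) (Psi u g x) = 0 := by
  obtain ⟨M, hM⟩ := bdd_of_cs (eta_test (d := d)).gr_continuous eta_test.gr_compact
  have hW := cut_WG h
  have hΨ : MemLp (Psi u g) 2 volume := by
    have m1 : MemLp (fun x => eta d x • cutG u g x) 2 volume :=
      memLp_bdd_smul hW.memLp_grad (eta d).continuous abs_eta_le
    have m2 : MemLp (fun x => cutv u x • gr (eta d) x) 2 volume :=
      memLp_smul_bdd hW.memLp eta_test.gr_continuous hM
    exact m1.add m2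
  refine inner_int_zero (memLp_b hb hK h.memLp_grad) (hΨ.restrict _) fun ε hε => ?_
  have hε2 : 0 < ε / 2 := ENNReal.half_pos hε.ne'
  set c : ℝ≥0∞ := ENNReal.ofReal M + 1 with hc
  have hc0 : c ≠ ⊤ := by simp [hc]
  obtain ⟨δ₁, hδ₁, h1⟩ := moll_L2 hW.memLp_grad hε2
  obtain ⟨δ₂, hδ₂, h2⟩ := moll_L2 hW.memLp (ENNReal.div_pos hε2.ne' hc0)
  set δ := min δ₁ δ₂ with hδ
  have hδ0 : 0 < δ := lt_min hδ₁ hδ₂
  let β : ContDiffBump (0 : Rd d) := ⟨δ / 4, δ / 2, by positivity, by linarith⟩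
  have hβ1 : β.rOut < δ₁ := by
    change δ / 2 < δ₁
    linarith [min_le_left δ₁ δ₂]
  have hβ2 : β.rOut < δ₂ := by
    change δ / 2 < δ₂
    linarith [min_le_right δ₁ δ₂]
  have h1' := h1 β hβ1
  have h2' := h2 β hβ2
  set w := cv (β.normed volume) (cutv u) with hw
  have hws : ContDiff ℝ ∞ w := cv_smooth (bump_test β) (memLp_locInt hW.memLp)
  have ht := testIn_mul (d := d) hws
  refine ⟨gr (fun x => eta d x * w x), ((TestIn.toTest ht).gr_memLp 2).restrict _, he _ ht, ?_⟩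
  refine (eLpNorm_mono_measure _ Measure.restrict_le_self).trans ?_
  have e : gr (fun x => eta d x * w x) - Psi u g
      = (fun x => eta d x • (cv (β.normed volume) (cutG u g) - cutG u g) x)
        + (fun x => (w - cutv u) x • gr (eta d) x) := by
    ext1 x
    simp only [Pi.sub_apply, Pi.add_apply, Psi]
    rw [gr_mul eta_test.differentiableAt (hws.differentiable (by simp) x), hw,
      gr_cv (bump_test β) hW]
    module
  have hG' : MemLp (cv (β.normed volume) (cutG u g) - cutG u g) 2 volume := by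
    have hgc : (fun x => gr w x) = cv (β.normed volume) (cutG u g) := by
      ext1 x; exact gr_cv (bump_test β) hW x
    have hwt : Test w := ⟨hws, by
      rw [hw, cv_eq]
      exact (bump_test β).compact.convolution _ (cutv_compact u)⟩
    rw [← hgc]
    exact (hwt.gr_memLp 2).sub hW.memLp_grad
  have hv' : MemLp (w - cutv u) 2 volume := by
    have hwt : Test w := ⟨hws, by
      rw [hw, cv_eq]
      exact (bump_test β).compact.convolution _ (cutv_compact u)⟩
    exact (hwt.memLp 2).sub hW.memLp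
  rw [e]
  have a1 : eLpNorm (fun x => eta d x • (cv (β.normed volume) (cutG u g) - cutG u g) x) 2 volume
      ≤ ε / 2 := by
    refine le_trans (eLpNorm_mono fun x => ?_) h1'
    rw [norm_smul]
    exact mul_le_of_le_one_left (norm_nonneg _) (abs_eta_le x)
  have a2 : eLpNorm (fun x => (w - cutv u) x • gr (eta d) x) 2 volume ≤ ε / 2 := by
    have a3 : eLpNorm (fun x => (w - cutv u) x • gr (eta d) x) 2 volume
        ≤ ENNReal.ofReal M * eLpNorm (w - cutv u) 2 volume := by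
      refine eLpNorm_le_mul_eLpNorm_of_ae_le_mul (Eventually.of_forall fun x => ?_) 2
      rw [norm_smul, mul_comm]
      exact mul_le_mul_of_nonneg_right (hM x) (norm_nonneg _)
    calc _ ≤ _ := a3
      _ ≤ c * (ε / 2 / c) := by
        gcongr
        exact le_self_add
      _ ≤ ε / 2 := ENNReal.mul_div_le
  calc _ ≤ _ := eLpNorm_add_le
        (memLp_bdd_smul hG' (eta d).continuous abs_eta_le).aestronglyMeasurable
        (memLp_smul_bdd hv' eta_test.gr_continuous hM).aestronglyMeasurable (by norm_num)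
    _ ≤ ε / 2 + ε / 2 := add_le_add a1 a2
    _ = ε := ENNReal.add_halves ε

theorem caccio {K lam : ℝ} (hlam : 0 < lam) {b : Rd d → Rd d →L[ℝ] Rd d}
    (hb : StronglyMeasurable b) (hK : ∀ x, ‖b x‖ ≤ K)
    (hell : ∀ x ξ, lam * ‖ξ‖ ^ 2 ≤ inner ℝ (b x ξ) ξ)
    {u : Rd d → ℝ} {g : Rd d → Rd d} (h : IsH1 u g)
    (he : ∀ φ, TestIn φ → ∫ x in ball (0 : Rd d) 1, inner ℝ (b x (g x)) (gr φ x) = 0)
    {M : ℝ} (hM : ∀ x, ‖gr (eta d) x‖ ≤ M) :
    ∫ x in ball (0 : Rd d) 1, ‖eta d x • g x‖ ^ 2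
      ≤ (2 * |K| * M / lam) ^ 2 * ∫ x in ball (0 : Rd d) 1, u x ^ 2 := by
  have hM0 : 0 ≤ M := (norm_nonneg _).trans (hM 0)
  have hW := cut_WG h
  have hΨ : MemLp (Psi u g) 2 volume := by
    have m1 : MemLp (fun x => eta d x • cutG u g x) 2 volume :=
      memLp_bdd_smul hW.memLp_grad (eta d).continuous abs_eta_le
    have m2 : MemLp (fun x => cutv u x • gr (eta d) x) 2 volume :=
      memLp_smul_bdd hW.memLp eta_test.gr_continuous hM
    exact m1.add m2
  have i1 : Integrable (fun x => inner ℝ (b x (g x)) (Psi u g x))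
      (volume.restrict (ball (0 : Rd d) 1)) :=
    int_inner (memLp_b hb hK h.memLp_grad) (hΨ.restrict _)
  have m2 : MemLp (fun x => eta d x • g x) 2 (volume.restrict (ball (0 : Rd d) 1)) :=
    memLp_bdd_smul h.memLp_grad (eta d).continuous abs_eta_le
  have i2 : Integrable (fun x => ‖eta d x • g x‖ ^ 2) (volume.restrict (ball (0 : Rd d) 1)) :=
    m2.integrable_norm_pow (by norm_num)
  have i3 : Integrable (fun x => u x ^ 2) (volume.restrict (ball (0 : Rd d) 1)) :=
    h.memLp.integrable_sq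
  have key : ∀ x ∈ ball (0 : Rd d) 1,
      lam / 2 * ‖eta d x • g x‖ ^ 2 - 2 / lam * (|K| * M) ^ 2 * u x ^ 2
        ≤ inner ℝ (b x (g x)) (Psi u g x) := by
    intro x hx
    rw [Psi_eq u g hx, inner_add_right, inner_smul_right, inner_smul_right]
    have hη : 0 ≤ eta d x := (eta d).nonneg
    have b1 := hell x (g x)
    have b2 : |inner ℝ (b x (g x)) (gr (eta d) x)| ≤ |K| * ‖g x‖ * M := by
      refine (abs_real_inner_le_norm _ _).trans ?_
      have c1 : ‖b x (g x)‖ ≤ |K| * ‖g x‖ :=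
        (ContinuousLinearMap.le_opNorm _ _).trans
          (mul_le_mul_of_nonneg_right ((hK x).trans (le_abs_self K)) (norm_nonneg _))
      exact mul_le_mul c1 (hM x) (norm_nonneg _) (by positivity)
    have b3 : -(2 * (eta d x * |u x|) * (|K| * ‖g x‖ * M))
        ≤ 2 * (eta d x * u x) * inner ℝ (b x (g x)) (gr (eta d) x) := by
      have c2 : |2 * (eta d x * u x) * inner ℝ (b x (g x)) (gr (eta d) x)|
          ≤ 2 * (eta d x * |u x|) * (|K| * ‖g x‖ * M) := by
        rw [abs_mul, abs_mul, abs_mul, abs_of_nonneg hη, abs_of_nonneg (by norm_num : (0:ℝ) ≤ 2)]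
        gcongr
      linarith [neg_abs_le (2 * (eta d x * u x) * inner ℝ (b x (g x)) (gr (eta d) x))]
    rw [norm_smul, Real.norm_of_nonneg hη]
    have b4 : eta d x ^ 2 * (lam * ‖g x‖ ^ 2) ≤ eta d x ^ 2 * inner ℝ (b x (g x)) (g x) :=
      mul_le_mul_of_nonneg_left b1 (sq_nonneg _)
    have b5 : 0 ≤ lam / 2 * (eta d x * ‖g x‖ - 2 / lam * (|K| * M * |u x|)) ^ 2 := by positivity
    have b6 : lam / 2 * (eta d x * ‖g x‖ - 2 / lam * (|K| * M * |u x|)) ^ 2
        = lam / 2 * (eta d x * ‖g x‖) ^ 2 - 2 * (eta d x * |u x|) * (|K| * ‖g x‖ * M)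
          + 2 / lam * (|K| * M) ^ 2 * |u x| ^ 2 := by
      field_simp
      ring
    rw [sq_abs] at b6
    nlinarith [b3, b4, b5, b6]
  have hint := ortho hb hK h he
  have h3 : ∫ x in ball (0 : Rd d) 1,
      (lam / 2 * ‖eta d x • g x‖ ^ 2 - 2 / lam * (|K| * M) ^ 2 * u x ^ 2)
        ≤ ∫ x in ball (0 : Rd d) 1, inner ℝ (b x (g x)) (Psi u g x) := by
    refine setIntegral_mono_on ((i2.const_mul _).sub (i3.const_mul _)) i1 measurableSet_ball key
  rw [hint, integral_sub (i2.const_mul _) (i3.const_mul _), integral_const_mul,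
    integral_const_mul] at h3
  have h4 : (2 * |K| * M / lam) ^ 2 = 2 / lam * (2 / lam * (|K| * M) ^ 2) := by
    field_simp
  rw [h4, mul_assoc]
  have h5 : lam / 2 * ∫ x in ball (0 : Rd d) 1, ‖eta d x • g x‖ ^ 2
      ≤ 2 / lam * (|K| * M) ^ 2 * ∫ x in ball (0 : Rd d) 1, u x ^ 2 := by linarith
  calc ∫ x in ball (0 : Rd d) 1, ‖eta d x • g x‖ ^ 2
      = 2 / lam * (lam / 2 * ∫ x in ball (0 : Rd d) 1, ‖eta d x • g x‖ ^ 2) := by
        field_simp
    _ ≤ _ := by gcongr

/-- pointwise bound for the mollified gradient -/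
theorem moll_bound {G : Rd d → Rd d} {M₀ : ℝ}
    (hG : ∀ᵐ x ∂(volume.restrict (ball (0 : Rd d) (1 / 2))), ‖G x‖ ≤ M₀)
    (β : ContDiffBump (0 : Rd d)) {z : Rd d} (hz : ‖z‖ + β.rOut ≤ 1 / 2) :
    ‖cv (β.normed volume) G z‖ ≤ M₀ := by
  rw [cv_swap]
  have e1 : ∫ y, β.normed volume (z - y) * M₀ = M₀ := by
    rw [integral_mul_const]
    rw [integral_sub_left_eq_self (fun y => β.normed volume y) volume z, β.integral_normed,
      one_mul]
  rw [← e1]
  refine norm_integral_le_of_norm_le ?_ ?_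
  · apply Integrable.mul_const
    exact (β.integrable_normed (μ := volume)).comp_sub_left z
  · rw [ae_restrict_iff' measurableSet_ball] at hG
    filter_upwards [hG] with y hy
    rw [norm_smul, Real.norm_of_nonneg (β.nonneg_normed _)]
    by_cases h : y ∈ ball (0 : Rd d) (1 / 2)
    · exact mul_le_mul_of_nonneg_left (hy h) (β.nonneg_normed _)
    · have : β.normed volume (z - y) = 0 := by
        by_contra hc
        have h2 : z - y ∈ Function.support (β.normed volume) := hc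
        rw [β.support_normed_eq] at h2
        apply h
        rw [mem_ball_zero_iff] at h2 ⊢
        have h3 : ‖y‖ ≤ ‖z‖ + ‖z - y‖ := by
          have := norm_sub_le z (z - y)
          simpa using this
        linarith
      rw [this]
      simp

/-- the sequence of kernels -/
noncomputable def ker (d : ℕ) (k : ℕ) : ContDiffBump (0 : Rd d) :=
  ⟨1 / (2 * ((k : ℝ) + 1)), 1 / ((k : ℝ) + 1), by positivity, by
    rw [div_lt_div_iff₀ (by positivity) (by positivity)]
    have : (0 : ℝ) ≤ k := Nat.cast_nonneg k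
    linarith⟩

theorem ker_tendsto : Tendsto (fun k => (ker d k).rOut) atTop (𝓝 0) :=
  tendsto_one_div_add_atTop_nhds_zero_nat

theorem ker_le (k : ℕ) : (ker d k).rOut ≤ 2 * (ker d k).rIn := by
  change 1 / ((k : ℝ) + 1) ≤ 2 * (1 / (2 * ((k : ℝ) + 1)))
  apply le_of_eq
  field_simp

theorem lip {v : Rd d → ℝ} {G : Rd d → Rd d} (h : WG v G) {M₀ : ℝ}
    (hG : ∀ᵐ x ∂(volume.restrict (ball (0 : Rd d) (1 / 2))), ‖G x‖ ≤ M₀) (hM₀ : 0 ≤ M₀) :
    ∃ w : Rd d → ℝ, (∀ x y, |w x - w y| ≤ M₀ * ‖x - y‖) ∧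
      ∀ᵐ x ∂(volume.restrict (ball (0 : Rd d) (1 / 2))), w x = v x := by
  have hconv := ContDiffBump.ae_convolution_tendsto_right_of_locallyIntegrable (μ := volume)
    (φ := ker d) (l := atTop) (K := 2) (ker_tendsto (d := d)) (Eventually.of_forall ker_le)
    (memLp_locInt h.memLp)
  set S : Set (Rd d) := {x | x ∈ ball (0 : Rd d) (1 / 2) ∧
    Tendsto (fun k => cv ((ker d k).normed volume) v x) atTop (𝓝 (v x))} with hS
  have hL : LipschitzOnWith ⟨M₀, hM₀⟩ v S := by
    apply LipschitzOnWith.of_dist_le_mul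
    intro x hx y hy
    rw [Real.dist_eq, dist_eq_norm]
    change |v x - v y| ≤ M₀ * ‖x - y‖
    obtain ⟨hx1, hx2⟩ := hx
    obtain ⟨hy1, hy2⟩ := hy
    have hlim := (hx2.sub hy2).abs
    refine le_of_tendsto hlim ?_
    rw [mem_ball_zero_iff] at hx1 hy1
    set s := max ‖x‖ ‖y‖ with hs
    have hs2 : s < 1 / 2 := max_lt hx1 hy1
    have hev : ∀ᶠ k in atTop, (ker d k).rOut < 1 / 2 - s :=
      (ker_tendsto (d := d)).eventually (gt_mem_nhds (by linarith))
    filter_upwards [hev] with k hk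
    have hsm : ContDiff ℝ ∞ (cv ((ker d k).normed volume) v) :=
      cv_smooth (bump_test _) (memLp_locInt h.memLp)
    have := Convex.norm_image_sub_le_of_norm_fderiv_le (𝕜 := ℝ)
      (f := cv ((ker d k).normed volume) v) (C := M₀) (s := closedBall (0 : Rd d) s)
      (x := y) (y := x) (fun z _ => hsm.differentiable (by simp) z) ?_ (convex_closedBall _ _)
      (by rw [mem_closedBall_zero_iff]; exact le_max_right _ _)
      (by rw [mem_closedBall_zero_iff]; exact le_max_left _ _)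
    · exact this
    · intro z hz
      rw [mem_closedBall_zero_iff] at hz
      rw [← norm_gr, gr_cv (bump_test _) h]
      exact moll_bound hG _ (by linarith)
  obtain ⟨w, hw1, hw2⟩ := hL.extend_real
  refine ⟨w, fun x y => ?_, ?_⟩
  · have := hw1.dist_le_mul x y
    rw [Real.dist_eq, dist_eq_norm] at this
    exact this
  · rw [ae_restrict_iff' measurableSet_ball]
    filter_upwards [hconv] with x hx hxb
    exact (hw2 ⟨hxb, hx⟩).symm

end TH

open TH in
theorem weak_of_core (d : ℕ) {K lam : ℝ} (hlam : 0 < lam) (N : ℝ≥0) :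
    ∃ C : ℝ, ∀ b : Rd d → Rd d →L[ℝ] Rd d, StronglyMeasurable b → (∀ x, ‖b x‖ ≤ K) →
      (∀ x ξ, lam * ‖ξ‖ ^ 2 ≤ inner ℝ (b x ξ) ξ) →
      (∀ g, LocSol b (ball 0 (3 / 4)) g → ∀ᵐ x ∂(volume.restrict (ball (0 : Rd d) (1 / 2))),
        ‖g x‖ₑ ≤ N * (∫⁻ x in ball (0 : Rd d) (3 / 4), ‖g x‖ₑ ^ 2) ^ (1 / 2 : ℝ)) →
      ∀ u g, IsH1 u g →
        (∀ φ, TestIn φ → ∫ x in ball (0 : Rd d) 1, inner ℝ (b x (g x)) (gr φ x) = 0) →
        ∃ v : Rd d → ℝ, (∀ᵐ x ∂(volume.restrict (ball (0 : Rd d) 1)), v x = u x) ∧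
          ∀ x ∈ ball (0 : Rd d) (1 / 2), ∀ y ∈ ball (0 : Rd d) (1 / 2),
            |v x - v y| ≤ C * ‖x - y‖ * Real.sqrt (∫ x in ball (0 : Rd d) 1, u x ^ 2) := by
  obtain ⟨M, hM⟩ := bdd_of_cs (eta_test (d := d)).gr_continuous eta_test.gr_compact
  have hM0 : 0 ≤ M := (norm_nonneg _).trans (hM 0)
  refine ⟨N * (2 * |K| * M / lam), fun b hb hK hell hcore u g h he => ?_⟩
  set I := ∫ x in ball (0 : Rd d) 1, u x ^ 2 with hI
  have hI0 : 0 ≤ I := integral_nonneg fun x => sq_nonneg _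
  have hW := cut_WG h
  have hc := caccio hlam hb hK hell h he hM
  have hcG := hcore _ (cut_locSol h b he)
  set c : ℝ := 2 * |K| * M / lam with hcdef
  have hc0 : 0 ≤ c := by positivity
  set M₀ : ℝ := N * (c * Real.sqrt I) with hM₀
  have hM₀0 : 0 ≤ M₀ := by positivity
  have m2 : MemLp (fun x => eta d x • g x) 2 (volume.restrict (ball (0 : Rd d) 1)) :=
    memLp_bdd_smul h.memLp_grad (eta d).continuous abs_eta_le
  have i2 : Integrable (fun x => ‖eta d x • g x‖ ^ 2) (volume.restrict (ball (0 : Rd d) 1)) :=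
    m2.integrable_norm_pow (by norm_num)
  have e1 : ∫⁻ x in ball (0 : Rd d) (3 / 4), ‖cutG u g x‖ₑ ^ 2
      ≤ ENNReal.ofReal (c ^ 2 * I) := by
    calc ∫⁻ x in ball (0 : Rd d) (3 / 4), ‖cutG u g x‖ₑ ^ 2
        = ∫⁻ x in ball (0 : Rd d) (3 / 4), ‖eta d x • g x‖ₑ ^ 2 := by
          refine setLIntegral_congr_fun measurableSet_ball fun x hx => ?_
          have hx'' : x ∈ ball (0 : Rd d) (4 / 5) := ball_subset_ball (by norm_num) hx
          simp only [cutG_eq u g hx'', eta_one hx'', one_smul]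
      _ ≤ ∫⁻ x in ball (0 : Rd d) 1, ‖eta d x • g x‖ₑ ^ 2 :=
          lintegral_mono_set (ball_subset_ball (by norm_num))
      _ = ENNReal.ofReal (∫ x in ball (0 : Rd d) 1, ‖eta d x • g x‖ ^ 2) := by
          rw [ofReal_integral_eq_lintegral_ofReal i2
            (Eventually.of_forall fun x => by positivity)]
          congr 1
          ext1 x
          rw [ENNReal.ofReal_pow (norm_nonneg _), ofReal_norm]
      _ ≤ _ := ENNReal.ofReal_le_ofReal hc
  have e2 : (∫⁻ x in ball (0 : Rd d) (3 / 4), ‖cutG u g x‖ₑ ^ 2) ^ (1 / 2 : ℝ)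
      ≤ ENNReal.ofReal (c * Real.sqrt I) := by
    calc _ ≤ (ENNReal.ofReal (c ^ 2 * I)) ^ (1 / 2 : ℝ) := by gcongr
      _ = ENNReal.ofReal ((c ^ 2 * I) ^ (1 / 2 : ℝ)) :=
          ENNReal.ofReal_rpow_of_nonneg (by positivity) (by norm_num)
      _ = _ := by
          rw [← Real.sqrt_eq_rpow, Real.sqrt_mul (sq_nonneg c), Real.sqrt_sq hc0]
  have hG : ∀ᵐ x ∂(volume.restrict (ball (0 : Rd d) (1 / 2))), ‖cutG u g x‖ ≤ M₀ := by
    filter_upwards [hcG] with x hx
    have h3 : ‖cutG u g x‖ₑ ≤ ENNReal.ofReal M₀ := by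
      refine hx.trans ?_
      calc _ ≤ (N : ℝ≥0∞) * ENNReal.ofReal (c * Real.sqrt I) := by gcongr
        _ = _ := by
          rw [hM₀, ENNReal.ofReal_mul (NNReal.coe_nonneg N), ENNReal.ofReal_coe_nnreal]
    rw [← ofReal_norm] at h3
    exact (ENNReal.ofReal_le_ofReal_iff hM₀0).1 h3
  obtain ⟨w, hw1, hw2⟩ := lip hW hG hM₀0
  classical
  refine ⟨fun x => if x ∈ ball (0 : Rd d) (1 / 2) then w x else u x, ?_, ?_⟩
  · rw [ae_restrict_iff' measurableSet_ball] at hw2
    apply ae_restrict_of_ae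
    filter_upwards [hw2] with x hx
    by_cases hxb : x ∈ ball (0 : Rd d) (1 / 2)
    · rw [if_pos hxb, hx hxb, cutv_eq u (ball_subset_ball (by norm_num) hxb)]
    · rw [if_neg hxb]
  · intro x hx y hy
    simp only [if_pos hx, if_pos hy]
    refine (hw1 x y).trans (le_of_eq ?_)
    rw [hM₀]
    ring

end Pool.Agent.Lib.MP_a73848
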