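import Mathlib
import Pool.Agent.Lib.MP_a73848.Base
import Pool.Agent.Lib.MP_a73848.Defs
import Pool.Agent.Lib.MP_a73848.AdmDef

set_option autoImplicit false

open MeasureTheory Metric Filter Topology Set
open scoped ContDiff ENNReal NNReal

namespace Pool.Agent.Lib.MP_a73848

/-- The torus used: `d + n d` circles of length one. -/
abbrev Tor (d n : ℕ) : Type := Fin d ⊕ Fin n × Fin d → AddCircle (1 : ℝ)

/-- TASK T2: measure of small balls of the torus. -/
theorem tor_ball (d n : ℕ) {δ : ℝ} (h0 : 0 < δ) (h1 : δ ≤ 1 / 2) (θ : Tor d n) :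
    volume (ball θ δ) = ENNReal.ofReal ((2 * δ) ^ (d + n * d)) := by
  have hb : ∀ x : AddCircle (1 : ℝ), volume (ball x δ) = ENNReal.ofReal (2 * δ) := by
    intro x
    rw [← measure_congr (AddCircle.closedBall_ae_eq_ball (x := x) (ε := δ)),
      AddCircle.volume_closedBall, min_eq_right (by linarith)]
  rw [volume_pi_ball _ h0]
  simp only [hb, Finset.prod_const, Finset.card_univ, Fintype.card_sum, Fintype.card_prod,
    Fintype.card_fin]
  rw [ENNReal.ofReal_pow (by positivity)]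

end Pool.Agent.Lib.MP_a73848

namespace Pool.Agent.Lib.MP_a73848.TorT

/-- A real representative of a point of the circle in `[0,1)`. -/
noncomputable def lft (t : AddCircle (1 : ℝ)) : ℝ := (AddCircle.equivIco 1 0 t : ℝ)

lemma coe_lft (t : AddCircle (1 : ℝ)) : ((lft t : ℝ) : AddCircle (1 : ℝ)) = t :=
  (AddCircle.equivIco 1 0).symm_apply_apply t

lemma lft_mem (t : AddCircle (1 : ℝ)) : 0 ≤ lft t ∧ lft t < 1 := by
  have h := (AddCircle.equivIco (1 : ℝ) 0 t).2
  exact ⟨h.1, lt_of_lt_of_eq h.2 (zero_add 1)⟩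

lemma coe_eq_iff (a b : ℝ) : (a : AddCircle (1 : ℝ)) = b ↔ ∃ m : ℤ, a - b = m := by
  rw [← sub_eq_zero, ← AddCircle.coe_sub, AddCircle.coe_eq_zero_iff]
  constructor
  · rintro ⟨m, hm⟩
    exact ⟨m, by simpa using hm.symm⟩
  · rintro ⟨m, hm⟩
    exact ⟨m, by simpa using hm.symm⟩

/-- A representative of minimal absolute value. -/
lemma exists_rep (t : AddCircle (1 : ℝ)) : ∃ r : ℝ, (r : AddCircle (1 : ℝ)) = t ∧ |r| = ‖t‖ := by
  refine ⟨lft t - round (lft t), ?_, ?_⟩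
  · conv_rhs => rw [← coe_lft t]
    rw [coe_eq_iff]
    exact ⟨-round (lft t), by push_cast; ring⟩
  · conv_rhs => rw [← coe_lft t]
    rw [AddCircle.norm_eq]
    simp

lemma norm_circ_le (t : AddCircle (1 : ℝ)) : ‖t‖ ≤ 1 / 2 := by
  have := AddCircle.norm_le_half_period (1 : ℝ) (x := t) one_ne_zero
  simpa using this

/-- the point of `ℝ^d` attached to the first `d` circles -/
noncomputable def rho {d n : ℕ} (θ : Tor d n) : Rd d :=
  WithLp.toLp 2 fun i => 4 * ‖θ (Sum.inl i)‖ - 1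

noncomputable def lftY {d n : ℕ} (θ : Tor d n) (k : Fin n) : Rd d :=
  WithLp.toLp 2 fun i => lft (θ (Sum.inr (k, i)))

lemma norm_le_sum {d : ℕ} (v : Rd d) : ‖v‖ ≤ ∑ i, |v i| := by
  have h : v = ∑ i, v i • (EuclideanSpace.single i 1 : Rd d) := by
    ext k
    simp [Finset.sum_apply, Pi.single_apply]
  conv_lhs => rw [h]
  refine (norm_sum_le _ _).trans (Finset.sum_le_sum fun i _ => ?_)
  rw [norm_smul]
  simp

lemma norm_le_card_mul {d : ℕ} (v : Rd d) (c : ℝ) (h : ∀ i, |v i| ≤ c) : ‖v‖ ≤ d * c := by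
  refine (norm_le_sum v).trans ((Finset.sum_le_sum fun i _ => h i).trans ?_)
  simp

lemma abs_coord_le {d : ℕ} (v : Rd d) (i : Fin d) : |v i| ≤ ‖v‖ := by
  rw [← Real.norm_eq_abs]
  exact PiLp.norm_apply_le v i

variable {d n : ℕ} {Λ γ L : ℝ} {A : Rd d → (Fin n → Rd d) → Matrix (Fin d) (Fin d) ℝ}

lemma per (hA : Admissible Λ γ L A) (x : Rd d) (y y' : Fin n → Rd d)
    (h : ∀ k i, ((y k i : ℝ) : AddCircle (1 : ℝ)) = (y' k i : ℝ)) : A x y = A x y' := by
  have h1 : y = y' + (y - y') := by abel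
  rw [h1]
  refine hA.periodic x y' _ fun k i => ?_
  obtain ⟨m, hm⟩ := (coe_eq_iff _ _).1 (h k i)
  exact ⟨m, by simpa using hm⟩

lemma rho_diff (θ θ' : Tor d n) : ‖rho θ - rho θ'‖ ≤ d * (4 * ‖θ - θ'‖) := by
  refine norm_le_card_mul _ _ fun i => ?_
  have h1 : (rho θ - rho θ') i = 4 * (‖θ (Sum.inl i)‖ - ‖θ' (Sum.inl i)‖) := by
    simp only [rho, PiLp.sub_apply]
    ring
  rw [h1, abs_mul, abs_of_pos (by norm_num : (0 : ℝ) < 4)]
  have h2 : |‖θ (Sum.inl i)‖ - ‖θ' (Sum.inl i)‖| ≤ ‖θ (Sum.inl i) - θ' (Sum.inl i)‖ :=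
    abs_norm_sub_norm_le _ _
  have h3 : ‖θ (Sum.inl i) - θ' (Sum.inl i)‖ ≤ ‖θ - θ'‖ := norm_le_pi_norm (θ - θ') (Sum.inl i)
  linarith

lemma entry_holder (hL : 0 ≤ L) (hγ : 0 < γ) (hA : Admissible Λ γ L A) (θ θ' : Tor d n)
    (i j : Fin d) :
    |A (rho θ) (lftY θ) i j - A (rho θ') (lftY θ') i j|
      ≤ L * (((4 * d + n * d : ℕ) : ℝ) * ‖θ - θ'‖) ^ γ := by
  choose r hr1 hr2 using fun (p : Fin n × Fin d) => exists_rep ((θ - θ') (Sum.inr p))
  set y' : Fin n → Rd d := fun k => lftY θ k - WithLp.toLp 2 (fun i => r (k, i)) with hy'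
  have hper : A (rho θ') (lftY θ') = A (rho θ') y' := by
    refine per hA _ _ _ fun k i => ?_
    simp only [hy', lftY, PiLp.sub_apply, AddCircle.coe_sub, coe_lft, hr1]
    simp
  rw [hper]
  refine (hA.holder _ _ _ _ i j).trans ?_
  have hs : ∀ k, ‖lftY θ k - y' k‖ ≤ d * ‖θ - θ'‖ := by
    intro k
    refine norm_le_card_mul _ _ fun i => ?_
    have : (lftY θ k - y' k) i = r (k, i) := by
      simp [hy']
    rw [this, hr2]
    exact norm_le_pi_norm (θ - θ') _
  have h1 := rho_diff θ θ'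
  have h2 : ∑ k, ‖lftY θ k - y' k‖ ≤ n * (d * ‖θ - θ'‖) := by
    refine (Finset.sum_le_sum fun k _ => hs k).trans ?_
    simp
  refine mul_le_mul_of_nonneg_left (Real.rpow_le_rpow (by positivity) ?_ hγ.le) hL
  push_cast
  nlinarith

lemma entry_bound (hL : 0 ≤ L) (hγ : 0 < γ) (hA : Admissible Λ γ L A) (θ : Tor d n) (i j : Fin d) :
    |A (rho θ) (lftY θ) i j - A 0 0 i j| ≤ L * ((d + n * d : ℕ) : ℝ) ^ γ := by
  refine (hA.holder _ _ _ _ i j).trans ?_
  have h1 : ‖rho θ - 0‖ ≤ d * 1 := by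
    refine norm_le_card_mul _ _ fun i => ?_
    have := norm_circ_le (θ (Sum.inl i))
    have h0 := norm_nonneg (θ (Sum.inl i))
    simp only [rho, sub_zero]
    rw [abs_le]
    constructor <;> linarith
  have h2 : ∑ k, ‖lftY θ k - (0 : Fin n → Rd d) k‖ ≤ n * d := by
    have : ∀ k, ‖lftY θ k - (0 : Fin n → Rd d) k‖ ≤ d * 1 := by
      intro k
      refine norm_le_card_mul _ _ fun i => ?_
      have := lft_mem (θ (Sum.inr (k, i)))
      simp only [lftY, Pi.zero_apply, sub_zero]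
      rw [abs_le]
      constructor <;> linarith
    refine (Finset.sum_le_sum fun k _ => this k).trans ?_
    simp
  refine mul_le_mul_of_nonneg_left (Real.rpow_le_rpow (by positivity) ?_ hγ.le) hL
  push_cast
  linarith

lemma quad_single (M : Matrix (Fin d) (Fin d) ℝ) (i j : Fin d) :
    ∑ a, ∑ b, M a b * (EuclideanSpace.single i 1 : Rd d) b * (EuclideanSpace.single j 1 : Rd d) a
      = M j i := by
  simp

/-- The symmetric part of `A(0,0)` has entries bounded by `Λ⁻¹`. -/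
lemma sym_bound (hΛ : 0 < Λ) (hA : Admissible Λ γ L A) (i j : Fin d) :
    |(A 0 0 i j + A 0 0 j i) / 2| ≤ Λ⁻¹ := by
  set M := A 0 0 with hM
  set q : Rd d → ℝ := fun ξ => ∑ a, ∑ b, M a b * ξ b * ξ a with hq
  have hl : ∀ ξ, Λ * ‖ξ‖ ^ 2 ≤ q ξ := fun ξ => hA.elliptic_lower 0 0 ξ
  have hu : ∀ ξ, q ξ ≤ Λ⁻¹ * ‖ξ‖ ^ 2 := fun ξ => hA.elliptic_upper 0 0 ξ
  have hpar : ∀ ξ η : Rd d, ‖ξ + η‖ ^ 2 + ‖ξ - η‖ ^ 2 = 2 * (‖ξ‖ ^ 2 + ‖η‖ ^ 2) := by
    intro ξ η
    have := parallelogram_law_with_norm ℝ ξ η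
    nlinarith
  set e : Rd d := EuclideanSpace.single i 1 with he
  set f : Rd d := EuclideanSpace.single j 1 with hf
  have hne : ‖e‖ = 1 := by simp [he]
  have hnf : ‖f‖ = 1 := by simp [hf]
  have hpol : q (e + f) - q (e - f) = 2 * (M i j + M j i) := by
    have h1 := quad_single M i j
    have h2 := quad_single M j i
    rw [← he, ← hf] at h1
    rw [← he, ← hf] at h2
    have h3 : q (e + f) - q (e - f) = 2 * (∑ a, ∑ b, M a b * e b * f a)
        + 2 * (∑ a, ∑ b, M a b * f b * e a) := by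
      simp only [hq, Finset.mul_sum, ← Finset.sum_sub_distrib, ← Finset.sum_add_distrib]
      refine Finset.sum_congr rfl fun a _ => Finset.sum_congr rfl fun b _ => ?_
      simp only [PiLp.add_apply, PiLp.sub_apply]
      ring
    rw [h3, h1, h2]
    ring
  have h4 := hpar e f
  rw [hne, hnf] at h4
  have hi : 0 < Λ⁻¹ := by positivity
  have a1 := hu (e + f)
  have a2 := hl (e - f)
  have a3 := hl (e + f)
  have a4 := hu (e - f)
  have b1 : 0 ≤ ‖e + f‖ ^ 2 := by positivity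
  have b2 : 0 ≤ ‖e - f‖ ^ 2 := by positivity
  have b3 : 0 ≤ Λ * ‖e + f‖ ^ 2 := by positivity
  have b4 : 0 ≤ Λ * ‖e - f‖ ^ 2 := by positivity
  have c1 : ‖e + f‖ ^ 2 ≤ 4 := by linarith
  have c2 : ‖e - f‖ ^ 2 ≤ 4 := by linarith
  rw [abs_le]
  constructor
  · nlinarith
  · nlinarith

/-- The operator of a matrix: `⟨op M ξ, η⟩ = ∑ M_ij ξ_j η_i`. -/
noncomputable def op (M : Matrix (Fin d) (Fin d) ℝ) : Rd d →L[ℝ] Rd d :=
  ∑ i, ∑ j, M i j • (EuclideanSpace.proj (𝕜 := ℝ) j : Rd d →L[ℝ] ℝ).smulRight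
    (EuclideanSpace.single i 1 : Rd d)

lemma op_inner (M : Matrix (Fin d) (Fin d) ℝ) (ξ η : Rd d) :
    inner ℝ (op M ξ) η = ∑ i, ∑ j, M i j * ξ j * η i := by
  unfold op
  simp only [sum_apply, sum_inner, smul_apply,
    ContinuousLinearMap.smulRight_apply, inner_smul_left]
  refine Finset.sum_congr rfl fun i _ => Finset.sum_congr rfl fun j _ => ?_
  rw [EuclideanSpace.inner_single_left]
  simp
  ring

lemma op_norm_le (M : Matrix (Fin d) (Fin d) ℝ) (c : ℝ) (h : ∀ i j, |M i j| ≤ c) :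
    ‖op M‖ ≤ d * (d * c) := by
  unfold op
  refine (norm_sum_le _ _).trans ?_
  have : ∀ i : Fin d, ‖∑ j, M i j • (EuclideanSpace.proj (𝕜 := ℝ) j : Rd d →L[ℝ] ℝ).smulRight
      (EuclideanSpace.single i 1 : Rd d)‖ ≤ d * c := by
    intro i
    refine (norm_sum_le _ _).trans ((Finset.sum_le_sum fun j _ => ?_).trans
      (le_of_eq (by simp) : ∑ _j : Fin d, c ≤ d * c))
    rw [norm_smul, Real.norm_eq_abs]
    have h1 : ‖(EuclideanSpace.proj (𝕜 := ℝ) j : Rd d →L[ℝ] ℝ).smulRight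
        (EuclideanSpace.single i 1 : Rd d)‖ ≤ 1 := by
      refine ContinuousLinearMap.opNorm_le_bound _ zero_le_one fun x => ?_
      rw [ContinuousLinearMap.smulRight_apply, norm_smul]
      simp only [PiLp.proj_apply, one_mul]
      have := abs_coord_le x j
      simpa using this
    have h2 := h i j
    have h3 := abs_nonneg (M i j)
    calc |M i j| * _ ≤ |M i j| * 1 := by gcongr
      _ ≤ c := by linarith
  refine (Finset.sum_le_sum fun i _ => this i).trans ?_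
  simp

lemma op_sub (M M' : Matrix (Fin d) (Fin d) ℝ) : op (M - M') = op M - op M' := by
  refine ContinuousLinearMap.ext fun ξ => ext_inner_right ℝ fun η => ?_
  rw [sub_apply, inner_sub_left, op_inner, op_inner, op_inner, ← Finset.sum_sub_distrib]
  refine Finset.sum_congr rfl fun i _ => ?_
  rw [← Finset.sum_sub_distrib]
  refine Finset.sum_congr rfl fun j _ => ?_
  rw [Matrix.sub_apply]
  ring

lemma op_inner_self (M : Matrix (Fin d) (Fin d) ℝ) (h : ∀ i j, M i j = -M j i) (ξ : Rd d) :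
    inner ℝ (op M ξ) ξ = 0 := by
  rw [op_inner]
  have h3 : ∑ i, ∑ j, M i j * ξ j * ξ i = -∑ i, ∑ j, M i j * ξ j * ξ i := by
    conv_lhs => rw [Finset.sum_comm]
    rw [← Finset.sum_neg_distrib]
    refine Finset.sum_congr rfl fun i _ => ?_
    rw [← Finset.sum_neg_distrib]
    refine Finset.sum_congr rfl fun j _ => ?_
    rw [h j i]
    ring
  linarith

lemma op_antisymm (M : Matrix (Fin d) (Fin d) ℝ) (h : ∀ i j, M i j = -M j i) (ξ η : Rd d) :
    inner ℝ (op M ξ) η = -inner ℝ ξ (op M η) := by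
  rw [real_inner_comm (op M η) ξ, op_inner, op_inner, ← Finset.sum_neg_distrib]
  rw [Finset.sum_comm]
  refine Finset.sum_congr rfl fun i _ => ?_
  rw [← Finset.sum_neg_distrib]
  refine Finset.sum_congr rfl fun j _ => ?_
  rw [h j i]
  ring

/-- The homomorphism `x ↦ (x_i / 4; x_i / ε_k)`. -/
noncomputable def iotaHom (d n : ℕ) (ε : Fin n → ℝ) : Rd d →+ Tor d n where
  toFun x := Sum.elim (fun i => ((x i / 4 : ℝ) : AddCircle (1 : ℝ)))
    (fun p => (((ε p.1)⁻¹ * x p.2 : ℝ) : AddCircle (1 : ℝ)))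
  map_zero' := by
    ext p
    rcases p with i | p <;> simp
  map_add' x y := by
    funext p
    rcases p with i | p
    · simp only [Sum.elim_inl, PiLp.add_apply, Pi.add_apply, add_div, AddCircle.coe_add]
    · simp only [Sum.elim_inr, PiLp.add_apply, Pi.add_apply, mul_add, AddCircle.coe_add]

lemma iotaHom_inl (ε : Fin n → ℝ) (x : Rd d) (i : Fin d) :
    iotaHom d n ε x (Sum.inl i) = ((x i / 4 : ℝ) : AddCircle (1 : ℝ)) := rfl

lemma iotaHom_inr (ε : Fin n → ℝ) (x : Rd d) (p : Fin n × Fin d) :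
    iotaHom d n ε x (Sum.inr p) = (((ε p.1)⁻¹ * x p.2 : ℝ) : AddCircle (1 : ℝ)) := rfl

lemma continuous_iotaHom (ε : Fin n → ℝ) : Continuous (iotaHom d n ε) := by
  refine continuous_pi fun p => ?_
  rcases p with i | p
  · simp only [iotaHom_inl]
    refine (AddCircle.continuous_mk' 1).comp ?_
    fun_prop
  · simp only [iotaHom_inr]
    refine (AddCircle.continuous_mk' 1).comp ?_
    fun_prop

/-- The base point `(1/4, …, 1/4; 0)`. -/
noncomputable def base (d n : ℕ) : Tor d n :=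
  Sum.elim (fun _ => ((1 / 4 : ℝ) : AddCircle (1 : ℝ))) (fun _ => 0)

lemma rho_leaf (ε : Fin n → ℝ) (x : Rd d) (hx : ‖x‖ < 1) :
    rho (base d n + iotaHom d n ε x) = x := by
  ext i
  have h1 : |x i| < 1 := (abs_coord_le x i).trans_lt hx
  rw [abs_lt] at h1
  simp only [rho, Pi.add_apply, base, Sum.elim_inl, iotaHom_inl, ← AddCircle.coe_add]
  have h2 : ‖((1 / 4 + x i / 4 : ℝ) : AddCircle (1 : ℝ))‖ = 1 / 4 + x i / 4 := by
    rw [(AddCircle.norm_coe_eq_abs_iff (1 : ℝ) one_ne_zero).2]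
    · rw [abs_of_pos (by linarith)]
    · rw [abs_of_pos (by linarith)]
      norm_num
      linarith
  rw [h2]
  ring

end Pool.Agent.Lib.MP_a73848.TorT

namespace Pool.Agent.Lib.MP_a73848

open TorT

/-- TASK T (reduction to quasi-periodic coefficients): on the unit ball, an admissible oscillating
coefficient is, up to a constant antisymmetric matrix, of the form `B (θ₀ + ι x)`. -/
theorem torus_reduction (d n : ℕ) {Λ γ L : ℝ} (hΛ : 0 < Λ) (hγ : 0 < γ) (_hγ1 : γ ≤ 1) (hL : 0 ≤ L) :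
    ∃ K lam L' : ℝ, 0 < lam ∧ 0 ≤ L' ∧ ∀ A : Rd d → (Fin n → Rd d) → Matrix (Fin d) (Fin d) ℝ,
      Admissible Λ γ L A → ∀ ε : Fin n → ℝ,
      ∃ (B : Tor d n → Rd d →L[ℝ] Rd d) (S : Rd d →L[ℝ] Rd d) (ι : Rd d →+ Tor d n) (θ₀ : Tor d n),
        Adm K lam L' γ B ∧ Continuous ι ∧ (∀ ξ η, inner ℝ (S ξ) η = -inner ℝ ξ (S η)) ∧
        ∀ x ∈ ball (0 : Rd d) 1, ∀ ξ η : Rd d,
          ∑ i, ∑ j, osc A ε x i j * ξ j * η i = inner ℝ (B (θ₀ + ι x) ξ) η + inner ℝ (S ξ) η := by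
  refine ⟨d * (d * (L * ((d + n * d : ℕ) : ℝ) ^ γ + Λ⁻¹)), Λ,
    d * (d * (L * ((4 * d + n * d : ℕ) : ℝ) ^ γ)), hΛ, by positivity, fun A hA ε => ?_⟩
  set K0 : Matrix (Fin d) (Fin d) ℝ := fun i j => (A 0 0 i j - A 0 0 j i) / 2 with hK0
  have hK0a : ∀ i j, K0 i j = -K0 j i := fun i j => by simp only [hK0]; ring
  refine ⟨fun θ => op (A (rho θ) (lftY θ) - K0), op K0, iotaHom d n ε, base d n,
    ⟨fun θ => ?_, fun θ ξ => ?_, fun θ θ' => ?_⟩, continuous_iotaHom ε,
    fun ξ η => op_antisymm K0 hK0a ξ η, fun x hx ξ η => ?_⟩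
  · refine op_norm_le _ _ fun i j => ?_
    have h1 := entry_bound hL hγ hA θ i j
    have h2 := sym_bound hΛ hA i j
    have h3 : (A (rho θ) (lftY θ) - K0) i j
        = (A (rho θ) (lftY θ) i j - A 0 0 i j) + (A 0 0 i j + A 0 0 j i) / 2 := by
      simp only [Matrix.sub_apply, hK0]
      ring
    rw [h3]
    exact (abs_add_le _ _).trans (add_le_add h1 h2)
  · rw [op_sub, sub_apply, inner_sub_left, op_inner_self K0 hK0a, sub_zero,
      op_inner]
    exact hA.elliptic_lower _ _ ξ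
  · have h1 : op (A (rho θ) (lftY θ) - K0) - op (A (rho θ') (lftY θ') - K0)
        = op (A (rho θ) (lftY θ) - A (rho θ') (lftY θ')) := by
      rw [op_sub, op_sub, op_sub]
      abel
    simp only [h1]
    refine (op_norm_le _ (L * (((4 * d + n * d : ℕ) : ℝ) * ‖θ - θ'‖) ^ γ) fun i j => ?_).trans ?_
    · exact entry_holder hL hγ hA θ θ' i j
    · rw [Real.mul_rpow (by positivity) (norm_nonneg _)]
      exact le_of_eq (by ring)
  · rw [mem_ball_zero_iff] at hx
    change _ = inner ℝ (op (A (rho (base d n + iotaHom d n ε x))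
      (lftY (base d n + iotaHom d n ε x)) - K0) ξ) η + inner ℝ (op K0 ξ) η
    rw [op_sub, sub_apply, inner_sub_left, sub_add_cancel, op_inner,
      rho_leaf ε x hx]
    have h1 : A x (lftY (base d n + iotaHom d n ε x)) = osc A ε x := by
      unfold osc
      refine per hA _ _ _ fun k i => ?_
      simp only [lftY, coe_lft, Pi.add_apply, base, Sum.elim_inr, iotaHom_inr, zero_add,
        PiLp.smul_apply, smul_eq_mul]
    rw [h1]

end Pool.Agent.Lib.MP_a73848
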