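import Mathlib
import Pool.Agent.Lib.MP_a73848.Core
import Pool.Agent.Lib.MP_a73848.RV
import Pool.Agent.Lib.MP_a73848.TorusT
import Pool.Agent.Lib.MP_a73848.AntisymT
import Pool.Agent.Lib.MP_a73848.TaskH

/-!
# MP_a73848_an: the uniform Lipschitz estimate
-/

set_option autoImplicit false
set_option linter.unusedSectionVars false

open MeasureTheory Metric Filter Topology Set Module
open scoped ContDiff ENNReal NNReal

namespace Pool.Agent.Lib.MP_a73848

theorem tor_lower (d n : ℕ) : BallLower (volume : Measure (Tor d n)) ((d + n * d : ℕ) : ℝ) := by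
  refine ⟨1, one_ne_zero, by simp, fun δ h0 h1 => ?_⟩
  have h2 : (volume : Measure (Tor d n)) (ball 0 (δ / 2)) ≤ volume (ball (0 : Tor d n) δ) :=
    measure_mono (ball_subset_ball (by linarith))
  refine le_trans (le_of_eq ?_) h2
  rw [tor_ball d n (by linarith) (by linarith), one_mul, ENNReal.rpow_natCast,
    ENNReal.ofReal_pow (by linarith)]
  congr 2
  ring

theorem tor_upper (d n : ℕ) : BallUpper (volume : Measure (Tor d n)) ((d + n * d : ℕ) : ℝ) := by
  set m := d + n * d with hm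
  have htop : (volume : Measure (Tor d n)) univ ≠ ⊤ := measure_ne_top _ _
  refine ⟨2 ^ m + volume (univ : Set (Tor d n)) * 2 ^ m, ?_, fun δ h0 h1 => ?_⟩
  · exact ENNReal.add_ne_top.mpr ⟨ENNReal.pow_ne_top (by simp),
      ENNReal.mul_ne_top htop (ENNReal.pow_ne_top (by simp))⟩
  · rw [ENNReal.rpow_natCast, add_mul]
    by_cases h2 : δ ≤ 1 / 2
    · rw [tor_ball d n h0 h2, ENNReal.ofReal_pow (by linarith), ENNReal.ofReal_mul (by norm_num),
        mul_pow]
      refine le_trans (le_of_eq ?_) le_self_add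
      simp [hm]
    · refine le_trans ?_ le_add_self
      refine le_trans (measure_mono (subset_univ _)) ?_
      rw [mul_assoc, ← mul_pow]
      refine le_mul_of_one_le_right' ?_
      refine one_le_pow_of_one_le' ?_ _
      have h3 : (2 : ℝ≥0∞) * ENNReal.ofReal δ = ENNReal.ofReal (2 * δ) := by
        rw [ENNReal.ofReal_mul (by norm_num)]; simp
      rw [h3, ENNReal.one_le_ofReal]
      push Not at h2
      linarith

/-- gradient bound for the class of lifted coefficients on the torus -/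
theorem torus_core (d n : ℕ) (hd : 1 ≤ d) {K lam L gam : ℝ} (hlam : 0 < lam) (hgam : 0 < gam)
    (hgam1 : gam ≤ 1) (hL : 0 ≤ L) :
    ∃ N : ℝ≥0, ∀ A : Tor d n → Rd d →L[ℝ] Rd d, Adm K lam L gam A →
      ∀ ι : Rd d →+ Tor d n, Continuous ι → ∀ (θ : Tor d n) (g : Rd d → Rd d),
        LocSol (leaf A ι θ) (ball 0 (3 / 4)) g →
        ∀ᵐ x ∂(volume.restrict (ball (0 : Rd d) (1 / 2))),
          ‖g x‖ₑ ≤ N * (∫⁻ x in ball (0 : Rd d) (3 / 4), ‖g x‖ₑ ^ 2) ^ (1 / 2 : ℝ) := by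
  have : NeZero d := ⟨by omega⟩
  have hnt : Nontrivial (Rd d) := inferInstance
  have hRV : RVProp (Rd d) := fun σ s hσ hσs C₀ N => rv (volume : Measure (Rd d)) hσ hσs C₀ N
  set Md : ℝ := ((d + n * d : ℕ) : ℝ) with hMd
  have hMd0 : 0 ≤ Md := Nat.cast_nonneg _
  set D : ℝ := (finrank ℝ (Rd d) : ℝ) + Md with hD
  have hD0 : 0 < D := by
    have : (0 : ℝ) < (finrank ℝ (Rd d) : ℝ) := by
      exact_mod_cast finrank_pos
    linarith
  obtain ⟨q, hq2, hDq, hH, hR⟩ := exists_exponent (E := Rd d) hRV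
    (volume : Measure (Tor d n)) hMd0 (tor_lower d n) hD hD0 (K := K) hlam hgam hgam1 hL
  obtain ⟨N, hN⟩ := linf (E := Rd d) (volume : Measure (Tor d n)) hMd0 (tor_lower d n)
    (tor_upper d n) hD hq2 hlam hgam hgam1 hL hDq hH hR (κ := 3 / 2) (by norm_num)
  have hct : ((rd (Rd d) (1 / 2))⁻¹) ^ (1 / 2 : ℝ) ≠ ⊤ :=
    ENNReal.rpow_ne_top_of_nonneg (by norm_num) (ENNReal.inv_ne_top.mpr (rd_pos (by norm_num)))
  have hNt : (N : ℝ≥0∞) * ((rd (Rd d) (1 / 2))⁻¹) ^ (1 / 2 : ℝ) ≠ ⊤ :=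
    ENNReal.mul_ne_top (by simp) hct
  refine ⟨((N : ℝ≥0∞) * ((rd (Rd d) (1 / 2))⁻¹) ^ (1 / 2 : ℝ)).toNNReal,
    fun A hA ι hι θ g hg => ?_⟩
  rw [ENNReal.coe_toNNReal hNt]
  have e34 : (3 : ℝ) / 2 * (1 / 2) = 3 / 4 := by norm_num
  have h1 := grad_bound (E := Rd d) (κ := 3 / 2) (by norm_num) hN hA hι θ 0
    (r := 1 / 2) (by norm_num) (g := g) (by rw [e34]; exact hg)
  rw [e34] at h1
  filter_upwards [h1] with x hx
  refine hx.trans (le_of_eq ?_)
  rw [ENNReal.mul_rpow_of_nonneg _ _ (by norm_num), mul_assoc]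
  congr 3
  refine lintegral_congr fun y => ?_
  exact ENNReal.rpow_ofNat _ _

theorem integrable_inner_test {d : ℕ} {g : Rd d → Rd d}
    (hg : MemLp g 2 (volume.restrict (ball (0 : Rd d) 1))) {b : Rd d → Rd d →L[ℝ] Rd d} {K : ℝ}
    (hb : StronglyMeasurable b) (hK : ∀ x, ‖b x‖ ≤ K) {φ : Rd d → ℝ} (hφ : TestIn φ) :
    Integrable (fun x => (inner ℝ (b x (g x)) (gr φ x) : ℝ))
      (volume.restrict (ball (0 : Rd d) 1)) := by
  have hT : Test φ := ⟨hφ.smooth, hφ.compact⟩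
  have h1 : MemLp (gr φ) 2 (volume.restrict (ball (0 : Rd d) 1)) := (hT.gr_memLp 2).restrict _
  have h2 : MemLp (fun x => b x (g x)) 2 (volume.restrict (ball (0 : Rd d) 1)) := by
    refine MemLp.of_le_mul (c := K) hg ?_ (Eventually.of_forall fun x => ?_)
    · exact (isBoundedBilinearMap_apply (𝕜 := ℝ) (E := Rd d) (F := Rd d)).continuous.comp_aestronglyMeasurable
        (hb.aestronglyMeasurable.prodMk hg.1)
    · exact ((b x).le_opNorm _).trans (mul_le_mul_of_nonneg_right (hK x) (norm_nonneg _))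
  have h3 : Integrable (fun x => ‖b x (g x)‖ * ‖gr φ x‖)
      (volume.restrict (ball (0 : Rd d) 1)) :=
    MemLp.integrable_mul (p := 2) (q := 2) h2.norm h1.norm
  refine h3.mono (h2.1.inner h1.1) (Eventually.of_forall fun x => ?_)
  rw [Real.norm_eq_abs, Real.norm_eq_abs, abs_of_nonneg (mul_nonneg (norm_nonneg _)
    (norm_nonneg _))]
  exact abs_real_inner_le_norm _ _

/-- The uniform Lipschitz estimate. -/
theorem uniform_lipschitz (d n : ℕ) (hd : 1 ≤ d) {Λ γ L : ℝ} (hΛ : 0 < Λ) (hγ : 0 < γ)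
    (hγ1 : γ ≤ 1) (hL : 0 ≤ L) :
    ∃ C : ℝ, ∀ A : Rd d → (Fin n → Rd d) → Matrix (Fin d) (Fin d) ℝ, Admissible Λ γ L A →
      ∀ ε : Fin n → ℝ, ∀ u : Rd d → ℝ, IsWeakSolution (osc A ε) u →
        ∃ v : Rd d → ℝ, (∀ᵐ x ∂(volume.restrict (ball (0 : Rd d) 1)), v x = u x) ∧
          ∀ x ∈ ball (0 : Rd d) (1 / 2), ∀ y ∈ ball (0 : Rd d) (1 / 2),
            |v x - v y| ≤ C * ‖x - y‖ * Real.sqrt (∫ x in ball (0 : Rd d) 1, u x ^ 2) := by
  obtain ⟨K, lam, L', hlam, hL', hred⟩ := torus_reduction d n hΛ hγ hγ1 hL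
  obtain ⟨N, hN⟩ := torus_core d n hd (K := K) hlam hγ hγ1 hL'
  obtain ⟨C, hC⟩ := weak_of_core d (K := K) hlam N
  refine ⟨C, fun A hA ε u hu => ?_⟩
  obtain ⟨B, S, ι, θ₀, hB, hι, hS, hosc⟩ := hred A hA ε
  obtain ⟨g, hg, heq⟩ := hu
  have hco := hB.coef hγ hι θ₀
  refine hC (leaf B ι θ₀) hco.meas hco.bound hco.ell (fun g' hg' => hN B hB ι hι θ₀ g' hg')
    u g hg fun φ hφ => ?_
  have h1 := heq φ hφ
  have h2 := antisym_null hg S hS φ hφ
  have i1 := integrable_inner_test hg.memLp_grad hco.meas hco.bound hφ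
  have i2 := integrable_inner_test hg.memLp_grad (b := fun _ => S) (K := ‖S‖)
    stronglyMeasurable_const (fun _ => le_rfl) hφ
  have h3 : ∫ x in ball (0 : Rd d) 1, ∑ i, ∑ j, osc A ε x i j * g x j * pd i φ x =
      ∫ x in ball (0 : Rd d) 1, (inner ℝ (leaf B ι θ₀ x (g x)) (gr φ x) +
        inner ℝ (S (g x)) (gr φ x)) := by
    refine setIntegral_congr_fun measurableSet_ball fun x hx => ?_
    simp only
    rw [leaf, ← hosc x hx (g x) (gr φ x)]
    refine Finset.sum_congr rfl fun i _ => Finset.sum_congr rfl fun j _ => ?_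
    congr 1
    have h4 := TorT.inner_gr φ x (EuclideanSpace.single i 1)
    rw [pd, ← h4, EuclideanSpace.inner_single_left]
    simp
  rw [h3, integral_add i1 i2, h2, add_zero] at h1
  exact h1

end Pool.Agent.Lib.MP_a73848
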